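import Pool.Agent.H24.GK.PartG

/-!
# JOB GK-29: the base of a graph

`Bc H v`: the component of `v` has a branch vertex. `CovC H v F`: `F` is a cover on the component of `v`. `Cvs H v v'`: the component of
`v` covers the component of `v'`. `Base H ι`: the range of the injective map `ι` is a union of components with branch vertices,
every component with a branch vertex covers one of them, and none of them covers another one.

`cvs_refl`, `cvs_trans`: `F' ∘ F`; `F` maps walks to walks, and `H.Reachable v' (F v)`. `cvs_reach`: `Cvs` depends only on the components.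
`exists_base`: consider the sets `S ⊆ {v | Bc H v}` closed under adjacency such that every `v` with `Bc H v` has `u ∈ S` with
`Cvs H v u`; `{v | Bc H v}` is such a set (`cvs_refl`). Let `S` be one with the smallest number of elements, `m` its number of elements
and `ι` an enumeration (`Finset.orderEmbOfFin`, or an equivalence `Fin m ≃ S`). If `u, u' ∈ S`, `Cvs H u u'` and not
`H.Reachable u u'` then `S \ {w | H.Reachable u w}` is also such a set: if `Cvs H v w` with `w` in the component of `u` then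
`Cvs H v u'` (`cvs_reach`, `cvs_trans`), and `u'` is not removed; contradiction.
`base_gd`: a branch vertex `b` of `H` with `H.Reachable (ι u) b` is in the range of `ι`; `pt_br`, `pt_reach`.
`base_red`: let `F` be a cover of `H' = H.comap ι`; define `F₁ (ι u) = ι (F u)` and arbitrary elsewhere; `CovC H (ι v) F₁` by `pt_nb`
(all vertices reachable from `ι v` are in the range); so `Cvs H (ι v) (ι (F v))`, `Base.red`, `pt_reach`.
`base_cov`: for every component `c` (`H.ConnectedComponent`) of vertices with `Bc` let `r` be a vertex of it (`Quot.out`), and let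
`F_c` be from `Base.cov` for `r`: `CovC H r F_c` and `H.Reachable (ι u) (F_c r)`. So `F_c w` is in the range of `ι` for all `w` of the
component (`F_c` maps walks to walks). Let `Φ w = F_c w` for the component `c` of `w`: `Φ` maps the neighbourhood of every `w` with
`Bc H w` bijectively to the neighbourhood of `Φ w`. `Φ ∘ F : G → H` is a cover with values in the range of `ι`; `pt_nb`.
-/

namespace Pool.Agent.H24.GK

open Pool.Agent.H24.GC Pool.Agent.H24.GG Pool.Agent.H24.GJ

variable {A V U : Type} {G : SimpleGraph A} {H : SimpleGraph V} {ι : U → V}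

/-- the component of `v` has a branch vertex -/
def Bc (H : SimpleGraph V) (v : V) : Prop := ∃ b, Br H b ∧ H.Reachable v b

/-- `F` is a cover on the component of `v` -/
def CovC (H : SimpleGraph V) (v : V) (F : V → V) : Prop :=
  ∀ w, H.Reachable v w → Set.BijOn F (H.neighborSet w) (H.neighborSet (F w))

/-- the component of `v` covers the component of `v'` -/
def Cvs (H : SimpleGraph V) (v v' : V) : Prop := ∃ F : V → V, CovC H v F ∧ H.Reachable v' (F v)

/-- the range of `ι` is a base -/
structure Base (H : SimpleGraph V) (ι : U → V) : Prop where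
  pt : Pt H ι
  bc : ∀ u, Bc H (ι u)
  cov : ∀ v, Bc H v → ∃ u, Cvs H v (ι u)
  red : ∀ u u', Cvs H (ι u) (ι u') → H.Reachable (ι u) (ι u')

theorem baseg_map {v w : V} {F : V → V} (hF : CovC H v F) (h : H.Reachable v w) :
    H.Reachable (F v) (F w) := by
  obtain ⟨p⟩ := h
  induction p with
  | nil => exact SimpleGraph.Reachable.refl _
  | cons hadj p ih =>
    have h1 := (hF _ (SimpleGraph.Reachable.refl _)).mapsTo hadj
    have h2 := ih (fun x hx => hF x (hadj.reachable.trans hx))
    exact (SimpleGraph.Adj.reachable h1).trans h2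

theorem baseg_range (h : Pt H ι) {u : U} {b : V} (hr : H.Reachable (ι u) b) :
    ∃ u', ι u' = b := by
  obtain ⟨p⟩ := hr
  generalize hx : ι u = x at p
  induction p generalizing u with
  | nil => exact ⟨u, hx⟩
  | cons hadj p ih =>
    obtain ⟨b', hb'⟩ := h.cl u _ (by rw [hx]; exact hadj)
    exact ih hb'

theorem baseg_bij (h : Pt H ι) {F : A → U} {F1 : A → V} (h1 : ∀ a, ι (F a) = F1 a) {a : A}
    (hF : Set.BijOn F1 (G.neighborSet a) (H.neighborSet (F1 a))) :
    Set.BijOn F (G.neighborSet a) ((H.comap ι).neighborSet (F a)) := by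
  refine ⟨fun x hx => ?_, fun x hx y hy hxy => ?_, fun y hy => ?_⟩
  · have := hF.mapsTo hx
    rw [← h1, ← h1] at this
    exact this
  · apply hF.injOn hx hy
    rw [← h1, ← h1, hxy]
  · have hy' : ι y ∈ H.neighborSet (F1 a) := by
      rw [← h1]
      exact hy
    obtain ⟨x, hx, hxy⟩ := hF.surjOn hy'
    refine ⟨x, hx, h.inj ?_⟩
    rw [h1, hxy]

theorem cvs_refl (v : V) : Cvs H v v := by
  exact ⟨id, fun w _ => Set.bijOn_id _, SimpleGraph.Reachable.refl _⟩

theorem cvs_trans {v v' v'' : V} (h : Cvs H v v') (h' : Cvs H v' v'') : Cvs H v v'' := by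
  obtain ⟨F, hF, hr⟩ := h
  obtain ⟨F', hF', hr'⟩ := h'
  refine ⟨F' ∘ F, fun w hw => ?_, ?_⟩
  · have h1 := baseg_map hF hw
    exact (hF' (F w) (hr.trans h1)).comp (hF w hw)
  · exact hr'.trans (baseg_map hF' hr)

theorem cvs_reach {u v u' v' : V} (h : Cvs H u u') (h1 : H.Reachable u v)
    (h2 : H.Reachable u' v') : Cvs H v v' := by
  obtain ⟨F, hF, hr⟩ := h
  refine ⟨F, fun w hw => hF w (h1.trans hw), ?_⟩
  exact h2.symm.trans (hr.trans (baseg_map hF h1))

theorem exists_base {n : ℕ} (H : SimpleGraph (Fin n)) :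
    ∃ (m : ℕ) (ι : Fin m → Fin n), Base H ι := by
  classical
  let P : Set (Set (Fin n)) := {S | (∀ v ∈ S, Bc H v) ∧ (∀ v ∈ S, ∀ w, H.Adj v w → w ∈ S) ∧
    (∀ v, Bc H v → ∃ u ∈ S, Cvs H v u)}
  have hne : P.Nonempty := by
    refine ⟨{v | Bc H v}, fun v hv => hv, ?_, fun v hv => ⟨v, hv, cvs_refl v⟩⟩
    rintro v ⟨b, hb, hvb⟩ w hw
    exact ⟨b, hb, (SimpleGraph.Adj.reachable hw).symm.trans hvb⟩
  obtain ⟨S, hS, hmin⟩ := WellFounded.has_min (measure (fun S : Set (Fin n) => S.ncard)).wf P hne
  obtain ⟨hS1, hS2, hS3⟩ := hS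
  have hcl : ∀ v ∈ S, ∀ w, H.Reachable v w → w ∈ S := by
    rintro v hv w ⟨p⟩
    induction p with
    | nil => exact hv
    | cons hadj p ih => exact ih (hS2 _ hv _ hadj)
  haveI : Fintype S := Fintype.ofFinite S
  let e := (Fintype.equivFin S).symm
  refine ⟨Fintype.card S, fun i => (e i : Fin n), ⟨⟨?_, ?_⟩, ?_, ?_, ?_⟩⟩
  · exact Subtype.val_injective.comp e.injective
  · intro b a hab
    refine ⟨e.symm ⟨a, hS2 _ (e b).2 _ hab⟩, ?_⟩
    simp
  · intro u
    exact hS1 _ (e u).2
  · intro v hv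
    obtain ⟨u, hu, hc⟩ := hS3 v hv
    refine ⟨e.symm ⟨u, hu⟩, ?_⟩
    simpa using hc
  · intro u u' hc
    by_contra hcon
    apply hmin (S \ {w | H.Reachable (e u : Fin n) w}) ?_ ?_
    · refine ⟨fun v hv => hS1 v hv.1, fun v hv w hw => ⟨hS2 v hv.1 w hw, fun hr => hv.2 ?_⟩, ?_⟩
      · exact SimpleGraph.Reachable.trans hr (SimpleGraph.Adj.reachable hw).symm
      · intro v hv
        obtain ⟨w, hw, hvw⟩ := hS3 v hv
        by_cases hr : H.Reachable (e u : Fin n) w
        · exact ⟨(e u' : Fin n), ⟨(e u').2, hcon⟩,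
            cvs_trans hvw (cvs_reach hc hr (SimpleGraph.Reachable.refl _))⟩
        · exact ⟨w, ⟨hw, hr⟩, hvw⟩
    · apply Set.ncard_lt_ncard _ (Set.toFinite S)
      refine ⟨Set.diff_subset, fun hsub => ?_⟩
      exact (hsub (e u).2).2 (SimpleGraph.Reachable.refl _)

theorem base_gd (h : Base H ι) : Gd (H.comap ι) := by
  intro v
  obtain ⟨b, hb, hr⟩ := h.bc v
  obtain ⟨u, rfl⟩ := baseg_range h.pt hr
  exact ⟨u, (pt_br h.pt u).2 hb, (pt_reach h.pt v u).2 hr⟩

theorem base_red (h : Base H ι) {F : U → U} (hF : IsCover (H.comap ι) (H.comap ι) F) (v : U) :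
    (H.comap ι).Reachable v (F v) := by
  classical
  rw [pt_reach h.pt]
  apply h.red
  let F1 : V → V := fun x => if hx : ∃ u, ι u = x then ι (F hx.choose) else x
  have h1 : ∀ u, F1 (ι u) = ι (F u) := by
    intro u
    have hx : ∃ u', ι u' = ι u := ⟨u, rfl⟩
    have h2 : hx.choose = u := h.pt.inj hx.choose_spec
    simp only [F1, dif_pos hx, h2]
  refine ⟨F1, fun w hw => ?_, ?_⟩
  · obtain ⟨u, rfl⟩ := baseg_range h.pt hw
    have e1 := pt_nb h.pt u
    have e2 := hF u
    have e3 := pt_nb h.pt (F u)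
    rw [h1]
    refine ⟨fun x hx => ?_, fun x hx y hy hxy => ?_, fun z hz => ?_⟩
    · obtain ⟨x', hx', rfl⟩ := e1.surjOn hx
      rw [h1]
      exact e3.mapsTo (e2.mapsTo hx')
    · obtain ⟨x', hx', rfl⟩ := e1.surjOn hx
      obtain ⟨y', hy', rfl⟩ := e1.surjOn hy
      rw [h1, h1] at hxy
      rw [e2.injOn hx' hy' (h.pt.inj hxy)]
    · obtain ⟨z', hz', rfl⟩ := e3.surjOn hz
      obtain ⟨y', hy', rfl⟩ := e2.surjOn hz'
      exact ⟨ι y', e1.mapsTo hy', h1 y'⟩
  · rw [h1]

theorem base_cov (h : Base H ι) {F : A → V} (hF : IsCover G H F) (hB : ∀ a, Bc H (F a)) :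
    Covers G (H.comap ι) := by
  classical
  have hex : ∀ c : H.ConnectedComponent, ∃ Fc : V → V, Bc H c.out →
      CovC H c.out Fc ∧ ∃ u, H.Reachable (ι u) (Fc c.out) := by
    intro c
    by_cases hc : Bc H c.out
    · obtain ⟨u, Fc, h1, h2⟩ := h.cov _ hc
      exact ⟨Fc, fun _ => ⟨h1, u, h2⟩⟩
    · exact ⟨id, fun hc' => absurd hc' hc⟩
  choose Fc hFc using hex
  let Φ : V → V := fun w => Fc (H.connectedComponentMk w) w
  have hout : ∀ w, H.Reachable (H.connectedComponentMk w).out w := by
    intro w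
    apply SimpleGraph.ConnectedComponent.exact
    exact Quot.out_eq _
  have hbc : ∀ w, Bc H w → Bc H (H.connectedComponentMk w).out := by
    rintro w ⟨b, hb, hr⟩
    exact ⟨b, hb, (hout w).trans hr⟩
  have hΦ : ∀ w, Bc H w → Set.BijOn Φ (H.neighborSet w) (H.neighborSet (Φ w)) := by
    intro w hw
    have h1 := (hFc _ (hbc w hw)).1 w (hout w)
    apply h1.congr
    intro x hx
    have hx' : H.connectedComponentMk x = H.connectedComponentMk w :=
      SimpleGraph.ConnectedComponent.sound (SimpleGraph.Adj.reachable hx).symm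
    simp only [Φ, hx']
  have hrg : ∀ w, Bc H w → ∃ u, ι u = Φ w := by
    intro w hw
    obtain ⟨h1, u, h2⟩ := hFc _ (hbc w hw)
    exact baseg_range h.pt (h2.trans (baseg_map h1 (hout w)))
  choose F'' hF'' using fun a => hrg (F a) (hB a)
  refine ⟨F'', fun a => ?_⟩
  exact baseg_bij (F1 := fun a => Φ (F a)) h.pt hF'' ((hΦ (F a) (hB a)).comp (hF a))

end Pool.Agent.H24.GK
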