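import Pool.Agent.H24.GK.RingC

/-!
# JOB GK-6: beads

Write `E q = F q '' A`, `a q = (F q (tl d₀), F (q + 1) (hd d₀))`; `|E q| = |A|` (`inj`). By `oc`: the darts which leave `E q` are those with
the values `a q` (type `ty d₀`, they start at `F q (tl d₀)`) and those with the value `a (q - 1)` reversed (type `bar (ty d₀)`, they
start at `F q (hd d₀)` and lead to `F (q - 1) (tl d₀)`); there are two of them, `(a q).2`, `(a (q - 1)).1 ∉ E q`. The `a q` are not
bridges (`va`). All `E q ⊆ B`.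

`beads_int`. For `x ∈ A`, `y = F q x`: the number of the darts of type `t` at `y` which lead to `z` is the number of the darts `d` of
type `t` at `x` with `bev q d = z` (`st`); for `z ∈ E q` these are different from `d₀`, `rv d₀` (`bev q d₀ = (a q).2`,
`bev q (rv d₀) = (a (q - 1)).1` are not in `E q`), so `bev q d = F q (hd d)`. Sum over the `x ∈ A` with `F q x ∈ X`, all `t`, all
`z ∈ E q \ X` (`F q` is injective on `A`; `hd d ∈ A`).

`beads_consec`. Suppose `X = E q ∩ E (q + 1)` is not empty. A dart `d ∈ bd L X` leaves `E q` or `E (q + 1)`; it does not start at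
`(a q).1 = F q (tl d₀) ∉ E (q + 1)`, and not at `(a q).2 = F (q + 1) (hd d₀) ∉ E q`. So it is one of the darts with the value
`a (q - 1)` reversed in `bd L (E q)`, or one of those with the value `a (q + 1)` in `bd L (E (q + 1))`. There is at most one of the
first kind: `bd L (E q)` has two elements and one of them starts at `(a q).1` with the value `a q` (there is a dart with the value
`a q` by `st` for `x = tl d₀`, `d = d₀`), which is not in `bd L X`. In the same way at most one of the second kind. `X` is not `B`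
(`(a q).1 ∉ X`), so `bd L X` is not empty (`hB.cn`), and as its elements are not bridges (`va`) it has at least two elements
(`CutV 2`; `X` separates the ends). So it has exactly one of each kind: `(a (q - 1)).2 = F q (hd d₀) ∈ X`.
Let `X' = {x ∈ A | F q x ∈ X}`: `hd d₀ ∈ X'`, `tl d₀ ∉ X'`; so `tl d₀ ≠ hd d₀`, and `Cut L 3 (hd d₀) {tl d₀}` (`cut_symm`):
`3 ≤ (bd L X').ncard`, `bd L X'` contains `rv d₀`, not `d₀`, so at least two elements of `bd L X'` are not `d₀`, `rv d₀`. By `beads_int` at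
least two darts lead from `X` to `E q \ X`. They are in `bd L X`, but the one of the first kind leads to the outside of `E q`,
contradiction.

`beads_dich`. Suppose `X = E i ∩ E j` is not empty, `E i ≠ E j`. By `|E i| = |E j|`: `X ≠ E i`, `X ≠ E j`. (★) both elements of `bd L (E j)`
lead from `X` to `E i \ X`. Proof: let `X' = {x ∈ A | F i x ∈ X}`, a nonempty proper subset of `A`. The darts from `X` to `E i \ X` leave
`E j`, so it suffices that there are at least two of them. By `beads_int` their number is the number of the elements of `bd L X'`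
different from `d₀`, `rv d₀`. If `X'` contains exactly one of `tl d₀`, `hd d₀`: `3 ≤ (bd L X').ncard` (`Cut 3`, `cut_symm`, `bd_compl`), and it
contains only one of `d₀`, `rv d₀`. Otherwise `d₀`, `rv d₀ ∉ bd L X'`, `bd L X'` is not empty (`hA.cn`). If `bd L X' = {d}` then `d` is a
bridge, so `(F i (tl d), F i (hd d))` is not `CutV 2` (`br`); but `F i (tl d) ∈ X`, `F i (hd d) ∈ E i \ X`, and there is a dart of `L`
between them (`st` for `x = tl d`), it leaves `E j`, so its value is `a j` or `a (j - 1)` reversed, which are not bridges (`va`, `vb`,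
`cut_symm`), contradiction.
By (★) for `(i, j)` and `(j, i)`: no dart leaves `E i ∪ E j` (it would be in `bd L (E i)` or `bd L (E j)`), so `E i ∪ E j = B` (`hB.cn`).
`E (i + 1)` is disjoint from `E i` (`beads_consec`), so it is contained in `E j \ X`, a proper subset of `E j`, contradiction to
`|E (i + 1)| = |E j|`.
-/

namespace Pool.Agent.H24.GK

open Pool.Agent.H24.GG Pool.Agent.H24.GH Pool.Agent.H24.GI

variable {V D T K : Type} {L : LS V D T K} [Finite V] [Finite D] {A B : Set V} {d₀ : D}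
  {F : ℤ → V → V} {m : ℕ}

/-- equal fibres, equal numbers -/
theorem beads1_fib {Δ β : Type} [Finite Δ] (S₁ S₂ : Set Δ) (g₁ g₂ : Δ → β)
    (h : ∀ b, {d | d ∈ S₁ ∧ g₁ d = b}.ncard = {d | d ∈ S₂ ∧ g₂ d = b}.ncard) :
    S₁.ncard = S₂.ncard := by
  classical
  have := Fintype.ofFinite Δ
  have key : ∀ (S : Set Δ) (g : Δ → β) (E : Finset β), (∀ d ∈ S, g d ∈ E) →
      S.ncard = ∑ b ∈ E, {d | d ∈ S ∧ g d = b}.ncard := by
    intro S g E hE
    have h1 : S = ((Finset.univ.filter fun d : Δ => d ∈ S : Finset Δ) : Set Δ) := by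
      ext d
      simp
    have h2 := Finset.card_eq_sum_card_fiberwise (f := g)
      (s := Finset.univ.filter fun d : Δ => d ∈ S) (t := E) (by
        intro d hd
        exact Finset.mem_coe.2 (hE d (Finset.mem_filter.1 hd).2))
    have h3 : S.ncard = (Finset.univ.filter fun d : Δ => d ∈ S).card := by
      rw [← Set.ncard_coe_finset, ← h1]
    rw [h3, h2]
    refine Finset.sum_congr rfl fun b _ => ?_
    rw [← Set.ncard_coe_finset]
    congr 1
    ext d
    simp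
  have h4 : ∀ d ∈ S₁, g₁ d ∈ (Finset.univ.image g₁ ∪ Finset.univ.image g₂ : Finset β) :=
    fun d _ => Finset.mem_union_left _ (Finset.mem_image_of_mem _ (Finset.mem_univ _))
  have h5 : ∀ d ∈ S₂, g₂ d ∈ (Finset.univ.image g₁ ∪ Finset.univ.image g₂ : Finset β) :=
    fun d _ => Finset.mem_union_right _ (Finset.mem_image_of_mem _ (Finset.mem_univ _))
  rw [key S₁ g₁ _ h4, key S₂ g₂ _ h5]
  exact Finset.sum_congr rfl fun b _ => h b

omit [Finite V] [Finite D] in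
/-- a component is left at some dart -/
theorem beads1_exit (hA : Comp L A) {S : Set V} {x y : V} (hx : x ∈ A) (hxS : x ∈ S) (hy : y ∈ A)
    (hyS : y ∉ S) : ∃ d, L.tl d ∈ A ∧ L.tl d ∈ S ∧ L.hd d ∉ S := by
  by_contra hno
  push Not at hno
  have h1 : Cd L x y := hA.cn x hx y hy
  have h2 : y ∈ A ∧ y ∈ S := by
    clear hyS hy
    induction h1 with
    | refl => exact ⟨hx, hxS⟩
    | tail _ h3 ih =>
      obtain ⟨d, h4, h5⟩ := h3
      rw [← h4] at ih
      rw [← h5]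
      exact ⟨hA.cl d ih.1, hno d ih.1 ih.2⟩
  exact hyS h2.2

omit [Finite V] [Finite D] in
theorem beads1_bev (q : ℤ) {d : D} (h1 : d ≠ d₀) (h2 : d ≠ L.rv d₀) :
    bev L d₀ F q d = F q (L.hd d) := by
  unfold bev
  rw [if_neg h1, if_neg h2]

omit [Finite V] [Finite D] in
theorem beads1_bev0 (q : ℤ) : bev L d₀ F q d₀ = F (q + 1) (L.hd d₀) := by
  unfold bev
  rw [if_pos rfl]

omit [Finite V] [Finite D] in
theorem beads1_bev1 (q : ℤ) : bev L d₀ F q (L.rv d₀) = F (q - 1) (L.tl d₀) := by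
  unfold bev
  rw [if_neg (L.rv_ne d₀), if_pos rfl]

omit [Finite V] in
/-- a dart of the copy gives a dart -/
theorem beads1_dart (h : Beads L A B d₀ F m) (q : ℤ) {d : D} (hd : L.tl d ∈ A) :
    ∃ d', L.tl d' = F q (L.tl d) ∧ L.ty d' = L.ty d ∧ L.hd d' = bev L d₀ F q d := by
  have h1 := h.st q (L.tl d) hd (L.ty d) (bev L d₀ F q d)
  have h2 : L.M (L.ty d) (F q (L.tl d)) (bev L d₀ F q d) ≠ 0 := by
    rw [← h1]
    intro h3
    rw [Set.ncard_eq_zero (Set.toFinite _)] at h3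
    have h4 : d ∈ {d' | L.tl d' = L.tl d ∧ L.ty d' = L.ty d ∧
      bev L d₀ F q d' = bev L d₀ F q d} := ⟨rfl, rfl, rfl⟩
    rw [h3] at h4
    exact h4
  obtain ⟨d', h3, h4, h5⟩ := dt_iff.2 h2
  exact ⟨d', h3, h5, h4⟩

theorem beads_int (hA : Comp L A) (h0 : L.tl d₀ ∈ A) (h : Beads L A B d₀ F m) (q : ℤ)
    (X : Set V) :
    {d | L.tl d ∈ F q '' A ∧ L.tl d ∈ X ∧ L.hd d ∈ F q '' A ∧ L.hd d ∉ X}.ncard =
      {d | L.tl d ∈ A ∧ F q (L.tl d) ∈ X ∧ F q (L.hd d) ∉ X ∧ d ≠ d₀ ∧ d ≠ L.rv d₀}.ncard := by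
  refine beads1_fib _ _ (fun d => (L.ty d, L.tl d, L.hd d))
    (fun d => (L.ty d, F q (L.tl d), F q (L.hd d))) ?_
  rintro ⟨t, y, z⟩
  by_cases hc : y ∈ F q '' A ∧ y ∈ X ∧ z ∈ F q '' A ∧ z ∉ X
  · obtain ⟨⟨x, hx, hxy⟩, hyX, hzE, hzX⟩ := hc
    have e1 : {d | d ∈ {d | L.tl d ∈ F q '' A ∧ L.tl d ∈ X ∧ L.hd d ∈ F q '' A ∧ L.hd d ∉ X} ∧
        (L.ty d, L.tl d, L.hd d) = (t, y, z)} = {d | L.tl d = y ∧ L.ty d = t ∧ L.hd d = z} := by
      ext d
      simp only [Set.mem_ofPred_eq, Prod.mk.injEq]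
      constructor
      · rintro ⟨-, h1, h2, h3⟩
        exact ⟨h2, h1, h3⟩
      · rintro ⟨h1, h2, h3⟩
        refine ⟨?_, h2, h1, h3⟩
        rw [h1, h3]
        exact ⟨⟨x, hx, hxy⟩, hyX, hzE, hzX⟩
    have e2 : {d | d ∈ {d | L.tl d ∈ A ∧ F q (L.tl d) ∈ X ∧ F q (L.hd d) ∉ X ∧ d ≠ d₀ ∧
        d ≠ L.rv d₀} ∧ (L.ty d, F q (L.tl d), F q (L.hd d)) = (t, y, z)} =
        {d | L.tl d = x ∧ L.ty d = t ∧ bev L d₀ F q d = z} := by
      ext d
      simp only [Set.mem_ofPred_eq, Prod.mk.injEq]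
      constructor
      · rintro ⟨⟨h1, h2, h3, h4, h5⟩, h6, h7, h8⟩
        refine ⟨h.inj q h1 hx (h7.trans hxy.symm), h6, ?_⟩
        rw [beads1_bev q h4 h5]
        exact h8
      · rintro ⟨h1, h2, h3⟩
        have h4 : d ≠ d₀ := by
          rintro rfl
          rw [beads1_bev0] at h3
          apply (h.oc q).a2.2
          change F (q + 1) (L.hd d) ∈ F q '' A
          rw [h3]
          exact hzE
        have h5 : d ≠ L.rv d₀ := by
          rintro rfl
          rw [beads1_bev1] at h3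
          apply (h.oc q).b1.2
          change F (q - 1) (L.tl d₀) ∈ F q '' A
          rw [h3]
          exact hzE
        rw [beads1_bev q h4 h5] at h3
        rw [h1, h3, hxy]
        exact ⟨⟨hx, hyX, hzX, h4, h5⟩, h2, rfl, rfl⟩
    rw [e1, e2, h.st q x hx t z, hxy]
    rfl
  · have e1 : {d | d ∈ {d | L.tl d ∈ F q '' A ∧ L.tl d ∈ X ∧ L.hd d ∈ F q '' A ∧ L.hd d ∉ X} ∧
        (L.ty d, L.tl d, L.hd d) = (t, y, z)} = ∅ := by
      ext d
      simp only [Set.mem_ofPred_eq, Prod.mk.injEq, Set.mem_empty_iff_false, iff_false]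
      rintro ⟨h1, -, h2, h3⟩
      rw [h2, h3] at h1
      exact hc h1
    have e2 : {d | d ∈ {d | L.tl d ∈ A ∧ F q (L.tl d) ∈ X ∧ F q (L.hd d) ∉ X ∧ d ≠ d₀ ∧
        d ≠ L.rv d₀} ∧ (L.ty d, F q (L.tl d), F q (L.hd d)) = (t, y, z)} = ∅ := by
      ext d
      simp only [Set.mem_ofPred_eq, Prod.mk.injEq, Set.mem_empty_iff_false, iff_false]
      rintro ⟨⟨h1, h2, h3, -, -⟩, -, h7, h8⟩
      apply hc
      rw [← h7, ← h8]
      exact ⟨⟨_, h1, rfl⟩, h2, ⟨_, hA.cl d h1, rfl⟩, h3⟩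
    rw [e1, e2]

omit [Finite V] in
/-- the inner darts of a copy which leave `X`, if at least three darts leave the set below -/
theorem beads1_two (hA : Comp L A) {q : ℤ} {X : Set V}
    (h3 : Cut L 3 (L.tl d₀) {L.hd d₀} ∨ L.tl d₀ = L.hd d₀) (h0 : L.tl d₀ ∈ A)
    (hX : ¬ (F q (L.tl d₀) ∈ X ↔ F q (L.hd d₀) ∈ X)) :
    2 ≤ {d | L.tl d ∈ A ∧ F q (L.tl d) ∈ X ∧ F q (L.hd d) ∉ X ∧ d ≠ d₀ ∧ d ≠ L.rv d₀}.ncard := by
  have h1 : Cut L 3 (L.tl d₀) {L.hd d₀} := by
    rcases h3 with h3 | h3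
    · exact h3
    · exfalso
      apply hX
      rw [h3]
  have hh : L.hd d₀ ∈ A := hA.cl _ h0
  by_cases ht : F q (L.tl d₀) ∈ X
  · have hn : F q (L.hd d₀) ∉ X := fun h4 => hX ⟨fun _ => h4, fun _ => ht⟩
    have h4 := h1 {z | z ∈ A ∧ F q z ∈ X} ⟨h0, ht⟩ (by
      rintro z rfl h5
      exact hn h5.2)
    have h5 : bd L {z | z ∈ A ∧ F q z ∈ X} \ {d₀} ⊆
        {d | L.tl d ∈ A ∧ F q (L.tl d) ∈ X ∧ F q (L.hd d) ∉ X ∧ d ≠ d₀ ∧ d ≠ L.rv d₀} := by
      rintro d ⟨⟨⟨h6, h7⟩, h8⟩, h9⟩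
      refine ⟨h6, h7, fun h10 => h8 ⟨hA.cl d h6, h10⟩, h9, ?_⟩
      rintro rfl
      exact hn h7
    have h6 := Set.ncard_le_ncard h5 (Set.toFinite _)
    have h7 := Set.pred_ncard_le_ncard_sdiff_singleton (bd L {z | z ∈ A ∧ F q z ∈ X}) d₀
    omega
  · have hn : F q (L.hd d₀) ∈ X := by
      by_contra h4
      exact hX ⟨fun h5 => absurd h5 ht, fun h5 => absurd h5 h4⟩
    have h4 := cut_symm h1 {z | z ∈ A ∧ F q z ∈ X} ⟨hh, hn⟩ (by
      rintro z rfl h5
      exact ht h5.2)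
    have h5 : bd L {z | z ∈ A ∧ F q z ∈ X} \ {L.rv d₀} ⊆
        {d | L.tl d ∈ A ∧ F q (L.tl d) ∈ X ∧ F q (L.hd d) ∉ X ∧ d ≠ d₀ ∧ d ≠ L.rv d₀} := by
      rintro d ⟨⟨⟨h6, h7⟩, h8⟩, h9⟩
      refine ⟨h6, h7, fun h10 => h8 ⟨hA.cl d h6, h10⟩, ?_, h9⟩
      rintro rfl
      exact ht h7
    have h6 := Set.ncard_le_ncard h5 (Set.toFinite _)
    have h7 := Set.pred_ncard_le_ncard_sdiff_singleton (bd L {z | z ∈ A ∧ F q z ∈ X}) (L.rv d₀)
    omega

omit [Finite V] [Finite D] in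
/-- a dart which leaves a copy is not a bridge -/
theorem beads1_nb (h : Beads L A B d₀ F m) {q : ℤ} {d : D} (hd : d ∈ bd L (F q '' A)) :
    Cut L 2 (L.tl d) {L.hd d} := by
  rcases ((h.oc q).bd d).1 hd with ⟨-, h1⟩ | ⟨-, h1⟩
  · have h2 := (h.oc q).va
    rw [← h1] at h2
    exact h2
  · have h2 := (h.oc q).vb
    rw [← h1] at h2
    exact cut_symm h2

theorem beads_consec (hA : Comp L A) (hB : Comp L B) (h0 : L.tl d₀ ∈ A)
    (h3 : Cut L 3 (L.tl d₀) {L.hd d₀} ∨ L.tl d₀ = L.hd d₀) (h : Beads L A B d₀ F m) (q : ℤ) :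
    Disjoint (F q '' A) (F (q + 1) '' A) := by
  by_contra hno
  obtain ⟨x, hx1, hx2⟩ := Set.not_disjoint_iff.1 hno
  have hq : q + 1 - 1 = q := by ring
  have a1 : F q (L.tl d₀) ∈ F q '' A := (h.oc q).a1
  have a2 : F (q + 1) (L.hd d₀) ∉ F q '' A := (h.oc q).a2.2
  have b1 : F q (L.tl d₀) ∉ F (q + 1) '' A := by
    have h4 := (h.oc (q + 1)).b1.2
    rw [hq] at h4
    exact h4
  -- the dart with the value `a q`
  obtain ⟨d₁, u1, u2, u3⟩ := beads1_dart h q h0
  rw [beads1_bev0] at u3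
  -- kinds
  have k1 : ∀ d ∈ bd L (F q '' A ∩ F (q + 1) '' A), d ∈ bd L (F q '' A) →
      L.tl d = F q (L.hd d₀) := by
    rintro d ⟨⟨h4, h5⟩, h6⟩ h7
    rcases ((h.oc q).bd d).1 h7 with ⟨-, h8⟩ | ⟨-, h8⟩
    · exfalso
      apply b1
      have h9 : L.tl d = F q (L.tl d₀) := congrArg Prod.fst h8
      rw [← h9]
      exact h5
    · exact congrArg Prod.snd h8
  have k2 : ∀ d ∈ bd L (F q '' A ∩ F (q + 1) '' A), d ∉ bd L (F q '' A) →
      d ∈ bd L (F (q + 1) '' A) \ {L.rv d₁} := by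
    rintro d ⟨⟨h4, h5⟩, h6⟩ h7
    refine ⟨⟨h5, fun h8 => h6 ⟨?_, h8⟩⟩, ?_⟩
    · by_contra h9
      exact h7 ⟨h4, h9⟩
    · intro h8
      have h9 : L.tl d = F (q + 1) (L.hd d₀) := by
        rw [Set.mem_singleton_iff.1 h8]
        exact u3
      apply a2
      rw [← h9]
      exact h4
  have hr : L.rv d₁ ∈ bd L (F (q + 1) '' A) := by
    refine ((h.oc (q + 1)).bd _).2 (Or.inr ⟨?_, ?_⟩)
    · rw [L.ty_rv, u2]
    · rw [hon_hd_rv, u1, hq]
      exact Prod.ext rfl u3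
  have hc1 : (bd L (F (q + 1) '' A) \ {L.rv d₁}).ncard = 1 := by
    rw [Set.ncard_sdiff_singleton_of_mem hr, (h.oc (q + 1)).two]
  -- the boundary is not empty
  have hxB : x ∈ B := (h.oc q).sub hx1
  obtain ⟨d, c1, c2, c3⟩ := beads1_exit hB (S := F q '' A ∩ F (q + 1) '' A) hxB ⟨hx1, hx2⟩
    ((h.oc q).sub a1) (fun h4 => b1 h4.2)
  have hd : d ∈ bd L (F q '' A ∩ F (q + 1) '' A) := ⟨c2, c3⟩
  have hcut : Cut L 2 (L.tl d) {L.hd d} := by
    by_cases h4 : d ∈ bd L (F q '' A)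
    · exact beads1_nb h h4
    · exact beads1_nb h (k2 d hd h4).1
  have h4 := hcut _ c2 (by
    rintro z rfl
    exact c3)
  -- there is one of the first kind
  have hF : F q (L.hd d₀) ∈ F q '' A ∩ F (q + 1) '' A := by
    by_contra h5
    have h6 : bd L (F q '' A ∩ F (q + 1) '' A) ⊆ bd L (F (q + 1) '' A) \ {L.rv d₁} := by
      intro d' hd'
      refine k2 d' hd' fun h7 => h5 ?_
      rw [← k1 d' hd' h7]
      exact hd'.1
    have h7 := Set.ncard_le_ncard h6 (Set.toFinite _)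
    omega
  have h5 := beads1_two (q := q) (X := F q '' A ∩ F (q + 1) '' A) hA h3 h0
    (fun h6 => b1 (h6.2 hF).2)
  rw [← beads_int hA h0 h q] at h5
  have h6 : {d | L.tl d ∈ F q '' A ∧ L.tl d ∈ F q '' A ∩ F (q + 1) '' A ∧ L.hd d ∈ F q '' A ∧
      L.hd d ∉ F q '' A ∩ F (q + 1) '' A} ⊆ bd L (F (q + 1) '' A) \ {L.rv d₁} := by
    rintro d' ⟨h7, h8, h9, h10⟩
    exact k2 d' ⟨h8, h10⟩ fun h11 => h11.2 h9
  have h7 := Set.ncard_le_ncard h6 (Set.toFinite _)
  omega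

/-- the darts which leave `E j` lead to the rest of `E i` -/
theorem beads1_star (hA : Comp L A) (h0 : L.tl d₀ ∈ A)
    (h3 : Cut L 3 (L.tl d₀) {L.hd d₀} ∨ L.tl d₀ = L.hd d₀) (h : Beads L A B d₀ F m) {i j : ℤ}
    {x y : V} (hx : x ∈ F i '' A) (hxj : x ∈ F j '' A) (hy : y ∈ F i '' A) (hyj : y ∉ F j '' A) :
    ∀ d ∈ bd L (F j '' A), L.hd d ∈ F i '' A := by
  have hsub : {d | L.tl d ∈ F i '' A ∧ L.tl d ∈ F j '' A ∧ L.hd d ∈ F i '' A ∧
      L.hd d ∉ F j '' A} ⊆ bd L (F j '' A) := by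
    rintro d ⟨-, h4, -, h5⟩
    exact ⟨h4, h5⟩
  have hcard : 2 ≤ {d | L.tl d ∈ F i '' A ∧ L.tl d ∈ F j '' A ∧ L.hd d ∈ F i '' A ∧
      L.hd d ∉ F j '' A}.ncard := by
    rw [beads_int hA h0 h i]
    by_cases hc : F i (L.tl d₀) ∈ F j '' A ↔ F i (L.hd d₀) ∈ F j '' A
    · obtain ⟨x', hx', hxx⟩ := hx
      obtain ⟨y', hy', hyy⟩ := hy
      have hx'j : F i x' ∈ F j '' A := by
        rw [hxx]
        exact hxj
      have hy'j : F i y' ∉ F j '' A := by
        rw [hyy]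
        exact hyj
      obtain ⟨d, c1, c2, c3⟩ := beads1_exit hA (S := {z | F i z ∈ F j '' A}) hx' hx'j hy' hy'j
      have c2' : F i (L.tl d) ∈ F j '' A := c2
      have c3' : F i (L.hd d) ∉ F j '' A := c3
      have hd0 : d ≠ d₀ := by
        rintro rfl
        exact c3' (hc.1 c2')
      have hd1 : d ≠ L.rv d₀ := by
        rintro rfl
        rw [hon_hd_rv] at c3'
        exact c3' (hc.2 c2')
      obtain ⟨d', u1, -, u3⟩ := beads1_dart h i c1
      rw [beads1_bev i hd0 hd1] at u3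
      have h4 : Cut L 2 (L.tl d) {L.hd d} := by
        by_contra h5
        apply h.br i d c1 h5
        have h6 : d' ∈ bd L (F j '' A) := by
          refine ⟨?_, ?_⟩
          · rw [u1]
            exact c2'
          · rw [u3]
            exact c3'
        have h7 := beads1_nb h h6
        rw [u1, u3] at h7
        exact h7
      have h5 := h4 {z | z ∈ A ∧ F i z ∈ F j '' A} ⟨c1, c2'⟩ (by
        rintro z rfl h6
        exact c3' h6.2)
      refine h5.trans (Set.ncard_le_ncard ?_ (Set.toFinite _))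
      rintro d'' ⟨⟨h6, h7⟩, h8⟩
      have h9 : F i (L.hd d'') ∉ F j '' A := fun h10 => h8 ⟨hA.cl _ h6, h10⟩
      refine ⟨h6, h7, h9, ?_, ?_⟩
      · rintro rfl
        exact h9 (hc.1 h7)
      · rintro rfl
        rw [hon_hd_rv] at h9
        exact h9 (hc.2 h7)
    · exact beads1_two hA h3 h0 hc
  have heq := Set.eq_of_subset_of_ncard_le hsub (by rw [(h.oc j).two]; exact hcard)
    (Set.toFinite _)
  intro d hd
  rw [← heq] at hd
  exact hd.2.2.1

theorem beads_dich (hA : Comp L A) (hB : Comp L B) (h0 : L.tl d₀ ∈ A)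
    (h3 : Cut L 3 (L.tl d₀) {L.hd d₀} ∨ L.tl d₀ = L.hd d₀) (h : Beads L A B d₀ F m) (i j : ℤ) :
    F i '' A = F j '' A ∨ Disjoint (F i '' A) (F j '' A) := by
  by_contra hno
  push Not at hno
  obtain ⟨hne, hdis⟩ := hno
  obtain ⟨x, hx1, hx2⟩ := Set.not_disjoint_iff.1 hdis
  have hcard : ∀ q, (F q '' A).ncard = A.ncard := fun q => (h.inj q).ncard_image
  have hsub : ∀ p q, F p '' A ⊆ F q '' A → F p '' A = F q '' A := by
    intro p q h4
    exact Set.eq_of_subset_of_ncard_le h4 (by rw [hcard, hcard]) (Set.toFinite _)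
  obtain ⟨y, hy1, hy2⟩ := Set.not_subset.1 fun h4 => hne (hsub i j h4)
  obtain ⟨z, hz1, hz2⟩ := Set.not_subset.1 fun h4 => hne (hsub j i h4).symm
  have s1 := beads1_star hA h0 h3 h hx1 hx2 hy1 hy2
  have s2 := beads1_star hA h0 h3 h hx2 hx1 hz1 hz2
  have hall : ∀ w ∈ B, w ∈ F i '' A ∪ F j '' A := by
    intro w hw
    by_contra h4
    obtain ⟨d, c1, c2, c3⟩ := beads1_exit hB (S := F i '' A ∪ F j '' A) ((h.oc i).sub hx1)
      (Or.inl hx1) hw h4
    rcases c2 with c2 | c2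
    · exact c3 (Or.inr (s2 d ⟨c2, fun h5 => c3 (Or.inl h5)⟩))
    · exact c3 (Or.inl (s1 d ⟨c2, fun h5 => c3 (Or.inr h5)⟩))
  have hdj := beads_consec hA hB h0 h3 h i
  have h4 : F (i + 1) '' A ⊆ F j '' A := by
    intro w hw
    rcases hall w ((h.oc (i + 1)).sub hw) with h5 | h5
    · exact absurd hw (Set.disjoint_left.1 hdj h5)
    · exact h5
  have h5 := hsub _ _ h4
  rw [← h5] at hx2
  exact Set.disjoint_left.1 hdj hx1 hx2

end Pool.Agent.H24.GK
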