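import Pool.Agent.H24.GK.Beads1

/-!
# JOB GK-7: beads give a cover

Notation as in the file `Beads1`. Let `p` be the smallest positive integer such that `E i = E (i + p)` for some `i` (`per`: `p = m` is
possible). By `beads_consec` `2 ≤ p` (the `E q` are not empty).
`beads_period`. The boundaries of `E i = E (i + p)` agree. There is a dart `δ` with the value `a i`, type `ty d₀` (`st` for `tl d₀`, `d₀`); it
is in `bd L (E i)`, so by `oc` for `i + p`: (N) `a i = a (i + p)`, or (F) `bar (ty d₀) = ty d₀` and `a i` is `a (i + p - 1)` reversed. In the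
same way, for a dart with the value `a (i - 1)` reversed: (N') `a (i - 1) = a (i + p - 1)` or (F') `bar (ty d₀) = ty d₀` and `a (i - 1)`
reversed is `a (i + p)`. We show `a (i - 1) = a (i + p - 1)`. In the case (F): `(a (i + p - 1)).1 = (a i).2 ∈ E (i + 1)` and
`(a (i + p - 1)).1 ∈ E (i + p - 1)`, so `E (i + p - 1) = E (i + 1)` by `beads_dich`, so `p = 2` (otherwise `p - 2` is smaller). So
`a (i + 1)` is `a i` reversed, and `E (i + 2) = E i`. All darts in `bd L (E (i + 1))` have the value `a (i + 1)` (those with the value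
`a i` reversed too); they are two darts from `(a (i + 1)).1` to `(a (i + 1)).2 = (a i).1 ∈ E i`. Their reverses start in `E i` and
lead to `(a (i + 1)).1 ∈ E (i + 1)`, not in `E i` (`beads_consec`), so they are all the darts in `bd L (E i)`; they have the type
`bar (ty d₀) = ty d₀` and the value `a i`. The dart with the value `a (i - 1)` reversed is one of them, so `a (i - 1)` is `a i` reversed,
which is `a (i + 1) = a (i + p - 1)`. The case (F') and not (F): we are in the case (N),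
so `a i = a (i + p)`, which is `a (i - 1)` reversed. Then all darts in `bd L (E i)` have the value `a i` (type `ty d₀`). By `oc` for
`i + p` (and `st` for `hd d₀`, `rv d₀`) some dart in `bd L (E (i + p)) = bd L (E i)` has the value `a (i + p - 1)` reversed; so
`a (i + p - 1)` reversed is `a i`, which is `a (i - 1)` reversed.

`beads_false`. Take such `i`, `p`. For `i ≤ q < i + p` the sets `E q` are pairwise different, so disjoint (`beads_dich`). Their union `U` is
closed under darts: a dart which leaves `E q` leads to `(a q).2 ∈ E (q + 1)` or to `(a (q - 1)).1 ∈ E (q - 1)`;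
`E (i + p) = E i`, and for `q = i`: `(a (i - 1)).1 = (a (i + p - 1)).1 ∈ E (i + p - 1)` (`beads_period`). So `U = B`. Define `G y`: for
`y ∈ B` the unique `x ∈ A` with `y = F q x` for some `q`, `i ≤ q < i + p`. Let `y = F q x`, `i ≤ q < i + p`. For every dart `d` at `x`:
`G (bev q d) = hd d`: for `d ≠ d₀, rv d₀` it is clear (`hd d ∈ A`); `bev q d₀ = F (q + 1) (hd d₀)`: clear for `q + 1 < i + p`, and for
`q + 1 = i + p`: it is `(a (i + p - 1)).2 = (a (i - 1)).2 = F i (hd d₀)`; `bev q (rv d₀) = F (q - 1) (tl d₀)`: clear for `i < q`, and for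
`q = i` it is `(a (i - 1)).1 = (a (i + p - 1)).1 = F (i + p - 1) (tl d₀)`. So `PL L B G`: the number of the darts `d` of type `t` at
`y` with `G (hd d) = z'` is the sum over the `z ∈ B` with `G z = z'` of `M t y z`, by `st` it is the number of the darts `d` of type `t` at
`x` with `G (bev q d) = z'`, i.e. `hd d = z'`, so `M t x z'`. `cls`: `cl`. By `pl_redc` `G y ∈ B` for `y ∈ B`, so `A = B` (`comp_eq`).
-/

namespace Pool.Agent.H24.GK

open Pool.Agent.H24.GG Pool.Agent.H24.GH Pool.Agent.H24.GI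

variable {V D T K : Type} {L : LS V D T K} [Finite V] [Finite D] {A B : Set V} {d₀ : D}
  {F : ℤ → V → V} {m : ℕ}

omit [Finite V] in
private theorem gk7_dt (h0 : L.tl d₀ ∈ A) (h : Beads L A B d₀ F m) (q : ℤ) :
    Dt L (L.ty d₀) (F q (L.tl d₀)) (F (q + 1) (L.hd d₀)) := by
  rw [dt_iff, ← h.st q _ h0 (L.ty d₀) (F (q + 1) (L.hd d₀))]
  intro h1
  rw [Set.ncard_eq_zero (Set.toFinite _)] at h1
  have h2 : d₀ ∈ {d | L.tl d = L.tl d₀ ∧ L.ty d = L.ty d₀ ∧
      bev L d₀ F q d = F (q + 1) (L.hd d₀)} := by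
    refine ⟨rfl, rfl, ?_⟩
    unfold bev
    rw [if_pos rfl]
  rw [h1] at h2
  exact h2

omit [Finite V] in
private theorem gk7_dt' (hA : Comp L A) (h0 : L.tl d₀ ∈ A) (h : Beads L A B d₀ F m) (q : ℤ) :
    Dt L (L.bar (L.ty d₀)) (F q (L.hd d₀)) (F (q - 1) (L.tl d₀)) := by
  rw [dt_iff, ← h.st q _ (hA.cl _ h0) (L.bar (L.ty d₀)) (F (q - 1) (L.tl d₀))]
  intro h1
  rw [Set.ncard_eq_zero (Set.toFinite _)] at h1
  have h2 : L.rv d₀ ∈ {d | L.tl d = L.hd d₀ ∧ L.ty d = L.bar (L.ty d₀) ∧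
      bev L d₀ F q d = F (q - 1) (L.tl d₀)} := by
    refine ⟨rfl, L.ty_rv _, ?_⟩
    unfold bev
    rw [if_neg (L.rv_ne d₀), if_pos rfl]
  rw [h1] at h2
  exact h2

private theorem gk7_two (hA : Comp L A) (hB : Comp L B) (h0 : L.tl d₀ ∈ A)
    (h3 : Cut L 3 (L.tl d₀) {L.hd d₀} ∨ L.tl d₀ = L.hd d₀) (h : Beads L A B d₀ F m) {i : ℤ} {p : ℕ}
    (hp : 0 < p) (hi : F i '' A = F (i + p) '' A) : 2 ≤ p := by
  by_contra h1
  have h2 : p = 1 := by omega
  subst h2
  have h4 := beads_consec hA hB h0 h3 h i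
  rw [Nat.cast_one] at hi
  rw [← hi, Set.disjoint_left] at h4
  exact h4 ⟨_, h0, rfl⟩ ⟨_, h0, rfl⟩

omit [Finite V] in
private theorem gk7_sum {S : Set D} (φ : D → V) (G : V → V) (z' : V) [Fintype V]
    [DecidableEq V] : {d | d ∈ S ∧ G (φ d) = z'}.ncard =
      ∑ z ∈ Finset.univ.filter (fun z => G z = z'), {d | d ∈ S ∧ φ d = z}.ncard := by
  classical
  have := Fintype.ofFinite D
  have h2 := Finset.card_eq_sum_card_fiberwise (f := φ)
    (s := (Finset.univ.filter fun d => d ∈ S ∧ G (φ d) = z'))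
    (t := (Finset.univ.filter fun z => G z = z')) (by
      intro d hd
      have h3 := (Finset.mem_filter.1 hd).2
      exact Finset.mem_coe.2 (Finset.mem_filter.2 ⟨Finset.mem_univ _, h3.2⟩))
  have h4 : {d | d ∈ S ∧ G (φ d) = z'}.ncard =
      (Finset.univ.filter fun d => d ∈ S ∧ G (φ d) = z').card := by
    rw [← Set.ncard_coe_finset]
    congr 1
    ext d
    simp
  rw [h4, h2]
  refine Finset.sum_congr rfl fun z hz => ?_
  have h3 := (Finset.mem_filter.1 hz).2
  rw [← Set.ncard_coe_finset]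
  congr 1
  ext d
  simp only [Finset.coe_filter, Finset.mem_filter, Finset.mem_univ, true_and, Set.mem_ofPred_eq]
  constructor
  · rintro ⟨⟨h4, -⟩, h5⟩
    exact ⟨h4, h5⟩
  · rintro ⟨h4, h5⟩
    exact ⟨⟨h4, by rw [h5]; exact h3⟩, h5⟩

theorem beads_period (hA : Comp L A) (hB : Comp L B) (h0 : L.tl d₀ ∈ A)
    (h3 : Cut L 3 (L.tl d₀) {L.hd d₀} ∨ L.tl d₀ = L.hd d₀) (h : Beads L A B d₀ F m) {i : ℤ} {p : ℕ}
    (hp : 0 < p) (hi : F i '' A = F (i + p) '' A)
    (hmin : ∀ (j : ℤ) (r : ℕ), 0 < r → F j '' A = F (j + r) '' A → p ≤ r) :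
    (F (i - 1) (L.tl d₀), F i (L.hd d₀)) =
      (F (i + p - 1) (L.tl d₀), F (i + p) (L.hd d₀)) := by
  have h2p := gk7_two hA hB h0 h3 h hp hi
  have oc := h.oc i
  have oc' := h.oc (i + p)
  rw [← hi] at oc'
  obtain ⟨δ, b1, b2, b3⟩ := gk7_dt h0 h i
  obtain ⟨δ', c1, c2, c3⟩ := gk7_dt' hA h0 h i
  have hδ : δ ∈ bd L (F i '' A) := (oc.bd δ).2 (Or.inl ⟨b3, by rw [b1, b2]⟩)
  have hδ' : δ' ∈ bd L (F i '' A) := (oc.bd δ').2 (Or.inr ⟨c3, by rw [c1, c2]⟩)
  rcases (oc'.bd δ').1 hδ' with ⟨g1, g2⟩ | ⟨-, g2⟩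
  swap
  · rw [c1, c2] at g2
    exact g2
  rw [c1, c2] at g2
  have hbar : L.bar (L.ty d₀) = L.ty d₀ := by rw [← c3, g1]
  rcases (oc'.bd δ).1 hδ with ⟨-, g3⟩ | ⟨-, g3⟩
  · -- the case (N)
    rw [b1, b2] at g3
    obtain ⟨δ₂, e1, e2, e3⟩ := gk7_dt' hA h0 h (i + p)
    have hδ₂ : δ₂ ∈ bd L (F i '' A) := (oc'.bd δ₂).2 (Or.inr ⟨e3, by rw [e1, e2]⟩)
    rcases (oc.bd δ₂).1 hδ₂ with ⟨-, g4⟩ | ⟨-, g4⟩
    · rw [e1, e2, g3, ← g2] at g4
      have g5 := congrArg Prod.fst g4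
      have g6 := congrArg Prod.snd g4
      exact Prod.ext g6.symm g5.symm
    · rw [e1, e2] at g4
      exact g4.symm
  · -- the case (F)
    rw [b1, b2] at g3
    have hdi := beads_dich hA hB h0 h3 h (i + 1) (i + p - 1)
    have heq : F (i + 1) '' A = F (i + p - 1) '' A := by
      rcases hdi with h4 | h4
      · exact h4
      · exfalso
        rw [Set.disjoint_left] at h4
        have g5 := congrArg Prod.fst g3
        exact h4 ⟨L.hd d₀, hA.cl _ h0, rfl⟩ ⟨L.tl d₀, h0, g5.symm⟩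
    have hp2 : p = 2 := by
      by_contra hne
      have h5 : 0 < p - 2 := by omega
      have h6 : (i : ℤ) + p - 1 = i + 1 + ((p - 2 : ℕ) : ℤ) := by
        push_cast [h2p]
        ring
      rw [h6] at heq
      have h7 := hmin (i + 1) (p - 2) h5 heq
      omega
    subst hp2
    have hc : ((2 : ℕ) : ℤ) = 2 := rfl
    rw [hc] at g2 g3 hi ⊢
    have e1 : i + 2 - 1 = i + 1 := by ring
    have e2 : i + 1 + 1 = i + 2 := by ring
    have e3 : i + 1 - 1 = i := by ring
    rw [e1] at g3 ⊢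
    have oc1 := h.oc (i + 1)
    rw [e2, e3] at oc1
    have hall : ∀ d ∈ bd L (F (i + 1) '' A), L.tl d = F (i + 1) (L.tl d₀) ∧
        L.hd d = F (i + 2) (L.hd d₀) := by
      intro d hd
      rcases (oc1.bd d).1 hd with ⟨-, g5⟩ | ⟨-, g5⟩
      · exact ⟨congrArg Prod.fst g5, congrArg Prod.snd g5⟩
      · have g6 : L.hd d = F i (L.tl d₀) := congrArg Prod.fst g5
        have g7 : L.tl d = F (i + 1) (L.hd d₀) := congrArg Prod.snd g5
        have g8 : F (i + 1) (L.hd d₀) = F (i + 1) (L.tl d₀) := congrArg Prod.fst g3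
        have g9 : F i (L.tl d₀) = F (i + 2) (L.hd d₀) := congrArg Prod.snd g3
        exact ⟨g7.trans g8, g6.trans g9⟩
    have hdis := beads_consec hA hB h0 h3 h i
    rw [Set.disjoint_left] at hdis
    have hsub : L.rv '' bd L (F (i + 1) '' A) ⊆ bd L (F i '' A) := by
      rintro _ ⟨d, hd, rfl⟩
      obtain ⟨g5, g6⟩ := hall d hd
      constructor
      · change L.hd d ∈ F i '' A
        rw [g6, hi]
        exact ⟨_, hA.cl _ h0, rfl⟩
      · rw [hd_rv, g5]
        intro h8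
        exact hdis h8 ⟨_, h0, rfl⟩
    have hinj : Function.Injective L.rv := by
      intro a b hab
      rw [← L.rv_rv a, ← L.rv_rv b, hab]
    have hcard : (L.rv '' bd L (F (i + 1) '' A)).ncard = (bd L (F i '' A)).ncard := by
      rw [Set.ncard_image_of_injective _ hinj, oc1.two, oc.two]
    have hseq := Set.eq_of_subset_of_ncard_le hsub hcard.ge (Set.toFinite _)
    rw [← hseq] at hδ'
    obtain ⟨d, hd, rfl⟩ := hδ'
    obtain ⟨g5, g6⟩ := hall d hd
    have k1 : F i (L.hd d₀) = F (i + 2) (L.hd d₀) := by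
      rw [← c1]
      exact g6
    have k2 : F (i - 1) (L.tl d₀) = F (i + 1) (L.tl d₀) := by
      rw [← c2, hd_rv, g5]
    rw [k1, k2]

theorem beads_false (hA : Comp L A) (hB : Comp L B) (h0 : L.tl d₀ ∈ A)
    (h3 : Cut L 3 (L.tl d₀) {L.hd d₀} ∨ L.tl d₀ = L.hd d₀) (hred : Redc L) (hne : A ≠ B)
    (h : Beads L A B d₀ F m) : False := by
  classical
  have := Fintype.ofFinite V
  have hex : ∃ p : ℕ, 0 < p ∧ ∃ j : ℤ, F j '' A = F (j + p) '' A := by
    refine ⟨m, h.mp, 0, ?_⟩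
    refine Set.image_congr fun x _ => ?_
    exact (h.per 0 x).symm
  obtain ⟨hp, i, hi⟩ := Nat.find_spec hex
  have hmin : ∀ (j : ℤ) (r : ℕ), 0 < r → F j '' A = F (j + r) '' A → Nat.find hex ≤ r :=
    fun j r hr hj => Nat.find_min' hex ⟨hr, j, hj⟩
  generalize Nat.find hex = p at hp hi hmin
  have hper := beads_period hA hB h0 h3 h hp hi hmin
  have hper1 : F (i - 1) (L.tl d₀) = F (i + p - 1) (L.tl d₀) := congrArg Prod.fst hper
  have hper2 : F i (L.hd d₀) = F (i + p) (L.hd d₀) := congrArg Prod.snd hper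
  have hh : L.hd d₀ ∈ A := hA.cl _ h0
  -- the sets are disjoint
  have hlt : ∀ q q' : ℤ, i ≤ q → q < q' → q' < i + p → Disjoint (F q '' A) (F q' '' A) := by
    intro q q' h4 h5 h6
    rcases beads_dich hA hB h0 h3 h q q' with h7 | h7
    · exfalso
      have h8 : q' = q + ((q' - q).toNat : ℤ) := by omega
      rw [h8] at h7
      have h9 := hmin q (q' - q).toNat (by omega) h7
      omega
    · exact h7
  have huniq : ∀ q q' : ℤ, i ≤ q → q < i + p → i ≤ q' → q' < i + p → ∀ x ∈ A, ∀ x' ∈ A,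
      F q x = F q' x' → x = x' := by
    intro q q' a1 a2 a3 a4 x hx x' hx' h4
    rcases lt_trichotomy q q' with h5 | h5 | h5
    · exfalso
      have h6 := hlt q q' a1 h5 a4
      rw [Set.disjoint_left] at h6
      exact h6 ⟨x, hx, rfl⟩ ⟨x', hx', h4.symm⟩
    · subst h5
      exact h.inj q hx hx' h4
    · exfalso
      have h6 := hlt q' q a3 h5 a2
      rw [Set.disjoint_left] at h6
      exact h6 ⟨x', hx', rfl⟩ ⟨x, hx, h4⟩
  -- the union is everything
  have hpi : i < i + p := by omega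
  have hcl : ∀ d, (∃ q, i ≤ q ∧ q < i + p ∧ L.tl d ∈ F q '' A) →
      ∃ q, i ≤ q ∧ q < i + p ∧ L.hd d ∈ F q '' A := by
    rintro d ⟨q, a1, a2, h4⟩
    by_cases h5 : L.hd d ∈ F q '' A
    · exact ⟨q, a1, a2, h5⟩
    · have h6 : d ∈ bd L (F q '' A) := ⟨h4, h5⟩
      rcases ((h.oc q).bd d).1 h6 with ⟨-, h7⟩ | ⟨-, h7⟩
      · have h8 : L.hd d = F (q + 1) (L.hd d₀) := congrArg Prod.snd h7
        by_cases h9 : q + 1 < i + p
        · exact ⟨q + 1, by omega, h9, by rw [h8]; exact ⟨_, hh, rfl⟩⟩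
        · have h10 : q + 1 = i + p := by omega
          rw [h10, ← hper2] at h8
          exact ⟨i, le_rfl, hpi, by rw [h8]; exact ⟨_, hh, rfl⟩⟩
      · have h8 : L.hd d = F (q - 1) (L.tl d₀) := congrArg Prod.fst h7
        by_cases h9 : i ≤ q - 1
        · exact ⟨q - 1, h9, by omega, by rw [h8]; exact ⟨_, h0, rfl⟩⟩
        · have h10 : q = i := by omega
          rw [h10, hper1] at h8
          exact ⟨i + p - 1, by omega, by omega, by rw [h8]; exact ⟨_, h0, rfl⟩⟩
  have hall : ∀ y ∈ B, ∃ x ∈ A, ∃ q, i ≤ q ∧ q < i + p ∧ F q x = y := by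
    intro y hy
    have h4 : F i (L.tl d₀) ∈ B := (h.oc i).sub ⟨_, h0, rfl⟩
    have h5 : ∀ z, Cd L (F i (L.tl d₀)) z → ∃ q, i ≤ q ∧ q < i + p ∧ z ∈ F q '' A := by
      intro z hz
      induction hz with
      | refl => exact ⟨i, le_rfl, hpi, _, h0, rfl⟩
      | tail _ h6 ih =>
        obtain ⟨d, rfl, rfl⟩ := h6
        exact hcl d ih
    obtain ⟨q, a1, a2, x, hx, hxy⟩ := h5 y (hB.cn _ h4 _ hy)
    exact ⟨x, hx, q, a1, a2, hxy⟩
  obtain ⟨G, hG⟩ : ∃ G : V → V, ∀ y ∈ B, G y ∈ A ∧ ∃ q, i ≤ q ∧ q < i + p ∧ F q (G y) = y := by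
    refine ⟨fun y => if hy : y ∈ B then (hall y hy).choose else y, fun y hy => ?_⟩
    show (if hy : y ∈ B then (hall y hy).choose else y) ∈ A ∧ ∃ q, i ≤ q ∧ q < i + p ∧
      F q (if hy : y ∈ B then (hall y hy).choose else y) = y
    rw [dif_pos hy]
    exact (hall y hy).choose_spec
  have hGF : ∀ q, i ≤ q → q < i + p → ∀ x ∈ A, G (F q x) = x := by
    intro q a1 a2 x hx
    obtain ⟨h4, q', a3, a4, h5⟩ := hG (F q x) ((h.oc q).sub ⟨x, hx, rfl⟩)
    exact huniq q' q a3 a4 a1 a2 _ h4 x hx h5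
  have hbev : ∀ q, i ≤ q → q < i + p → ∀ d, L.tl d ∈ A → G (bev L d₀ F q d) = L.hd d := by
    intro q a1 a2 d hd
    unfold bev
    by_cases h4 : d = d₀
    · rw [if_pos h4, h4]
      by_cases h9 : q + 1 < i + p
      · exact hGF _ (by omega) h9 _ hh
      · have h10 : q + 1 = i + p := by omega
        rw [h10, ← hper2]
        exact hGF _ le_rfl hpi _ hh
    · rw [if_neg h4]
      by_cases h5 : d = L.rv d₀
      · rw [if_pos h5, h5, hd_rv]
        by_cases h9 : i ≤ q - 1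
        · exact hGF _ h9 (by omega) _ h0
        · have h10 : q = i := by omega
          rw [h10, hper1]
          exact hGF _ (by omega) (by omega) _ h0
      · rw [if_neg h5]
        exact hGF q a1 a2 _ (hA.cl _ hd)
  have hPL : PL L B G := by
    refine ⟨?_, ?_⟩
    · intro y hy
      obtain ⟨h4, q, -, -, h5⟩ := hG y hy
      rw [← h.cl q _ h4, h5]
    · intro y hy t z'
      obtain ⟨h4, q, a1, a2, h5⟩ := hG y hy
      have e1 := gk7_sum (S := {d | L.tl d = y ∧ L.ty d = t}) L.hd G z'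
      have e2 := gk7_sum (S := {d | L.tl d = G y ∧ L.ty d = t}) (bev L d₀ F q) G z'
      have e3 : {d | L.tl d = y ∧ L.ty d = t ∧ G (L.hd d) = z'} =
          {d | d ∈ {d | L.tl d = y ∧ L.ty d = t} ∧ G (L.hd d) = z'} := by
        ext d
        exact ⟨fun h => ⟨⟨h.1, h.2.1⟩, h.2.2⟩, fun h => ⟨h.1.1, h.1.2, h.2⟩⟩
      have e4 : {d | L.tl d = G y ∧ L.ty d = t ∧ L.hd d = z'} =
          {d | d ∈ {d | L.tl d = G y ∧ L.ty d = t} ∧ G (bev L d₀ F q d) = z'} := by
        ext d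
        constructor
        · rintro ⟨h6, h7, h8⟩
          exact ⟨⟨h6, h7⟩, by rw [hbev q a1 a2 d (by rw [h6]; exact h4)]; exact h8⟩
        · rintro ⟨⟨h6, h7⟩, h8⟩
          rw [hbev q a1 a2 d (by rw [h6]; exact h4)] at h8
          exact ⟨h6, h7, h8⟩
      unfold LS.M
      rw [e3, e4, e1, e2]
      refine Finset.sum_congr rfl fun z _ => ?_
      have h6 := h.st q (G y) h4 t z
      rw [h5] at h6
      unfold LS.M at h6
      have e5 : {d | d ∈ {d | L.tl d = y ∧ L.ty d = t} ∧ L.hd d = z} =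
          {d | L.tl d = y ∧ L.ty d = t ∧ L.hd d = z} := by
        ext d
        exact ⟨fun h => ⟨h.1.1, h.1.2, h.2⟩, fun h => ⟨⟨h.1, h.2.1⟩, h.2.2⟩⟩
      have e6 : {d | d ∈ {d | L.tl d = G y ∧ L.ty d = t} ∧ bev L d₀ F q d = z} =
          {d | L.tl d = G y ∧ L.ty d = t ∧ bev L d₀ F q d = z} := by
        ext d
        exact ⟨fun h => ⟨h.1.1, h.1.2, h.2⟩, fun h => ⟨⟨h.1, h.2.1⟩, h.2.2⟩⟩
      rw [e5, e6, h6]
  obtain ⟨y, hy⟩ := hB.ne
  have h4 := pl_redc hred hB hPL y hy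
  exact hne (comp_eq hA hB (hG y hy).1 h4)

end Pool.Agent.H24.GK
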