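import Pool.Agent.H24.GK.Side
import Pool.Agent.H24.GH.NCaseX

/-!
# JOB GK-23: a leaf type and a live type

`hpat_X'`: the proof of `hpat_X` (file `Pool.Agent.H24.GH.NCaseX`), where `hcn` is used only for the field `xg` of `GBase`. Here
`3 ≤ num (bar c)` (`ncaseX_num3`), so `2 ≤ supp (bar c) x` for EVERY `x` of the class `sc (bar c)`: otherwise
`M (bar c) x z = num (bar c) ≥ 3` for some `z` with `Dt (bar c) x z` (`supp_one`), and `M (bar c) x z = M c z x ≤ num c ≤ 2`. The class of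
`f (tl d₁, _)` is the class of `tl d₁`. (Replace `leaf_np` by this remark also.) Everything else is as before; `num c ≤ num (bar c)`.
`hr` is not needed.

`ndtA`: `exists_ndt` for the types `{t : T // ∃ x ∈ A, L.cl x = L.sc t}` (or for the types of `mLS L hA (trV L)`, with `m_conn1` and
`m_lfs`): the types with a source class which is met by `A`; `m_bar`. Two classes which are met by `A` are connected by types, since
`A` is connected. A live type `s` of this kind is live among these types (its walk stays there by `m_bar`), and conversely.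
A type `s'` of `L` with `sc s' = sc s` is again of this kind.
-/

namespace Pool.Agent.H24.GK

open Pool.Agent.H24.GG Pool.Agent.H24.GH Pool.Agent.H24.GI

variable {V D T K : Type} {L : LS V D T K} [Finite V] [Finite D] [Finite T]

theorem gk23_supp (h3 : ∀ x, 3 ≤ {d | L.tl d = x}.ncard) {c : T} (hc : Lfs L.sc (L.bar c))
    (h2 : L.num c ≤ 2) {x : V} (hx : L.cl x = L.sc (L.bar c)) : 2 ≤ supp L (L.bar c) x := by
  by_contra hno
  obtain ⟨z, hz⟩ := dt_exists hx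
  have h1 := supp_one (by omega) hz
  have h4 := ncaseX_num3 h3 hc
  have h5 := M_le (L := L) c z x
  rw [M_bar] at h1
  omega

theorem hpat_X' (h3 : ∀ x, 3 ≤ {d | L.tl d = x}.ncard) {c : T} (hc : Lfs L.sc (L.bar c))
    (hl : ∃ s, L.sc s = L.sc c ∧ TLive L.sc L.bar s)
    (hnd : ∀ s, L.sc s = L.sc c → TLive L.sc L.bar s ∨ Lfs L.sc (L.bar s))
    (h2 : L.num c ≤ 2) : ∃ k : Kt L, HPat k := by
  obtain ⟨P, iP, g, Ch, ch, κD, κc, tt, c₀, σ, hA, ht, hlf, hch, hσ, hσc, hcut⟩ :=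
    exists_sec h3 hc hl hnd
  obtain ⟨k₀, sd, κ, -, -, hu⟩ := exists_ukit L
  have hn3 := ncaseX_num3 h3 hc
  have hle : L.num c ≤ L.num (L.bar c) := by omega
  have hsp : ∀ x, L.cl x = L.sc (L.bar c) → 2 ≤ supp L (L.bar c) x := fun x hx =>
    gk23_supp h3 hc h2 hx
  have g1 : g.g c κD = κc c₀ := by
    rw [← hch]
    exact hA.c1 c₀
  have g2 : g.g (L.bar c) (κc c₀) = κD := by
    rw [g.inv, ← g1, Equiv.symm_apply_apply]
  have hcd : κc c₀ ≠ κD := hA.cd c₀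
  have hbc : L.bar (ch c₀) = L.bar c := by rw [hch]
  have hM : ∀ x z, 2 ≤ supp L (L.bar c) x → L.cl x = L.sc (L.bar c) →
      L.M (L.bar c) x z < L.num (L.bar c) := by
    intro x z hx _
    refine lt_of_le_of_ne (M_le _ _ _) fun h => ?_
    have := ncaseX_supp h
    omega
  refine ⟨sumKt (liftKt k₀ g) (liftKt (unitKt L) g), ?_⟩
  refine hp_fin (τ := L.bar c) (m := L.num (L.bar c)) rfl (Xg := fun x => 2 ≤ supp L (L.bar c) x)
    (by
      obtain ⟨x, hx⟩ := L.cls (L.bar c)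
      exact ⟨x, hsp x hx, hx⟩) hM ?_ ?_
  · intro x z x' hx hz hf
    have hcx : L.cl x = L.sc (L.bar c) := (dt_cl hz).1
    have h1 : L.M (L.bar c) x' z = L.num (L.bar c) := by
      rw [← hf.2 z]
      have h2 : {i : Fin (L.num (L.bar c)) | z = z} = Set.univ := by
        ext i
        simp
      rw [h2, Set.ncard_univ, Nat.card_eq_fintype_card, Fintype.card_fin]
    by_cases hxx : x = x'
    · rw [← hxx] at h1
      exact (hM x z hx hcx).ne h1
    · have h4 := M_two (L := L) (τ := c) (x := z) hxx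
      have h5 : L.M c z x' = L.num (L.bar c) := by rw [← M_bar, h1]
      have h6 : L.M c z x ≠ 0 := by
        rw [← M_bar]
        exact dt_iff.1 hz
      omega
  · intro x₀ hx₀ hcx₀
    obtain ⟨yt, hyt⟩ := dt_exists hcx₀
    obtain ⟨zt, hzt⟩ := ncaseX_zt hσ hσc x₀
    refine ⟨L.bar σ, yt, zt, ?_⟩
    have hs : SBase (sumKt (liftKt k₀ g) (liftKt (unitKt L) g)) (L.bar c) x₀
        (Sum.inl (κ x₀, κc c₀)) := by
      refine ⟨hcx₀, sum_ustar_inl (lift_ustar k₀ g (ukit_star (hu x₀)) (κc c₀)), ?_, ?_, ?_⟩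
      · intro d _ hd h
        have h1 : (Sum.inl (k₀.R d (κ x₀), g.g (L.ty d) (κc c₀)) :
            (k₀.Q × P) ⊕ (Unit × P)) = Sum.inl (κ x₀, κc c₀) := h
        have h2 : g.g (L.ty d) (κc c₀) = κc c₀ := congrArg Prod.snd (Sum.inl_injective h1)
        rw [hd, g2] at h2
        exact hcd h2.symm
      · intro d hd _
        refine sum_exact_inl (k₁ := liftKt k₀ g) (narr_ex_x hA h3 ht (hlf c₀) ?_)
        rw [hd, hbc]
        exact hcx₀
      · intro d d' hd hd' _ _ hne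
        refine sum_tie_inl (k₁ := liftKt k₀ g) (narr_tie_x hA h3 ht (hlf c₀) ?_ ?_ hne)
        · rw [hd, hbc]
          exact hcx₀
        · rw [hd, hd']
    obtain ⟨vb, hvb⟩ := L.cls c
    obtain ⟨d, d', hd1, hd1', hd2, hd2', hne⟩ := ncaseX_two hσ hσc hvb
    obtain ⟨hc1, hc2, hc3⟩ := hcut d d' (by rw [hd1, hd1']) hd2 hd2'
    have hcd' : L.cl (L.tl d) = L.sc (ch c₀) := by
      rw [hd1, hch]
      exact hvb
    have hcd'' : L.cl (L.tl d') = L.sc (ch c₀) := by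
      rw [hd1', hch]
      exact hvb
    have hb : PBase (sumKt (liftKt k₀ g) (liftKt (unitKt L) g)) vb (Sum.inl (κ vb, κD)) d d' := by
      refine ⟨sum_ustar_inl (lift_ustar k₀ g (ukit_star (hu vb)) κD), hd1, hd1', hne, ?_, ?_, ?_,
        ?_⟩
      · intro h
        have h1 : (Sum.inl (k₀.R d (κ vb), g.g (L.ty d) κD) :
            (k₀.Q × P) ⊕ (Unit × P)) = Sum.inl (κ vb, κD) := h
        have h2 : g.g (L.ty d) κD = κD := congrArg Prod.snd (Sum.inl_injective h1)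
        rw [hd2, g1] at h2
        exact hcd h2
      · exact sum_exact_inl (k₁ := liftKt k₀ g) (narr_ex_y hA h3 hlf hcd' hc1)
      · exact sum_exact_inl (k₁ := liftKt k₀ g) (narr_ex_y hA h3 hlf hcd'' hc2)
      · exact sum_tie_inl (k₁ := liftKt k₀ g)
          (narr_tie_y hA h3 hlf hcd' (by rw [hd1, hd1']) hne hc3)
    obtain ⟨d₁, ha1, ha2, ha3⟩ := hyt
    have hg : GBase (sumKt (liftKt k₀ g) (liftKt (unitKt L) g)) (L.bar c) x₀ yt
        (fun x => 2 ≤ supp L (L.bar c) x) (d₁, Sum.inr ((), κc c₀)) := by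
      refine ⟨ha3, ?_, ?_, ?_⟩
      · refine sum_exact_inr (k₂ := liftKt (unitKt L) g)
          (narr_ex_x (k := unitKt L) hA h3 ht (hlf c₀) ?_)
        rw [ha1, hbc]
        exact hcx₀
      · intro f e hfe
        refine hsp _ ?_
        rw [hfe.cls]
        show L.cl (L.tl d₁) = _
        rw [ha1]
        exact hcx₀
      · refine ⟨_, _, proj_el _, ?_⟩
        show (L.tl d₁, L.hd d₁) = (x₀, yt)
        rw [ha1, ha2]
    exact mk_ties hn3 rfl hs hb (by rw [hd2, L.bar_bar]) (by rw [hd2', L.bar_bar]) hzt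
      ⟨d₁, ha1, ha2, ha3⟩ hg

theorem ndtA {A : Set V} (hA : Comp L A)
    (hl : ∃ s, (∃ x ∈ A, L.cl x = L.sc s) ∧ TLive L.sc L.bar s)
    (hlf : ∃ s, (∃ x ∈ A, L.cl x = L.sc s) ∧ Lfs L.sc s) :
    ∃ c, (∃ x ∈ A, L.cl x = L.sc c) ∧ Lfs L.sc (L.bar c) ∧
      (∃ s, L.sc s = L.sc c ∧ TLive L.sc L.bar s) ∧
      ∀ s, L.sc s = L.sc c → TLive L.sc L.bar s ∨ Lfs L.sc (L.bar s) := by
  have up : ∀ (s : T) (h : ∃ x ∈ A, L.cl x = L.sc s), TLive L.sc L.bar s →
      TLive (mLS L hA (trV L)).sc (mLS L hA (trV L)).bar ⟨(s, ()), h⟩ := by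
    rintro s h ⟨w, h0, hw⟩
    have hk : ∀ i, ∃ x ∈ A, L.cl x = L.sc (w i) := by
      intro i
      induction i with
      | zero =>
        rw [h0]
        exact h
      | succ n ih =>
        obtain ⟨x, hx, hc⟩ := m_bar hA ih
        exact ⟨x, hx, by rw [hc, (hw n).1]⟩
    exact ⟨fun i => ⟨(w i, ()), hk i⟩, Subtype.ext (Prod.ext h0 rfl), fun i =>
      ⟨Prod.ext (hw i).1 rfl, fun h1 => (hw i).2 (congrArg (fun t => t.1.1) h1)⟩⟩
  have dn : ∀ s : MT L A Unit, TLive (mLS L hA (trV L)).sc (mLS L hA (trV L)).bar s →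
      TLive L.sc L.bar s.1.1 := by
    rintro s ⟨w, h0, hw⟩
    exact ⟨fun i => (w i).1.1, congrArg (fun t => t.1.1) h0, fun i =>
      ⟨congrArg Prod.fst (hw i).1, fun h1 => (hw i).2 (Subtype.ext (Prod.ext h1 rfl))⟩⟩
  have hc : ∀ s s', Relation.ReflTransGen
      (fun a b => ∃ t, (mLS L hA (trV L)).sc t = a ∧
        (mLS L hA (trV L)).sc ((mLS L hA (trV L)).bar t) = b)
      ((mLS L hA (trV L)).sc s) ((mLS L hA (trV L)).sc s') := by
    intro s s'
    obtain ⟨x, hx⟩ := (mLS L hA (trV L)).cls s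
    obtain ⟨y, hy⟩ := (mLS L hA (trV L)).cls s'
    rw [← hx, ← hy]
    refine Relation.ReflTransGen.lift (mLS L hA (trV L)).cl ?_ x y (m_conn1 hA x y)
    rintro a b ⟨d, h1, h2⟩
    refine ⟨(mLS L hA (trV L)).ty d, ?_, ?_⟩
    · rw [← h1, (mLS L hA (trV L)).cl_tl]
    · rw [← h2]
      show _ = (mLS L hA (trV L)).cl ((mLS L hA (trV L)).tl ((mLS L hA (trV L)).rv d))
      rw [(mLS L hA (trV L)).cl_tl, (mLS L hA (trV L)).ty_rv]
  obtain ⟨s₁, hs₁, hs₂⟩ := hl
  obtain ⟨s₃, hs₃, hs₄⟩ := hlf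
  obtain ⟨c, hc1, ⟨s, hs, hsl⟩, hc3⟩ := exists_ndt (mLS L hA (trV L)).bar_bar hc
    ⟨⟨(s₁, ()), hs₁⟩, up s₁ hs₁ hs₂⟩ ⟨⟨(s₃, ()), hs₃⟩, (m_lfs hA (trV L)).2 hs₄⟩
  refine ⟨c.1.1, c.2, (m_lfs hA (trV L)).1 hc1, ⟨s.1.1, congrArg Prod.fst hs, dn s hsl⟩, ?_⟩
  intro s' hs'
  have hk : ∃ x ∈ A, L.cl x = L.sc s' := by
    obtain ⟨x, hx, h⟩ := c.2
    exact ⟨x, hx, h.trans hs'.symm⟩
  rcases hc3 ⟨(s', ()), hk⟩ (Prod.ext hs' rfl) with h | h
  · exact Or.inl (dn _ h)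
  · exact Or.inr ((m_lfs hA (trV L)).1 h)

end Pool.Agent.H24.GK
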