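import Pool.Agent.H24.GK.RNet

/-!
# JOB GK-4: closed rings: bridges are mapped to bridges, and no other darts are

`brd L A`: the darts of `A` which are bridges.

`ring_bridge'`. As `ring_bridge` (file `Pool.Agent.H24.GI.RingK`), with `bridge_img'` instead of `bridge_img`: let `d` be a bridge,
`U ∋ tl d`, `hd d ∉ U`, `(bd L U).ncard ≤ 1`, so `bd L U = {d}`. `d ≠ d₀, rv d₀`, and `tl d₀ ∈ U ↔ hd d₀ ∈ U` (`d₀ ≠ d`, `rv d₀ ≠ d`). If
`tl d₀ ∉ U` let `S = U × {q}`, otherwise `S` is the complement of `Uᶜ × {q}`. In both cases `(d, q)` is the only dart which leaves `S`.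
`closed_nb`. Let `N = rNet (permKt L d₀ s) hA` with the uncut labelling (`r_el`), all labels in `B`. As in `pl_aut`: `nf` is constant on
`B`, `nf = r`; `A.ncard * |Q| = r * B.ncard`. The number of the darts `δ` of `N` such that `evt δ` is not `CutV 2` is
`r * (brd L B).ncard` (for every `t, x, y`: `nf x * M t x y` darts of type `t` have the value `(x, y)`, `EL.star`). By `ring_bridge'` the
`(d, q)`, `d ∈ brd L A`, are among them: `(brd L A).ncard * |Q| ≤ r * (brd L B).ncard`. By `hd`: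
`r * (brd L B).ncard * A.ncard ≤ r * (brd L A).ncard * B.ncard = (brd L A).ncard * A.ncard * |Q|`, so (`0 < A.ncard`)
`r * (brd L B).ncard ≤ (brd L A).ncard * |Q|`. So equality holds, the two sets of darts agree, and the darts `(d₀, q)` are not in
them. The second statement: `r * (brd L B).ncard = (brd L A).ncard * |Q|`, multiply by `B.ncard`, `r * B.ncard = A.ncard * |Q|`.
-/

namespace Pool.Agent.H24.GK

open Pool.Agent.H24.GG Pool.Agent.H24.GH Pool.Agent.H24.GI

variable {V D T K : Type} {L : LS V D T K} [Finite V] [Finite D]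

/-- the bridges of `A` -/
def brd (L : LS V D T K) (A : Set V) : Set D := {d | L.tl d ∈ A ∧ ¬ Cut L 2 (L.tl d) {L.hd d}}

omit [Finite V] [Finite D] in
theorem cnb_const {W Δ : Type} [Finite W] [Finite Δ] {N : Net L W Δ} {f : W → V} {e : Δ → V}
    (h : EL N ∅ f e) {x y : V} (hxy : Cd L x y) : {w | f w = x}.ncard = {w | f w = y}.ncard := by
  have key : ∀ a b, (∃ d, L.tl d = a ∧ L.hd d = b) →
      {w | f w = a}.ncard = {w | f w = b}.ncard := by
    rintro a b ⟨d, h1, h2⟩
    let g : Vt L Unit := ⟨fun _ => Equiv.refl _, fun _ => rfl⟩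
    have h3 := flow_unc h (pos := fun _ : W => ()) (g := g) (fun _ => rfl) (t := L.ty d) (x := a)
      (y := b) (p := ()) ⟨d, h1, h2, rfl⟩ (fun δ _ _ => ⟨Set.notMem_empty _, Set.notMem_empty _⟩)
    unfold nq at h3
    have h4 : ∀ z, {w : W | (() : Unit) = () ∧ f w = z} = {w | f w = z} := by
      intro z
      ext w
      exact ⟨fun h => h.2, fun h => ⟨rfl, h⟩⟩
    have h5 := h4 a
    have h6 := h4 b
    have h7 : ({w : W | (() : Unit) = () ∧ f w = a}.ncard : ℤ) =
        ({w : W | (() : Unit) = () ∧ f w = b}.ncard : ℤ) := h3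
    rw [h5, h6] at h7
    exact_mod_cast h7
  induction hxy with
  | refl => rfl
  | tail _ h2 ih => exact ih.trans (key _ _ h2)

/-- counting the darts of a net with values over a component -/
theorem cnb_cnt {B : Set V} (hB : Comp L B) {W Δ : Type} [Finite W] [Finite Δ] {N : Net L W Δ}
    {f : W → V} {e : Δ → V} (h : EL N ∅ f e) (hfB : ∀ w, f w ∈ B) :
    ∃ m, Nat.card W = B.ncard * m ∧ ∀ P : V × V → Prop,
      {δ | P (evt N f e δ)}.ncard = {d | L.tl d ∈ B ∧ P (L.tl d, L.hd d)}.ncard * m := by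
  classical
  have := Fintype.ofFinite V
  have := Fintype.ofFinite D
  have := Fintype.ofFinite W
  have := Fintype.ofFinite Δ
  obtain ⟨x₀, hx₀⟩ := hB.ne
  have hset : ∀ x, {w | f w = x}.ncard = (Finset.univ.filter fun w : W => f w = x).card := by
    intro x
    rw [← Set.ncard_coe_finset]
    congr 1
    ext w
    simp
  refine ⟨{w | f w = x₀}.ncard, ?_, ?_⟩
  · have h6 := Finset.card_eq_sum_card_fiberwise (f := f) (s := (Finset.univ : Finset W))
      (t := (Finset.univ.filter fun x : V => x ∈ B)) (by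
        intro w _
        exact Finset.mem_coe.2 (Finset.mem_filter.2 ⟨Finset.mem_univ _, hfB w⟩))
    rw [Finset.sum_congr rfl (g := fun _ => {w | f w = x₀}.ncard), Finset.sum_const,
      smul_eq_mul, Finset.card_univ, ← Nat.card_eq_fintype_card] at h6
    · rw [h6]
      congr 1
      rw [← Set.ncard_coe_finset]
      congr 1
      ext w
      simp
    · intro x hx
      rw [← hset]
      exact cnb_const h (hB.cn _ (Finset.mem_filter.1 hx).2 _ hx₀)
  · intro P
    obtain ⟨Ψ, hΨ⟩ := hon_of_el h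
    have hev : ∀ δ, evt N f e δ = (L.tl (Ψ δ), L.hd (Ψ δ)) := by
      intro δ
      unfold evt
      rw [hΨ.tl, h.unc δ (Set.notMem_empty _) (Set.notMem_empty _)]
      unfold LS.hd
      rw [← hΨ.rv, hΨ.tl]
      rfl
    have hfd : ∀ d, L.tl d ∈ B →
        (Finset.univ.filter fun δ : Δ => Ψ δ = d).card = {w | f w = x₀}.ncard := by
      intro d hdB
      rw [← cnb_const h (hB.cn _ hdB _ hx₀), hset]
      refine Finset.card_bij (fun δ _ => N.tl δ) ?_ ?_ ?_
      · intro δ hδ
        have h4 : Ψ δ = d := (Finset.mem_filter.1 hδ).2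
        refine Finset.mem_filter.2 ⟨Finset.mem_univ _, ?_⟩
        rw [← hΨ.tl, h4]
      · intro δ hδ δ' hδ' h5
        have h4 : Ψ δ = d := (Finset.mem_filter.1 hδ).2
        have h4' : Ψ δ' = d := (Finset.mem_filter.1 hδ').2
        exact (hΨ.bij _).injOn h5 rfl (h4.trans h4'.symm)
      · intro w hw
        have h4 : f w = L.tl d := (Finset.mem_filter.1 hw).2
        obtain ⟨δ, b1, b2⟩ := (hΨ.bij w).surjOn (show d ∈ {d | L.tl d = f w} from h4.symm)
        exact ⟨δ, Finset.mem_filter.2 ⟨Finset.mem_univ _, b2⟩, b1⟩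
    let E : Finset D := Finset.univ.filter fun d => L.tl d ∈ B ∧ P (L.tl d, L.hd d)
    have h4 : (Finset.univ.filter fun δ : Δ => Ψ δ ∈ E).card =
        E.card * {w | f w = x₀}.ncard := by
      have h6 := Finset.card_eq_sum_card_fiberwise (f := Ψ)
        (s := Finset.univ.filter fun δ : Δ => Ψ δ ∈ E) (t := E) (by
          intro δ hδ
          exact Finset.mem_coe.2 (Finset.mem_filter.1 hδ).2)
      rw [h6, Finset.sum_congr rfl (g := fun _ => {w | f w = x₀}.ncard), Finset.sum_const,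
        smul_eq_mul]
      intro d hd
      rw [← hfd d (Finset.mem_filter.1 hd).2.1, Finset.filter_filter]
      congr 1
      ext δ
      simp only [Finset.mem_filter, Finset.mem_univ, true_and]
      constructor
      · exact fun h7 => h7.2
      · intro h7
        exact ⟨by rw [h7]; exact hd, h7⟩
    have h5 : {δ | P (evt N f e δ)} =
        ((Finset.univ.filter fun δ : Δ => Ψ δ ∈ E : Finset Δ) : Set Δ) := by
      ext δ
      have h6 : L.tl (Ψ δ) ∈ B := by
        rw [hΨ.tl]
        exact hfB _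
      simp only [Set.mem_ofPred_eq, Finset.coe_filter, Finset.mem_univ, true_and, E,
        Finset.mem_filter]
      rw [hev]
      exact ⟨fun h7 => ⟨h6, h7⟩, fun h7 => h7.2⟩
    have h6 : {d | L.tl d ∈ B ∧ P (L.tl d, L.hd d)} = (E : Set D) := by
      ext d
      simp [E]
    rw [h5, h6, Set.ncard_coe_finset, Set.ncard_coe_finset, h4]

theorem ring_bridge' {d₀ : D} {Q : Type} [Finite Q] {s : Equiv.Perm Q}
    (h2 : Cut L 2 (L.tl d₀) {L.hd d₀}) {f : V × Q → V} {e : D × Q → V}
    (h : EL (permKt L d₀ s).net ∅ f e) {d : D} (hd : ¬ Cut L 2 (L.tl d) {L.hd d}) (q : Q) :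
    ¬ CutV L 2 (evt (permKt L d₀ s).net f e (d, q)) := by
  have h3 : d ≠ d₀ := by
    rintro rfl
    exact hd h2
  have h4 : d ≠ L.rv d₀ := by
    rintro rfl
    rw [hon_hd_rv] at hd
    exact hd (cut_symm h2)
  unfold Cut at hd
  push Not at hd
  obtain ⟨S, hS1, hS2, hS3⟩ := hd
  have hS2' : L.hd d ∉ S := hS2 _ rfl
  have hbd : ∀ d', L.tl d' ∈ S → L.hd d' ∉ S → d' = d := by
    intro d' b1 b2
    by_contra hne
    have h5 : ({d', d} : Set D) ⊆ bd L S := by
      rintro z (rfl | rfl)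
      · exact ⟨b1, b2⟩
      · exact ⟨hS1, hS2'⟩
    have h6 := Set.ncard_le_ncard h5 (Set.toFinite _)
    rw [Set.ncard_pair hne] at h6
    omega
  have hcr : L.tl d₀ ∈ S ↔ L.hd d₀ ∈ S := by
    constructor
    · intro b1
      by_contra b2
      exact h3 (hbd d₀ b1 b2).symm
    · intro b1
      by_contra b2
      have h5 : L.rv d₀ = d := hbd (L.rv d₀) b1 (by
        rw [hon_hd_rv]
        exact b2)
      exact h4 h5.symm
  by_cases hin : L.tl d₀ ∈ S
  · have hin' := hcr.1 hin
    refine bridge_img' h (S := {w | w.1 ∈ S ∨ w.2 ≠ q}) (Or.inl hS1) ?_ ?_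
    · rintro (b1 | b1)
      · exact hS2' b1
      · apply b1
        change permR L d₀ s d q = q
        rw [ringk_other L s h3 h4]
        rfl
    · rintro ⟨d', q'⟩ b1 b2
      have b3 : L.hd d' ∉ S := fun h5 => b2 (Or.inl h5)
      have b4 : permR L d₀ s d' q' = q := by
        by_contra h5
        exact b2 (Or.inr h5)
      have b5 : d' ≠ d₀ := by
        rintro rfl
        exact b3 hin'
      have b6 : d' ≠ L.rv d₀ := by
        rintro rfl
        rw [hon_hd_rv] at b3
        exact b3 hin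
      rw [ringk_other L s b5 b6] at b4
      have b7 : q' = q := b4
      subst b7
      have b8 : L.tl d' ∈ S := by
        rcases b1 with b1 | b1
        · exact b1
        · exact absurd rfl b1
      rw [hbd d' b8 b3]
  · have hin' : L.hd d₀ ∉ S := fun h5 => hin (hcr.2 h5)
    refine bridge_img' h (S := {w | w.1 ∈ S ∧ w.2 = q}) ⟨hS1, rfl⟩ ?_ ?_
    · rintro ⟨b1, -⟩
      exact hS2' b1
    · rintro ⟨d', q'⟩ ⟨b1, b2⟩ b3
      have b1' : L.tl d' ∈ S := b1
      have b2' : q' = q := b2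
      subst b2'
      have b5 : d' ≠ d₀ := by
        rintro rfl
        exact hin b1'
      have b6 : d' ≠ L.rv d₀ := by
        rintro rfl
        exact hin' b1'
      have b7 : L.hd d' ∉ S := by
        intro h5
        apply b3
        refine ⟨h5, ?_⟩
        change permR L d₀ s d' q' = q'
        rw [ringk_other L s b5 b6]
        rfl
      rw [hbd d' b1' b7]

theorem closed_nb {A B : Set V} (hA : Comp L A) (hB : Comp L B) {d₀ : D} (h0 : L.tl d₀ ∈ A)
    (h2 : Cut L 2 (L.tl d₀) {L.hd d₀})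
    (hd : (brd L B).ncard * A.ncard ≤ (brd L A).ncard * B.ncard) {Q : Type} [Finite Q]
    [Nonempty Q] {s : Equiv.Perm Q} {f : V × Q → V} {e : D × Q → V}
    (h : EL (permKt L d₀ s).net ∅ f e) (hfB : ∀ x ∈ A, ∀ q, f (x, q) ∈ B) :
    (∀ q, CutV L 2 (evt (permKt L d₀ s).net f e (d₀, q))) ∧
      (brd L B).ncard * A.ncard = (brd L A).ncard * B.ncard := by
  have h1 := r_el hA h
  have h1' : EL (rNet (permKt L d₀ s) hA) ∅ (fun w => f w.1) (fun δ => e δ.1) := by
    have h3 : {δ : {δ : D × (permKt L d₀ s).Q // L.tl δ.1 ∈ A} |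
        δ.1 ∈ (∅ : Set (D × (permKt L d₀ s).Q))} = ∅ := by
      ext δ
      exact ⟨fun h4 => absurd h4 (Set.notMem_empty _), fun h4 => absurd h4 (Set.notMem_empty _)⟩
    rw [h3] at h1
    exact h1
  obtain ⟨m, hm1, hm2⟩ := cnb_cnt hB h1' (fun w => hfB w.1.1 w.2 w.1.2)
  have hm3 := hm2 (fun α => ¬ CutV L 2 α)
  have hX : {d | L.tl d ∈ B ∧ ¬ CutV L 2 (L.tl d, L.hd d)} = brd L B := rfl
  rw [hX] at hm3
  have hW : Nat.card {w : V × Q // w.1 ∈ A} = A.ncard * Nat.card Q := by
    have h3 : {w : V × Q | w.1 ∈ A} = A ×ˢ (Set.univ : Set Q) := by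
      ext w
      exact ⟨fun h4 => ⟨h4, trivial⟩, fun h4 => h4.1⟩
    have h4 : Nat.card {w : V × Q // w.1 ∈ A} = ({w : V × Q | w.1 ∈ A}).ncard :=
      Nat.card_coe_set_eq _
    rw [h4, h3, Set.ncard_prod, Set.ncard_univ]
  have hW' : A.ncard * Nat.card Q = B.ncard * m := by
    rw [← hW]
    exact hm1
  have hYX : {δ : {δ : D × (permKt L d₀ s).Q // L.tl δ.1 ∈ A} | δ.1.1 ∈ brd L A} ⊆
      {δ | ¬ CutV L 2 (evt (rNet (permKt L d₀ s) hA) (fun w => f w.1) (fun δ => e δ.1) δ)} := by
    rintro ⟨⟨d, q⟩, hδ⟩ hd'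
    exact ring_bridge' h2 h hd'.2 q
  have hY : {δ : {δ : D × (permKt L d₀ s).Q // L.tl δ.1 ∈ A} | δ.1.1 ∈ brd L A}.ncard =
      (brd L A).ncard * Nat.card Q := by
    have h3 : (Subtype.val '' {δ : {δ : D × (permKt L d₀ s).Q // L.tl δ.1 ∈ A} |
        δ.1.1 ∈ brd L A} : Set (D × Q)) = brd L A ×ˢ (Set.univ : Set Q) := by
      ext δ
      constructor
      · rintro ⟨δ', h4, rfl⟩
        exact ⟨h4, trivial⟩
      · rintro ⟨h4, -⟩
        exact ⟨⟨δ, h4.1⟩, h4, rfl⟩
    have h4 : (Subtype.val '' {δ : {δ : D × (permKt L d₀ s).Q // L.tl δ.1 ∈ A} |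
        δ.1.1 ∈ brd L A} : Set (D × Q)).ncard =
        {δ : {δ : D × (permKt L d₀ s).Q // L.tl δ.1 ∈ A} | δ.1.1 ∈ brd L A}.ncard :=
      Set.ncard_image_of_injective _ Subtype.val_injective
    rw [← h4, h3, Set.ncard_prod, Set.ncard_univ]
  have hQ : 0 < Nat.card Q := Nat.card_pos
  have hA0 : 0 < A.ncard := (Set.ncard_pos (Set.toFinite _)).2 hA.ne
  have hle : (brd L B).ncard * m ≤ (brd L A).ncard * Nat.card Q := by
    refine le_of_mul_le_mul_left (a := A.ncard) ?_ hA0
    calc A.ncard * ((brd L B).ncard * m) = ((brd L B).ncard * A.ncard) * m := by ring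
      _ ≤ ((brd L A).ncard * B.ncard) * m := Nat.mul_le_mul_right _ hd
      _ = (brd L A).ncard * (B.ncard * m) := by ring
      _ = A.ncard * ((brd L A).ncard * Nat.card Q) := by rw [← hW']; ring
  have hge : (brd L A).ncard * Nat.card Q ≤ (brd L B).ncard * m := by
    rw [← hY, ← hm3]
    exact Set.ncard_le_ncard hYX (Set.toFinite _)
  have heq : (brd L A).ncard * Nat.card Q = (brd L B).ncard * m := le_antisymm hge hle
  constructor
  · intro q
    have h6 := Set.eq_of_subset_of_ncard_le hYX (by rw [hm3, hY, heq]) (Set.toFinite _)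
    by_contra h7
    have h8 : (⟨(d₀, q), h0⟩ : {δ : D × (permKt L d₀ s).Q // L.tl δ.1 ∈ A}) ∈
        {δ : {δ : D × (permKt L d₀ s).Q // L.tl δ.1 ∈ A} | δ.1.1 ∈ brd L A} := by
      rw [h6]
      exact h7
    exact h8.2 h2
  · refine Nat.eq_of_mul_eq_mul_left hQ ?_
    calc Nat.card Q * ((brd L B).ncard * A.ncard) = (brd L B).ncard * (A.ncard * Nat.card Q) := by
          ring
      _ = ((brd L B).ncard * m) * B.ncard := by rw [hW']; ring
      _ = Nat.card Q * ((brd L A).ncard * B.ncard) := by rw [← heq]; ring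

end Pool.Agent.H24.GK
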