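import Pool.Agent.H24.GI.Ex
import Pool.Agent.H24.GG.Volt

/-!
# Components of a label structure; kits over a component

`Comp L A`: `A` is a component. `mLS L hA g`: the label structure over the closed set `A`, lifted by the voltages `g : Vt L P`; the
vertices are `(x, p)`, `x ∈ A`. `dnKt hA g k`: the kit of `L` for a kit of `mLS L hA g` (trivial outside of `A`).
`m_up`: a labelling of the kit of `L`, cut at darts with labels in `A`, gives a labelling of the kit. `m_dn`: the converse for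
uncut labellings.
-/

namespace Pool.Agent.H24.GK

open Pool.Agent.H24.GG Pool.Agent.H24.GH Pool.Agent.H24.GI

variable {V D T K : Type} {L : LS V D T K}

/-- `x` and `y` are connected -/
def Cd (L : LS V D T K) (x y : V) : Prop :=
  Relation.ReflTransGen (fun a b => ∃ d, L.tl d = a ∧ L.hd d = b) x y

/-- `A` is a component -/
structure Comp (L : LS V D T K) (A : Set V) : Prop where
  ne : A.Nonempty
  cl : ∀ d, L.tl d ∈ A → L.hd d ∈ A
  cn : ∀ x ∈ A, ∀ y ∈ A, Cd L x y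

theorem hd_rv (L : LS V D T K) (d : D) : L.hd (L.rv d) = L.tl d := by
  show L.tl (L.rv (L.rv d)) = L.tl d
  rw [L.rv_rv]

theorem cd_symm {x y : V} (h : Cd L x y) : Cd L y x := by
  induction h with
  | refl => exact Relation.ReflTransGen.refl
  | tail _ h2 ih =>
    obtain ⟨d, h3, h4⟩ := h2
    exact Relation.ReflTransGen.head ⟨L.rv d, h4, by rw [hd_rv, h3]⟩ ih

theorem cd_trans {x y z : V} (h : Cd L x y) (h' : Cd L y z) : Cd L x z := h.trans h'

theorem cd_dart (d : D) : Cd L (L.tl d) (L.hd d) := Relation.ReflTransGen.single ⟨d, rfl, rfl⟩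

/-- the component of a vertex -/
theorem comp_of (x : V) : Comp L {y | Cd L x y} where
  ne := ⟨x, Relation.ReflTransGen.refl⟩
  cl := fun d h => cd_trans h (cd_dart d)
  cn := fun _ hy _ hz => cd_trans (cd_symm hy) hz

theorem comp_cd {A : Set V} (hA : Comp L A) {x y : V} (hx : x ∈ A) (h : Cd L x y) : y ∈ A := by
  induction h with
  | refl => exact hx
  | tail _ h2 ih =>
    obtain ⟨d, h3, h4⟩ := h2
    rw [← h4]
    exact hA.cl d (by rw [h3]; exact ih)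

theorem comp_eq {A B : Set V} (hA : Comp L A) (hB : Comp L B) {x : V} (hx : x ∈ A) (hx' : x ∈ B) :
    A = B := by
  ext y
  exact ⟨fun h => comp_cd hB hx' (hA.cn x hx y h), fun h => comp_cd hA hx (hB.cn x hx' y h)⟩

theorem comp_tl {A : Set V} (hA : Comp L A) {d : D} (h : L.hd d ∈ A) : L.tl d ∈ A := by
  have h1 := hA.cl (L.rv d) h
  rwa [hd_rv] at h1

theorem comp_dt {A : Set V} (hA : Comp L A) {t : T} {x y : V} (h : Dt L t x y) (hx : x ∈ A) :
    y ∈ A := by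
  obtain ⟨d, h1, h2, -⟩ := h
  rw [← h2]
  exact hA.cl d (by rw [h1]; exact hx)

/-! ## the lift of a component -/

/-- the vertices -/
abbrev MV (A : Set V) (P : Type) : Type := {x : V × P // x.1 ∈ A}

/-- the darts -/
abbrev MD (L : LS V D T K) (A : Set V) (P : Type) : Type := {d : D × P // L.tl d.1 ∈ A}

/-- the types -/
abbrev MT (L : LS V D T K) (A : Set V) (P : Type) : Type :=
  {t : T × P // ∃ x ∈ A, L.cl x = L.sc t.1}

theorem m_bar {A : Set V} (hA : Comp L A) {t : T} (h : ∃ x ∈ A, L.cl x = L.sc t) :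
    ∃ x ∈ A, L.cl x = L.sc (L.bar t) := by
  obtain ⟨x, hx, hc⟩ := h
  obtain ⟨y, hy⟩ := dt_exists hc
  exact ⟨y, comp_dt hA hy hx, (dt_cl hy).2⟩

/-- the lift of a component -/
def mLS (L : LS V D T K) {A : Set V} (hA : Comp L A) {P : Type} (g : Vt L P) :
    LS (MV A P) (MD L A P) (MT L A P) (K × P) where
  tl d := ⟨(L.tl d.1.1, d.1.2), d.2⟩
  rv d := ⟨(L.rv d.1.1, g.g (L.ty d.1.1) d.1.2), hA.cl _ d.2⟩
  ty d := ⟨(L.ty d.1.1, d.1.2), L.tl d.1.1, d.2, L.cl_tl _⟩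
  bar t := ⟨(L.bar t.1.1, g.g t.1.1 t.1.2), m_bar hA t.2⟩
  cl x := (L.cl x.1.1, x.1.2)
  sc t := (L.sc t.1.1, t.1.2)
  num t := L.num t.1.1
  rv_rv d := by
    apply Subtype.ext
    show (L.rv (L.rv d.1.1), g.g (L.ty (L.rv d.1.1)) (g.g (L.ty d.1.1) d.1.2)) = d.1
    rw [L.rv_rv, L.ty_rv, g.inv, Equiv.symm_apply_apply]
  rv_ne d h := L.rv_ne d.1.1 (congrArg (fun d => d.1.1) h)
  ty_rv d := by
    apply Subtype.ext
    show (L.ty (L.rv d.1.1), g.g (L.ty d.1.1) d.1.2) = _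
    rw [L.ty_rv]
  bar_bar t := by
    apply Subtype.ext
    show (L.bar (L.bar t.1.1), g.g (L.bar t.1.1) (g.g t.1.1 t.1.2)) = t.1
    rw [L.bar_bar, g.inv, Equiv.symm_apply_apply]
  cl_tl d := Prod.ext (L.cl_tl d.1.1) rfl
  num_eq := by
    rintro ⟨⟨x, p⟩, hx⟩ ⟨⟨t, p'⟩, ht⟩ h
    rw [Prod.mk.injEq] at h
    obtain ⟨h1, h2⟩ := h
    have h2' : p = p' := h2
    subst h2'
    rw [← L.num_eq x t h1]
    refine Set.ncard_congr (fun d _ => d.1.1) ?_ ?_ ?_
    · rintro ⟨⟨d, c⟩, hd⟩ ⟨h2, h3⟩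
      exact ⟨congrArg (fun x => x.1.1) h2, congrArg (fun x => x.1.1) h3⟩
    · rintro ⟨⟨d, c⟩, hd⟩ ⟨⟨d', c'⟩, hd'⟩ ⟨h2, -⟩ ⟨h3, -⟩ (h4 : d = d')
      have h5 : c = p := congrArg (fun x => x.1.2) h2
      have h6 : c' = p := congrArg (fun x => x.1.2) h3
      subst h4 h5 h6
      rfl
    · rintro d ⟨h2, h3⟩
      refine ⟨⟨(d, p), ?_⟩, ⟨?_, ?_⟩, rfl⟩
      · show L.tl d ∈ A
        rw [h2]
        exact hx
      · exact Subtype.ext (Prod.ext h2 rfl)
      · exact Subtype.ext (Prod.ext h3 rfl)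
  num_pos t := L.num_pos t.1.1
  cls t := by
    obtain ⟨x, hx, hc⟩ := t.2
    exact ⟨⟨(x, t.1.2), hx⟩, Prod.ext hc rfl⟩

variable {A : Set V} (hA : Comp L A) {P : Type} (g : Vt L P)

theorem m_hd (d : MD L A P) :
    (mLS L hA g).hd d = ⟨(L.hd d.1.1, g.g (L.ty d.1.1) d.1.2), hA.cl _ d.2⟩ := rfl

theorem m_dt {t : MT L A P} {x y : MV A P} :
    Dt (mLS L hA g) t x y ↔ Dt L t.1.1 x.1.1 y.1.1 ∧ x.1.2 = t.1.2 ∧ y.1.2 = g.g t.1.1 t.1.2 := by
  constructor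
  · rintro ⟨d, rfl, rfl, rfl⟩
    exact ⟨⟨d.1.1, rfl, rfl, rfl⟩, rfl, rfl⟩
  · rintro ⟨⟨d, h1, h2, h3⟩, h4, h5⟩
    refine ⟨⟨(d, t.1.2), ?_⟩, ?_, ?_, ?_⟩
    · show L.tl d ∈ A
      rw [h1]
      exact x.2
    · exact Subtype.ext (Prod.ext h1 h4.symm)
    · rw [m_hd]
      refine Subtype.ext (Prod.ext h2 ?_)
      show g.g (L.ty d) t.1.2 = y.1.2
      rw [h3, h5]
    · exact Subtype.ext (Prod.ext h3 rfl)

theorem m_M {t : MT L A P} {x y : MV A P} (h1 : x.1.2 = t.1.2) (h2 : y.1.2 = g.g t.1.1 t.1.2) :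
    (mLS L hA g).M t x y = L.M t.1.1 x.1.1 y.1.1 := by
  unfold LS.M
  refine Set.ncard_congr (fun d _ => d.1.1) ?_ ?_ ?_
  · rintro d ⟨h3, h4, h5⟩
    rw [m_hd] at h5
    exact ⟨congrArg (fun x => x.1.1) h3, congrArg (fun x => x.1.1) h4, congrArg (fun x => x.1.1) h5⟩
  · rintro ⟨⟨d, c⟩, hd⟩ ⟨⟨d', c'⟩, hd'⟩ ⟨h3, -⟩ ⟨h4, -⟩ (h5 : d = d')
    have h6 : c = x.1.2 := congrArg (fun x => x.1.2) h3
    have h7 : c' = x.1.2 := congrArg (fun x => x.1.2) h4
    have h8 : c = c' := h6.trans h7.symm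
    subst h5 h8
    rfl
  · rintro d ⟨h3, h4, h5⟩
    refine ⟨⟨(d, t.1.2), ?_⟩, ⟨?_, ?_, ?_⟩, rfl⟩
    · show L.tl d ∈ A
      rw [h3]
      exact x.2
    · exact Subtype.ext (Prod.ext h3 h1.symm)
    · exact Subtype.ext (Prod.ext h4 rfl)
    · rw [m_hd]
      refine Subtype.ext (Prod.ext h5 ?_)
      show g.g (L.ty d) t.1.2 = y.1.2
      rw [h4, h2]

theorem m_M_zero {t : MT L A P} {x y : MV A P} (h : ¬ (x.1.2 = t.1.2 ∧ y.1.2 = g.g t.1.1 t.1.2)) :
    (mLS L hA g).M t x y = 0 := by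
  unfold LS.M
  have h1 : {d | (mLS L hA g).tl d = x ∧ (mLS L hA g).ty d = t ∧ (mLS L hA g).hd d = y} = ∅ := by
    ext d
    simp only [Set.mem_setOf_eq, Set.mem_empty_iff_false, iff_false]
    rintro ⟨rfl, rfl, rfl⟩
    exact h ⟨rfl, rfl⟩
  rw [h1, Set.ncard_empty]

open Classical in
/-- the permutations of `dnKt` -/
noncomputable def dnR (k : Kt (mLS L hA g)) (d : D) : Equiv.Perm (P × k.Q) :=
  if h : L.tl d ∈ A then
    { toFun := fun z => (g.g (L.ty d) z.1, k.R ⟨(d, z.1), h⟩ z.2)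
      invFun := fun z => ((g.g (L.ty d)).symm z.1,
        (k.R ⟨(d, (g.g (L.ty d)).symm z.1), h⟩).symm z.2)
      left_inv := by
        rintro ⟨p, q⟩
        apply Prod.ext
        · exact Equiv.symm_apply_apply _ _
        · show (k.R ⟨(d, (g.g (L.ty d)).symm (g.g (L.ty d) p)), h⟩).symm (k.R ⟨(d, p), h⟩ q) = q
          have h1 : (⟨(d, (g.g (L.ty d)).symm (g.g (L.ty d) p)), h⟩ : MD L A P) = ⟨(d, p), h⟩ :=
            Subtype.ext (Prod.ext rfl (Equiv.symm_apply_apply _ _))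
          rw [h1, Equiv.symm_apply_apply]
      right_inv := by
        rintro ⟨p, q⟩
        apply Prod.ext
        · exact Equiv.apply_symm_apply _ _
        · exact Equiv.apply_symm_apply _ _ }
  else Equiv.refl _

theorem dnR_pos (k : Kt (mLS L hA g)) {d : D} (h : L.tl d ∈ A) (p : P) (q : k.Q) :
    dnR hA g k d (p, q) = (g.g (L.ty d) p, k.R ⟨(d, p), h⟩ q) := by
  unfold dnR
  rw [dif_pos h]
  rfl

theorem dnR_neg (k : Kt (mLS L hA g)) {d : D} (h : L.tl d ∉ A) :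
    dnR hA g k d = Equiv.refl _ := by
  unfold dnR
  rw [dif_neg h]

theorem dnR_rv (k : Kt (mLS L hA g)) (d : D) : dnR hA g k (L.rv d) = (dnR hA g k d).symm := by
  by_cases h : L.tl d ∈ A
  · have h' : L.tl (L.rv d) ∈ A := hA.cl d h
    ext1 ⟨p, q⟩
    rw [Equiv.eq_symm_apply, dnR_pos hA g k h', dnR_pos hA g k h]
    have e1 : g.g (L.ty d) (g.g (L.ty (L.rv d)) p) = p := by
      rw [L.ty_rv, g.inv, Equiv.apply_symm_apply]
    apply Prod.ext
    · exact e1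
    · show k.R ⟨(d, g.g (L.ty (L.rv d)) p), h⟩ (k.R ⟨(L.rv d, p), h'⟩ q) = q
      have e2 : (mLS L hA g).rv ⟨(L.rv d, p), h'⟩ = ⟨(d, g.g (L.ty (L.rv d)) p), h⟩ := by
        apply Subtype.ext
        show (L.rv (L.rv d), g.g (L.ty (L.rv d)) p) = _
        rw [L.rv_rv]
      rw [← e2, k.R_rv, Equiv.symm_apply_apply]
  · have h' : L.tl (L.rv d) ∉ A := fun h1 => h (comp_tl hA h1)
    rw [dnR_neg hA g k h, dnR_neg hA g k h']
    rfl

/-- the kit of `L` for a kit of the lift -/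
noncomputable def dnKt [Finite P] (k : Kt (mLS L hA g)) : Kt L where
  Q := P × k.Q
  fin := inferInstance
  R := dnR hA g k
  R_rv := dnR_rv hA g k

/-- the vertex below -/
def dnV {k : Kt (mLS L hA g)} (w : MV A P × k.Q) : V × (P × k.Q) := (w.1.1.1, (w.1.1.2, w.2))

/-- the dart below -/
def dnD {k : Kt (mLS L hA g)} (δ : MD L A P × k.Q) : D × (P × k.Q) := (δ.1.1.1, (δ.1.1.2, δ.2))

/-- the value above, at a dart of type `t` -/
def UpV (t : T × P) (α : V × V) (β : MV A P × MV A P) : Prop :=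
  β.1.1 = (α.1, t.2) ∧ β.2.1 = (α.2, g.g t.1 t.2)

end Pool.Agent.H24.GK
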