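import Pool.Agent.H24.GK.Comp

/-!
# JOB GK-9: a dart which is not in a cut with at most two darts

`E` is a set of darts which is closed under `rv`, without loops; `U` is the (nonempty) set of the vertices of `A` with a dart in `E`;
every vertex of `U` has at least three darts in `E`. For `S ⊆ U` let `b S = {d ∈ E | tl d ∈ S, hd d ∉ S}`, `|b S|` its number. (`hd d ∈ U` for
`d ∈ E`, `tl d ∈ U`: `rv d ∈ E`, `Comp.cl`.)
Let `S ⊆ U` be a nonempty set with `|b S| ≤ 1` and the smallest number of elements (`U` is one: `b U` is empty). Let `X ⊆ S` be a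
nonempty set with `|b X| ≤ 2` and the smallest number of elements. There is `d ∈ E` with both ends in `X`: otherwise all darts in `E`
at a vertex `x ∈ X` are in `b X`, at least three. Let `d` be such a dart. Claim: `Cut L 3 (tl d) {hd d}`. Suppose `Y` contains `tl d`, not
`hd d`, and `(bd L Y).ncard ≤ 2`; so `|b (Y ∩ U)| ≤ 2` (`b (Y ∩ U) ⊆ bd L Y`). Let `P₁ = X ∩ Y`, `P₂ = X \ Y`, `P₃ = (U ∩ Y) \ X`,
`P₄ = U \ (X ∪ Y)`, `e i j` the number of the darts in `E` from `P_i` to `P_j`, `e i j = e j i` (`rv`). `P₁`, `P₂` are nonempty proper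
subsets of `X` (`tl d ∈ P₁`, `hd d ∈ P₂`), so
`3 ≤ |b P₁| = e 1 2 + e 1 3 + e 1 4`, `3 ≤ |b P₂| = e 1 2 + e 2 3 + e 2 4`, and `|b X| = e 1 3 + e 1 4 + e 2 3 + e 2 4 ≤ 2`,
`|b (Y ∩ U)| = e 1 2 + e 1 4 + e 3 2 + e 3 4 ≤ 2`. So `e 1 2 = 2`, `e 1 4 = e 2 3 = e 3 4 = 0`, `e 1 3 = e 2 4 = 1`.
If `S ∩ P₃` is not empty: `S \ P₃` is a nonempty (`X ⊆ S \ P₃`) proper subset of `S`, so `2 ≤ |b (S \ P₃)|`. A dart in `b (S \ P₃)`
leads to `P₃`, and then it is the only dart from `P₁` to `P₃` (`e 2 3 = e 4 3 = 0`), or it is in `b S`. As `|b S| ≤ 1`, there is exactly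
one dart in `b S`, and it starts in `S \ P₃`. So a dart in `b (S ∩ P₃)` is not in `b S`, it leads to `S \ P₃`, so it is the reverse of
the only dart from `P₁` to `P₃`; so `|b (S ∩ P₃)| ≤ 1`, and `S ∩ P₃` is a nonempty proper subset of `S`, contradiction. In the same way
`S ∩ P₄` is empty (with `P₂` instead of `P₁`). So `S = X`, but `|b X| = 2`, contradiction.
-/

namespace Pool.Agent.H24.GK

open Pool.Agent.H24.GG Pool.Agent.H24.GH Pool.Agent.H24.GI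

variable {V D T K : Type} {L : LS V D T K} [Finite V] [Finite D]

/-- the number of the darts in `E` from `X` to `Y` -/
private noncomputable def gk9e (L : LS V D T K) (E : Set D) (X Y : Set V) : ℕ :=
  {d | d ∈ E ∧ L.tl d ∈ X ∧ L.hd d ∈ Y}.ncard

private theorem gk9e_symm {E : Set D} (hr : ∀ d ∈ E, L.rv d ∈ E) (X Y : Set V) :
    gk9e L E X Y = gk9e L E Y X := by
  have hinj : Function.Injective L.rv := by
    intro a b hab
    rw [← L.rv_rv a, ← L.rv_rv b, hab]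
  unfold gk9e
  have h1 : {d | d ∈ E ∧ L.tl d ∈ Y ∧ L.hd d ∈ X} =
      L.rv '' {d | d ∈ E ∧ L.tl d ∈ X ∧ L.hd d ∈ Y} := by
    ext d
    constructor
    · rintro ⟨h1, h2, h3⟩
      refine ⟨L.rv d, ⟨hr d h1, h3, ?_⟩, L.rv_rv d⟩
      rw [hd_rv]
      exact h2
    · rintro ⟨c, ⟨h1, h2, h3⟩, rfl⟩
      refine ⟨hr c h1, h3, ?_⟩
      rw [hd_rv]
      exact h2
  rw [h1, Set.ncard_image_of_injective _ hinj]

private def gk9c {ι : Type} (p : ι → Set V) (I : Finset ι) : Set V := {v | ∃ i ∈ I, v ∈ p i}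

private theorem gk9e_right {ι : Type} [DecidableEq ι] {p : ι → Set V}
    (hp : ∀ i j v, v ∈ p i → v ∈ p j → i = j) (E : Set D) (X : Set V) (J : Finset ι) :
    gk9e L E X (gk9c p J) = ∑ j ∈ J, gk9e L E X (p j) := by
  induction J using Finset.induction_on with
  | empty =>
    rw [Finset.sum_empty]
    unfold gk9e
    rw [Set.ncard_eq_zero (Set.toFinite _)]
    ext d
    simp only [gk9c, Set.mem_setOf_eq, Set.mem_empty_iff_false, iff_false]
    rintro ⟨-, -, j, hj, -⟩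
    exact absurd hj (Finset.notMem_empty j)
  | insert j J hj ih =>
    rw [Finset.sum_insert hj, ← ih]
    unfold gk9e
    rw [← Set.ncard_union_eq _ (Set.toFinite _) (Set.toFinite _)]
    · congr 1
      ext d
      constructor
      · rintro ⟨h1, h2, i, hi, h3⟩
        rcases Finset.mem_insert.1 hi with rfl | hi
        · exact Or.inl ⟨h1, h2, h3⟩
        · exact Or.inr ⟨h1, h2, i, hi, h3⟩
      · rintro (⟨h1, h2, h3⟩ | ⟨h1, h2, i, hi, h3⟩)
        · exact ⟨h1, h2, j, Finset.mem_insert_self _ _, h3⟩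
        · exact ⟨h1, h2, i, Finset.mem_insert_of_mem hi, h3⟩
    · rw [Set.disjoint_left]
      rintro d ⟨-, -, h1⟩ ⟨-, -, i, hi, h2⟩
      exact hj ((hp _ _ _ h1 h2) ▸ hi)

private theorem gk9e_cell {ι : Type} [DecidableEq ι] {p : ι → Set V}
    (hp : ∀ i j v, v ∈ p i → v ∈ p j → i = j) {E : Set D} (hr : ∀ d ∈ E, L.rv d ∈ E)
    (I J : Finset ι) :
    gk9e L E (gk9c p I) (gk9c p J) = ∑ i ∈ I, ∑ j ∈ J, gk9e L E (p i) (p j) := by
  rw [gk9e_right hp, Finset.sum_comm]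
  refine Finset.sum_congr rfl fun j _ => ?_
  rw [gk9e_symm hr, gk9e_right hp]
  exact Finset.sum_congr rfl fun i _ => gk9e_symm hr _ _

private theorem gk9_min (P : Set V → Prop) (h : ∃ S, P S) :
    ∃ S, P S ∧ ∀ S', S' ⊂ S → ¬ P S' := by
  obtain ⟨S, hS, hmin⟩ := (measure (fun S : Set V => S.ncard)).wf.has_min {S | P S} h
  exact ⟨S, hS, fun S' h1 h2 => hmin S' h2 (Set.ncard_lt_ncard h1 (Set.toFinite _))⟩

private theorem gk9_arith {e : Fin 6 → Fin 6 → ℕ} (hs : ∀ i j, e i j = e j i)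
    (h1 : 3 ≤ ∑ i ∈ ({0} : Finset (Fin 6)), ∑ j ∈ ({1, 2, 3, 4, 5} : Finset (Fin 6)), e i j)
    (h2 : 3 ≤ ∑ i ∈ ({1} : Finset (Fin 6)), ∑ j ∈ ({0, 2, 3, 4, 5} : Finset (Fin 6)), e i j)
    (h3 : ∑ i ∈ ({0, 1} : Finset (Fin 6)), ∑ j ∈ ({2, 3, 4, 5} : Finset (Fin 6)), e i j ≤ 2)
    (h4 : ∑ i ∈ ({0, 2, 4} : Finset (Fin 6)), ∑ j ∈ ({1, 3, 5} : Finset (Fin 6)), e i j ≤ 2)
    (h5 : ∑ i ∈ ({0, 1, 2, 3} : Finset (Fin 6)), ∑ j ∈ ({4, 5} : Finset (Fin 6)), e i j ≤ 1) :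
    (¬ (2 ≤ ∑ i ∈ ({0, 1, 3} : Finset (Fin 6)), ∑ j ∈ ({2, 4, 5} : Finset (Fin 6)), e i j ∧
      2 ≤ ∑ i ∈ ({2} : Finset (Fin 6)), ∑ j ∈ ({0, 1, 3, 4, 5} : Finset (Fin 6)), e i j)) ∧
    (¬ (2 ≤ ∑ i ∈ ({0, 1, 2} : Finset (Fin 6)), ∑ j ∈ ({3, 4, 5} : Finset (Fin 6)), e i j ∧
      2 ≤ ∑ i ∈ ({3} : Finset (Fin 6)), ∑ j ∈ ({0, 1, 2, 4, 5} : Finset (Fin 6)), e i j)) ∧
    2 ≤ ∑ i ∈ ({0, 1} : Finset (Fin 6)), ∑ j ∈ ({2, 3, 4, 5} : Finset (Fin 6)), e i j := by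
  have a1 := hs 1 0
  have a2 := hs 2 0
  have a3 := hs 2 1
  have a4 := hs 3 0
  have a5 := hs 3 1
  have a6 := hs 3 2
  have a7 := hs 4 0
  have a8 := hs 4 1
  have a9 := hs 4 2
  have b1 := hs 4 3
  have b2 := hs 5 0
  have b3 := hs 5 1
  have b4 := hs 5 2
  have b5 := hs 5 3
  have b6 := hs 5 4
  rw [Finset.sum_singleton] at h1 h2
  have s5 : ∀ (a b c d f : Fin 6) (g : Fin 6 → ℕ), a ∉ ({b, c, d, f} : Finset (Fin 6)) →
      b ∉ ({c, d, f} : Finset (Fin 6)) → c ∉ ({d, f} : Finset (Fin 6)) →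
      d ∉ ({f} : Finset (Fin 6)) → ∑ j ∈ ({a, b, c, d, f} : Finset (Fin 6)), g j =
        g a + (g b + (g c + (g d + g f))) := by
    intro a b c d f g h1 h2 h3 h4
    rw [Finset.sum_insert h1, Finset.sum_insert h2, Finset.sum_insert h3, Finset.sum_insert h4,
      Finset.sum_singleton]
  have s4 : ∀ (b c d f : Fin 6) (g : Fin 6 → ℕ),
      b ∉ ({c, d, f} : Finset (Fin 6)) → c ∉ ({d, f} : Finset (Fin 6)) →
      d ∉ ({f} : Finset (Fin 6)) → ∑ j ∈ ({b, c, d, f} : Finset (Fin 6)), g j =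
        g b + (g c + (g d + g f)) := by
    intro b c d f g h2 h3 h4
    rw [Finset.sum_insert h2, Finset.sum_insert h3, Finset.sum_insert h4, Finset.sum_singleton]
  have s3 : ∀ (c d f : Fin 6) (g : Fin 6 → ℕ), c ∉ ({d, f} : Finset (Fin 6)) →
      d ∉ ({f} : Finset (Fin 6)) → ∑ j ∈ ({c, d, f} : Finset (Fin 6)), g j =
        g c + (g d + g f) := by
    intro c d f g h3 h4
    rw [Finset.sum_insert h3, Finset.sum_insert h4, Finset.sum_singleton]
  have s2 : ∀ (d f : Fin 6) (g : Fin 6 → ℕ),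
      d ∉ ({f} : Finset (Fin 6)) → ∑ j ∈ ({d, f} : Finset (Fin 6)), g j = g d + g f := by
    intro d f g h4
    rw [Finset.sum_insert h4, Finset.sum_singleton]
  rw [s5 _ _ _ _ _ _ (by decide) (by decide) (by decide) (by decide)] at h1 h2
  rw [s2 _ _ _ (by decide), s4 _ _ _ _ _ (by decide) (by decide) (by decide),
    s4 _ _ _ _ _ (by decide) (by decide) (by decide)] at h3
  rw [s3 _ _ _ _ (by decide) (by decide), s3 _ _ _ _ (by decide) (by decide),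
    s3 _ _ _ _ (by decide) (by decide), s3 _ _ _ _ (by decide) (by decide)] at h4
  rw [s4 _ _ _ _ _ (by decide) (by decide) (by decide), s2 _ _ _ (by decide),
    s2 _ _ _ (by decide), s2 _ _ _ (by decide), s2 _ _ _ (by decide)] at h5
  refine ⟨?_, ?_, ?_⟩
  · rintro ⟨h6, h7⟩
    rw [s3 _ _ _ _ (by decide) (by decide), s3 _ _ _ _ (by decide) (by decide),
      s3 _ _ _ _ (by decide) (by decide), s3 _ _ _ _ (by decide) (by decide)] at h6
    rw [Finset.sum_singleton, s5 _ _ _ _ _ _ (by decide) (by decide) (by decide) (by decide)] at h7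
    omega
  · rintro ⟨h6, h7⟩
    rw [s3 _ _ _ _ (by decide) (by decide), s3 _ _ _ _ (by decide) (by decide),
      s3 _ _ _ _ (by decide) (by decide), s3 _ _ _ _ (by decide) (by decide)] at h6
    rw [Finset.sum_singleton, s5 _ _ _ _ _ _ (by decide) (by decide) (by decide) (by decide)] at h7
    omega
  · rw [s2 _ _ _ (by decide), s4 _ _ _ _ _ (by decide) (by decide) (by decide),
      s4 _ _ _ _ _ (by decide) (by decide) (by decide)]
    omega

/-- the index of a part -/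
private def gk9f (x y s : Bool) : Fin 6 :=
  if x then (if y then 0 else 1) else if s then (if y then 2 else 3) else (if y then 4 else 5)

open Classical in
/-- the six parts -/
private noncomputable def gk9p (U S X Y : Set V) (i : Fin 6) : Set V :=
  {v | v ∈ U ∧ gk9f (decide (v ∈ X)) (decide (v ∈ Y)) (decide (v ∈ S)) = i}

private theorem gk9p_disj {U S X Y : Set V} :
    ∀ i j v, v ∈ gk9p U S X Y i → v ∈ gk9p U S X Y j → i = j := by
  rintro i j v ⟨-, hi⟩ ⟨-, hj⟩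
  rw [← hi, ← hj]

open Classical in
private theorem gk9_key {U S X Y : Set V} (hXS : X ⊆ S) (hSU : S ⊆ U) {E : Set D}
    (hr : ∀ d ∈ E, L.rv d ∈ E) (Z : Set V) (z : Bool → Bool → Bool → Bool → Bool)
    (I J : Finset (Fin 6))
    (hZ : ∀ v, v ∈ Z ↔
      z (decide (v ∈ X)) (decide (v ∈ Y)) (decide (v ∈ S)) (decide (v ∈ U)) = true)
    (h1 : ∀ x y s u : Bool, (x = true → s = true) → (s = true → u = true) →
      (z x y s u = true ↔ u = true ∧ gk9f x y s ∈ I))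
    (h2 : ∀ x y s u : Bool, (x = true → s = true) → (s = true → u = true) →
      ((u = true ∧ ¬ z x y s u = true) ↔ u = true ∧ gk9f x y s ∈ J)) :
    gk9e L E Z (U \ Z) = ∑ i ∈ I, ∑ j ∈ J, gk9e L E (gk9p U S X Y i) (gk9p U S X Y j) := by
  have hc : ∀ (I : Finset (Fin 6)) v, v ∈ gk9c (gk9p U S X Y) I ↔
      decide (v ∈ U) = true ∧ gk9f (decide (v ∈ X)) (decide (v ∈ Y)) (decide (v ∈ S)) ∈ I := by
    intro I v
    rw [decide_eq_true_iff]
    constructor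
    · rintro ⟨i, hi, h4, h5⟩
      exact ⟨h4, by rw [h5]; exact hi⟩
    · rintro ⟨h4, h5⟩
      exact ⟨_, h5, h4, rfl⟩
  have e1 : ∀ v, decide (v ∈ X) = true → decide (v ∈ S) = true := by
    intro v h
    rw [decide_eq_true_iff] at h ⊢
    exact hXS h
  have e2 : ∀ v, decide (v ∈ S) = true → decide (v ∈ U) = true := by
    intro v h
    rw [decide_eq_true_iff] at h ⊢
    exact hSU h
  have h4 : Z = gk9c (gk9p U S X Y) I := by
    ext v
    rw [hc, hZ]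
    exact h1 _ _ _ _ (e1 v) (e2 v)
  have h5 : U \ Z = gk9c (gk9p U S X Y) J := by
    ext v
    rw [hc, ← h2 _ _ _ _ (e1 v) (e2 v), ← hZ, decide_eq_true_iff]
    exact Iff.rfl
  rw [h5, h4, gk9e_cell gk9p_disj hr]

theorem exists_cut3 {A : Set V} (hA : Comp L A) {E : Set D} (hr : ∀ d ∈ E, L.rv d ∈ E)
    (hl : ∀ d ∈ E, L.tl d ∈ A → L.tl d ≠ L.hd d) (hne : ∃ d ∈ E, L.tl d ∈ A)
    (h3 : ∀ x ∈ A, (∃ d ∈ E, L.tl d = x) → 3 ≤ {d | d ∈ E ∧ L.tl d = x}.ncard) :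
    ∃ d ∈ E, L.tl d ∈ A ∧ Cut L 3 (L.tl d) {L.hd d} := by
  obtain ⟨U, hU⟩ : ∃ U : Set V, U = {x | x ∈ A ∧ ∃ d ∈ E, L.tl d = x} := ⟨_, rfl⟩
  have hUh : ∀ d ∈ E, L.tl d ∈ U → L.hd d ∈ U := by
    intro d hd hd2
    rw [hU] at hd2 ⊢
    exact ⟨hA.cl d hd2.1, L.rv d, hr d hd, rfl⟩
  have hUn : U.Nonempty := by
    obtain ⟨d, hd, hd2⟩ := hne
    rw [hU]
    exact ⟨L.tl d, hd2, d, hd, rfl⟩
  obtain ⟨S, ⟨hSU, hSn, hS1⟩, hSm⟩ := gk9_min
    (fun S : Set V => S ⊆ U ∧ S.Nonempty ∧ gk9e L E S (U \ S) ≤ 1) ⟨U, subset_rfl, hUn, by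
      rw [Set.diff_self]
      unfold gk9e
      have h1 : {d | d ∈ E ∧ L.tl d ∈ U ∧ L.hd d ∈ (∅ : Set V)} = ∅ := by
        ext d
        simp
      rw [h1, Set.ncard_empty]
      exact Nat.zero_le _⟩
  obtain ⟨X, ⟨hXS, hXn, hX2⟩, hXm⟩ := gk9_min
    (fun X : Set V => X ⊆ S ∧ X.Nonempty ∧ gk9e L E X (U \ X) ≤ 2)
    ⟨S, subset_rfl, hSn, hS1.trans (by norm_num)⟩
  have hd : ∃ d ∈ E, L.tl d ∈ X ∧ L.hd d ∈ X := by
    by_contra hcon
    push Not at hcon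
    obtain ⟨x, hx⟩ := hXn
    have hxU : x ∈ U := hSU (hXS hx)
    have h4 := h3 x (by rw [hU] at hxU; exact hxU.1) (by rw [hU] at hxU; exact hxU.2)
    have h5 : {d | d ∈ E ∧ L.tl d = x}.ncard ≤ gk9e L E X (U \ X) := by
      refine Set.ncard_le_ncard ?_ (Set.toFinite _)
      rintro d ⟨h6, h7⟩
      refine ⟨h6, by rw [h7]; exact hx, hUh d h6 (by rw [h7]; exact hxU), ?_⟩
      exact hcon d h6 (by rw [h7]; exact hx)
    omega
  obtain ⟨d, hdE, hdt, hdh⟩ := hd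
  have hdU : L.tl d ∈ U := hSU (hXS hdt)
  refine ⟨d, hdE, by rw [hU] at hdU; exact hdU.1, ?_⟩
  intro Y hY hY2
  by_contra hcon
  have hhY : L.hd d ∉ Y := hY2 _ rfl
  have k1 := gk9_key (L := L) (Y := Y) hXS hSU hr (X ∩ Y) (fun x y _ _ => x && y)
    {0} {1, 2, 3, 4, 5} (fun v => by simp) (by decide) (by decide)
  have k2 := gk9_key (L := L) (Y := Y) hXS hSU hr (X \ Y) (fun x y _ _ => x && !y)
    {1} {0, 2, 3, 4, 5} (fun v => by simp) (by decide) (by decide)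
  have k3 := gk9_key (L := L) (Y := Y) hXS hSU hr X (fun x _ _ _ => x)
    {0, 1} {2, 3, 4, 5} (fun v => by simp) (by decide) (by decide)
  have k4 := gk9_key (L := L) (Y := Y) hXS hSU hr (Y ∩ U) (fun _ y _ u => y && u)
    {0, 2, 4} {1, 3, 5} (fun v => by simp) (by decide) (by decide)
  have k5 := gk9_key (L := L) (Y := Y) hXS hSU hr S (fun _ _ s _ => s)
    {0, 1, 2, 3} {4, 5} (fun v => by simp) (by decide) (by decide)
  have k6 := gk9_key (L := L) (Y := Y) hXS hSU hr (S \ ((S ∩ Y) \ X))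
    (fun x y s _ => s && !((s && y) && !x))
    {0, 1, 3} {2, 4, 5} (fun v => by simp; tauto) (by decide) (by decide)
  have k7 := gk9_key (L := L) (Y := Y) hXS hSU hr ((S ∩ Y) \ X) (fun x y s _ => (s && y) && !x)
    {2} {0, 1, 3, 4, 5} (fun v => by simp) (by decide) (by decide)
  have k8 := gk9_key (L := L) (Y := Y) hXS hSU hr (S \ ((S \ Y) \ X))
    (fun x y s _ => s && !((s && !y) && !x))
    {0, 1, 2} {3, 4, 5} (fun v => by simp; tauto) (by decide) (by decide)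
  have k9 := gk9_key (L := L) (Y := Y) hXS hSU hr ((S \ Y) \ X) (fun x y s _ => (s && !y) && !x)
    {3} {0, 1, 2, 4, 5} (fun v => by simp) (by decide) (by decide)
  have c1 : 3 ≤ gk9e L E (X ∩ Y) (U \ (X ∩ Y)) := by
    by_contra hcc
    refine hXm (X ∩ Y) ⟨Set.inter_subset_left, fun h => hhY (h hdh).2⟩
      ⟨Set.inter_subset_left.trans hXS, ⟨L.tl d, hdt, hY⟩, ?_⟩
    omega
  have c2 : 3 ≤ gk9e L E (X \ Y) (U \ (X \ Y)) := by
    by_contra hcc
    refine hXm (X \ Y) ⟨Set.diff_subset, fun h => (h hdt).2 hY⟩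
      ⟨Set.diff_subset.trans hXS, ⟨L.hd d, hdh, hhY⟩, ?_⟩
    omega
  have c4 : gk9e L E (Y ∩ U) (U \ (Y ∩ U)) ≤ 2 := by
    have h4 : gk9e L E (Y ∩ U) (U \ (Y ∩ U)) ≤ (bd L Y).ncard := by
      refine Set.ncard_le_ncard ?_ (Set.toFinite _)
      rintro c ⟨h5, h6, h7⟩
      exact ⟨h6.1, fun h8 => h7.2 ⟨h8, h7.1⟩⟩
    omega
  rw [k1] at c1
  rw [k2] at c2
  rw [k4] at c4
  obtain ⟨f1, f2, f3⟩ := gk9_arith
    (e := fun i j => gk9e L E (gk9p U S X Y i) (gk9p U S X Y j)) (fun i j => gk9e_symm hr _ _)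
    c1 c2 (k3 ▸ hX2) c4 (k5 ▸ hS1)
  rw [← k6, ← k7] at f1
  rw [← k8, ← k9] at f2
  rw [← k3] at f3
  have g1 : ¬ ((S ∩ Y) \ X).Nonempty := by
    intro hn
    apply f1
    constructor
    · by_contra hcc
      refine hSm (S \ ((S ∩ Y) \ X)) ⟨Set.diff_subset, ?_⟩
        ⟨Set.diff_subset.trans hSU, ⟨L.tl d, hXS hdt, fun h => h.2 hdt⟩, by omega⟩
      obtain ⟨v, hv⟩ := hn
      exact fun h => (h hv.1.1).2 hv
    · by_contra hcc
      refine hSm ((S ∩ Y) \ X) ⟨fun v hv => hv.1.1, fun h => (h (hXS hdt)).2 hdt⟩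
        ⟨fun v hv => hSU hv.1.1, hn, by omega⟩
  have g2 : ¬ ((S \ Y) \ X).Nonempty := by
    intro hn
    apply f2
    constructor
    · by_contra hcc
      refine hSm (S \ ((S \ Y) \ X)) ⟨Set.diff_subset, ?_⟩
        ⟨Set.diff_subset.trans hSU, ⟨L.tl d, hXS hdt, fun h => h.2 hdt⟩, by omega⟩
      obtain ⟨v, hv⟩ := hn
      exact fun h => (h hv.1.1).2 hv
    · by_contra hcc
      refine hSm ((S \ Y) \ X) ⟨fun v hv => hv.1.1, fun h => (h (hXS hdt)).2 hdt⟩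
        ⟨fun v hv => hSU hv.1.1, hn, by omega⟩
  have g3 : S = X := by
    apply Set.Subset.antisymm _ hXS
    intro v hv
    by_contra hvX
    by_cases hvY : v ∈ Y
    · exact g1 ⟨v, ⟨hv, hvY⟩, hvX⟩
    · exact g2 ⟨v, ⟨hv, hvY⟩, hvX⟩
  rw [← g3] at f3
  omega

end Pool.Agent.H24.GK
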