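import Pool.Agent.H24.GI.F2d

/-!
# JOB GK-17: levels, with a weaker hypothesis

The proofs of `f2_M`, `f2_two` (file `Pool.Agent.H24.GI.F2a`), `good_leaf`, `good_all`, `sit_level` (file `Pool.Agent.H24.GI.F2b`), with the
hypothesis `RpL L` instead of `∀ t, num t ≤ 2 ∨ num (bar t) ≤ 2`.

`r2_M`: `t` is the only type with its source (a type `s` with `sc s = sc t = cl x` has a dart at `x`, so `s = t`); so
`M t x y = M (bar t) y x ≤ num (bar t) ≤ 2` (`M_bar`, `M_le`).
`r2_two`: as `f2_two`: otherwise all darts at `x` lead to `y`, so they have the same type (`nolive_eq`), and `3 ≤ M t x y`, contradiction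
to `r2_M`. In `good_leaf` the number `M τ x (hd d₀)` is bounded by `r2_M` (all darts at `x` have the type `τ`). The other proofs are
unchanged.
-/

namespace Pool.Agent.H24.GK

open Pool.Agent.H24.GG Pool.Agent.H24.GH Pool.Agent.H24.GI

variable {V D T K : Type} {L : LS V D T K}

/-- the reverse of a type which is alone at its source has at most two darts at a vertex -/
def RpL (L : LS V D T K) : Prop := ∀ t, Lfs L.sc t → L.num (L.bar t) ≤ 2

variable [Finite V] [Finite D]

theorem r2_M (h2 : RpL L) {t : T} {x : V} (hx : ∀ d, L.tl d = x → L.ty d = t)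
    (he : ∃ d, L.tl d = x) (y : V) : L.M t x y ≤ 2 := by
  sorry

theorem r2_two (hn : NoLive L) (h3 : ∀ x, 3 ≤ {d | L.tl d = x}.ncard) (h2 : RpL L) (x y : V) :
    ∃ d, L.tl d = x ∧ L.hd d ≠ y := by
  sorry

theorem r2_leaf (hn : NoLive L) (h3 : ∀ x, 3 ≤ {d | L.tl d = x}.ncard) (h2 : RpL L) {τ : T}
    {x : V} (hx : ∀ d, L.tl d = x → L.ty d = τ) (hv : Nvc L Set.univ x)
    (hy : ∀ d, L.tl d = x → Nvc L Set.univ (L.hd d)) : FGood L := by
  sorry

theorem r2_all (hc : LConn L) [Nonempty V] (hn : NoLive L) (hp : NoPal L)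
    (h3 : ∀ x, 3 ≤ {d | L.tl d = x}.ncard) (h2 : RpL L) (h : ∀ x, Nvc L Set.univ x) :
    FGood L := by
  sorry

theorem r2_level (hc : LConn L) (hn : NoLive L) (hp : NoPal L)
    (h3 : ∀ x, 3 ≤ {d | L.tl d = x}.ncard) (h2 : RpL L) {C S : Set V} {t : V}
    (hS : SitF L C S t) : FGood L ∨ StarS L S t := by
  sorry

end Pool.Agent.H24.GK
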