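import Pool.Agent.H24.GK.F2R

/-!
# JOB GK-18: a set which is left by at least three darts, with a weaker hypothesis

The proofs of `star_type`, `starS_three` (file `Pool.Agent.H24.GI.F2c`; the private lemmas have to be copied; `sit_t2` can be cited), with
`RpL L` instead of `∀ t, num t ≤ 2 ∨ num (bar t) ≤ 2`.

`r2_type`: all darts at `x = hd d` have the type `bar σ`, so `bar σ` is alone at its source (a type with this source has a dart at `x`),
and `num σ = num (bar (bar σ)) ≤ 2` by `RpL`. `3 ≤ num (bar σ)` as before. `r2_two` instead of `f2_two`.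
`r2_three`: the number `M (bar (ty d₀)) (hd a) t` is bounded by `r2_M` (all darts at `hd a` have the type `bar (ty d₀)`); `r2_type`, `r2_two`.
-/

namespace Pool.Agent.H24.GK

open Pool.Agent.H24.GG Pool.Agent.H24.GH Pool.Agent.H24.GI

variable {V D T K : Type} {L : LS V D T K} [Finite V] [Finite D]

theorem r2_type (hn : NoLive L) (h3 : ∀ x, 3 ≤ {d | L.tl d = x}.ncard) (h2 : RpL L) {S : Set V}
    {t : V} (hS : StarS L S t) {σ : T} (hσ : L.sc σ = L.cl t) :
    L.num σ ≤ 2 ∧ 3 ≤ L.num (L.bar σ) ∧ ∃ a, L.tl a = t ∧ L.ty a = σ ∧ L.hd a ∈ S ∧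
      L.cl (L.hd a) ≠ L.cl t ∧ ∀ d, L.tl d = L.hd a → L.ty d = L.bar σ := by
  sorry

theorem r2_three (hn : NoLive L) (hp : NoPal L) (h3 : ∀ x, 3 ≤ {d | L.tl d = x}.ncard)
    (h2 : RpL L) {C S : Set V} {t : V} (hC : SitF L C S t) (hS : StarS L S t)
    (hE : 3 ≤ {d | L.tl d = t ∧ L.hd d ∈ S}.ncard) : FGood L := by
  sorry

end Pool.Agent.H24.GK
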