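import Pool.Agent.H24.GK.F2S

/-!
# JOB GK-19: a set which is left by two darts, with a weaker hypothesis

The proof of `starS_two` (file `Pool.Agent.H24.GI.F2d`; the private lemmas and structures have to be copied, `lens_cut` can be cited), with
`RpL L` instead of `∀ t, num t ≤ 2 ∨ num (bar t) ≤ 2`: `r2_type`, `r2_two` instead of `star_type`, `f2_two`, and `r2_M` for the number
`M (bar (ty a)) (hd a) t` (all darts at `hd a` have the type `bar (ty a)`).
`f_choiceR`: `exists_sit`; `r2_all`, or `r2_level` and `r2_three`, `r2_starS` (see `f_choice` in the file `Pool.Agent.H24.GI.Choice`).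
-/

namespace Pool.Agent.H24.GK

open Pool.Agent.H24.GG Pool.Agent.H24.GH Pool.Agent.H24.GI

variable {V D T K : Type} {L : LS V D T K} [Finite V] [Finite D]

theorem r2_starS (hn : NoLive L) (hp : NoPal L) (h3 : ∀ x, 3 ≤ {d | L.tl d = x}.ncard)
    (h2 : RpL L) {C S : Set V} {t : V} (hC : SitF L C S t) (hS : StarS L S t)
    (hE : {d | L.tl d = t ∧ L.hd d ∈ S}.ncard ≤ 2) : FGood L ∨ FLens L := by
  sorry

theorem f_choiceR (hc : LConn L) [Nonempty V] (hn : NoLive L) (hp : NoPal L)
    (h3 : ∀ x, 3 ≤ {d | L.tl d = x}.ncard) (h2 : RpL L) : FGood L ∨ FLens L := by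
  sorry

end Pool.Agent.H24.GK
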