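import Pool.Agent.H24.GK.PartG
import Pool.Agent.H24.GJ.CycP

/-!
# JOB GK-26: graphs without a branch vertex, several components: polynomial time

`nb_iff'`: (⇒) `sim_of_cover`, `cyc_nec` (as in `nb_cov_iff`, file `Pool.Agent.H24.GJ.CycIff`). (⇐) `cyc_core` gives `F₀`. Let
`R = {v | ∃ b, Cr H b ∧ H.Reachable v b}`, `S = {a | ∃ b, Cr G b ∧ G.Reachable a b}`; `a ∈ S ↔ π a ∈ R` (`typed_reach` with `cr_typed`,
`cr_sim`). Let `σ : S → A`, `σ' : Sᶜ → A`, `ι : R → V`, `ι' : Rᶜ → V` be the inclusions (`Subtype.val`); they are `Pt`. By `pt_typed`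
`G.comap σ` is typed over `H.comap ι`. The values of `F₀` on the core of `G` are in `R` (`Cr H (F₀ v)`: `cr_sim`, `cr_typed`), so `F₀`
restricts to a core map for `G.comap σ`, `H.comap ι` (`pt_cn`, `pt_cr`, `pt_sim`). `Tc (H.comap ι)` by `covIff_lev` (`pt_reach`,
`pt_cr`), so `tree_ext` gives a cover, and `pt_incl`, `cov_trans` a cover of `H`. `G.comap σ'` has no vertex of the core (`pt_cr`), and
`forest_cov`. `pt_glue`.
`nb_mem_P`: the proof of `lb_mem_P` (file `Pool.Agent.H24.GJ.CycP`), with `nb_iff'` instead of `nb_cov_iff`.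
-/

namespace Pool.Agent.H24.GK

open Pool.Agent.H24.GC Pool.Agent.H24.GE Pool.Agent.H24.GG Pool.Agent.H24.GJ Pool.Agent.PPS
  Pool.Agent.H64.Cook Pool.Agent.H79.Thr

theorem nbp_cl {A : Type} (G : SimpleGraph A) (Q : A → Prop) :
    Pt G (Subtype.val : {a : A // ∃ b, Q b ∧ G.Reachable a b} → A) := by
  refine ⟨Subtype.val_injective, ?_⟩
  rintro ⟨a, b, hb, hab⟩ c (hc : G.Adj a c)
  exact ⟨⟨c, b, hb, hc.symm.reachable.trans hab⟩, rfl⟩

/-- the part of `G` with a core: it covers `H` -/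
theorem nbp_core {A V : Type} {G : SimpleGraph A} {H : SimpleGraph V} {π : A → V} [Finite A]
    [Finite V] (hπ : Typed G H π) {F₀ : A → V} (h1 : ∀ v, Cr G v → Sim H (F₀ v) (π v))
    (h2 : ∀ v, Cr G v → Set.BijOn F₀ (cn G v) (cn H (F₀ v))) :
    Covers (G.comap (Subtype.val : {a : A // ∃ b, Cr G b ∧ G.Reachable a b} → A)) H := by
  classical
  have hσ := nbp_cl G (Cr G)
  have hι := nbp_cl H (Cr H)
  set σ : {a : A // ∃ b, Cr G b ∧ G.Reachable a b} → A := Subtype.val with hσd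
  set ι : {v : V // ∃ b, Cr H b ∧ H.Reachable v b} → V := Subtype.val with hιd
  have hR := fun a => typed_reach (Q := Cr G) (R := Cr H) hπ (fun a => cr_typed hπ a)
    (fun x y h => cr_sim h) a
  let π' : {a : A // ∃ b, Cr G b ∧ G.Reachable a b} → {v : V // ∃ b, Cr H b ∧ H.Reachable v b} :=
    fun b => ⟨π b.1, (hR b.1).1 b.2⟩
  have hπ' : Typed (G.comap σ) (H.comap ι) π' := pt_typed hπ hσ hι (fun _ => rfl)
  have hF : ∀ v, Cr G v → Cr H (F₀ v) := fun v hv => (cr_sim (h1 v hv)).2 ((cr_typed hπ v).1 hv)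
  let F₁ : {a : A // ∃ b, Cr G b ∧ G.Reachable a b} → {v : V // ∃ b, Cr H b ∧ H.Reachable v b} :=
    fun b => if h : Cr G b.1 then ⟨F₀ b.1, F₀ b.1, hF _ h, SimpleGraph.Reachable.refl _⟩ else π' b
  have hF₁ : ∀ b, Cr G (σ b) → ι (F₁ b) = F₀ (σ b) := by
    intro b hb
    have : F₁ b = ⟨F₀ b.1, F₀ b.1, hF _ hb, SimpleGraph.Reachable.refl _⟩ := dif_pos hb
    rw [this]
  have hT : Tc (H.comap ι) := by
    rintro ⟨v, b, hb, hvb⟩
    have h3 : (H.comap ι).Reachable ⟨v, b, hb, hvb⟩ ⟨b, b, hb, SimpleGraph.Reachable.refl b⟩ :=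
      (pt_reach hι _ _).2 hvb
    obtain ⟨p⟩ := h3
    exact covIff_lev _ p ((pt_cr hι _).2 hb)
  obtain ⟨F, hF'⟩ := tree_ext (F₀ := F₁) hπ' hT
    (fun v hv => by
      have hv' := (pt_cr hσ v).1 hv
      refine pt_sim hι ?_
      rw [hF₁ v hv']
      exact h1 _ hv')
    (fun v hv => by
      have hv' := (pt_cr hσ v).1 hv
      have e1 := pt_cn hσ v
      have e2 := h2 _ hv'
      have e3 := pt_cn hι (F₁ v)
      rw [hF₁ v hv'] at e3
      have hc : ∀ c ∈ cn (G.comap σ) v, ι (F₁ c) = F₀ (σ c) := fun c hc =>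
        hF₁ c ((pt_cr hσ c).1 hc.2)
      refine ⟨?_, ?_, ?_⟩
      · intro c hc'
        obtain ⟨u, hu, huc⟩ := e3.surjOn (e2.mapsTo (e1.mapsTo hc'))
        have : u = F₁ c := hι.inj (huc.trans (hc c hc').symm)
        rw [← this]
        exact hu
      · intro c hc' d hd' hcd
        refine e1.injOn hc' hd' (e2.injOn (e1.mapsTo hc') (e1.mapsTo hd') ?_)
        rw [← hc c hc', ← hc d hd', hcd]
      · intro u hu
        obtain ⟨a, ha, hau⟩ := e2.surjOn (e3.mapsTo hu)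
        obtain ⟨c, hc', rfl⟩ := e1.surjOn ha
        refine ⟨c, hc', hι.inj ?_⟩
        rw [hc c hc', hau])
  exact cov_trans ⟨F, hF'⟩ ⟨ι, pt_incl hι⟩

theorem nb_iff' {A V : Type} {G : SimpleGraph A} {H : SimpleGraph V} {π : A → V} [Finite A]
    [Finite V] (hb : ∀ v, ¬ Br H v) (hπ : Typed G H π) : Covers G H ↔ CycOK G H π := by
  constructor
  · rintro ⟨F, hF⟩
    exact cyc_nec hb hF (sim_of_cover hπ hF)
  · intro hok
    obtain ⟨F₀, h1, h2⟩ := cyc_core hπ hb hok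
    have hσ := nbp_cl G (Cr G)
    have hu : ∀ a, (∃ b : {a : A // ¬ ∃ b, Cr G b ∧ G.Reachable a b}, b.1 = a) ↔
        ¬ ∃ b : {a : A // ∃ b, Cr G b ∧ G.Reachable a b}, b.1 = a := by
      intro a
      constructor
      · rintro ⟨⟨b, hb⟩, rfl⟩ ⟨⟨c, hc⟩, hcb⟩
        have hcb' : c = b := hcb
        subst hcb'
        exact hb hc
      · intro h
        exact ⟨⟨a, fun h' => h ⟨⟨a, h'⟩, rfl⟩⟩, rfl⟩
    have hσ' := pt_compl hσ Subtype.val_injective hu
    refine pt_glue hσ Subtype.val_injective hu (nbp_core hπ h1 h2) ?_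
    have hid : Pt H (id : V → V) := ⟨Function.injective_id, fun _ a _ => ⟨a, rfl⟩⟩
    have hty := pt_typed (π' := fun b : {a : A // ¬ ∃ b, Cr G b ∧ G.Reachable a b} => π b.1) hπ hσ'
      hid (fun _ => rfl)
    rw [SimpleGraph.comap_id] at hty
    refine forest_cov hty ?_
    rintro ⟨a, ha⟩ hcr
    exact ha ⟨a, (pt_cr hσ' ⟨a, ha⟩).1 hcr, SimpleGraph.Reachable.refl a⟩

theorem nb_mem_P {n : ℕ} {H : SimpleGraph (Fin n)} (hb : ∀ v, ¬ Br H v) : LB H ∈ P := by
  classical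
  obtain ⟨r, hr, hs⟩ := agH_stab H
  rw [mem_P_iff]
  have h0 : PT true (fun x : List Bool => mroot x.length) := by fun_prop
  have hT : PT true (fun x : List Bool => rows H x (mroot x.length) r) :=
    PT.rows' H r (by fun_prop) h0
  have h1 : PT true (fun x : List Bool => up3_c H r x) :=
    PT.and' (PT.mchkG' n (by fun_prop) h0) (PT.tyC' H h0 (by fun_prop) hT)
  have h2 : PT true (fun x : List Bool => cycC H (mroot x.length) x
      (rows H x (mroot x.length) r)) := PT.cycC' H h0 (by fun_prop) hT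
  have h3 : PT true (fun x : List Bool => up3_c H r x && cycC H (mroot x.length) x
      (rows H x (mroot x.length) r)) := PT.and' h1 h2
  have key : ∀ (N : ℕ) (G : SimpleGraph (Fin N)), up3_c H r (enc G) = true →
      ((cycC H (mroot (enc G).length) (enc G) (rows H (enc G) (mroot (enc G).length) r) = true) ↔
        Covers G H) := by
    intro N G hcc
    have htc : tyC H N (enc G) (rows H (enc G) N r) = true := by
      unfold up3_c at hcc
      rw [enc_len, mroot_sq, Bool.and_eq_true] at hcc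
      exact hcc.2
    have hlk : ∀ i : Fin N, lk n (rows H (enc G) N r) i < n := tyC_lk htc
    have hty : Typed G H (fun i => (⟨lk n (rows H (enc G) N r) i, hlk i⟩ : Fin n)) :=
      (tyC_iff hlk).1 htc
    rw [enc_len, mroot_sq, nb_iff' hb hty]
    exact cycC_iff (fun _ => rfl) hty hb
  convert h3 using 2 with x
  rw [Bool.eq_iff_iff, decide_eq_true_eq, Bool.and_eq_true]
  constructor
  · rintro ⟨N, G, rfl, hG⟩
    have hc' := up3_check hs hG
    exact ⟨hc', (key N G hc').2 hG⟩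
  · rintro ⟨hc', hC⟩
    have hcx := hc'
    unfold up3_c at hcx
    rw [Bool.and_eq_true] at hcx
    obtain ⟨G₀, hG₀, -⟩ := mchkG_spec hcx.1
    obtain ⟨N, G₁, hG₁⟩ : ∃ (N : ℕ) (G : SimpleGraph (Fin N)), x = enc G := ⟨_, G₀, hG₀⟩
    clear hG₀ G₀ hcx
    subst hG₁
    exact ⟨N, G₁, rfl, (key N G₁ hc').1 hC⟩

end Pool.Agent.H24.GK
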