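import Pool.Agent.H24.GG.Up3

/-!
# JOB GK-27: the word of a part of a graph

`keep R N T`: the vertices `i < N` whose class `lk n T i` satisfies `R`. `subW R N x T`: the matrix of the entries of `x` for these
vertices, row by row.

`subW_enc`: let `S = keep R N T`, `k = S.length`, `σ a = ⟨S[a], _⟩` (all elements of `S` are `< N`); `S` has no duplicates
(`List.nodup_range`, `List.Nodup.filter`), so `σ` is injective; `List.mem_filter`, `List.mem_range`. The word: `enc` is
`(List.ofFn fun u => List.ofFn fun v => decide (Adj u v)).flatten`; `S = List.ofFn fun a => (σ a : ℕ)`; `List.flatMap`, `List.map_ofFn`,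
`ment_enc`.
`PT.subW'`: as `PT.encM'` (file `Pool.Agent.H24.GE.Csp`): `H64.Cook.PT.filter'` for `keep` (see `PT.cycC'` in the file
`Pool.Agent.H24.GJ.CycP` for `b1 R (lk n T i)`), `PT.flatMap'`/`PT.map'` as in `PT.encM'`, `PT.ment'`.
-/

namespace Pool.Agent.H24.GK

open Pool.Agent.H24.GC Pool.Agent.H24.GE Pool.Agent.H24.GG Pool.Agent.PPS Pool.Agent.H64.Cook
  Pool.Agent.H79.Thr

variable {n : ℕ}

/-- the vertices whose class satisfies `R` -/
noncomputable def keep (R : Fin n → Prop) (N : ℕ) (T : List (List Bool)) : List ℕ :=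
  (List.range N).filter fun i => b1 R (lk n T i)

/-- the word of the subgraph on these vertices -/
noncomputable def subW (R : Fin n → Prop) (N : ℕ) (x : List Bool) (T : List (List Bool)) :
    List Bool :=
  (keep R N T).flatMap fun i => (keep R N T).map fun j => ment x N i j

theorem subW_enc (R : Fin n → Prop) {N : ℕ} (G : SimpleGraph (Fin N)) (T : List (List Bool)) :
    ∃ (k : ℕ) (σ : Fin k → Fin N), Function.Injective σ ∧
      (∀ i : Fin N, (∃ a, σ a = i) ↔ b1 R (lk n T i) = true) ∧
      subW R N (enc G) T = enc (G.comap σ) := by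
  classical
  have hlt : ∀ a ∈ keep R N T, a < N := fun a ha => List.mem_range.1 (List.mem_filter.1 ha).1
  have hnd : (keep R N T).Nodup := List.nodup_range.filter _
  refine ⟨(keep R N T).length, fun a => ⟨(keep R N T)[a.1], hlt _ (List.getElem_mem _)⟩,
    ?_, ?_, ?_⟩
  · intro a b hab
    have h1 : (keep R N T)[a.1] = (keep R N T)[b.1] := congrArg Fin.val hab
    exact Fin.ext ((List.Nodup.getElem_inj_iff hnd).1 h1)
  · intro i
    constructor
    · rintro ⟨a, rfl⟩
      exact (List.mem_filter.1 (List.getElem_mem (l := keep R N T) a.2)).2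
    · intro h
      have h1 : (i : ℕ) ∈ keep R N T := List.mem_filter.2 ⟨List.mem_range.2 i.2, h⟩
      obtain ⟨a, ha, h2⟩ := List.getElem_of_mem h1
      exact ⟨⟨a, ha⟩, Fin.ext h2⟩
  · unfold subW
    conv_rhs => unfold enc
    rw [List.flatMap_def]
    refine congrArg List.flatten ?_
    apply List.ext_getElem
    · simp
    · intro u h1 h2
      rw [List.getElem_map, List.getElem_ofFn]
      apply List.ext_getElem
      · simp
      · intro v h3 h4
        have hu : u < (keep R N T).length := by simpa using h1
        have hv : v < (keep R N T).length := by simpa using h3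
        rw [List.getElem_map, List.getElem_ofFn, Bool.eq_iff_iff, decide_eq_true_eq]
        exact ment_enc G ⟨(keep R N T)[u], hlt _ (List.getElem_mem _)⟩
          ⟨(keep R N T)[v], hlt _ (List.getElem_mem _)⟩

private theorem PT.sbw_keep {m : Bool} {α : Type} [Rep α] (R : Fin n → Prop) {N : α → ℕ}
    {T : α → List (List Bool)} (hN : PT m N) (hT : PT m T) :
    PT m (fun a => keep R (N a) (T a)) := by
  unfold keep
  exact H64.Cook.PT.filter' (m := m) (l := fun a => List.range (N a))
    (f := fun z : α × ℕ => b1 R (lk n (T z.1) z.2)) (by fun_prop) (by fun_prop)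

theorem PT.subW' {m : Bool} {α : Type} [Rep α] (R : Fin n → Prop) {N : α → ℕ}
    {x : α → List Bool} {T : α → List (List Bool)} (hN : PT m N) (hx : PT m x) (hT : PT m T) :
    PT m (fun a => subW R (N a) (x a) (T a)) := by
  unfold subW
  have h2 : PT m (fun z : α × ℕ =>
      (keep R (N z.1) (T z.1)).map fun j => ment (x z.1) (N z.1) z.2 j) :=
    PT.map' (m := m) (l := fun z : α × ℕ => keep R (N z.1) (T z.1))
      (f := fun z : (α × ℕ) × ℕ => ment (x z.1.1) (N z.1.1) z.1.2 z.2)
      (PT.sbw_keep R (by fun_prop) (by fun_prop)) (by fun_prop)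
  exact H64.Cook.PT.flatMap' (m := m) (l := fun a => keep R (N a) (T a))
    (f := fun z : α × ℕ => (keep R (N z.1) (T z.1)).map fun j => ment (x z.1) (N z.1) z.2 j)
    (PT.sbw_keep R hN hT) h2

end Pool.Agent.H24.GK
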