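import Pool.Agent.H24.GK.BaseG
import Pool.Agent.H24.GK.NbP
import Pool.Agent.H24.GK.SubW
import Pool.Agent.H24.GE.R2

/-!
# JOB GK-30: a graph and its base

`gd_typed`: `typed_reach` with `br_typed`, `br_sim`.
`base_iff`: if `G` is typed over `H.comap ι` then `G` covers `H` iff `G` covers `H.comap ι`: (→) `Gd G` by `base_gd`, `gd_typed`; for a
cover `F : G → H` all `Bc H (F a)` (`cover_reach` with `br_typed` for the typing `F`: `typed_cover`); `base_cov`. (←) `pt_incl`,
`cov_trans`.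
`red_dn`: the function is `x ↦ bif up3_c H' r x then x else [true]`, `H' = H.comap ι`, `r` from `agH_stab H'` (see `red_up` in the file
`Pool.Agent.H24.GG.Up3` and `lb_mem_P` in the file `Pool.Agent.H24.GJ.CycP`); `up3_check`, `base_iff`, `R2_true`.
`red_upH`: let `R = Bc H`, `ι₀ : Fin m₀ → Fin n` an enumeration of the vertices which do not satisfy `R`. `H₀ = H.comap ι₀` has no branch
vertex (`pt_br`), so `LB H₀ ∈ P` (`nb_mem_P`). With `N = mroot x.length`, `T = rows H x N r` the function is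
`x ↦ bif up3_c H r x && decide (subW (¬ R) N x T ∈ LB H₀) then subW R N x T else [true]`; `PT.subW'`, `mem_P_iff`. Correctness: let
`x = enc G`, `G` typed over `H` by the classes `t` (if the check holds, or if `G` covers `H`: `up3_check`). `subW_enc` gives
`σ` for `R` and `σ'` for `¬ R`; `R (t i)` iff `b1 R (lk n T i)`. `σ` is `Pt`: if `G.Adj i j` then `R (t i) ↔ R (t j)`: by the typing
there is a neighbour of `t i` which is `Sim` to `t j`; `sim_reach` (with `br_sim`). `σ'` by `pt_compl`. (⇒) Let `F` be a cover. `R (F i) ↔ R (t i)`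
(`sim_of_cover`, `sim_reach`). `F ∘ σ` is a cover of `H` with `Bc` (`pt_nb`), so `base_cov` gives a cover of `H.comap ι`; `pt_restr` for
`σ'`, `ι₀`. (⇐) `enc_mem_lb` (file `Pool.Agent.H24.GE.R2`); `pt_incl`, `cov_trans`, `pt_glue`.
-/

namespace Pool.Agent.H24.GK

open Pool.Agent.H24.GC Pool.Agent.H24.GE Pool.Agent.H24.GG Pool.Agent.H24.GJ Pool.Agent.PPS
  Pool.Agent.H64.Cook Pool.Agent.H79.Thr

theorem gd_typed {A V : Type} {G : SimpleGraph A} {H : SimpleGraph V} {π : A → V} [Finite V]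
    (hπ : Typed G H π) (hH : Gd H) : Gd G := by
  intro a
  exact (typed_reach hπ (Q := Br G) (R := Br H) (br_typed hπ) (fun x y h => br_sim h) a).2
    (hH (π a))

theorem redg_bc {A V : Type} {G : SimpleGraph A} {H : SimpleGraph V} {π : A → V} [Finite V]
    (hπ : Typed G H π) (a : A) : Bc G a ↔ Bc H (π a) :=
  typed_reach hπ (Q := Br G) (R := Br H) (br_typed hπ) (fun _ _ h => br_sim h) a

theorem redg_adj {A : Type} {G : SimpleGraph A} {a b : A} (h : G.Adj a b) (hb : Bc G a) :
    Bc G b := by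
  obtain ⟨c, hc, hr⟩ := hb
  exact ⟨c, hc, (SimpleGraph.Adj.reachable h).symm.trans hr⟩

theorem base_iff {A V U : Type} {G : SimpleGraph A} {H : SimpleGraph V} {ι : U → V} [Finite V]
    [Finite U] (h : Base H ι) {π : A → U} (hπ : Typed G (H.comap ι) π) :
    Covers G H ↔ Covers G (H.comap ι) := by
  constructor
  · rintro ⟨F, hF⟩
    refine base_cov h hF fun a => ?_
    exact (redg_bc (typed_cover hF) a).1 (gd_typed hπ (base_gd h) a)
  · intro hc
    exact cov_trans hc ⟨ι, pt_incl h.pt⟩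

/-- the typing given by the check -/
theorem redg_check {n : ℕ} {H : SimpleGraph (Fin n)} {r : ℕ} {N : ℕ} {G : SimpleGraph (Fin N)}
    (hc : up3_c H r (enc G) = true) : ∃ t : Fin N → Fin n,
      (∀ i : Fin N, (t i : ℕ) = lk n (rows H (enc G) N r) i) ∧ Typed G H t := by
  have htc : tyC H N (enc G) (rows H (enc G) N r) = true := by
    unfold up3_c at hc
    rw [enc_len, mroot_sq, Bool.and_eq_true] at hc
    exact hc.2
  have hlk : ∀ i : Fin N, lk n (rows H (enc G) N r) i < n := tyC_lk htc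
  exact ⟨fun i => (⟨lk n (rows H (enc G) N r) i, hlk i⟩ : Fin n), fun i => rfl,
    (tyC_iff hlk).1 htc⟩

theorem redg_enc {n : ℕ} {H : SimpleGraph (Fin n)} {r : ℕ} {x : List Bool}
    (hc : up3_c H r x = true) : ∃ (N : ℕ) (G : SimpleGraph (Fin N)), x = enc G := by
  unfold up3_c at hc
  rw [Bool.and_eq_true] at hc
  obtain ⟨G₀, hG₀, -⟩ := mchkG_spec hc.1
  exact ⟨_, G₀, hG₀⟩

theorem redg_PT {n : ℕ} (H : SimpleGraph (Fin n)) (r : ℕ) :
    PT true (fun x : List Bool => up3_c H r x) := by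
  have h0 : PT true (fun x : List Bool => mroot x.length) := by fun_prop
  have hT : PT true (fun x : List Bool => rows H x (mroot x.length) r) :=
    PT.rows' H r (by fun_prop) h0
  exact PT.and' (PT.mchkG' n (by fun_prop) h0) (PT.tyC' H h0 (by fun_prop) hT)

variable {n m : ℕ} {H : SimpleGraph (Fin n)} {ι : Fin m → Fin n}

theorem red_dn (h : Base H ι) : Red (LB (H.comap ι)) (LB H) := by
  obtain ⟨r, hr, hs⟩ := agH_stab (H.comap ι)
  refine ⟨fun x => bif up3_c (H.comap ι) r x then x else [true], ?_, fun x => ?_⟩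
  · rw [mem_FP_iff]
    exact PT.cond (redg_PT _ r) PT.id' (PT.const' _)
  · constructor
    · rintro ⟨N, G, rfl, hG⟩
      show (bif up3_c (H.comap ι) r (enc G) then enc G else [true]) ∈ LB H
      rw [up3_check hs hG, cond_true, enc_mem_lb]
      exact cov_trans hG ⟨ι, pt_incl h.pt⟩
    · intro hx
      have hx' : (bif up3_c (H.comap ι) r x then x else [true]) ∈ LB H := hx
      rcases hcx : up3_c (H.comap ι) r x with _ | _
      · rw [hcx, cond_false] at hx'
        exact absurd hx' (R2_true H)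
      · rw [hcx, cond_true] at hx'
        obtain ⟨N, G, rfl⟩ := redg_enc hcx
        obtain ⟨t, -, ht⟩ := redg_check hcx
        rw [enc_mem_lb] at hx' ⊢
        exact (base_iff h ht).1 hx'

/-- the subgraph on the vertices which satisfy `R` is a union of components -/
theorem redg_sub {N : ℕ} {G : SimpleGraph (Fin N)} {S : Fin N → Prop}
    (hS : ∀ a b, G.Adj a b → S a → S b) {k : ℕ} {σ : Fin k → Fin N} (hσ : Function.Injective σ)
    (h : ∀ i, (∃ a, σ a = i) ↔ S i) : Pt G σ :=
  ⟨hσ, fun b a hba => (h a).2 (hS _ _ hba ((h _).1 ⟨b, rfl⟩))⟩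

/-- an enumeration of the vertices which do not satisfy `Bc H` -/
theorem redg_nb (H : SimpleGraph (Fin n)) : ∃ (k : ℕ) (ι₀ : Fin k → Fin n), Pt H ι₀ ∧
    ∀ v, (∃ u, ι₀ u = v) ↔ ¬ Bc H v := by
  classical
  have _ : Fintype {v : Fin n // ¬ Bc H v} := Fintype.ofFinite _
  obtain ⟨e⟩ : Nonempty (Fin (Fintype.card {v : Fin n // ¬ Bc H v}) ≃ {v : Fin n // ¬ Bc H v}) :=
    ⟨(Fintype.equivFin _).symm⟩
  have h : ∀ v, (∃ u, (e u : Fin n) = v) ↔ ¬ Bc H v := by
    intro v
    constructor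
    · rintro ⟨u, rfl⟩
      exact (e u).2
    · intro hv
      exact ⟨e.symm ⟨v, hv⟩, by rw [e.apply_symm_apply]⟩
  refine ⟨_, fun u => (e u : Fin n), ⟨?_, ?_⟩, h⟩
  · exact Subtype.val_injective.comp e.injective
  · intro b a hba
    rw [h]
    intro ha
    exact (e b).2 (redg_adj hba.symm ha)

theorem redg_key (h : Base H ι) {r : ℕ} {N : ℕ} {G : SimpleGraph (Fin N)}
    (hc : up3_c H r (enc G) = true) {k : ℕ} {ι₀ : Fin k → Fin n} (h0 : Pt H ι₀)
    (h0' : ∀ v, (∃ u, ι₀ u = v) ↔ ¬ Bc H v) : Covers G H ↔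
      subW (fun v => ¬ Bc H v) N (enc G) (rows H (enc G) N r) ∈ LB (H.comap ι₀) ∧
        subW (Bc H) N (enc G) (rows H (enc G) N r) ∈ LB (H.comap ι) := by
  obtain ⟨t, ht, hty⟩ := redg_check hc
  obtain ⟨k1, σ, hσ, hσr, hσe⟩ := subW_enc (Bc H) G (rows H (enc G) N r)
  obtain ⟨k2, σ', hσ', hσr', hσe'⟩ := subW_enc (fun v => ¬ Bc H v) G (rows H (enc G) N r)
  have e1 : ∀ i, (∃ a, σ a = i) ↔ Bc G i := by
    intro i
    rw [hσr, ← ht, b1_iff]
    exact (redg_bc hty i).symm
  have e2 : ∀ i, (∃ a, σ' a = i) ↔ ¬ Bc G i := by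
    intro i
    rw [hσr', ← ht, b1_iff]
    exact not_congr (redg_bc hty i).symm
  have e3 : ∀ i, (∃ a, σ' a = i) ↔ ¬ ∃ a, σ a = i := by
    intro i
    rw [e1, e2]
  have p1 : Pt G σ := redg_sub (fun a b hab ha => redg_adj hab ha) hσ e1
  have p2 : Pt G σ' := pt_compl p1 hσ' e3
  rw [hσe, hσe', enc_mem_lb, enc_mem_lb]
  constructor
  · rintro ⟨F, hF⟩
    have hb : ∀ i, Bc G i ↔ Bc H (F i) := redg_bc (typed_cover hF)
    constructor
    · refine pt_restr hF p2 h0 fun b => ?_
      rw [h0', ← hb, ← e2]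
      exact ⟨b, rfl⟩
    · refine base_cov h (F := fun b => F (σ b)) (fun b => (hF (σ b)).comp (pt_nb p1 b)) ?_
      intro b
      rw [← hb, ← e1]
      exact ⟨b, rfl⟩
  · rintro ⟨c1, c2⟩
    exact pt_glue p1 hσ' e3 (cov_trans c2 ⟨ι, pt_incl h.pt⟩) (cov_trans c1 ⟨ι₀, pt_incl h0⟩)

theorem red_upH (h : Base H ι) : Red (LB H) (LB (H.comap ι)) := by
  classical
  obtain ⟨r, hr, hs⟩ := agH_stab H
  obtain ⟨k, ι₀, h0, h0'⟩ := redg_nb H
  have hP : LB (H.comap ι₀) ∈ P := by
    refine nb_mem_P fun v hv => ?_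
    refine (h0' (ι₀ v)).1 ⟨v, rfl⟩ ⟨ι₀ v, (pt_br h0 v).1 hv, SimpleGraph.Reachable.refl _⟩
  rw [mem_P_iff] at hP
  refine ⟨fun x => bif up3_c H r x && decide (subW (fun v => ¬ Bc H v) (mroot x.length) x
    (rows H x (mroot x.length) r) ∈ LB (H.comap ι₀)) then
      subW (Bc H) (mroot x.length) x (rows H x (mroot x.length) r) else [true], ?_, fun x => ?_⟩
  · rw [mem_FP_iff]
    have h1 : PT true (fun x : List Bool => mroot x.length) := by fun_prop
    have hT : PT true (fun x : List Bool => rows H x (mroot x.length) r) :=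
      PT.rows' H r (by fun_prop) h1
    refine PT.cond (PT.and' (redg_PT _ r) ?_) (PT.subW' (Bc H) h1 PT.id' hT) (PT.const' _)
    have h2 := PT.comp hP (PT.subW' (fun v => ¬ Bc H v) h1 PT.id' hT)
    convert h2
  · constructor
    · rintro ⟨N, G, rfl, hG⟩
      have hc := up3_check hs hG
      have hk := (redg_key h hc h0 h0').1 hG
      show (bif up3_c H r (enc G) && _ then _ else _) ∈ LB (H.comap ι)
      rw [hc, enc_len, mroot_sq, decide_eq_true hk.1, Bool.and_true, cond_true]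
      exact hk.2
    · intro hx
      have hx' : (bif up3_c H r x && decide (subW (fun v => ¬ Bc H v) (mroot x.length) x
        (rows H x (mroot x.length) r) ∈ LB (H.comap ι₀)) then
        subW (Bc H) (mroot x.length) x (rows H x (mroot x.length) r) else [true]) ∈
          LB (H.comap ι) := hx
      rcases hcx : up3_c H r x with _ | _
      · rw [hcx, Bool.false_and, cond_false] at hx'
        exact absurd hx' (R2_true _)
      · obtain ⟨N, G, rfl⟩ := redg_enc hcx
        rw [hcx, enc_len, mroot_sq, Bool.true_and] at hx'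
        by_cases hd : subW (fun v => ¬ Bc H v) N (enc G) (rows H (enc G) N r) ∈
            LB (H.comap ι₀)
        · rw [decide_eq_true hd, cond_true] at hx'
          exact ⟨N, G, rfl, (redg_key h hcx h0 h0').2 ⟨hd, hx'⟩⟩
        · rw [decide_eq_false hd, cond_false] at hx'
          exact absurd hx' (R2_true _)

end Pool.Agent.H24.GK
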