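import Pool.Agent.H24.GK.RNet
import Pool.Agent.H24.GH.LConn
import Pool.Agent.H24.GG.CovIff

/-!
# JOB GK-28: reduced graphs have reduced label structures

`core_map2`: the proof of `core_map` (file `Pool.Agent.H24.GG.CoreMap`; the private lemmas have to be copied), with the additional
statement `hF1` of its proof. `tree_ext2`: the proof of `tree_ext` (file `Pool.Agent.H24.GG.Ext`), with the additional statement `hF1`
of its proof.
`unit_pres`: the net of the unit kit of `lab H` is the net of `H`: `typed`: `e b = b`, `sim_refl`; `ln` is the definition of `lrv`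
(file `Pool.Agent.H24.GG.Lab`); `ty`: `Quotient.exact`.
`lab_cd`: the proof of `lab_conn` (file `Pool.Agent.H24.GH.LConn`), where `hc` is used only for `H.Reachable x.1 y.1`.
`redc_lab`: let `f, e` be a labelling; `hon_of_el`, `core_map2` (`lkd_of_gd`), `tree_ext2` (`tc_of_gd`) give a cover `F` with
`F x.1 = (f (x, ())).1` for `x : LV H`; `lab_cd`.
-/

namespace Pool.Agent.H24.GK

open Pool.Agent.H24.GC Pool.Agent.H24.GG Pool.Agent.H24.GH Pool.Agent.H24.GI

variable {A V W Δ : Type} {G : SimpleGraph A} {H : SimpleGraph V} {π : A → V}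

/-- the reversed arc -/
private theorem unitG_swap {r s : A} (hr : Cr G r) (hs : s ∈ cn G r) : r ∈ cn G s :=
  ⟨hs.1.symm, hr⟩

private theorem unitG_other {r s : A} (hs : Cr G s) (_ : r ∈ cn G s) : ∃ t ∈ cn G s, t ≠ r := by
  obtain ⟨a, ha, b, hb, hab⟩ := cr_two hs
  by_cases h : a = r
  · exact ⟨b, hb, fun h' => hab (h.trans h'.symm)⟩
  · exact ⟨a, ha, h⟩

/-- the values of an arc -/
private def unitG_Val (G : SimpleGraph A) (H : SimpleGraph V) (ar : Δ → A × A) (Ψ : Δ → LD H)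
    (r s : A) (z w : V) : Prop :=
  ∃ δ, PW G H (ar δ).1 (ar δ).2 (Ψ δ).1.1 (Ψ δ).1.2 r s z w

section

variable [Finite V] {N : Net (lab H) W Δ} {vt : W → A} {ar : Δ → A × A} {f : W → LV H}
  {Ψ : Δ → LD H}

private theorem unitG_br (P : Pres G H π N vt ar) (δ : Δ) : Br G (ar δ).1 := by
  rw [P.tl δ]
  exact P.br _

private theorem unitG_ty (P : Pres G H π N vt ar) (hh : Hon N f Ψ) (δ : Δ) :
    Sim H (π (ar δ).1) (Ψ δ).1.1 ∧ Sim H (π (ar δ).2) (Ψ δ).1.2 :=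
  P.ty δ (Ψ δ) (hh.ty δ).symm

private theorem unitG_sim (P : Pres G H π N vt ar) (hh : Hon N f Ψ) {r s : A} {z w : V}
    (h : unitG_Val G H ar Ψ r s z w) : Sim H (π r) z ∧ Sim H (π s) w := by
  obtain ⟨δ, h⟩ := h
  exact pw_sim P.typed (unitG_br P δ).1 (P.cn δ) (Ψ δ).2.2 (unitG_ty P hh δ).1
    (unitG_ty P hh δ).2 h

omit [Finite V] in
private theorem unitG_arc {r s : A} {z w : V}
    (h : unitG_Val G H ar Ψ r s z w) : w ∈ cn H z ∧ z ∈ cn H w := by
  obtain ⟨δ, h⟩ := h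
  exact wk_arc (Ψ δ).2.1.1 (Ψ δ).2.2 (pw_right h)

/-- every core arc has a value -/
private theorem unitG_ex (hH : Lkd H) (P : Pres G H π N vt ar) (hh : Hon N f Ψ) {r s : A}
    (hr : Cr G r) (hs : s ∈ cn G r) : ∃ z w, unitG_Val G H ar Ψ r s z w := by
  obtain ⟨p, q, hp, hq, h⟩ := lkd_start P.typed hH hr hs
  obtain ⟨δ, hδ⟩ := P.asurj p q hp hq
  have t := unitG_ty P hh δ
  rw [hδ] at t
  obtain ⟨z, w, h⟩ := pw_exists P.typed hp.1 hq (Ψ δ).2.2 t.1 t.2 h
  refine ⟨z, w, δ, ?_⟩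
  rw [hδ]
  exact h

/-- the value is unique -/
private theorem unitG_uniq (hH : Lkd H) (P : Pres G H π N vt ar) {r s : A}
    (hr : Cr G r) (hs : s ∈ cn G r) {z w z' w' : V} (h : unitG_Val G H ar Ψ r s z w)
    (h' : unitG_Val G H ar Ψ r s z' w') : z = z' ∧ w = w' := by
  obtain ⟨δ, h⟩ := h
  obtain ⟨δ', h'⟩ := h'
  obtain ⟨c, d, hw, hb⟩ := lkd_typed P.typed hH r s hr hs
  have l1 : Ln G (ar δ).1 (ar δ).2 c d :=
    ⟨unitG_br P δ, P.cn δ, wk_trans (pw_left h) hw, hb⟩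
  have l2 : Ln G (ar δ').1 (ar δ').2 c d :=
    ⟨unitG_br P δ', P.cn δ', wk_trans (pw_left h') hw, hb⟩
  obtain ⟨e1, e2⟩ := ln_det (typed_fin P.typed) (ln_rev l1) (ln_rev l2)
  have e3 : δ = δ' := P.ainj (Prod.ext e2 e1)
  subst e3
  exact pw_unique P.typed (unitG_br P δ) (P.cn δ) (Ψ δ).2.1.1 (Ψ δ).2.2 h h'

/-- the value of the reversed arc -/
private theorem unitG_rev (hH : Lkd H) (P : Pres G H π N vt ar) (hh : Hon N f Ψ) {r s : A}
    (hr : Cr G r) (hs : s ∈ cn G r) {z w : V} (h : unitG_Val G H ar Ψ r s z w) :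
    unitG_Val G H ar Ψ s r w z := by
  obtain ⟨s1, s2⟩ := unitG_sim P hh h
  obtain ⟨a1, a2⟩ := unitG_arc h
  obtain ⟨δ, h⟩ := h
  obtain ⟨c, d, hw, hb⟩ := lkd_typed P.typed hH r s hr hs
  obtain ⟨a, b, h2⟩ := pw_exists P.typed hr hs a1 s1 s2 hw
  have l1 : Ln G (ar δ).1 (ar δ).2 c d :=
    ⟨unitG_br P δ, P.cn δ, wk_trans (pw_left h) hw, hb⟩
  have t := unitG_ty P hh δ
  have l2 : Ln H (Ψ δ).1.1 (Ψ δ).1.2 a b :=
    pw_ln' P.typed l1 (Ψ δ).2.2 t.1 t.2 (pw_trans h h2)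
  obtain ⟨e1, e2⟩ := ln_det (typed_fin P.typed) l1 (P.ln δ)
  obtain ⟨e3, e4⟩ := ln_det (fun _ => Set.toFinite _) l2 (lrv_ln (Ψ δ))
  have e5 : Ψ (N.rv δ) = lrv H (Ψ δ) := hh.rv δ
  refine ⟨N.rv δ, ?_⟩
  rw [e5, ← e1, ← e2, ← e3, ← e4]
  exact pw_rev hr hs a2.2 a1 h2

/-- the value of the next arc -/
private theorem unitG_step (P : Pres G H π N vt ar) (hh : Hon N f Ψ) {r s t : A}
    {z w : V} (h : unitG_Val G H ar Ψ r s z w) (hb : ¬ Br G s) (ht : t ∈ cn G s) (htr : t ≠ r) :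
    ¬ Br H w ∧ ∃ u, u ∈ cn H w ∧ u ≠ z ∧ unitG_Val G H ar Ψ s t w u := by
  obtain ⟨s1, s2⟩ := unitG_sim P hh h
  obtain ⟨a1, a2⟩ := unitG_arc h
  have hbw : ¬ Br H w := fun h' => hb ((br_typed P.typed s).2 ((br_sim s2).2 h'))
  obtain ⟨u, hu, huz⟩ := unitG_other a1.2 a2
  obtain ⟨δ, h⟩ := h
  exact ⟨hbw, u, hu, huz, δ, PW.step h hb ht htr hbw hu huz⟩

end

theorem core_map2 [Finite V] (hH : Lkd H) {N : Net (lab H) W Δ} {vt : W → A} {ar : Δ → A × A}
    (P : Pres G H π N vt ar) {f : W → LV H} {Ψ : Δ → LD H} (hh : Hon N f Ψ) :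
    ∃ F : A → V, (∀ v, Cr G v → Sim H (F v) (π v)) ∧
      (∀ v, Cr G v → Set.BijOn F (cn G v) (cn H (F v))) ∧ ∀ w, F (vt w) = (f w).1 := by
  classical
  -- the map
  have hF : ∃ F : A → V, (∀ w, F (vt w) = (f w).1) ∧ ∀ v, Cr G v → ¬ Br G v →
      ∃ r z, Cr G r ∧ v ∈ cn G r ∧ unitG_Val G H ar Ψ r v z (F v) := by
    have h0 : ∀ v, ∃ x : V, (∀ w, vt w = v → x = (f w).1) ∧ (Cr G v → ¬ Br G v →
        ∃ r z, Cr G r ∧ v ∈ cn G r ∧ unitG_Val G H ar Ψ r v z x) := by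
      intro v
      by_cases h1 : ∃ w, vt w = v
      · obtain ⟨w, rfl⟩ := h1
        refine ⟨(f w).1, fun w' hw' => by rw [P.vinj hw'], fun _ h2 => absurd (P.br w) h2⟩
      · by_cases h2 : Cr G v
        · obtain ⟨r, hr, -⟩ := cr_two h2
          have h3 : v ∈ cn G r := unitG_swap h2 hr
          obtain ⟨z, w, h4⟩ := unitG_ex hH P hh hr.2 h3
          exact ⟨w, fun w' hw' => absurd ⟨w', hw'⟩ h1, fun _ _ => ⟨r, z, hr.2, h3, h4⟩⟩
        · exact ⟨π v, fun w' hw' => absurd ⟨w', hw'⟩ h1, fun h3 => absurd h3 h2⟩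
    choose F hF1 hF2 using h0
    exact ⟨F, fun w => hF1 _ w rfl, hF2⟩
  obtain ⟨F, hF1, hF2⟩ := hF
  -- the values are the values of `F`
  have h4 : ∀ r s z w, Cr G r → s ∈ cn G r → unitG_Val G H ar Ψ r s z w → F s = w := by
    intro r s z w hr hs h
    by_cases hb : Br G s
    · obtain ⟨δ, hδ⟩ := P.asurj s r hb (unitG_swap hr hs)
      have h5 : unitG_Val G H ar Ψ s r (Ψ δ).1.1 (Ψ δ).1.2 := by
        refine ⟨δ, ?_⟩
        rw [hδ]
        exact PW.refl
      have h6 := (unitG_uniq hH P hs.2 (unitG_swap hr hs) (unitG_rev hH P hh hr hs h) h5).1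
      have h7 : s = vt (N.tl δ) := by
        rw [← P.tl δ, hδ]
      have h8 : (Ψ δ).1.1 = (f (N.tl δ)).1 := congrArg Subtype.val (hh.tl δ)
      rw [h6, h8, h7, hF1]
    · obtain ⟨r', z', hr', hs', h5⟩ := hF2 s hs.2 hb
      by_cases hrr : r = r'
      · subst hrr
        exact (unitG_uniq hH P hr hs h5 h).2
      · obtain ⟨-, u, -, -, h6⟩ := unitG_step P hh h5 hb (unitG_swap hr hs) hrr
        exact (unitG_uniq hH P hs.2 (unitG_swap hr hs) h6 (unitG_rev hH P hh hr hs h)).1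
  have h5 : ∀ r s z w, Cr G r → s ∈ cn G r → unitG_Val G H ar Ψ r s z w → F r = z := by
    intro r s z w hr hs h
    exact h4 s r w z hs.2 (unitG_swap hr hs) (unitG_rev hH P hh hr hs h)
  refine ⟨F, fun v hv => ?_, fun v hv => ?_, hF1⟩
  · obtain ⟨r, hr, -⟩ := cr_two hv
    obtain ⟨z, w, h⟩ := unitG_ex hH P hh hr.2 (unitG_swap hv hr)
    rw [h4 r v z w hr.2 (unitG_swap hv hr) h]
    exact sim_symm (unitG_sim P hh h).2
  by_cases hb : Br G v
  · obtain ⟨w0, rfl⟩ := P.vsurj v hb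
    have key : ∀ δ, N.tl δ = w0 → (ar δ).1 = vt w0 ∧ (Ψ δ).1.1 = F (vt w0) ∧
        (Ψ δ).1.2 = F (ar δ).2 := by
      intro δ hδ
      have k1 : (ar δ).1 = vt w0 := by rw [P.tl δ, hδ]
      have k2 : unitG_Val G H ar Ψ (ar δ).1 (ar δ).2 (Ψ δ).1.1 (Ψ δ).1.2 := ⟨δ, PW.refl⟩
      refine ⟨k1, ?_, (h4 _ _ _ _ (unitG_br P δ).1 (P.cn δ) k2).symm⟩
      rw [← k1]
      exact (h5 _ _ _ _ (unitG_br P δ).1 (P.cn δ) k2).symm
    have ex : ∀ u ∈ cn G (vt w0), ∃ δ, N.tl δ = w0 ∧ ar δ = (vt w0, u) := by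
      intro u hu
      obtain ⟨δ, hδ⟩ := P.asurj _ u hb hu
      refine ⟨δ, P.vinj ?_, hδ⟩
      rw [← P.tl δ, hδ]
    refine ⟨?_, ?_, ?_⟩
    · intro u hu
      obtain ⟨δ, h6, h7⟩ := ex u hu
      obtain ⟨-, k2, k3⟩ := key δ h6
      rw [h7] at k3
      rw [← k2, ← k3]
      exact (Ψ δ).2.2
    · intro u hu u' hu' he
      obtain ⟨δ, h6, h7⟩ := ex u hu
      obtain ⟨δ', h6', h7'⟩ := ex u' hu'
      obtain ⟨-, k2, k3⟩ := key δ h6
      obtain ⟨-, k2', k3'⟩ := key δ' h6'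
      rw [h7] at k3
      rw [h7'] at k3'
      have e1 : Ψ δ = Ψ δ' := by
        refine Subtype.ext (Prod.ext (k2.trans k2'.symm) ?_)
        exact k3.trans (he.trans k3'.symm)
      have e2 : δ = δ' := (hh.bij w0).injOn h6 h6' e1
      have e3 : (vt w0, u) = (vt w0, u') := by
        rw [← h7, ← h7', e2]
      exact congrArg Prod.snd e3
    · intro y hy
      have hv : F (vt w0) = (f w0).1 := hF1 w0
      have hy' : y ∈ cn H (f w0).1 := by
        rw [← hv]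
        exact hy
      obtain ⟨δ, h6, h7⟩ := (hh.bij w0).surjOn
        (show (⟨((f w0).1, y), (f w0).2, hy'⟩ : LD H) ∈ {d | (lab H).tl d = f w0} from rfl)
      obtain ⟨k1, k2, k3⟩ := key δ h6
      refine ⟨(ar δ).2, ?_, ?_⟩
      · rw [← k1]
        exact P.cn δ
      · rw [← k3, h7]
  · obtain ⟨a, ha, b, hb', hab⟩ := cr_two hv
    have hva := unitG_swap hv ha
    obtain ⟨z, w, h⟩ := unitG_ex hH P hh ha.2 hva
    have e1 := h4 _ _ _ _ ha.2 hva h
    have e2 := h5 _ _ _ _ ha.2 hva h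
    obtain ⟨hbw, u, hu, huz, h6⟩ := unitG_step P hh h hb hb' hab.symm
    have e3 := h4 _ _ _ _ hv hb' h6
    obtain ⟨a1, a2⟩ := unitG_arc h
    have all : ∀ c ∈ cn G v, c ≠ a → c = b := by
      intro c hc hca
      exact nb_unique (typed_fin P.typed _) hv hb ha hc hb' hca hab.symm
    rw [e1]
    refine ⟨?_, ?_, ?_⟩
    · intro c hc
      by_cases hca : c = a
      · rw [hca, e2]
        exact a2
      · rw [all c hc hca, e3]
        exact hu
    · intro c hc c' hc' he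
      by_cases hca : c = a
      · by_cases hca' : c' = a
        · rw [hca, hca']
        · rw [hca, all c' hc' hca', e2, e3] at he
          exact absurd he.symm huz
      · by_cases hca' : c' = a
        · rw [hca', all c hc hca, e2, e3] at he
          exact absurd he huz
        · rw [all c hc hca, all c' hc' hca']
    · intro y hy
      by_cases hyz : y = z
      · exact ⟨a, ha, by rw [e2, hyz]⟩
      · refine ⟨b, hb', ?_⟩
        rw [e3]
        exact nb_unique (Set.toFinite _) a1.2 hbw a2 hu hy huz hyz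

theorem tree_ext2 [Finite V] (hπ : Typed G H π) (hT : Tc H) {F₀ : A → V}
    (h1 : ∀ v, Cr G v → Sim H (F₀ v) (π v))
    (h2 : ∀ v, Cr G v → Set.BijOn F₀ (cn G v) (cn H (F₀ v))) :
    ∃ F : A → V, IsCover G H F ∧ ∀ v, Cr G v → F v = F₀ v := by
  classical
  have hTG : Tc G := tc_typed hπ hT
  -- the local bijections
  have hβ0 : ∀ (v : A) (x : V), ∃ e : A → V, Sim H x (π v) →
      Set.BijOn e (G.neighborSet v) (H.neighborSet x) ∧
        ∀ b, G.Adj v b → Sim H (e b) (π b) := by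
    intro v x
    by_cases h : Sim H x (π v)
    · obtain ⟨e, he⟩ := nb_bij hπ h
      exact ⟨e, fun _ => he⟩
    · exact ⟨π, fun h' => absurd h' h⟩
  choose β hβ using hβ0
  -- the parents
  have hp0 : ∀ v, ∃ u, ¬ Cr G v → G.Adj v u ∧ dpt G u < dpt G v := by
    intro v
    by_cases h : Cr G v
    · exact ⟨v, fun h' => absurd h h'⟩
    · obtain ⟨u, hu⟩ := par_exists hTG h
      exact ⟨u, fun _ => hu⟩
  choose p hp using hp0
  obtain ⟨F, hF1, hF2⟩ := ext_rec (dpt G) (Cr G) p (fun v hv => (hp v hv).2) F₀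
    (fun v y => β (p v) y v)
  have hS : ∀ n, ∀ v, dpt G v = n → Sim H (F v) (π v) := by
    intro n
    induction n using Nat.strong_induction_on with
    | _ n ih =>
      intro v hv
      by_cases hc : Cr G v
      · rw [hF1 v hc]
        exact h1 v hc
      · rw [hF2 v hc]
        have h3 := ih (dpt G (p v)) (by rw [← hv]; exact (hp v hc).2) (p v) rfl
        exact (hβ (p v) (F (p v)) h3).2 v (hp v hc).1.symm
  have hS' : ∀ v, Sim H (F v) (π v) := fun v => hS _ v rfl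
  have hdF : ∀ v, dpt H (F v) = dpt G v := fun v =>
    (dpt_sim (hS' v)).trans (dpt_typed hπ v).symm
  have hcF : ∀ v, Cr H (F v) ↔ Cr G v := fun v =>
    (cr_sim (hS' v)).trans (cr_typed hπ v).symm
  -- the children
  have hch : ∀ v, Set.BijOn F (extCh G v) (extCh H (F v)) := by
    intro v
    have hb := hβ v (F v) (hS' v)
    have heq : ∀ u ∈ extCh G v, F u = β v (F v) u := by
      intro u hu
      have hnc : ¬ Cr G u := by
        intro hc
        have := (dpt_zero hTG u).2 hc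
        have h3 := hu.2
        omega
      have hpu : p u = v := par_unique hTG hnc (hp u hnc).1 hu.1.symm (hp u hnc).2.le hu.2.le
      rw [hF2 u hnc, hpu]
    have hbd : ∀ u, G.Adj v u → dpt H (β v (F v) u) = dpt G u := fun u hu =>
      (dpt_sim (hb.2 u hu)).trans (dpt_typed hπ u).symm
    refine ⟨?_, ?_, ?_⟩
    · intro u hu
      rw [heq u hu]
      refine ⟨hb.1.mapsTo hu.1, ?_⟩
      rw [hbd u hu.1, hdF v]
      exact hu.2
    · intro u hu u' hu' huu
      rw [heq u hu, heq u' hu'] at huu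
      exact hb.1.injOn hu.1 hu'.1 huu
    · intro w hw
      obtain ⟨u, hu, rfl⟩ := hb.1.surjOn hw.1
      have hu' : u ∈ extCh G v := by
        refine ⟨hu, ?_⟩
        have h3 := hw.2
        rw [hbd u hu, hdF v] at h3
        exact h3
      exact ⟨u, hu', heq u hu'⟩
  refine ⟨F, ?_, hF1⟩
  intro v
  by_cases hc : Cr G v
  · have hcx : Cr H (F v) := (hcF v).2 hc
    rw [ext_nb_core hTG hc, ext_nb_core hT hcx]
    refine ext_union ?_ (hch v) ?_
    · have h3 := h2 v hc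
      rw [← hF1 v hc] at h3
      exact h3.congr fun u hu => (hF1 u hu.2).symm
    · rw [Set.disjoint_left]
      intro w hw hw'
      have h3 := (dpt_zero hT w).2 hw.2
      have h4 := hw'.2
      omega
  · have hcx : ¬ Cr H (F v) := fun h => hc ((hcF v).1 h)
    have hpv := hp v hc
    have hadj : H.Adj (F v) (F (p v)) := by
      have h3 := (hβ (p v) (F (p v)) (hS' (p v))).1.mapsTo hpv.1.symm
      rw [← hF2 v hc] at h3
      exact H.adj_symm h3
    have hlt : dpt H (F (p v)) < dpt H (F v) := by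
      rw [hdF, hdF]
      exact hpv.2
    rw [ext_nb_tree hTG hc hpv.1 hpv.2, ext_nb_tree hT hcx hadj hlt]
    refine ext_union ?_ (hch v) ?_
    · rw [Set.bijOn_singleton]
    · rw [Set.disjoint_singleton_left]
      intro h3
      have h4 := h3.2
      omega

theorem unit_pres [Finite V] (H : SimpleGraph V) :
    Pres H H id (unitKt (lab H)).net (fun w => w.1.1) (fun δ => δ.1.1) where
  typed := typed_id H
  br w := w.1.2
  vinj := by
    rintro ⟨x, ⟨⟩⟩ ⟨y, ⟨⟩⟩ (h : x.1 = y.1)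
    rw [Subtype.ext h]
  vsurj a ha := ⟨(⟨a, ha⟩, ()), rfl⟩
  tl _ := rfl
  cn δ := δ.1.2.2
  ainj := by
    rintro ⟨x, ⟨⟩⟩ ⟨y, ⟨⟩⟩ (h : x.1 = y.1)
    rw [Subtype.ext h]
  asurj p q hp hq := ⟨(⟨(p, q), hp, hq⟩, ()), rfl⟩
  ln δ := lrv_ln δ.1
  ty δ d h := by
    have h1 : Quotient.mk (ldS H) δ.1 = Quotient.mk (ldS H) d := h
    exact Quotient.exact (s := ldS H) h1
  cl _ := rfl

/-- reachable branch vertices -/
private def unitG_lR {V : Type} [Finite V] (H : SimpleGraph V) (x : LV H) (v : V) : Prop :=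
  ∃ hv : Br H v, Relation.ReflTransGen
    (fun a b => ∃ d, (lab H).tl d = a ∧ (lab H).hd d = b) x ⟨v, hv⟩

private theorem unitG_l_link {V : Type} [Finite V] {H : SimpleGraph V} {x : LV H} {b q r s : V}
    (hb : unitG_lR H x b) (hq : q ∈ cn H b) (hw : Wk H b q r s) (hs : Br H s) :
    unitG_lR H x s := by
  obtain ⟨hb, hR⟩ := hb
  have hl : Ln H b q r s := ⟨hb, hq, hw, hs⟩
  have hr : r ∈ cn H s := (wk_arc hb.1 hq hw).2
  have e : lrv H ⟨(b, q), hb, hq⟩ = ⟨(s, r), hs, hr⟩ := lrv_eq hl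
  refine ⟨hs, hR.tail ⟨⟨(b, q), hb, hq⟩, rfl, ?_⟩⟩
  show (⟨(lrv H ⟨(b, q), hb, hq⟩).1.1, (lrv H ⟨(b, q), hb, hq⟩).2.1⟩ : LV H) = ⟨s, hs⟩
  rw [Subtype.mk.injEq, e]

private def unitG_lS {V : Type} [Finite V] (H : SimpleGraph V) (x : LV H) (v : V) : Prop :=
  unitG_lR H x v ∨ (¬ Br H v ∧ ∃ b q r, unitG_lR H x b ∧ q ∈ cn H b ∧ Wk H b q r v)

private theorem unitG_l_step {V : Type} [Finite V] {H : SimpleGraph V} {x : LV H} {v u : V}
    (hv : unitG_lS H x v) (hu : u ∈ cn H v) : unitG_lS H x u := by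
  rcases hv with hv | ⟨hnb, b, q, r, hb, hq, hw⟩
  · by_cases hbu : Br H u
    · exact Or.inl (unitG_l_link hv hu Wk.refl hbu)
    · exact Or.inr ⟨hbu, v, u, v, hv, hu, Wk.refl⟩
  · by_cases hur : u = r
    · subst hur
      cases hw with
      | refl => exact Or.inl hb
      | step hw' hnb' _ _ => exact Or.inr ⟨hnb', b, q, _, hb, hq, hw'⟩
    · have hw' : Wk H b q v u := Wk.step hw hnb hu hur
      by_cases hbu : Br H u
      · exact Or.inl (unitG_l_link hb hq hw' hbu)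
      · exact Or.inr ⟨hbu, b, q, v, hb, hq, hw'⟩

theorem lab_cd [Finite V] {x y : LV H} (h : H.Reachable x.1 y.1) : Cd (lab H) x y := by
  have h1 := Pool.Agent.H24.GG.core_path H x.2.1 y.2.1 h
  have h2 : ∀ z, Relation.ReflTransGen (fun a b => Cr H a ∧ b ∈ cn H a) x.1 z →
      unitG_lS H x z := by
    intro z hz
    induction hz with
    | refl => exact Or.inl ⟨x.2, Relation.ReflTransGen.refl⟩
    | tail _ hbc ih => exact unitG_l_step ih hbc.2
  have h2 := h2 y.1 h1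
  rcases h2 with ⟨hy, h⟩ | ⟨hn, -⟩
  · exact h
  · exact absurd y.2 hn

theorem redc_lab [Finite V] (hH : Gd H)
    (h : ∀ F, IsCover H H F → ∀ v, H.Reachable v (F v)) : Redc (lab H) := by
  intro f e he x
  haveI : Finite (LV H × (unitKt (lab H)).Q) := inferInstance
  haveI : Finite (LD H × (unitKt (lab H)).Q) := inferInstance
  obtain ⟨Ψ, hΨ⟩ := hon_of_el he
  obtain ⟨F₀, h1, h2, h3⟩ := core_map2 (lkd_of_gd hH) (unit_pres H) hΨ
  obtain ⟨F, hF, h4⟩ := tree_ext2 (typed_id H) (tc_of_gd hH) h1 h2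
  have h5 := h F hF x.1
  rw [h4 x.1 x.2.1, h3 (x, ())] at h5
  exact lab_cd h5

end Pool.Agent.H24.GK
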