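import Pool.Agent.H24.GK.HardN
import Pool.Agent.H24.GG.MFin

/-!
# JOB GK-31: hardness if some type which is not matched has at least three darts

`base_multi_t`: the kit of `base_multi_k` (file `Pool.Agent.H24.GG.BaseMK`); its proof, and for two different darts `d, d'` at the same
vertex `tie_of_dfc` (file `Pool.Agent.H24.GH.NPotA`) with `baseMK_main` for `![(d, _), (d', _)]`, as for `ex2` (now `d ≠ d'` gives the
injectivity, also if the types are the same).
`hpat_XM`: `τ = t`, `m = num t`, `Xg x` iff `2 ≤ supp L t x`. Every `x` of the class `sc t` satisfies `Xg`, and `M t x z ≤ 2` for all `x, z`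
(`M t x z = M (bar t) z x ≤ num (bar t)`, `M_bar`, `M_le`; `supp_one`). Let `k, κ` be from `base_multi_t`. `hp_fin` (file
`Pool.Agent.H24.GH.NHp`), `mk_ties` (file `Pool.Agent.H24.GH.NTie`): compare `hpat_X` (file `Pool.Agent.H24.GH.NCaseX`), with
`c = bar t`, `k` instead of the sum of kits. `SBase k t x₀ (κ x₀)`: `BaseK`, `base_multi_t`. Let `σ ≠ bar t` be a type with
`sc σ = sc (bar t)` (`h2`), `vb` a vertex of the class `sc (bar t)`, `d, d'` darts at `vb` of the types `bar t`, `σ`;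
`PBase k vb (κ vb) d d'`. `ζ = bar σ`, `zt y` with `Dt σ y (zt y)`; `ζ = t` is impossible. `GBase` at `(d₁, κ x₀)`, `d₁` a dart of type `t`
from `x₀` to `yt`: `ex1`; `xg`: the class of `f (tl d₁, κ x₀)` is `sc t` (`EL.cls`); `cp`: `proj_el`.
`hpat_W`: if there is `s` with `Lfs L.sc s`: `hpat_N`. Otherwise every type has another type at its source. If `3 ≤ num (bar t)`:
`hpat_1` (`¬ Mtd t` by `hr`), otherwise `hpat_XM`.
`hard_W`: `refine_exists (lab H)` gives `L'`; `redc_rf`. In the second case (`t` is alone at its source) the type of `L'` over `t` is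
alone at its source (see `csp_red` in the file `Pool.Agent.H24.GK.FinalK` or `hard_single` in `Pool.Agent.H24.GI.Final`), `hard_N`. In the
first case let `t'` be the type of `L'` over `t`; `num t' = num t`: by `refi_unm` the darts of type `t'` are the darts of type `t`
(`num_eq`). `hpat_W`, `HPat.tr`, `hard_of_hpat`.
-/

namespace Pool.Agent.H24.GK

open Pool.Agent.H24.GC Pool.Agent.H24.GG Pool.Agent.H24.GH Pool.Agent.H24.GI

variable {V D T K : Type} {L : LS V D T K} [Finite V] [Finite D] [Finite T]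

theorem base_multi_t (L : LS V D T K) (h2 : ∀ t, ∃ t', L.sc t' = L.sc t ∧ t' ≠ t)
    (h3 : ∀ x, 3 ≤ {d | L.tl d = x}.ncard) :
    ∃ (k : Kt L) (κ : V → k.Q), BaseK k κ L.ty ∧ ∀ d d', L.tl d = L.tl d' → d ≠ d' →
      TlTie k.net (d, κ (L.tl d)) (d', κ (L.tl d')) := by
  let J : Type := {a : T × V × V × T × V //
    Dt L a.1 a.2.1 a.2.2.1 ∧ Dt L a.2.2.2.1 a.2.1 a.2.2.2.2 ∧ a.1 ≠ a.2.2.2.1}
  have hJf : Finite J := inferInstance
  choose P hfin g p₀ hcw using fun j : J => exists_cwalk2 (L := L)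
    (live_of_two h2 _) (live_of_two h2 _)
    ((dt_cl j.2.1).1.symm.trans (dt_cl j.2.2.1).1) j.2.2.2 j.2.1 j.2.2.1
  have hJ : ∀ t x y t' y', Dt L t x y → Dt L t' x y' → t ≠ t' →
      ∃ j, CWalk (g j) (p₀ j) t x y t' y' := fun t x y t' y' h1 h2 h3 =>
    ⟨⟨(t, x, y, t', y'), h1, h2, h3⟩, hcw _⟩
  obtain ⟨k, -, κ, -, -, hU⟩ := exists_ukit L
  have hne : ∀ d, (prodVt g).g (L.ty d) p₀ ≠ p₀ := by
    intro d he
    have hy : Dt L (L.ty d) (L.tl d) (L.hd d) := ⟨d, rfl, rfl, rfl⟩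
    obtain ⟨t', h4, h5⟩ := h2 (L.ty d)
    obtain ⟨y', hy'⟩ := dt_exists (L := L) (t := t') (x := L.tl d) (by rw [h4, (dt_cl hy).1])
    obtain ⟨j, l, z, τ, -, -, h0, -, -, -, -, h6, -⟩ := hJ _ _ _ t' y' hy hy' (fun hc => h5 hc.symm)
    have h7 := h6 1 Nat.one_pos (by omega)
    apply h7
    show (g j).g (τ 0) (p₀ j) = p₀ j
    rw [h0]
    exact congrFun he j
  have key : ∀ d d', L.tl d = L.tl d' → d ≠ d' → ∀ f e,
      EL (liftKt k (prodVt g)).net {(d, (κ (L.tl d), p₀)), (d', (κ (L.tl d'), p₀))} f e →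
      ∀ t x y, L.cl x = (liftKt k (prodVt g)).net.cl
        ((liftKt k (prodVt g)).net.tl (d, (κ (L.tl d), p₀))) →
      dfc (liftKt k (prodVt g)).net f e ![(d, (κ (L.tl d), p₀)), (d', (κ (L.tl d'), p₀))] t x y
        = 0 := by
    intro d d' hdd hty f e he t x y hx
    have hb : ∀ i : Fin 2, (liftKt k (prodVt g)).net.tl
        ((![(d, (κ (L.tl d), p₀)), (d', (κ (L.tl d'), p₀))] :
          Fin 2 → D × (liftKt k (prodVt g)).Q) i) = (L.tl d, (κ (L.tl d), p₀)) := by
      intro i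
      fin_cases i
      · rfl
      · show ((L.tl d', (κ (L.tl d'), p₀)) : V × (k.Q × ∀ j, P j)) = (L.tl d, (κ (L.tl d), p₀))
        rw [hdd]
    have hr : Set.range (![(d, (κ (L.tl d), p₀)), (d', (κ (L.tl d'), p₀))] :
        Fin 2 → D × (liftKt k (prodVt g)).Q) =
          {(d, (κ (L.tl d), p₀)), (d', (κ (L.tl d'), p₀))} := by
      ext δ
      constructor
      · rintro ⟨i, rfl⟩
        fin_cases i
        · exact Or.inl rfl
        · exact Or.inr rfl
      · rintro (h | h)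
        · exact ⟨0, h.symm⟩
        · exact ⟨1, (Set.mem_singleton_iff.1 h).symm⟩
    refine baseMK_main (N := (liftKt k (prodVt g)).net) h2 (h3 x) (ι := Fin 2) (by simp)
      ?_ ((congrArg (fun C => EL (liftKt k (prodVt g)).net C f e) hr).mpr he) g
      (pos := fun w => w.2.2) (fun δ => rfl) (b := (L.tl d, (κ (L.tl d), p₀))) hb
      hJ ?_ hx
    · intro a b hab
      fin_cases a <;> fin_cases b
      · rfl
      · exact absurd (congrArg (fun δ : D × (k.Q × ∀ j, P j) => δ.1) hab) hty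
      · exact absurd (congrArg (fun δ : D × (k.Q × ∀ j, P j) => δ.1) hab).symm hty
      · rfl
    · intro i
      fin_cases i
      · exact hne d
      · exact hne d'
  have htl : ∀ d d', L.tl d = L.tl d' → (liftKt k (prodVt g)).net.tl (d, (κ (L.tl d), p₀)) =
      (liftKt k (prodVt g)).net.tl (d', (κ (L.tl d'), p₀)) := by
    intro d d' hdd
    show ((L.tl d, (κ (L.tl d), p₀)) : V × (k.Q × ∀ j, P j)) = (L.tl d', (κ (L.tl d'), p₀))
    rw [hdd]
  refine ⟨liftKt k (prodVt g), fun v => (κ v, p₀), ⟨?_, ?_, ?_, ?_⟩, ?_⟩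
  · exact fun v => lift_ustar k (prodVt g) (ukit_star (hU v)) p₀
  · intro d hd
    exact hne d (congrArg Prod.snd hd)
  · intro d
    refine exact_of_dfc1 fun f e he t x y hx => ?_
    have hr : Set.range (fun _ : Unit => ((d, (κ (L.tl d), p₀)) : D × (liftKt k (prodVt g)).Q)) =
        {(d, (κ (L.tl d), p₀))} := Set.range_const
    exact baseMK_main (N := (liftKt k (prodVt g)).net) h2 (h3 x) (ι := Unit) (by simp)
      (fun a b _ => Subsingleton.elim a b)
      ((congrArg (fun C => EL (liftKt k (prodVt g)).net C f e) hr).mpr he) g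
      (pos := fun w => w.2.2) (fun δ => rfl) (b := (L.tl d, (κ (L.tl d), p₀))) (fun _ => rfl)
      hJ (fun _ => hne d) hx
  · intro d d' hdd hty
    exact exact_of_dfc2 hty (htl d d' hdd) (key d d' hdd (fun h => hty (by rw [h])))
  · intro d d' hdd hne'
    exact tie_of_dfc (htl d d' hdd) (key d d' hdd hne')

theorem hpat_XM (h2 : ∀ t, ∃ t', L.sc t' = L.sc t ∧ t' ≠ t)
    (h3 : ∀ x, 3 ≤ {d | L.tl d = x}.ncard) {t : T} (hm : 3 ≤ L.num t)
    (hb : L.num (L.bar t) ≤ 2) : ∃ k : Kt L, HPat k := by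
  obtain ⟨k, κ, hB, hT⟩ := base_multi_t L h2 h3
  have hM2 : ∀ x z, L.M t x z ≤ 2 := by
    intro x z
    rw [← M_bar]
    exact (M_le _ _ _).trans hb
  have hXg : ∀ x, L.cl x = L.sc t → 2 ≤ supp L t x := by
    intro x hx
    by_contra hlt
    obtain ⟨y, hy⟩ := dt_exists hx
    have e1 := supp_one (by omega) hy
    have e2 := hM2 x y
    omega
  refine ⟨k, hp_fin (τ := t) (m := L.num t) rfl (Xg := fun x => 2 ≤ supp L t x) ?_ ?_ ?_ ?_⟩
  · obtain ⟨x, hx⟩ := L.cls t
    exact ⟨x, hXg x hx, hx⟩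
  · intro x z _ _
    have := hM2 x z
    omega
  · intro x z x' _ _ hf
    have h1 : L.M t x' z = L.num t := by
      rw [← hf.2 z]
      have h2 : {i : Fin (L.num t) | z = z} = Set.univ := by
        ext i
        simp
      rw [h2, Set.ncard_univ, Nat.card_eq_fintype_card, Fintype.card_fin]
    have := hM2 x' z
    omega
  · intro x₀ _ hcx₀
    obtain ⟨yt, hyt⟩ := dt_exists hcx₀
    obtain ⟨σ, hσ, hσt⟩ := h2 (L.bar t)
    have hex : ∀ y, ∃ z, Dt L t x₀ y → Dt L (L.bar σ) z y ∧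
        (L.bar σ = t → z = x₀ → 2 ≤ L.M t x₀ y) := by
      intro y
      by_cases hy : Dt L t x₀ y
      · obtain ⟨z, hz⟩ := dt_exists (t := σ) (x := y) (by rw [hσ]; exact (dt_cl hy).2)
        refine ⟨z, fun _ => ⟨dt_symm hz, fun h6 => absurd ?_ hσt⟩⟩
        rw [← h6, L.bar_bar]
      · exact ⟨x₀, fun h => absurd h hy⟩
    choose zt hzt using hex
    refine ⟨L.bar σ, yt, zt, ?_⟩
    have hs : SBase k t x₀ (κ x₀) := by
      refine ⟨hcx₀, hB.star x₀, ?_, ?_, ?_⟩
      · rintro d rfl _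
        exact hB.ne d
      · rintro d rfl _
        exact hB.ex1 d
      · rintro d d' rfl hd' _ _ hne
        have h4 := hT d d' hd'.symm hne
        rw [hd'] at h4
        exact h4
    obtain ⟨vb, hvb⟩ := L.cls (L.bar t)
    obtain ⟨y, d, hd1, -, hd2⟩ := dt_exists (t := L.bar t) hvb
    obtain ⟨y', d', hd1', -, hd2'⟩ := dt_exists (t := σ) (x := vb) (by rw [hσ]; exact hvb)
    have hdne : d ≠ d' := by
      rintro rfl
      exact hσt (hd2'.symm.trans hd2)
    have hpb : PBase k vb (κ vb) d d' := by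
      refine ⟨hB.star vb, hd1, hd1', hdne, ?_, ?_, ?_, ?_⟩
      · have h4 := hB.ne d
        rw [hd1] at h4
        exact h4
      · have h4 := hB.ex1 d
        rw [hd1] at h4
        exact h4
      · have h4 := hB.ex1 d'
        rw [hd1'] at h4
        exact h4
      · have h4 := hT d d' (hd1.trans hd1'.symm) hdne
        rw [hd1, hd1'] at h4
        exact h4
    obtain ⟨d₁, ha1, ha2, ha3⟩ := hyt
    have hg : GBase k t x₀ yt (fun x => 2 ≤ supp L t x) (d₁, κ x₀) := by
      refine ⟨ha3, ?_, ?_, ?_⟩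
      · have h4 := hB.ex1 d₁
        rw [ha1] at h4
        exact h4
      · intro f e hfe
        refine hXg _ ?_
        rw [hfe.cls]
        show L.cl (L.tl d₁) = L.sc t
        rw [ha1]
        exact hcx₀
      · refine ⟨_, _, proj_el _, ?_⟩
        show (L.tl d₁, L.hd d₁) = (x₀, yt)
        rw [ha1, ha2]
    exact mk_ties hm rfl hs hpb hd2 (by rw [hd2', L.bar_bar]) hzt ⟨d₁, ha1, ha2, ha3⟩ hg

theorem hpat_W (hred : Redc L) (h3 : ∀ x, 3 ≤ {d | L.tl d = x}.ncard)
    (hr : ∀ t, Mtd L t → L.num t = 1) {t : T} (hm : 3 ≤ L.num t) : ∃ k : Kt L, HPat k := by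
  by_cases hlf : ∃ s, Lfs L.sc s
  · exact hpat_N hred h3 hr hlf
  · have h2 : ∀ t, ∃ t', L.sc t' = L.sc t ∧ t' ≠ t := by
      intro s
      by_contra hs
      refine hlf ⟨s, fun s' hs' => ?_⟩
      by_contra hne
      exact hs ⟨s', hs', hne⟩
    by_cases hb : 3 ≤ L.num (L.bar t)
    · refine hpat_1 hred hm hb (fun h => ?_)
      have := hr t h
      omega
    · exact hpat_XM h2 h3 hm (by omega)

theorem hard_W {V : Type} [Finite V] {H : SimpleGraph V} (hH : Gd H) (hred : Redc (lab H))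
    {t : LT H} (hm : ¬ Mtd (lab H) t)
    (h : 3 ≤ (lab H).num t ∨ ∀ t', (lab H).sc t' = (lab H).sc t → t' = t) : HardH H := by
  obtain ⟨T', hT', L', ρ, hR, -, hr⟩ := refine_exists (lab H)
  obtain ⟨d, hd⟩ := refi_surj (lab H) t
  have h1 : ρ (L'.ty d) = t := by rw [← hR.ty, hd]
  have h3 : ∀ x, 3 ≤ {d | L'.tl d = x}.ncard := by
    intro x
    rw [hR.tl]
    exact lab_deg H x
  rcases h with h | hu
  · have hn : L'.num (L'.ty d) = (lab H).num t := by
      rw [← L'.num_eq (L'.tl d) (L'.ty d) (L'.cl_tl d),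
        ← (lab H).num_eq ((lab H).tl d) t (by rw [(lab H).cl_tl, hd])]
      congr 1
      ext d'
      constructor
      · rintro ⟨g1, g2⟩
        refine ⟨?_, ?_⟩
        · rw [← hR.tl]
          exact g1
        · rw [hR.ty, g2, h1]
      · rintro ⟨g1, g2⟩
        refine ⟨?_, ?_⟩
        · rw [hR.tl]
          exact g1
        · refine refi_unm hR (by rw [h1]; exact hm) ?_
          rw [← hR.ty, g2, h1]
    obtain ⟨k, hk⟩ := hpat_W (redc_rf hR hred) h3 hr (t := L'.ty d) (by rw [hn]; exact h)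
    exact hard_of_hpat hH (HPat.tr hR hk)
  · refine hard_N hH hR hr hred ⟨L'.ty d, fun s' hs => ?_⟩
    refine refi_unm hR (by rw [h1]; exact hm) ?_
    rw [h1]
    refine hu _ ?_
    obtain ⟨d', hd'⟩ := refi_surj L' s'
    rw [← hd', ← hR.ty, ← hd, ← (lab H).cl_tl, ← (lab H).cl_tl, ← hR.cl, ← hR.tl, L'.cl_tl,
      L'.cl_tl, hd', hs]

end Pool.Agent.H24.GK
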