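import Pool.Agent.H24.GK.HardN
import Pool.Agent.H24.GK.WideW
import Pool.Agent.H24.GK.UnitG
import Pool.Agent.H24.GK.RedG
import Pool.Agent.H24.GI.Final

/-!
# The classification for all graphs
-/

namespace Pool.Agent.H24.GK

open Pool.Agent.H24.GC Pool.Agent.H24.GD Pool.Agent.H24.GE Pool.Agent.H24.GG Pool.Agent.H24.GH
  Pool.Agent.H24.GI Pool.Agent.H24.GJ Pool.Agent.PPS Pool.Agent.H64.Cook Pool.Agent.H79.Thr

theorem red_tr {A B C : Set (List Bool)} (h1 : Red A B) (h2 : Red B C) : Red A C := by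
  obtain ⟨φ, hφ, h3⟩ := h1
  obtain ⟨ψ, hψ, h4⟩ := h2
  refine ⟨fun x => ψ (φ x), ?_, fun x => (h3 x).trans (h4 _)⟩
  rw [mem_FP_iff] at hφ hψ ⊢
  exact hψ.comp' hφ

theorem csp_red {n : ℕ} (hn : 0 < n) {H : SimpleGraph (Fin n)} (hH : Gd H)
    (hred : ∀ F, IsCover H H F → ∀ v, H.Reachable v (F v)) : PolyEq (LB H) (CSet (TR H)) := by
  by_cases hm : ∀ t : LT H, ¬ Mtd (lab H) t → ∃ t', (lab H).sc t' = (lab H).sc t ∧ t' ≠ t
  · exact multi_csp_all hn hH hm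
  · push Not at hm
    obtain ⟨t, ht, hu⟩ := hm
    have hhard : HardH H := by
      obtain ⟨T', hT', L', ρ, hR, -, hr⟩ := refine_exists (lab H)
      obtain ⟨d, hd⟩ := refi_surj (lab H) t
      have h1 : ρ (L'.ty d) = t := by rw [← hR.ty, hd]
      refine hard_N hH hR hr (redc_lab hH hred) ⟨L'.ty d, fun s' hs => ?_⟩
      refine refi_unm hR (by rw [h1]; exact ht) ?_
      rw [h1]
      refine hu _ ?_
      rw [fin_sc hR, hs, ← fin_sc hR, h1]
    refine ⟨red_up hn hH, ?_⟩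
    obtain ⟨φ, hφ, h2⟩ := hhard _ (cset_NP (by positivity) (TR H))
    refine ⟨φ, hφ, fun x => ?_⟩
    obtain ⟨k, G, h3, h4⟩ := h2 x
    rw [h3, enc_mem_lb]
    exact h4

theorem final_P {n : ℕ} {H : SimpleGraph (Fin n)} (h : ∀ v, ¬ Br H v) : LB H ∈ P := nb_mem_P h

theorem final_eq {n m : ℕ} {H : SimpleGraph (Fin n)} (h : ∃ v, Br H v) {ι : Fin m → Fin n}
    (hι : Base H ι) : PolyEq (LB H) (CSet (TR (H.comap ι))) := by
  have hm : 0 < m := by
    obtain ⟨v, hv⟩ := h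
    obtain ⟨u, -⟩ := hι.cov v ⟨v, hv, SimpleGraph.Reachable.refl v⟩
    exact u.pos
  obtain ⟨h1, h2⟩ := csp_red hm (base_gd hι) fun F hF v => base_red hι hF v
  exact ⟨red_tr (red_upH hι) h1, red_tr h2 (red_dn hι)⟩

/-- NP-completeness, if a type of the base which is not matched has at least three darts or is alone at its source -/
theorem final_hard {n m : ℕ} {H : SimpleGraph (Fin n)} {ι : Fin m → Fin n} (hι : Base H ι)
    (h : ∃ t : LT (H.comap ι), ¬ Mtd (lab (H.comap ι)) t ∧ (3 ≤ (lab (H.comap ι)).num t ∨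
      ∀ t', (lab (H.comap ι)).sc t' = (lab (H.comap ι)).sc t → t' = t)) :
    LB H ∈ NP ∧ ∀ L ∈ NP, Red L (LB H) := by
  obtain ⟨t, ht, h1⟩ := h
  refine ⟨mem_cover H, fun L hL => ?_⟩
  have h2 : HardH (H.comap ι) :=
    hard_W (base_gd hι) (redc_lab (base_gd hι) fun F hF v => base_red hι hF v) ht h1
  refine red_tr ?_ (red_dn hι)
  obtain ⟨φ, hφ, h3⟩ := h2 L hL
  refine ⟨φ, hφ, fun x => ?_⟩
  obtain ⟨k, G, h4, h5⟩ := h3 x
  rw [h4, enc_mem_lb]
  exact h5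

theorem red_P {A B : Set (List Bool)} (h : Red A B) (hB : B ∈ P) : A ∈ P := by
  classical
  obtain ⟨φ, hφ, h1⟩ := h
  rw [mem_FP_iff] at hφ
  rw [mem_P_iff] at hB ⊢
  have h2 := hB.comp' hφ
  convert h2 using 2 with x
  rw [Bool.eq_iff_iff, decide_eq_true_eq, decide_eq_true_eq]
  exact h1 x

/-- the dichotomy, if it holds for all constraint satisfaction problems with binary relations -/
theorem final_dich {n : ℕ} (H : SimpleGraph (Fin n))
    (h : ∀ (D : Type) [Finite D] (M : ℕ) (R : Fin M → D → D → Prop),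
      CSet R ∈ P ∨ ∀ L ∈ NP, Red L (CSet R)) :
    LB H ∈ P ∨ (LB H ∈ NP ∧ ∀ L ∈ NP, Red L (LB H)) := by
  by_cases hb : ∃ v, Br H v
  · obtain ⟨m, ι, hι⟩ := exists_base H
    obtain ⟨h1, h2⟩ := final_eq hb hι
    rcases h _ _ (TR (H.comap ι)) with h3 | h3
    · exact Or.inl (red_P h1 h3)
    · exact Or.inr ⟨mem_cover H, fun L hL => red_tr (h3 L hL) h2⟩
  · exact Or.inl (final_P fun v hv => hb ⟨v, hv⟩)

end Pool.Agent.H24.GK
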