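import Pool.Agent.H24.GK.PrM
import Pool.Agent.H24.GI.Good

/-!
# JOB GK-14: hardness at a good star of the lift

`M = mLS L hA g` is connected and without loops; there are rings for all darts of `M` which are not bridges. See the file
`Pool.Agent.H24.GI.Good` (`good_ties`, `good_hpat`), whose proofs are followed closely; the kit is a kit of `L`, the conditions on
the values are those of `M`.

`m_supp`: the ends of `x'` of type `τ` in `M` are the `⟨(y, g τ.1.1 τ.1.2), _⟩` with `Dt L τ.1.1 x'.1.1 y` (`m_dt`, `comp_dt`).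
`m_ful`: `m_M`.
`good_tiesM`. `k = sumKt k₁ k₂` with `k₁` from `exists_stM`, `k₂` from `exists_prM` for `Pr = GoodC M τ ζ` (`goodc_p` for `M`; `nb`, `nz`, `hR`).
Let `dd : Fin m → MD L A P` be a bijection to the darts of `M` of type `τ` at `x₀` (`gdst_dd` for `M`), `sd i = ((dd i).1.1, inl (ι (p, κ)))`,
`p = x₀.1.2 = τ.1.2`. A labelling of `k` cut at some `sd i` restricts to `k₁` (`sum_el_inl`), then by `StM.mn` to a labelling `f₁, e₁` of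
`dnKt hA g k₀` cut at the `dnD (dd i, κ)`, with the same values (`evt` is clear, `evh`: `MainK.res`; from `k` to `k₁`: `rfl`).
`s_sp`: `C = {dnD (dd i, κ)}`; `gd` gives `x` with `GoodC M τ ζ x`, `x.1 = (f₁ (dnV (x₀, κ)), p)`; the value `e₁ (dnD (dd i, κ))` is an end
(`val_dt`), so it is `y.1.1`, `Dt M τ x y` (`m_dt`, `comp_dt`), `nb`, `one_dn` (`hb`: `nb` for `x₀`). `s_cp`: `y : Fin m → V` with
`Ful L τ.1.1 x₀.1.1 y`: `star_full` for `L` (`dd i` projected) gives a star of `x₀.1.1`, `StM.cp`; `proj_el` on the part `k₂`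
(`gdst_glue`). `a1 = sd 0`, `a2 = sd 1`, `a_cp`: `star_pair` for `L`. `a_tie`: a labelling cut at `a1, a2` restricts to `f₁, e₁`, cut at
`dnD (dd 0, κ)`, `dnD (dd 1, κ)`; by the hypotheses (`GtM`) all four labels are in `A`; `m_up` gives a labelling of `k₀` cut at `(dd 0, κ)`,
`(dd 1, κ)`, with the values of `GtM` (`Subtype.ext`; the sides agree); `two_tail` for `M` as in `good_ties` (`t1`, `nb`); project.
`g1 = sd 0`; `Xg = XgM`. `b1`, `b2` are `inD ι b1`, `inD ι b2` in the second part. `b_sp1`: `PrM.gd1`, `mn` (`C = {dnD b1}`), as `s_sp`,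
`one_dn` with `nb1`. `b_sp2`: `gd2` gives `x` with `GoodC`; in the restriction `f₁, e₁` (cut at `dnD b2` only) the dart `dnD b1` is not cut
(`ne`, `nrev`, `dn_rv`), so `y = f₁ (dnV (hd b1)) = f₁ (dnV (hd b2))` is an end of `x` of type `τ` (in `A`), `evh (dnD b2) = (z, y)` with
`Dt L ζ.1.1 z y`, so `z ∈ A`, and with the sides `Dt M ζ z y`; `nz`: `CutV M 2 (z, y)`; `one_dn'` with `nb2`. `b_tie`: restrict, `m_up`,
`two_head` for `M` as in `good_ties` (`t2`). `b_cp`: `PrM.cp`; `zt y = (zt' y').1.1` for `zt'` from `gdst_zt` for `M`, where `y'` is the vertex of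
`M` over `y` with the side `g τ.1.1 τ.1.2` (`Classical`, `if y ∈ A`).
`good_hpatM`: as `good_hpat`: (1) if there are `x₀, v₀` with `GoodC M τ ζ x₀`, `M τ x₀ v₀ + 1 = num τ` (in `M`): `hp_one` for `L` (`m_M`); `hX`:
`GtM (x', z)` gives `2 ≤ supp L τ.1.1 x'` (`m_supp`). (2) Otherwise choose `x₀` with `GoodC` and the smallest `supp M τ`; `hp_nae` or
`hp_three` for `L`: the numbers `L.M τ.1.1 x z` for `XgM x` are those of `M` (`m_M`, or `0` if `z ∉ A`), `m_supp`.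
-/

namespace Pool.Agent.H24.GK

open Pool.Agent.H24.GG Pool.Agent.H24.GH Pool.Agent.H24.GI

variable {V D T K : Type} {L : LS V D T K} {A : Set V} (hA : Comp L A) {P : Type}
  (g : Vt L P)

/-- the vertex is below a good star -/
def XgM (τ ζ : MT L A P) (x : V) : Prop :=
  ∃ x' : MV A P, GoodC (mLS L hA g) τ ζ x' ∧ x'.1.1 = x

/-- the value is below a value at a good star -/
def GtM (τ ζ : MT L A P) (α : V × V) : Prop :=
  ∃ x' y' : MV A P, GoodC (mLS L hA g) τ ζ x' ∧ Dt (mLS L hA g) τ x' y' ∧ x'.1.1 = α.1 ∧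
    y'.1.1 = α.2

/-- the value is below a value which is not a bridge -/
def GzM (ζ : MT L A P) (α : V × V) : Prop :=
  ∃ z' y' : MV A P, z'.1 = (α.1, ζ.1.2) ∧ y'.1 = (α.2, g.g ζ.1.1 ζ.1.2) ∧
    CutV (mLS L hA g) 2 (z', y')

theorem m_supp [Finite V] [Finite P] {τ : MT L A P} {x' : MV A P} (h : x'.1.2 = τ.1.2) :
    supp (mLS L hA g) τ x' = supp L τ.1.1 x'.1.1 := by
  unfold supp
  refine Set.ncard_congr (fun y _ => y.1.1) ?_ ?_ ?_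
  · intro y hy
    exact ((m_dt hA g).1 hy).1
  · intro y y' hy hy' h1
    have h2 := ((m_dt hA g).1 hy).2.2
    have h3 := ((m_dt hA g).1 hy').2.2
    exact Subtype.ext (Prod.ext h1 (h2.trans h3.symm))
  · intro y hy
    exact ⟨⟨(y, g.g τ.1.1 τ.1.2), comp_dt hA hy x'.2⟩, (m_dt hA g).2 ⟨hy, h, rfl⟩, rfl⟩

theorem m_ful {τ : MT L A P} {m : ℕ} {x' : MV A P} {y : Fin m → MV A P}
    (h : Ful (mLS L hA g) τ x' y) : Ful L τ.1.1 x'.1.1 (fun i => (y i).1.1) := by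
  have h0 : (L.cl x'.1.1, x'.1.2) = (L.sc τ.1.1, τ.1.2) := h.1
  rw [Prod.mk.injEq] at h0
  refine ⟨h0.1, fun z => ?_⟩
  by_cases hz : z ∈ A
  · have h1 := h.2 ⟨(z, g.g τ.1.1 τ.1.2), hz⟩
    rw [m_M hA g h0.2 rfl] at h1
    rw [← h1]
    refine congrArg Set.ncard ?_
    ext i
    constructor
    · intro h2
      exact Subtype.ext (Prod.ext h2 ((m_dt hA g).1 (ful_dt h i)).2.2)
    · intro h2
      exact congrArg (fun w : MV A P => w.1.1) h2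
  · have h1 : {i | (fun i => (y i).1.1) i = z} = ∅ := by
      ext i
      constructor
      · intro h2
        have h3 : (y i).1.1 = z := h2
        exact (hz (h3 ▸ (y i).2)).elim
      · intro h2
        exact h2.elim
    rw [h1, Set.ncard_empty]
    by_contra h2
    obtain ⟨d, h3, h4, h5⟩ := Set.nonempty_of_ncard_ne_zero (Ne.symm h2)
    exact hz (comp_dt hA ⟨d, h3, h5, h4⟩ x'.2)

/-! ## auxiliary lemmas -/

theorem gdm_set_inl2 {k₁ k₂ : Kt L} (δ ε : D × k₁.Q) :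
    {δ' : D × k₁.Q | ((δ'.1, Sum.inl δ'.2) : D × (k₁.Q ⊕ k₂.Q)) ∈
      ({(δ.1, Sum.inl δ.2), (ε.1, Sum.inl ε.2)} : Set (D × (k₁.Q ⊕ k₂.Q)))} = {δ, ε} := by
  ext δ'
  constructor
  · rintro (h | h)
    · have h4 := Prod.ext_iff.1 h
      exact Or.inl (Prod.ext h4.1 (Sum.inl_injective h4.2))
    · have h4 := Prod.ext_iff.1 (Set.mem_singleton_iff.1 h)
      exact Or.inr (Prod.ext h4.1 (Sum.inl_injective h4.2))
  · rintro (rfl | rfl)
    · exact Or.inl rfl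
    · exact Or.inr rfl

theorem gdm_set_inr2 {k₁ k₂ : Kt L} (δ ε : D × k₂.Q) :
    {δ' : D × k₂.Q | ((δ'.1, Sum.inr δ'.2) : D × (k₁.Q ⊕ k₂.Q)) ∈
      ({(δ.1, Sum.inr δ.2), (ε.1, Sum.inr ε.2)} : Set (D × (k₁.Q ⊕ k₂.Q)))} = {δ, ε} := by
  ext δ'
  constructor
  · rintro (h | h)
    · have h4 := Prod.ext_iff.1 h
      exact Or.inl (Prod.ext h4.1 (Sum.inr_injective h4.2))
    · have h4 := Prod.ext_iff.1 (Set.mem_singleton_iff.1 h)
      exact Or.inr (Prod.ext h4.1 (Sum.inr_injective h4.2))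
  · rintro (rfl | rfl)
    · exact Or.inl rfl
    · exact Or.inr rfl

/-- the parts of a labelling which is cut at two darts -/
theorem gdm_res_inl2 {k₁ k₂ : Kt L} {δ ε : D × k₁.Q} {f : V × (k₁.Q ⊕ k₂.Q) → V}
    {e : D × (k₁.Q ⊕ k₂.Q) → V}
    (h : EL (sumKt k₁ k₂).net {(δ.1, Sum.inl δ.2), (ε.1, Sum.inl ε.2)} f e) :
    EL k₁.net {δ, ε} (fun w => f (w.1, Sum.inl w.2)) (fun δ' => e (δ'.1, Sum.inl δ'.2)) := by
  exact sumK_congr (sum_el_inl (k₁ := k₁) (k₂ := k₂) h) (gdm_set_inl2 (k₂ := k₂) δ ε)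

theorem gdm_res_inr2 {k₁ k₂ : Kt L} {δ ε : D × k₂.Q} {f : V × (k₁.Q ⊕ k₂.Q) → V}
    {e : D × (k₁.Q ⊕ k₂.Q) → V}
    (h : EL (sumKt k₁ k₂).net {(δ.1, Sum.inr δ.2), (ε.1, Sum.inr ε.2)} f e) :
    EL k₂.net {δ, ε} (fun w => f (w.1, Sum.inr w.2)) (fun δ' => e (δ'.1, Sum.inr δ'.2)) := by
  exact sumK_congr (sum_el_inr (k₁ := k₁) (k₂ := k₂) h) (gdm_set_inr2 (k₁ := k₁) δ ε)

/-- the tie at the tail -/
theorem gdm_tail [Finite V] [Finite D] [Finite T] (hc : LConn L) (hl : ∀ d, L.tl d ≠ L.hd d)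
    {τ ζ : T} {k : Kt L} {a1 a2 : D × k.Q} (ty1 : L.ty a1.1 = τ) (ty2 : L.ty a2.1 = τ)
    (htl : k.net.tl a1 = k.net.tl a2) (hne : a1 ≠ a2) (hnr : a1 ≠ k.net.rv a2)
    {f : V × k.Q → V} {e : D × k.Q → V} (h : EL k.net {a1, a2} f e)
    (g1 : GoodC L τ ζ (evt k.net f e a1).1 ∧ Dt L τ (evt k.net f e a1).1 (evt k.net f e a1).2)
    (g2 : GoodC L τ ζ (evh k.net f e a1).1 ∧ Dt L τ (evh k.net f e a1).1 (evh k.net f e a1).2)
    (g3 : GoodC L τ ζ (evt k.net f e a2).1 ∧ Dt L τ (evt k.net f e a2).1 (evt k.net f e a2).2)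
    (g4 : GoodC L τ ζ (evh k.net f e a2).1 ∧ Dt L τ (evh k.net f e a2).1 (evh k.net f e a2).2) :
    (evh k.net f e a1).1 = f (k.net.tl a1) ∧ (evh k.net f e a2).1 = f (k.net.tl a1) := by
  refine two_tail hc hl hne hnr htl h (g1.1.nb _ g1.2) (g3.1.nb _ g3.2) (g2.1.nb _ g2.2)
    (g4.1.nb _ g4.2) ?_
  refine g1.1.t1 _ _ ⟨g1.2, ?_, ?_⟩
  · have h1 := g3.2
    have h2 : (evt k.net f e a2).1 = (evt k.net f e a1).1 := congrArg f htl.symm
    rw [h2] at h1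
    exact h1
  · intro h1
    exact gdst_two h hne rfl htl.symm ty1 ty2 rfl h1.symm

/-- the tie at the head -/
theorem gdm_head [Finite V] [Finite D] [Finite T] (hc : LConn L) (hl : ∀ d, L.tl d ≠ L.hd d)
    {τ ζ : T} {k : Kt L} {b1 b2 : D × k.Q} (ty1 : L.ty b1.1 = τ) (ty2 : L.ty b2.1 = ζ)
    (hhd : k.net.hd b1 = k.net.hd b2) (hne : b1 ≠ b2) (hnr : b1 ≠ k.net.rv b2)
    {f : V × k.Q → V} {e : D × k.Q → V} (h : EL k.net {b1, b2} f e)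
    (g1 : GoodC L τ ζ (evt k.net f e b1).1 ∧ Dt L τ (evt k.net f e b1).1 (evt k.net f e b1).2)
    (g2 : GoodC L τ ζ (evh k.net f e b1).1 ∧ Dt L τ (evh k.net f e b1).1 (evh k.net f e b1).2)
    (g3 : CutV L 2 (evt k.net f e b2)) (g4 : CutV L 2 (evh k.net f e b2)) :
    (evt k.net f e b1).2 = f (k.net.hd b1) ∧ (evt k.net f e b2).2 = f (k.net.hd b1) := by
  have hQ := k.fin
  refine two_head hc hl hne hnr hhd h (g1.1.nb _ g1.2) g3 (g2.1.nb _ g2.2) g4 ?_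
  have h4 : Dt L ζ (evh k.net f e b2).1 (f (k.net.hd b1)) := by
    have h3 := (val_dt h b2).2
    rw [hhd, ← ty2]
    exact h3
  refine g2.1.t2 _ _ g2.2 h4 ?_
  intro h5 h6
  have h7 : 2 ≤ L.M (L.bar τ) (f (k.net.hd b1)) (evh k.net f e b1).1 := by
    refine gdst_two h (u := k.net.rv b1) (u' := k.net.rv b2) ?_ rfl hhd.symm ?_ ?_ rfl h6
    · intro h8
      apply hne
      rw [← k.net.rv_rv b1, h8, k.net.rv_rv]
    · show L.ty (L.rv b1.1) = L.bar τ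
      rw [L.ty_rv, ty1]
    · show L.ty (L.rv b2.1) = L.bar τ
      rw [L.ty_rv, ty2, h5]
  rw [M_bar] at h7
  exact h7

/-- not all darts have the same end -/
theorem gdm_lt [Finite V] [Finite D] {τ ζ : T} {x : V} (hx : GoodC L τ ζ x) (z : V) :
    L.M τ x z < L.num τ := by
  refine lt_of_le_of_ne (M_le τ x z) (fun h => ?_)
  have h1 : {y | Dt L τ x y} ⊆ {z} := by
    intro y' hy'
    by_contra hne
    have h2 := M_two (L := L) (τ := τ) (x := x) (y := y') (y' := z) hne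
    have h3 : L.M τ x y' ≠ 0 := dt_iff.1 hy'
    omega
  have h4 : supp L τ x ≤ 1 := by
    unfold supp
    calc {y | Dt L τ x y}.ncard ≤ ({z} : Set V).ncard :=
          Set.ncard_le_ncard h1 (Set.finite_singleton z)
      _ = 1 := Set.ncard_singleton z
  have h5 := hx.s2
  omega

variable [Finite V] [Finite D] [Finite T] [Finite P] (hc : LConn (mLS L hA g))
  (hl : ∀ d, (mLS L hA g).tl d ≠ (mLS L hA g).hd d)

include hc hl

omit [Finite V] [Finite D] [Finite T] [Finite P] hc hl in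
/-- two darts below -/
theorem gdm_pair {k : Kt (mLS L hA g)} (δ ε : MD L A P × k.Q) :
    {ρ : MD L A P × k.Q | dnD hA g ρ ∈ ({dnD hA g δ, dnD hA g ε} : Set (D × (P × k.Q)))} =
      {δ, ε} := by
  ext ρ
  constructor
  · rintro (h | h)
    · exact Or.inl (gku_inj hA g h)
    · exact Or.inr (gku_inj hA g (Set.mem_singleton_iff.1 h))
  · rintro (rfl | rfl)
    · exact Or.inl rfl
    · exact Or.inr rfl

omit [Finite V] [Finite D] [Finite T] hc hl in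
/-- the value above, at the tail -/
theorem gdm_evt {k : Kt (mLS L hA g)} {f : V × (P × k.Q) → V} {e : D × (P × k.Q) → V}
    {f' : MV A P × k.Q → MV A P} {e' : MD L A P × k.Q → MV A P}
    (hf : ∀ w, f (dnV hA g w) ∈ A → (f' w).1 = (f (dnV hA g w), w.1.1.2))
    (he : ∀ δ, f (dnV hA g (k.net.tl δ)) ∈ A →
        (e' δ).1 = (e (dnD hA g δ), g.g (L.ty δ.1.1.1) δ.1.1.2))
    {δ : MD L A P × k.Q} {x y : MV A P} (h1 : x.1.2 = δ.1.1.2)
    (h2 : y.1.2 = g.g (L.ty δ.1.1.1) δ.1.1.2)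
    (h3 : x.1.1 = (evt (dnKt hA g k).net f e (dnD hA g δ)).1)
    (h4 : y.1.1 = (evt (dnKt hA g k).net f e (dnD hA g δ)).2) :
    evt k.net f' e' δ = (x, y) := by
  have a1 : f (dnV hA g (k.net.tl δ)) = x.1.1 := h3.symm
  have a2 : f (dnV hA g (k.net.tl δ)) ∈ A := by
    rw [a1]
    exact x.2
  refine Prod.ext (Subtype.ext ?_) (Subtype.ext ?_)
  · show (f' (k.net.tl δ)).1 = x.1
    rw [hf _ a2, a1]
    exact Prod.ext rfl h1.symm
  · show (e' δ).1 = y.1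
    rw [he _ a2]
    exact Prod.ext h4.symm h2.symm

omit [Finite V] [Finite D] [Finite T] hc hl in
/-- the value above, at the head -/
theorem gdm_evh {k : Kt (mLS L hA g)} {f : V × (P × k.Q) → V} {e : D × (P × k.Q) → V}
    {f' : MV A P × k.Q → MV A P} {e' : MD L A P × k.Q → MV A P}
    (hf : ∀ w, f (dnV hA g w) ∈ A → (f' w).1 = (f (dnV hA g w), w.1.1.2))
    (he : ∀ δ, f (dnV hA g (k.net.tl δ)) ∈ A →
        (e' δ).1 = (e (dnD hA g δ), g.g (L.ty δ.1.1.1) δ.1.1.2))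
    {δ : MD L A P × k.Q} {x y : MV A P} (h1 : x.1.2 = δ.1.1.2)
    (h2 : y.1.2 = g.g (L.ty δ.1.1.1) δ.1.1.2)
    (h3 : x.1.1 = (evh (dnKt hA g k).net f e (dnD hA g δ)).1)
    (h4 : y.1.1 = (evh (dnKt hA g k).net f e (dnD hA g δ)).2) :
    evh k.net f' e' δ = (x, y) := by
  have a1 : f (dnV hA g (k.net.hd δ)) = y.1.1 := by
    rw [← dn_hd]
    exact h4.symm
  have a2 : f (dnV hA g (k.net.hd δ)) ∈ A := by
    rw [a1]
    exact y.2
  have a3 : e (dnD hA g (k.net.rv δ)) = x.1.1 := by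
    rw [← dn_rv]
    exact h3.symm
  refine Prod.ext (Subtype.ext ?_) (Subtype.ext ?_)
  · show (e' (k.net.rv δ)).1 = x.1
    rw [he (k.net.rv δ) a2, a3]
    refine Prod.ext rfl ?_
    change g.g (L.ty (L.rv δ.1.1.1)) (g.g (L.ty δ.1.1.1) δ.1.1.2) = x.1.2
    rw [L.ty_rv, g.inv, Equiv.symm_apply_apply, h1]
  · show (f' (k.net.hd δ)).1 = y.1
    rw [hf _ a2, a1]
    exact Prod.ext rfl h2.symm

omit [Finite V] [Finite T] hc hl in
/-- the end above -/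
theorem gdm_end {k : Kt (mLS L hA g)} {C : Set (D × (P × k.Q))} {f : V × (P × k.Q) → V}
    {e : D × (P × k.Q) → V} (h : EL (dnKt hA g k).net C f e) {τ : MT L A P}
    {δ : MD L A P × k.Q} (ht : (mLS L hA g).ty δ.1 = τ) {x : MV A P}
    (hx : x.1 = (f (dnV hA g (k.net.tl δ)), δ.1.1.2)) :
    ∃ y : MV A P, y.1 = (e (dnD hA g δ), g.g (L.ty δ.1.1.1) δ.1.1.2) ∧
      Dt (mLS L hA g) τ x y := by
  have hQ := k.fin
  have hQ' : Finite (dnKt hA g k).Q := (dnKt hA g k).fin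
  subst ht
  have h1 : Dt L (L.ty δ.1.1.1) (f (dnV hA g (k.net.tl δ))) (e (dnD hA g δ)) :=
    (val_dt h (dnD hA g δ)).1
  have h2 : x.1.1 = f (dnV hA g (k.net.tl δ)) := congrArg Prod.fst hx
  have h3 : x.1.2 = δ.1.1.2 := congrArg Prod.snd hx
  rw [← h2] at h1
  exact ⟨⟨(e (dnD hA g δ), g.g (L.ty δ.1.1.1) δ.1.1.2), comp_dt hA h1 x.2⟩, rfl,
    (m_dt hA g).2 ⟨h1, h3, rfl⟩⟩

/-- one cut dart with a good tail -/
theorem gdm_core {k : Kt L} {k₀ : Kt (mLS L hA g)} {ι : P × k₀.Q → k.Q}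
    {Cs : Set (D × (P × k₀.Q))} (hM : MainK k (dnKt hA g k₀) ι Cs) {τ ζ : MT L A P}
    {δ : MD L A P × k₀.Q} (hδ : dnD hA g δ ∈ Cs) (ht : (mLS L hA g).ty δ.1 = τ)
    (hb : Cut (mLS L hA g) 2 ((mLS L hA g).tl δ.1) {(mLS L hA g).hd δ.1})
    {f : V × k.Q → V} {e : D × k.Q → V} (h : EL k.net {inD hA g ι δ} f e) {x : MV A P}
    (hg : GoodC (mLS L hA g) τ ζ x)
    (hx : x.1 = (f (k.net.tl (inD hA g ι δ)), δ.1.1.2)) :
    evt k.net f e (inD hA g ι δ) = evh k.net f e (inD hA g ι δ) ∧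
      GtM hA g τ ζ (evt k.net f e (inD hA g ι δ)) ∧
      XgM hA g τ ζ (evt k.net f e (inD hA g ι δ)).1 := by
  have h0 : EL k.net ((fun δ' : D × (P × k₀.Q) => (δ'.1, ι δ'.2)) '' {dnD hA g δ}) f e := by
    rw [Set.image_singleton]
    exact h
  obtain ⟨h1, h2⟩ := hM.res {dnD hA g δ} (Set.singleton_subset_iff.2 hδ) f e h0
  have h3 := h2 (dnD hA g δ) rfl
  obtain ⟨y, hy, hxy⟩ := gdm_end hA g h1 ht (x := x) hx
  have h4 := one_dn hA g hc hl hb h1 (x := x) (y := y) hx hy (hg.nb _ hxy)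
  refine ⟨?_, ⟨x, y, hg, hxy, congrArg Prod.fst hx, congrArg Prod.fst hy⟩,
    ⟨x, hg, congrArg Prod.fst hx⟩⟩
  exact Eq.trans h4 h3.symm

/-- one cut dart, the other dart of a pair is good -/
theorem gdm_core2 {k : Kt L} {k₀ : Kt (mLS L hA g)} {ι : P × k₀.Q → k.Q}
    {Cs : Set (D × (P × k₀.Q))} (hM : MainK k (dnKt hA g k₀) ι Cs) {τ ζ : MT L A P}
    {b1 b2 : MD L A P × k₀.Q} (hδ : dnD hA g b2 ∈ Cs) (ht1 : (mLS L hA g).ty b1.1 = τ)
    (ht2 : (mLS L hA g).ty b2.1 = ζ) (hhd : k₀.net.hd b1 = k₀.net.hd b2) (hne : b1 ≠ b2)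
    (hnr : b1 ≠ k₀.net.rv b2)
    (hb : Cut (mLS L hA g) 2 ((mLS L hA g).tl b2.1) {(mLS L hA g).hd b2.1})
    {f : V × k.Q → V} {e : D × k.Q → V} (h : EL k.net {inD hA g ι b2} f e) {x : MV A P}
    (hg : GoodC (mLS L hA g) τ ζ x)
    (hx : x.1 = (f (k.net.tl (inD hA g ι b1)), b1.1.1.2)) :
    evt k.net f e (inD hA g ι b2) = evh k.net f e (inD hA g ι b2) ∧
      GzM hA g ζ (evt k.net f e (inD hA g ι b2)) := by
  have hQ := k₀.fin
  have hQ' : Finite (dnKt hA g k₀).Q := (dnKt hA g k₀).fin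
  have h0 : EL k.net ((fun δ' : D × (P × k₀.Q) => (δ'.1, ι δ'.2)) '' {dnD hA g b2}) f e := by
    rw [Set.image_singleton]
    exact h
  obtain ⟨h1, h2⟩ := hM.res {dnD hA g b2} (Set.singleton_subset_iff.2 hδ) f e h0
  have h3 := h2 (dnD hA g b2) rfl
  obtain ⟨f₁, hf₁⟩ : ∃ f₁ : V × (P × k₀.Q) → V, f₁ = fun w => f (w.1, ι w.2) := ⟨_, rfl⟩
  obtain ⟨e₁, he₁⟩ : ∃ e₁ : D × (P × k₀.Q) → V, e₁ = fun ε => e (ε.1, ι ε.2) := ⟨_, rfl⟩
  have hx' : x.1 = (f₁ (dnV hA g (k₀.net.tl b1)), b1.1.1.2) := by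
    rw [hf₁]
    exact hx
  have e1 : evt k.net f e (inD hA g ι b2) = evt (dnKt hA g k₀).net f₁ e₁ (dnD hA g b2) := by
    rw [hf₁, he₁]
    rfl
  have e2 : evh k.net f e (inD hA g ι b2) = evh (dnKt hA g k₀).net f₁ e₁ (dnD hA g b2) := by
    rw [hf₁, he₁]
    exact h3
  have h4 : EL (dnKt hA g k₀).net {dnD hA g b2} f₁ e₁ := by
    rw [hf₁, he₁]
    exact h1
  clear h3 h2 h1 h0 hx h hf₁ he₁
  rw [e1, e2]
  clear e1 e2
  -- the end of `x`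
  obtain ⟨y, hy, hxy⟩ := gdm_end hA g h4 ht1 hx'
  have h5 : e₁ (dnD hA g b1) = f₁ (dnV hA g (k₀.net.hd b1)) := by
    rw [← dn_hd]
    refine h4.unc (dnD hA g b1) (fun h6 => hne (gku_inj hA g h6)) (fun h6 => hnr ?_)
    rw [dn_rv] at h6
    have h7 := gku_inj hA g (Set.mem_singleton_iff.1 h6)
    rw [← h7, k₀.net.rv_rv]
  have h6 : g.g (L.ty b1.1.1.1) b1.1.1.2 = g.g (L.ty b2.1.1.1) b2.1.1.2 :=
    congrArg (fun w : MV A P × k₀.Q => w.1.1.2) hhd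
  have hy' : y.1 = (f₁ (dnV hA g (k₀.net.hd b2)), g.g (L.ty b2.1.1.1) b2.1.1.2) := by
    rw [hy, h5, hhd, h6]
  have h7 : Dt L (L.ty b2.1.1.1) (e₁ ((dnKt hA g k₀).net.rv (dnD hA g b2)))
      (f₁ ((dnKt hA g k₀).net.hd (dnD hA g b2))) := (val_dt h4 (dnD hA g b2)).2
  have h8 : f₁ ((dnKt hA g k₀).net.hd (dnD hA g b2)) = y.1.1 := by
    rw [dn_hd, hy']
  rw [h8] at h7
  have h9 : e₁ ((dnKt hA g k₀).net.rv (dnD hA g b2)) ∈ A := comp_dt hA (dt_symm h7) y.2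
  obtain ⟨z, hz⟩ : ∃ z : MV A P,
      z.1 = (e₁ ((dnKt hA g k₀).net.rv (dnD hA g b2)), b2.1.1.2) := ⟨⟨_, h9⟩, rfl⟩
  have hzy : Dt (mLS L hA g) ζ z y := by
    rw [m_dt, hz, ← ht2]
    refine ⟨h7, rfl, ?_⟩
    rw [hy']
    rfl
  have h10 : CutV (mLS L hA g) 2 (z, y) := hg.nz _ _ hxy hzy
  have h11 := one_dn' hA g hc hl hb h4 hz hy' h10
  refine ⟨h11, z, y, ?_, ?_, h10⟩
  · rw [hz, h11, ← ht2]
    rfl
  · rw [hy', h11, ← ht2]
    refine Prod.ext ?_ rfl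
    show f₁ (dnV hA g (k₀.net.hd b2)) = f₁ ((dnKt hA g k₀).net.hd (dnD hA g b2))
    rw [dn_hd]

/-- the tie at the tail, below -/
theorem gdm_tieA {k : Kt L} {k₀ : Kt (mLS L hA g)} {ι : P × k₀.Q → k.Q}
    {Cs : Set (D × (P × k₀.Q))} (hM : MainK k (dnKt hA g k₀) ι Cs) {τ ζ : MT L A P}
    {a1 a2 : MD L A P × k₀.Q} (hδ1 : dnD hA g a1 ∈ Cs) (hδ2 : dnD hA g a2 ∈ Cs)
    (ty1 : (mLS L hA g).ty a1.1 = τ) (ty2 : (mLS L hA g).ty a2.1 = τ)
    (htl : k₀.net.tl a1 = k₀.net.tl a2) (hne : a1 ≠ a2) (hnr : a1 ≠ k₀.net.rv a2)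
    {f : V × k.Q → V} {e : D × k.Q → V}
    (h : EL k.net {inD hA g ι a1, inD hA g ι a2} f e)
    (g1 : GtM hA g τ ζ (evt k.net f e (inD hA g ι a1)))
    (g2 : GtM hA g τ ζ (evh k.net f e (inD hA g ι a1)))
    (g3 : GtM hA g τ ζ (evt k.net f e (inD hA g ι a2)))
    (g4 : GtM hA g τ ζ (evh k.net f e (inD hA g ι a2))) :
    (evh k.net f e (inD hA g ι a1)).1 = f (k.net.tl (inD hA g ι a1)) ∧
      (evh k.net f e (inD hA g ι a2)).1 = f (k.net.tl (inD hA g ι a1)) := by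
  have h0 : EL k.net ((fun δ' : D × (P × k₀.Q) => (δ'.1, ι δ'.2)) ''
      {dnD hA g a1, dnD hA g a2}) f e := by
    rw [Set.image_pair]
    exact h
  obtain ⟨h1, h2⟩ := hM.res {dnD hA g a1, dnD hA g a2}
    (Set.insert_subset_iff.2 ⟨hδ1, Set.singleton_subset_iff.2 hδ2⟩) f e h0
  have h3 := h2 (dnD hA g a1) (Or.inl rfl)
  have h4 := h2 (dnD hA g a2) (Or.inr rfl)
  obtain ⟨f', e', h5', hf, he⟩ := m_up hA g h1
  have h5 : EL k₀.net {a1, a2} f' e' := by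
    rw [← gdm_pair hA g (k := k₀) a1 a2]
    exact h5'
  obtain ⟨x1, y1, c1, d1, p1, q1⟩ := g1
  obtain ⟨x2, y2, c2, d2, p2, q2⟩ := g2
  obtain ⟨x3, y3, c3, d3, p3, q3⟩ := g3
  obtain ⟨x4, y4, c4, d4, p4, q4⟩ := g4
  have m1 := (m_dt hA g).1 d1
  have m2 := (m_dt hA g).1 d2
  have m3 := (m_dt hA g).1 d3
  have m4 := (m_dt hA g).1 d4
  have t1 : a1.1.1.2 = τ.1.2 := congrArg (fun t : MT L A P => t.1.2) ty1
  have t2 : a2.1.1.2 = τ.1.2 := congrArg (fun t : MT L A P => t.1.2) ty2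
  have s1 : L.ty a1.1.1.1 = τ.1.1 := congrArg (fun t : MT L A P => t.1.1) ty1
  have s2 : L.ty a2.1.1.1 = τ.1.1 := congrArg (fun t : MT L A P => t.1.1) ty2
  have v1 : evt k₀.net f' e' a1 = (x1, y1) :=
    gdm_evt hA g (f := fun w => f (w.1, ι w.2)) (e := fun ε => e (ε.1, ι ε.2)) hf he
       (by rw [t1, m1.2.1]) (by rw [t1, s1, m1.2.2]) p1 q1
  have v2 : evh k₀.net f' e' a1 = (x2, y2) :=
    gdm_evh hA g (f := fun w => f (w.1, ι w.2)) (e := fun ε => e (ε.1, ι ε.2)) hf he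
       (by rw [t1, m2.2.1]) (by rw [t1, s1, m2.2.2])
      (p2.trans (congrArg Prod.fst h3)) (q2.trans (congrArg Prod.snd h3))
  have v3 : evt k₀.net f' e' a2 = (x3, y3) :=
    gdm_evt hA g (f := fun w => f (w.1, ι w.2)) (e := fun ε => e (ε.1, ι ε.2)) hf he
       (by rw [t2, m3.2.1]) (by rw [t2, s2, m3.2.2]) p3 q3
  have v4 : evh k₀.net f' e' a2 = (x4, y4) :=
    gdm_evh hA g (f := fun w => f (w.1, ι w.2)) (e := fun ε => e (ε.1, ι ε.2)) hf he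
       (by rw [t2, m4.2.1]) (by rw [t2, s2, m4.2.2])
      (p4.trans (congrArg Prod.fst h4)) (q4.trans (congrArg Prod.snd h4))
  have h6 := gdm_tail hc hl ty1 ty2 htl hne hnr h5 (ζ := ζ) (by rw [v1]; exact ⟨c1, d1⟩)
    (by rw [v2]; exact ⟨c2, d2⟩) (by rw [v3]; exact ⟨c3, d3⟩) (by rw [v4]; exact ⟨c4, d4⟩)
  rw [v2, v4] at h6
  have h7 : f' (k₀.net.tl a1) = x1 := congrArg Prod.fst v1
  rw [h7] at h6
  obtain ⟨h8, h9⟩ := h6
  constructor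
  · rw [← p2]
    show x2.1.1 = (evt k.net f e (inD hA g ι a1)).1
    rw [← p1]
    exact congrArg (fun w : MV A P => w.1.1) h8
  · rw [← p4]
    show x4.1.1 = (evt k.net f e (inD hA g ι a1)).1
    rw [← p1]
    exact congrArg (fun w : MV A P => w.1.1) h9

/-- the tie at the head, below -/
theorem gdm_tieB {k : Kt L} {k₀ : Kt (mLS L hA g)} {ι : P × k₀.Q → k.Q}
    {Cs : Set (D × (P × k₀.Q))} (hM : MainK k (dnKt hA g k₀) ι Cs) {τ ζ : MT L A P}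
    {b1 b2 : MD L A P × k₀.Q} (hδ1 : dnD hA g b1 ∈ Cs) (hδ2 : dnD hA g b2 ∈ Cs)
    (ty1 : (mLS L hA g).ty b1.1 = τ) (ty2 : (mLS L hA g).ty b2.1 = ζ)
    (hhd : k₀.net.hd b1 = k₀.net.hd b2) (hne : b1 ≠ b2) (hnr : b1 ≠ k₀.net.rv b2)
    {f : V × k.Q → V} {e : D × k.Q → V}
    (h : EL k.net {inD hA g ι b1, inD hA g ι b2} f e)
    (g1 : GtM hA g τ ζ (evt k.net f e (inD hA g ι b1)))
    (g2 : GtM hA g τ ζ (evh k.net f e (inD hA g ι b1)))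
    (g3 : GzM hA g ζ (evt k.net f e (inD hA g ι b2)))
    (g4 : GzM hA g ζ (evh k.net f e (inD hA g ι b2))) :
    (evt k.net f e (inD hA g ι b1)).2 = f (k.net.hd (inD hA g ι b1)) ∧
      (evt k.net f e (inD hA g ι b2)).2 = f (k.net.hd (inD hA g ι b1)) := by
  have h0 : EL k.net ((fun δ' : D × (P × k₀.Q) => (δ'.1, ι δ'.2)) ''
      {dnD hA g b1, dnD hA g b2}) f e := by
    rw [Set.image_pair]
    exact h
  obtain ⟨h1, h2⟩ := hM.res {dnD hA g b1, dnD hA g b2}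
    (Set.insert_subset_iff.2 ⟨hδ1, Set.singleton_subset_iff.2 hδ2⟩) f e h0
  have h3 := h2 (dnD hA g b1) (Or.inl rfl)
  have h4 := h2 (dnD hA g b2) (Or.inr rfl)
  obtain ⟨f', e', h5', hf, he⟩ := m_up hA g h1
  have h5 : EL k₀.net {b1, b2} f' e' := by
    rw [← gdm_pair hA g (k := k₀) b1 b2]
    exact h5'
  obtain ⟨x1, y1, c1, d1, p1, q1⟩ := g1
  obtain ⟨x2, y2, c2, d2, p2, q2⟩ := g2
  obtain ⟨z3, y3, p3, q3, c3⟩ := g3
  obtain ⟨z4, y4, p4, q4, c4⟩ := g4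
  have m1 := (m_dt hA g).1 d1
  have m2 := (m_dt hA g).1 d2
  have t1 : b1.1.1.2 = τ.1.2 := congrArg (fun t : MT L A P => t.1.2) ty1
  have t2 : b2.1.1.2 = ζ.1.2 := congrArg (fun t : MT L A P => t.1.2) ty2
  have s1 : L.ty b1.1.1.1 = τ.1.1 := congrArg (fun t : MT L A P => t.1.1) ty1
  have s2 : L.ty b2.1.1.1 = ζ.1.1 := congrArg (fun t : MT L A P => t.1.1) ty2
  have v1 : evt k₀.net f' e' b1 = (x1, y1) :=
    gdm_evt hA g (f := fun w => f (w.1, ι w.2)) (e := fun ε => e (ε.1, ι ε.2)) hf he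
       (by rw [t1, m1.2.1]) (by rw [t1, s1, m1.2.2]) p1 q1
  have v2 : evh k₀.net f' e' b1 = (x2, y2) :=
    gdm_evh hA g (f := fun w => f (w.1, ι w.2)) (e := fun ε => e (ε.1, ι ε.2)) hf he
       (by rw [t1, m2.2.1]) (by rw [t1, s1, m2.2.2])
      (p2.trans (congrArg Prod.fst h3)) (q2.trans (congrArg Prod.snd h3))
  have v3 : evt k₀.net f' e' b2 = (z3, y3) :=
    gdm_evt hA g (f := fun w => f (w.1, ι w.2)) (e := fun ε => e (ε.1, ι ε.2)) hf he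
       (by rw [t2, p3]) (by rw [t2, s2, q3]) (congrArg Prod.fst p3)
      (congrArg Prod.fst q3)
  have v4 : evh k₀.net f' e' b2 = (z4, y4) :=
    gdm_evh hA g (f := fun w => f (w.1, ι w.2)) (e := fun ε => e (ε.1, ι ε.2)) hf he
       (by rw [t2, p4]) (by rw [t2, s2, q4])
      ((congrArg Prod.fst p4).trans (congrArg Prod.fst h4))
      ((congrArg Prod.fst q4).trans (congrArg Prod.snd h4))
  have h6 := gdm_head hc hl ty1 ty2 hhd hne hnr h5 (by rw [v1]; exact ⟨c1, d1⟩)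
    (by rw [v2]; exact ⟨c2, d2⟩) (by rw [v3]; exact c3) (by rw [v4]; exact c4)
  rw [v1, v3] at h6
  have h7 : f' (k₀.net.hd b1) = y2 := congrArg Prod.snd v2
  rw [h7] at h6
  obtain ⟨h8, h9⟩ := h6
  constructor
  · rw [← q1]
    show y1.1.1 = (evh k.net f e (inD hA g ι b1)).2
    rw [← q2]
    exact congrArg (fun w : MV A P => w.1.1) h8
  · show (evt k.net f e (inD hA g ι b2)).2 = (evh k.net f e (inD hA g ι b1)).2
    rw [← q2, ← congrArg (fun w : MV A P => w.1.1) h9]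
    exact (congrArg Prod.fst q3).symm

theorem good_tiesM {τ ζ : MT L A P} {m : ℕ} (hm : 3 ≤ m) (hn : (mLS L hA g).num τ = m)
    (hz : (mLS L hA g).sc ((mLS L hA g).bar ζ) = (mLS L hA g).sc ((mLS L hA g).bar τ))
    (hz' : ζ = τ → 2 ≤ (mLS L hA g).num ((mLS L hA g).bar τ)) {x₀ : MV A P}
    (hx : GoodC (mLS L hA g) τ ζ x₀)
    (hR : ∀ d, Cut (mLS L hA g) 2 ((mLS L hA g).tl d) {(mLS L hA g).hd d} → RingM hA g d) :
    ∃ (k : Kt L) (yt : V) (zt : V → V), Nonempty (Ties k τ.1.1 ζ.1.1 m x₀.1.1 yt zt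
      (XgM hA g τ ζ) (GtM hA g τ ζ) (GzM hA g ζ)) := by
  classical
  have hR₁ : ∀ d, (mLS L hA g).ty d = τ → (mLS L hA g).tl d = x₀ → RingM hA g d := by
    intro d h1 h2
    refine hR d ?_
    rw [h2]
    exact hx.nb _ ⟨d, h2, rfl, h1⟩
  have hcl0 : (L.cl x₀.1.1, x₀.1.2) = (L.sc τ.1.1, τ.1.2) := hx.cl
  rw [Prod.mk.injEq] at hcl0
  obtain ⟨hcl, hside⟩ := hcl0
  have hn' : L.num τ.1.1 = m := hn
  obtain ⟨k₁, k₀, ι, κ, hS⟩ := exists_stM hA g hc hl (τ := τ) (by omega) (goodc_p τ ζ) hx hR₁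
  obtain ⟨k₂, k₀', ι', b1, b2, hB⟩ := exists_prM hA g hc hl (τ := τ) (ζ := ζ) (by omega) hz hz'
    (goodc_p τ ζ) hx hx.nz hR₁
  obtain ⟨dd, hdi, hdt, hdy⟩ := gdst_dd hn hx.cl
  obtain ⟨y₀, hy₀⟩ := ful_exists hn' hcl
  obtain ⟨zt', hzt⟩ := gdst_zt hz hz' x₀
  have hk1 := k₁.fin
  have hk2 := k₂.fin
  obtain ⟨i0, i1, h01⟩ : ∃ i0 i1 : Fin m, i0 ≠ i1 :=
    ⟨⟨0, by omega⟩, ⟨1, by omega⟩, fun h => absurd (congrArg Fin.val h) (by simp)⟩
  have hdt1 : ∀ i, L.tl (dd i).1.1 = x₀.1.1 := fun i =>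
    congrArg (fun x : MV A P => x.1.1) (hdt i)
  have hdt2 : ∀ i, (dd i).1.2 = x₀.1.2 := fun i =>
    congrArg (fun x : MV A P => x.1.2) (hdt i)
  have hdy1 : ∀ i, L.ty (dd i).1.1 = τ.1.1 := fun i =>
    congrArg (fun t : MT L A P => t.1.1) (hdy i)
  have hdi' : Function.Injective (fun i => (dd i).1.1) := by
    intro i j hij
    exact hdi (Subtype.ext (Prod.ext hij ((hdt2 i).trans (hdt2 j).symm)))
  have hdb : ∀ i, Cut (mLS L hA g) 2 ((mLS L hA g).tl (dd i)) {(mLS L hA g).hd (dd i)} := by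
    intro i
    rw [hdt i]
    exact hx.nb _ ⟨dd i, hdt i, rfl, hdy i⟩
  -- the darts of the star in the first part
  obtain ⟨ud, hud⟩ : ∃ ud : Fin m → D × k₁.Q, ∀ i, ud i = inD hA g ι (dd i, κ) :=
    ⟨_, fun _ => rfl⟩
  have hud' : ∀ i, ud i = ((dd i).1.1, ι (x₀.1.2, κ)) := by
    intro i
    rw [hud]
    show ((dd i).1.1, ι ((dd i).1.2, κ)) = _
    rw [hdt2]
  have hmem : ∀ i, dnD hA g (k := k₀) (dd i, κ) ∈
      {δ : D × (P × k₀.Q) | L.tl δ.1 = x₀.1.1 ∧ L.ty δ.1 = τ.1.1 ∧ δ.2 = (x₀.1.2, κ)} := by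
    intro i
    refine ⟨hdt1 i, hdy1 i, ?_⟩
    show ((dd i).1.2, κ) = (x₀.1.2, κ)
    rw [hdt2]
  obtain ⟨sd, hsd⟩ : ∃ sd : Fin m → D × (sumKt k₁ k₂).Q,
      ∀ i, sd i = ((ud i).1, Sum.inl (ud i).2) := ⟨_, fun _ => rfl⟩
  obtain ⟨u1, hu1⟩ : ∃ u1 : D × k₂.Q, u1 = inD hA g ι' b1 := ⟨_, rfl⟩
  obtain ⟨u2, hu2⟩ : ∃ u2 : D × k₂.Q, u2 = inD hA g ι' b2 := ⟨_, rfl⟩
  obtain ⟨c1, hc1⟩ : ∃ c1 : D × (sumKt k₁ k₂).Q, c1 = (u1.1, Sum.inr u1.2) := ⟨_, rfl⟩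
  obtain ⟨c2, hc2⟩ : ∃ c2 : D × (sumKt k₁ k₂).Q, c2 = (u2.1, Sum.inr u2.2) := ⟨_, rfl⟩
  -- the star
  have s_inj : Function.Injective sd := by
    intro i j hij
    rw [hsd, hsd, hud', hud'] at hij
    exact hdi' (Prod.ext_iff.1 hij).1
  have s_tl0 : ∀ i, (sumKt k₁ k₂).net.tl (sd i) = (x₀.1.1, Sum.inl (ι (x₀.1.2, κ))) := by
    intro i
    rw [hsd, hud']
    exact Prod.ext (hdt1 i) rfl
  have s_ty : ∀ i, L.ty (sd i).1 = τ.1.1 := by
    intro i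
    rw [hsd, hud']
    exact hdy1 i
  have s_nrev : ∀ i j, sd i ≠ (sumKt k₁ k₂).net.rv (sd j) := by
    intro i j hij
    have h1 : (sumKt k₁ k₂).net.hd (sd j) = (x₀.1.1, Sum.inl (ι (x₀.1.2, κ))) := by
      unfold Net.hd
      rw [← hij]
      exact s_tl0 i
    rw [hsd, hud'] at h1
    have h2 : (((L.hd (dd j).1.1, Sum.inl (k₁.R (dd j).1.1 (ι (x₀.1.2, κ))))) :
        V × (k₁.Q ⊕ k₂.Q)) = (x₀.1.1, Sum.inl (ι (x₀.1.2, κ))) := h1
    apply hS.ne (dd j).1.1 (hdt1 j) (hdy1 j)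
    have h3 := Prod.ext_iff.1 h2
    exact Prod.ext h3.1 (Sum.inl_injective h3.2)
  have s_sp : ∀ i f e, EL (sumKt k₁ k₂).net {sd i} f e →
      evt (sumKt k₁ k₂).net f e (sd i) = evh (sumKt k₁ k₂).net f e (sd i) ∧
        GtM hA g τ ζ (evt (sumKt k₁ k₂).net f e (sd i)) ∧
          XgM hA g τ ζ (evt (sumKt k₁ k₂).net f e (sd i)).1 := by
    intro i f e h
    rw [hsd] at h ⊢
    have h1 := gdst_res_inl (δ := ud i) h
    rw [hud] at h1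
    have h2 : EL k₁.net {((dd i).1.1, ι (x₀.1.2, κ))} (fun w => f (w.1, Sum.inl w.2))
        (fun δ' => e (δ'.1, Sum.inl δ'.2)) := by
      rw [← hud', hud]
      exact h1
    obtain ⟨x, hx1, hx2⟩ := hS.gd (dd i).1.1 (hdt1 i) (hdy1 i) _ _ h2
    have h3 := gdm_core hA g hc hl hS.mn (hmem i) (hdy i) (hdb i) h1 hx1 (by
      rw [hx2]
      show _ = (f (L.tl (dd i).1.1, Sum.inl (ι ((dd i).1.2, κ))), (dd i).1.2)
      rw [hdt1, hdt2])
    rw [hud]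
    exact h3
  have s_cp0 : ∀ y : D → V,
      (∀ t z, {d | L.tl d = x₀.1.1 ∧ L.ty d = t ∧ y d = z}.ncard = L.M t x₀.1.1 z) →
      ∃ f e, EL (sumKt k₁ k₂).net ∅ f e ∧
        ∀ i, evt (sumKt k₁ k₂).net f e (sd i) = (x₀.1.1, y (dd i).1.1) := by
    intro y hy
    obtain ⟨f₁, e₁, h1, h2, h3⟩ := hS.cp y hy
    refine ⟨_, _, gdst_glue h1 (proj_el k₂), ?_⟩
    intro i
    unfold evt
    rw [s_tl0, hsd, hud']
    exact Prod.ext h2 (h3 (dd i).1.1 (hdt1 i))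
  have s_cp : ∀ y : Fin m → V, Ful L τ.1.1 x₀.1.1 y → ∃ f e, EL (sumKt k₁ k₂).net ∅ f e ∧
      ∀ i, evt (sumKt k₁ k₂).net f e (sd i) = (x₀.1.1, y i) := by
    intro y hy
    obtain ⟨y', h1, h2⟩ := star_full hn' rfl hy hdi' hdt1 hdy1
    obtain ⟨f, e, h3, h4⟩ := s_cp0 y' h1
    exact ⟨f, e, h3, fun i => by rw [h4, h2]⟩
  have a_tie : ∀ f e, EL (sumKt k₁ k₂).net {sd i0, sd i1} f e →
      GtM hA g τ ζ (evt (sumKt k₁ k₂).net f e (sd i0)) →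
      GtM hA g τ ζ (evh (sumKt k₁ k₂).net f e (sd i0)) →
      GtM hA g τ ζ (evt (sumKt k₁ k₂).net f e (sd i1)) →
      GtM hA g τ ζ (evh (sumKt k₁ k₂).net f e (sd i1)) →
      (evh (sumKt k₁ k₂).net f e (sd i0)).1 = f ((sumKt k₁ k₂).net.tl (sd i0)) ∧
        (evh (sumKt k₁ k₂).net f e (sd i1)).1 = f ((sumKt k₁ k₂).net.tl (sd i0)) := by
    intro f e h g1 g2 g3 g4
    rw [hsd, hsd] at h ⊢
    rw [hsd] at g1 g2 g3 g4
    have h1 := gdm_res_inl2 (δ := ud i0) (ε := ud i1) h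
    rw [hud, hud] at h1 ⊢
    rw [hud] at g1 g2 g3 g4
    refine gdm_tieA hA g hc hl hS.mn (hmem i0) (hmem i1) (hdy i0) (hdy i1) ?_ ?_ ?_ h1
      (ζ := ζ) g1 g2 g3 g4
    · exact Prod.ext ((hdt i0).trans (hdt i1).symm) rfl
    · intro h2
      exact h01 (hdi (congrArg Prod.fst h2))
    · intro h2
      have h3 : dd i0 = (mLS L hA g).rv (dd i1) := congrArg Prod.fst h2
      apply hl (dd i1)
      rw [hdt i1]
      show x₀ = (mLS L hA g).tl ((mLS L hA g).rv (dd i1))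
      rw [← h3, hdt i0]
  -- the pair
  have ty1 : L.ty c1.1 = τ.1.1 := by
    rw [hc1, hu1]
    exact congrArg (fun t : MT L A P => t.1.1) hB.ty1
  have ty2 : L.ty c2.1 = ζ.1.1 := by
    rw [hc2, hu2]
    exact congrArg (fun t : MT L A P => t.1.1) hB.ty2
  have b_hd : (sumKt k₁ k₂).net.hd c1 = (sumKt k₁ k₂).net.hd c2 := by
    rw [hc1, hc2, hu1, hu2]
    exact congrArg (fun w : V × k₂.Q => ((w.1, Sum.inr w.2) : V × (k₁.Q ⊕ k₂.Q))) hB.hdk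
  have b_ne : c1 ≠ c2 := by
    rw [hc1, hc2, hu1, hu2]
    intro h
    have h' := Prod.ext_iff.1 h
    have h2 : ι' (b1.1.1.2, b1.2) = ι' (b2.1.1.2, b2.2) := Sum.inr_injective h'.2
    have h3 := hB.mn.inj h2
    apply hB.ne
    apply gku_inj hA g
    exact Prod.ext h'.1 h3
  have b_nrev : c1 ≠ (sumKt k₁ k₂).net.rv c2 := by
    rw [hc1, hc2, hu1, hu2]
    intro h
    have h' : (((inD hA g ι' b1).1, Sum.inr (inD hA g ι' b1).2) : D × (k₁.Q ⊕ k₂.Q)) =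
        ((k₂.net.rv (inD hA g ι' b2)).1, Sum.inr (k₂.net.rv (inD hA g ι' b2)).2) := h
    have h1 := Prod.ext_iff.1 h'
    exact hB.nrevk (Prod.ext h1.1 (Sum.inr_injective h1.2))
  have hm1 : dnD hA g b1 ∈ ({dnD hA g b1, dnD hA g b2} : Set (D × (P × k₀'.Q))) := Or.inl rfl
  have hm2 : dnD hA g b2 ∈ ({dnD hA g b1, dnD hA g b2} : Set (D × (P × k₀'.Q))) := Or.inr rfl
  have b_sp1 : ∀ f e, EL (sumKt k₁ k₂).net {c1} f e →
      evt (sumKt k₁ k₂).net f e c1 = evh (sumKt k₁ k₂).net f e c1 ∧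
        GtM hA g τ ζ (evt (sumKt k₁ k₂).net f e c1) := by
    intro f e h
    rw [hc1] at h ⊢
    have h1 := gdst_res_inr (δ := u1) h
    rw [hu1] at h1 ⊢
    obtain ⟨x, hx1, hx2⟩ := hB.gd1 _ _ h1
    have h3 := gdm_core hA g hc hl hB.mn hm1 hB.ty1 hB.nb1 h1 hx1 hx2
    exact ⟨h3.1, h3.2.1⟩
  have b_sp2 : ∀ f e, EL (sumKt k₁ k₂).net {c2} f e →
      evt (sumKt k₁ k₂).net f e c2 = evh (sumKt k₁ k₂).net f e c2 ∧
        GzM hA g ζ (evt (sumKt k₁ k₂).net f e c2) := by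
    intro f e h
    rw [hc2] at h ⊢
    have h1 := gdst_res_inr (δ := u2) h
    rw [hu2] at h1 ⊢
    obtain ⟨x, hx1, hx2⟩ := hB.gd2 _ _ h1
    exact gdm_core2 hA g hc hl hB.mn hm2 hB.ty1 hB.ty2 hB.hd hB.ne hB.nrev hB.nb2 h1 hx1 hx2
  have b_tie : ∀ f e, EL (sumKt k₁ k₂).net {c1, c2} f e →
      GtM hA g τ ζ (evt (sumKt k₁ k₂).net f e c1) →
      GtM hA g τ ζ (evh (sumKt k₁ k₂).net f e c1) →
      GzM hA g ζ (evt (sumKt k₁ k₂).net f e c2) → GzM hA g ζ (evh (sumKt k₁ k₂).net f e c2) →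
      (evt (sumKt k₁ k₂).net f e c1).2 = f ((sumKt k₁ k₂).net.hd c1) ∧
        (evt (sumKt k₁ k₂).net f e c2).2 = f ((sumKt k₁ k₂).net.hd c1) := by
    intro f e h g1 g2 g3 g4
    rw [hc1, hc2] at h ⊢
    rw [hc1] at g1 g2
    rw [hc2] at g3 g4
    have h1 := gdm_res_inr2 (δ := u1) (ε := u2) h
    rw [hu1, hu2] at h1 ⊢
    rw [hu1] at g1 g2
    rw [hu2] at g3 g4
    exact gdm_tieB hA g hc hl hB.mn hm1 hm2 hB.ty1 hB.ty2 hB.hd hB.ne hB.nrev h1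
      (ζ := ζ) g1 g2 g3 g4
  obtain ⟨zt, hzt'⟩ : ∃ zt : V → V, ∀ y, ∀ h : y ∈ A,
      zt y = (zt' ⟨(y, g.g τ.1.1 τ.1.2), h⟩).1.1 :=
    ⟨fun y => if h : y ∈ A then (zt' ⟨(y, g.g τ.1.1 τ.1.2), h⟩).1.1 else y,
      fun y h => dif_pos h⟩
  have b_cp : ∀ y, Dt L τ.1.1 x₀.1.1 y → ∃ f e, EL (sumKt k₁ k₂).net ∅ f e ∧
      evt (sumKt k₁ k₂).net f e c1 = (x₀.1.1, y) ∧
        evt (sumKt k₁ k₂).net f e c2 = (zt y, y) := by
    intro y hy
    have hyA : y ∈ A := comp_dt hA hy x₀.2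
    have hy' : Dt (mLS L hA g) τ x₀ ⟨(y, g.g τ.1.1 τ.1.2), hyA⟩ :=
      (m_dt hA g).2 ⟨hy, hside, rfl⟩
    obtain ⟨h1, h2⟩ := hzt _ hy'
    obtain ⟨f₂, e₂, h3, h4, h5⟩ := hB.cp _ _ hy' h1 h2
    refine ⟨_, _, gdst_glue (proj_el k₁) h3, ?_, ?_⟩
    · rw [hc1, hu1]
      exact h4
    · rw [hc2, hu2, hzt' y hyA]
      exact h5
  refine ⟨sumKt k₁ k₂, y₀ i0, zt, ⟨?_⟩⟩
  exact {
    m3 := hm
    num := hn'
    sd := sd
    s_inj := s_inj
    s_tl := fun i j => (s_tl0 i).trans (s_tl0 j).symm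
    s_ty := s_ty
    s_nrev := s_nrev
    s_sp := fun i f e h => ⟨(s_sp i f e h).1, (s_sp i f e h).2.1⟩
    s_cp := s_cp
    a1 := sd i0
    a2 := sd i1
    a_tl := (s_tl0 i0).trans (s_tl0 i1).symm
    a_ty1 := s_ty i0
    a_ty2 := s_ty i1
    a_ne := fun h => h01 (s_inj h)
    a_nrev := s_nrev i0 i1
    a_sp1 := fun f e h => ⟨(s_sp i0 f e h).1, (s_sp i0 f e h).2.1⟩
    a_sp2 := fun f e h => ⟨(s_sp i1 f e h).1, (s_sp i1 f e h).2.1⟩
    a_tie := a_tie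
    a_cp := by
      intro y y' hy
      obtain ⟨yy, h1, h2, h3⟩ := star_pair (v := x₀.1.1) (x := x₀.1.1) rfl (hdt1 i0) (hdt1 i1)
        (fun h => h01 (hdi' h)) (y₁ := y) (y₂ := y') (by rw [hdy1]; exact hy.1)
        (by rw [hdy1]; exact hy.2.1) (fun _ h => by rw [hdy1]; exact hy.2.2 h)
      obtain ⟨f, e, h4, h5⟩ := s_cp0 yy h1
      exact ⟨f, e, h4, by rw [h5, h2], by rw [h5, h3]⟩
    b1 := c1
    b2 := c2
    b_hd := b_hd
    b_ty1 := ty1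
    b_ty2 := ty2
    b_ne := b_ne
    b_nrev := b_nrev
    b_sp1 := b_sp1
    b_sp2 := b_sp2
    b_tie := b_tie
    b_cp := b_cp
    g1 := sd i0
    g_ty := s_ty i0
    g_sp := s_sp i0
    yt_dt := ful_dt hy₀ i0
    g_cp := by
      obtain ⟨f, e, h1, h2⟩ := s_cp y₀ hy₀
      exact ⟨f, e, h1, h2 i0⟩ }

theorem good_hpatM {τ ζ : MT L A P} (hm : 3 ≤ (mLS L hA g).num τ)
    (hz : (mLS L hA g).sc ((mLS L hA g).bar ζ) = (mLS L hA g).sc ((mLS L hA g).bar τ))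
    (hz' : ζ = τ → 2 ≤ (mLS L hA g).num ((mLS L hA g).bar τ))
    (hx : ∃ x, GoodC (mLS L hA g) τ ζ x)
    (hR : ∀ d, Cut (mLS L hA g) 2 ((mLS L hA g).tl d) {(mLS L hA g).hd d} → RingM hA g d) :
    ∃ k : Kt L, HPat k := by
  have hside : ∀ x : MV A P, GoodC (mLS L hA g) τ ζ x → x.1.2 = τ.1.2 := fun x h =>
    congrArg (fun c : K × P => c.2) h.cl
  have hcl : ∀ x : MV A P, GoodC (mLS L hA g) τ ζ x → L.cl x.1.1 = L.sc τ.1.1 := fun x h =>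
    congrArg (fun c : K × P => c.1) h.cl
  by_cases h1 : ∃ x₀ v₀, GoodC (mLS L hA g) τ ζ x₀ ∧
      (mLS L hA g).M τ x₀ v₀ + 1 = (mLS L hA g).num τ
  · obtain ⟨x₀, v₀, hx₀, hv⟩ := h1
    obtain ⟨k, yt, zt, ⟨t⟩⟩ := good_tiesM hA g hc hl hm rfl hz hz' hx₀ hR
    have hv2 : v₀.1.2 = g.g τ.1.1 τ.1.2 := by
      by_contra h2
      have h3 := m_M_zero hA g (t := τ) (x := x₀) (y := v₀) (fun h4 => h2 h4.2)
      omega
    have hv' : L.M τ.1.1 x₀.1.1 v₀.1.1 + 1 = (mLS L hA g).num τ := by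
      rw [← m_M hA g (hside x₀ hx₀) hv2]
      exact hv
    refine ⟨k, hp_one t (hcl x₀ hx₀) hv' ?_⟩
    intro x z x' _ _ hg hf
    have h2 := supp_eq hf
    have h3 : (Set.range (fun _ : Fin ((mLS L hA g).num τ) => z)).ncard ≤ 1 := by
      have h4 : Set.range (fun _ : Fin ((mLS L hA g).num τ) => z) ⊆ {z} := by
        rintro _ ⟨i, rfl⟩
        rfl
      calc (Set.range (fun _ : Fin ((mLS L hA g).num τ) => z)).ncard ≤ ({z} : Set V).ncard :=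
            Set.ncard_le_ncard h4 (Set.finite_singleton z)
        _ = 1 := Set.ncard_singleton z
    obtain ⟨x'', y'', c1, c2, c3, c4⟩ := hg
    have c3' : x''.1.1 = x' := c3
    have h5 : 2 ≤ supp (mLS L hA g) τ x'' := c1.s2
    rw [m_supp hA g (hside x'' c1), c3'] at h5
    omega
  · have hB : ∀ x, GoodC (mLS L hA g) τ ζ x → ∀ z,
        (mLS L hA g).M τ x z + 2 ≤ (mLS L hA g).num τ := by
      intro x hx z
      have h2 := gdm_lt hx z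
      have h3 : (mLS L hA g).M τ x z + 1 ≠ (mLS L hA g).num τ := fun h => h1 ⟨x, z, hx, h⟩
      omega
    have hB' : ∀ x, XgM hA g τ ζ x → ∀ z, L.M τ.1.1 x z + 2 ≤ (mLS L hA g).num τ := by
      rintro x ⟨x', hx', rfl⟩ z
      by_cases hzA : z ∈ A
      · have h2 := hB x' hx' ⟨(z, g.g τ.1.1 τ.1.2), hzA⟩
        rw [m_M hA g (hside x' hx') rfl] at h2
        exact h2
      · have h2 : L.M τ.1.1 x'.1.1 z = 0 := by
          by_contra h3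
          exact hzA (comp_dt hA (dt_iff.2 h3) x'.2)
        omega
    obtain ⟨x₀, hx₀, hmin⟩ := Set.exists_min_image {x | GoodC (mLS L hA g) τ ζ x}
      (supp (mLS L hA g) τ) (Set.toFinite _) hx
    have hx₀' : GoodC (mLS L hA g) τ ζ x₀ := hx₀
    obtain ⟨k, yt, zt, ⟨t⟩⟩ := good_tiesM hA g hc hl hm rfl hz hz' hx₀' hR
    have h2 := hx₀'.s2
    rw [m_supp hA g (hside x₀ hx₀')] at h2
    rcases h2.lt_or_eq with h3 | h3
    · refine ⟨k, hp_three t (hcl x₀ hx₀') (fun x hx _ z => hB' x hx z) ?_ h3⟩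
      rintro x ⟨x', hx', rfl⟩ _
      have h4 := hmin x' hx'
      rw [m_supp hA g (hside x₀ hx₀'), m_supp hA g (hside x' hx')] at h4
      exact h4
    · exact ⟨k, hp_nae t (hcl x₀ hx₀') (hB' _ ⟨x₀, hx₀', rfl⟩) (fun x hx _ z => hB' x hx z)
        h3.symm⟩

end Pool.Agent.H24.GK
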