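import Pool.Agent.H24.GK.RingM
import Pool.Agent.H24.GI.Grd

/-!
# JOB GK-11: guards for the darts of the lift

`M = mLS L hA g` is connected and without loops. See the file `Pool.Agent.H24.GI.Grd` for the case of a connected `L`; here the kits
are kits of `L`, the vertices with `Pr` and the ends are those of `M`.

`one_dn`: the label `f (dnV (tl δ))` is in `A` (`hx`), so that of the head is (`dn_land`); `m_up` gives a labelling of `k` cut at `δ`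
(`{ε | dnD ε ∈ {dnD δ}} = {δ}`) with the value `evt = (x, y)` (`Subtype.ext`), `one_exact` for `M`; project (`dn_rv`, `dn_hd`).
`one_dn'`: the same for the value at the head.
`grd_ringM`: `RingM`; `h (tl d)` satisfies `Pr` (`GoodP.au`), its side is `d.1.2` (`Aut.cl`); `proj_el`.
`grd_stepM`: as `grd_step`: `exists_ukit` for `M` gives `k₀, κ`, `x₀ = tl d`, `p = d.1.2 = d'.1.2`, `k = swKt (dnKt hA g k₀) k' d.1.1 (p, κ x₀) q'`,
the dart `(d'.1.1, inl (p, κ x₀))`. `d.1.1 ≠ d'.1.1`; `(d'.1.1, (p, κ x₀)) ≠ rv (d.1.1, (p, κ x₀))` (`dn_rv`; otherwise `d' = rv d` and `d` is a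
loop of `M`). A labelling cut at this dart: `sw_guard` gives a labelling `f₁, e₁` of `dnKt hA g k₀` cut at `dnD (d', κ x₀)`, and `x` with
`Pr x`, `x.1 = (f₁ (x₀.1.1, (p, κ x₀)), p)`. The value `e₁ (dnD (d', κ x₀))` is an end of a dart of `L` of type `τ.1.1` at `x.1.1 ∈ A`
(`val_dt`), so it is `y.1.1` for `y : MV A P` with `y.1.2 = g τ.1.1 p`, `Dt M τ x y` (`m_dt`), `GoodP.nb`, `one_dn` (`hb`: `GoodP.nb` for
`x₀`). For `y' ∈ S'` let `y ∈ S`, `Sub2 M τ x₀ y y'`: `star_pair` for `M` (`v = x = x₀`) and `UStar k₀` give a labelling of `k₀`; `m_dn`;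
`sw_cov`.
`grd_fullM`: as `grd_full`.
-/

namespace Pool.Agent.H24.GK

open Pool.Agent.H24.GG Pool.Agent.H24.GH Pool.Agent.H24.GI

variable {V D T K : Type} {L : LS V D T K} {A : Set V} (hA : Comp L A) {P : Type} (g : Vt L P)

/-- there is a guard for the dart `d` of the lift -/
def GrdM (d : MD L A P) (Pr : MV A P → Prop) (x₀ : MV A P) (S : Set (MV A P)) : Prop :=
  ∃ (k : Kt L) (q : k.Q), (∀ f e, EL k.net {(d.1.1, q)} f e →
    evt k.net f e (d.1.1, q) = evh k.net f e (d.1.1, q) ∧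
      ∃ x : MV A P, Pr x ∧ x.1 = ((evt k.net f e (d.1.1, q)).1, d.1.2)) ∧
    ∀ y ∈ S, ∃ f e, EL k.net ∅ f e ∧ evt k.net f e (d.1.1, q) = (x₀.1.1, y.1.1)

variable [Finite V] [Finite D] [Finite T] [Finite P] (hc : LConn (mLS L hA g))
  (hl : ∀ d, (mLS L hA g).tl d ≠ (mLS L hA g).hd d)

include hc hl

omit [Finite V] [Finite D] [Finite T] [Finite P] hc hl in
theorem gk11_single {k : Kt (mLS L hA g)} (δ : MD L A P × k.Q) :
    {ε : MD L A P × k.Q | dnD hA g ε ∈ ({dnD hA g δ} : Set (D × (P × k.Q)))} = {δ} := by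
  ext ε
  constructor
  · intro h
    have h1 : dnD hA g ε = dnD hA g δ := h
    have h2 : ε.1.1.1 = δ.1.1.1 := congrArg (fun z : D × (P × k.Q) => z.1) h1
    have h3 : ε.1.1.2 = δ.1.1.2 := congrArg (fun z : D × (P × k.Q) => z.2.1) h1
    have h4 : ε.2 = δ.2 := congrArg (fun z : D × (P × k.Q) => z.2.2) h1
    exact Prod.ext (Subtype.ext (Prod.ext h2 h3)) h4
  · rintro rfl
    rfl

theorem gk11_core {k : Kt (mLS L hA g)} {δ : MD L A P × k.Q}
    {f : V × (P × k.Q) → V} {e : D × (P × k.Q) → V}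
    (h : EL (dnKt hA g k).net {dnD hA g δ} f e)
    (h1 : f (dnV hA g (k.net.tl δ)) ∈ A) (h2 : f (dnV hA g (k.net.hd δ)) ∈ A)
    (hv : (∀ x y : MV A P, x.1 = (f (dnV hA g (k.net.tl δ)), δ.1.1.2) →
        y.1 = (e (dnD hA g δ), g.g (L.ty δ.1.1.1) δ.1.1.2) → CutV (mLS L hA g) 2 (x, y)) ∨
      (∀ x y : MV A P, x.1 = (e ((dnKt hA g k).net.rv (dnD hA g δ)), δ.1.1.2) →
        y.1 = (f (dnV hA g (k.net.hd δ)), g.g (L.ty δ.1.1.1) δ.1.1.2) →
        CutV (mLS L hA g) 2 (x, y))) :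
    evt (dnKt hA g k).net f e (dnD hA g δ) = evh (dnKt hA g k).net f e (dnD hA g δ) := by
  obtain ⟨f', e', hEL, hf, he⟩ := m_up hA g h
  have hEL' : EL k.net {δ} f' e' := by
    have h0 := gk11_single hA g (k := k) δ
    rw [← h0]
    exact hEL
  have ht : (f' (k.net.tl δ)).1 = (f (dnV hA g (k.net.tl δ)), δ.1.1.2) := hf _ h1
  have hh : (f' (k.net.hd δ)).1 =
      (f (dnV hA g (k.net.hd δ)), g.g (L.ty δ.1.1.1) δ.1.1.2) := hf _ h2
  have het : (e' δ).1 = (e (dnD hA g δ), g.g (L.ty δ.1.1.1) δ.1.1.2) := he _ h1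
  have heh : (e' (k.net.rv δ)).1 = (e ((dnKt hA g k).net.rv (dnD hA g δ)), δ.1.1.2) := by
    rw [dn_rv, he (k.net.rv δ) h2]
    refine Prod.ext rfl ?_
    change g.g (L.ty (L.rv δ.1.1.1)) (g.g (L.ty δ.1.1.1) δ.1.1.2) = δ.1.1.2
    rw [L.ty_rv, g.inv, Equiv.symm_apply_apply]
  have hev : evt k.net f' e' δ = evh k.net f' e' δ := by
    refine one_exact hc hl hEL' ?_
    rcases hv with hv | hv
    · exact Or.inl (hv _ _ ht het)
    · exact Or.inr (hv _ _ heh hh)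
  have a1 : f' (k.net.tl δ) = e' (k.net.rv δ) := congrArg Prod.fst hev
  have a2 : e' δ = f' (k.net.hd δ) := congrArg Prod.snd hev
  have b1 : f (dnV hA g (k.net.tl δ)) = e ((dnKt hA g k).net.rv (dnD hA g δ)) := by
    rw [a1, heh] at ht
    exact (congrArg Prod.fst ht).symm
  have b2 : e (dnD hA g δ) = f (dnV hA g (k.net.hd δ)) := by
    rw [a2, hh] at het
    exact (congrArg Prod.fst het).symm
  refine Prod.ext ?_ ?_
  · exact b1
  · change e (dnD hA g δ) = f ((dnKt hA g k).net.hd (dnD hA g δ))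
    rw [dn_hd, b2]

theorem one_dn {k : Kt (mLS L hA g)} {δ : MD L A P × k.Q}
    (hb : Cut (mLS L hA g) 2 ((mLS L hA g).tl δ.1) {(mLS L hA g).hd δ.1})
    {f : V × (P × k.Q) → V} {e : D × (P × k.Q) → V}
    (h : EL (dnKt hA g k).net {dnD hA g δ} f e) {x y : MV A P}
    (hx : x.1 = (f (dnV hA g (k.net.tl δ)), δ.1.1.2))
    (hy : y.1 = (e (dnD hA g δ), g.g (L.ty δ.1.1.1) δ.1.1.2))
    (hv : CutV (mLS L hA g) 2 (x, y)) :
    evt (dnKt hA g k).net f e (dnD hA g δ) = evh (dnKt hA g k).net f e (dnD hA g δ) := by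
  have h1 : f (dnV hA g (k.net.tl δ)) ∈ A := by
    have h2 := x.2
    rw [hx] at h2
    exact h2
  refine gk11_core hA g hc hl h h1 ((dn_land hA g hb h).1 h1) (Or.inl ?_)
  intro x' y' hx' hy'
  have e1 : x' = x := Subtype.ext (hx'.trans hx.symm)
  have e2 : y' = y := Subtype.ext (hy'.trans hy.symm)
  rw [e1, e2]
  exact hv

theorem one_dn' {k : Kt (mLS L hA g)} {δ : MD L A P × k.Q}
    (hb : Cut (mLS L hA g) 2 ((mLS L hA g).tl δ.1) {(mLS L hA g).hd δ.1})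
    {f : V × (P × k.Q) → V} {e : D × (P × k.Q) → V}
    (h : EL (dnKt hA g k).net {dnD hA g δ} f e) {x y : MV A P}
    (hx : x.1 = (e ((dnKt hA g k).net.rv (dnD hA g δ)), δ.1.1.2))
    (hy : y.1 = (f (dnV hA g (k.net.hd δ)), g.g (L.ty δ.1.1.1) δ.1.1.2))
    (hv : CutV (mLS L hA g) 2 (x, y)) :
    evt (dnKt hA g k).net f e (dnD hA g δ) = evh (dnKt hA g k).net f e (dnD hA g δ) := by
  have h1 : f (dnV hA g (k.net.hd δ)) ∈ A := by
    have h2 := y.2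
    rw [hy] at h2
    exact h2
  refine gk11_core hA g hc hl h ((dn_land hA g hb h).2 h1) h1 (Or.inr ?_)
  intro x' y' hx' hy'
  have e1 : x' = x := Subtype.ext (hx'.trans hx.symm)
  have e2 : y' = y := Subtype.ext (hy'.trans hy.symm)
  rw [e1, e2]
  exact hv

omit [Finite T] [Finite P] [Finite D] [Finite V] hc hl in
theorem grd_ringM {τ : MT L A P} {Pr : MV A P → Prop} (hP : GoodP (mLS L hA g) τ Pr)
    {d : MD L A P} (hx : Pr ((mLS L hA g).tl d)) (hR : RingM hA g d) :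
    GrdM d Pr ((mLS L hA g).tl d) {(mLS L hA g).hd d} := by
  obtain ⟨k, q, hk⟩ := hR
  refine ⟨k, q, ?_, ?_⟩
  · intro f e h
    obtain ⟨h1, a, ha, h2⟩ := hk f e h
    refine ⟨h1, a ((mLS L hA g).tl d), hP.au a _ ha hx, ?_⟩
    have h3 : (a ((mLS L hA g).tl d)).1.2 = d.1.2 :=
      congrArg Prod.snd (ha.cl ((mLS L hA g).tl d))
    rw [h2]
    exact Prod.ext rfl h3
  · rintro y hy
    have hy' : y = (mLS L hA g).hd d := hy
    subst hy'
    exact ⟨_, _, proj_el k, rfl⟩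

theorem grd_stepM {τ : MT L A P} {Pr : MV A P → Prop} (hP : GoodP (mLS L hA g) τ Pr)
    {d d' : MD L A P} (hd : (mLS L hA g).ty d = τ) (hd' : (mLS L hA g).ty d' = τ)
    (hdd : (mLS L hA g).tl d = (mLS L hA g).tl d') (hne : d ≠ d')
    (hx : Pr ((mLS L hA g).tl d)) {S : Set (MV A P)}
    (h : GrdM d Pr ((mLS L hA g).tl d) S) :
    GrdM d' Pr ((mLS L hA g).tl d)
      {y' | ∃ y ∈ S, Sub2 (mLS L hA g) τ ((mLS L hA g).tl d) y y'} := by
  obtain ⟨k₀, sd, κ, -, -, hU⟩ := exists_ukit (mLS L hA g)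
  obtain ⟨k', q', hk1, hk2⟩ := h
  have hus : UStar k₀ ((mLS L hA g).tl d) (κ ((mLS L hA g).tl d)) := ukit_star (hU _)
  obtain ⟨q₁, hq₁⟩ : ∃ q₁, κ ((mLS L hA g).tl d) = q₁ := ⟨_, rfl⟩
  rw [hq₁] at hus
  have hp : d.1.2 = d'.1.2 := congrArg (fun x => x.1.2) hdd
  have htl : L.tl d.1.1 = L.tl d'.1.1 := congrArg (fun x => x.1.1) hdd
  have hn1 : ((d'.1.1, (d'.1.2, q₁)) : D × (P × k₀.Q)) ≠ (d.1.1, (d.1.2, q₁)) := by
    intro hx
    have h0 : d'.1.1 = d.1.1 := congrArg (fun z : D × (P × k₀.Q) => z.1) hx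
    exact hne (Subtype.ext (Prod.ext h0.symm hp))
  have hn2 : ((d'.1.1, (d'.1.2, q₁)) : D × (P × k₀.Q)) ≠
      (dnKt hA g k₀).net.rv (d.1.1, (d.1.2, q₁)) := by
    intro hx
    have hx' : ((d'.1.1, (d'.1.2, q₁)) : D × (P × k₀.Q)) =
        dnD hA g (k₀.net.rv ((d, q₁) : MD L A P × k₀.Q)) := by
      rw [← dn_rv]
      exact hx
    have h1 : d'.1.1 = L.rv d.1.1 := congrArg (fun z : D × (P × k₀.Q) => z.1) hx'
    have h2 : d'.1.2 = g.g (L.ty d.1.1) d.1.2 :=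
      congrArg (fun z : D × (P × k₀.Q) => z.2.1) hx'
    have h3 : d' = (mLS L hA g).rv d := Subtype.ext (Prod.ext h1 h2)
    apply hl d
    rw [hdd, h3]
    rfl
  have hb : Cut (mLS L hA g) 2 ((mLS L hA g).tl d') {(mLS L hA g).hd d'} := by
    refine hP.nb _ _ ?_ ⟨d', rfl, rfl, hd'⟩
    rw [← hdd]
    exact hx
  refine ⟨swKt (dnKt hA g k₀) k' d.1.1 (d.1.2, q₁) q', Sum.inl (d'.1.2, q₁), ?_, ?_⟩
  · intro f e h
    obtain ⟨h1, x, hPx, hx1⟩ := sw_guard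
      (P := fun α => ∃ x : MV A P, Pr x ∧ x.1 = (α.1, d.1.2)) h
      (fun δ hδ => ⟨(d'.1.1, (d'.1.2, q₁)), hδ, hn1, hn2⟩) hk1
    have hset : {δ : D × (dnKt hA g k₀).Q | ((δ.1, Sum.inl δ.2) : D × ((dnKt hA g k₀).Q ⊕ k'.Q)) ∈
        ({(d'.1.1, Sum.inl (d'.1.2, q₁))} : Set (D × ((dnKt hA g k₀).Q ⊕ k'.Q)))} =
        {dnD hA g (k := k₀) (d', q₁)} := by
      ext δ
      constructor
      · intro hδ
        have h3 : ((δ.1, Sum.inl δ.2) : D × ((dnKt hA g k₀).Q ⊕ k'.Q)) =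
          (d'.1.1, Sum.inl (d'.1.2, q₁)) := hδ
        have h4 : δ.1 = d'.1.1 := congrArg Prod.fst h3
        have h5 : δ.2 = (d'.1.2, q₁) := Sum.inl_injective (congrArg Prod.snd h3)
        exact Prod.ext h4 h5
      · rintro rfl
        rfl
    have h1' : EL (dnKt hA g k₀).net {dnD hA g (k := k₀) (d', q₁)}
        (fun w => f (w.1, Sum.inl w.2)) (fun δ => e (δ.1, Sum.inl δ.2)) := by
      rw [← hset]
      exact h1
    have hx2 : x.1 = (f (L.tl d'.1.1, Sum.inl (d'.1.2, q₁)), d'.1.2) := by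
      have h3 : x.1 = (f (L.tl d.1.1, Sum.inl (d.1.2, q₁)), d.1.2) := hx1
      rw [h3, htl, hp]
    have hxA : f (L.tl d'.1.1, Sum.inl (d'.1.2, q₁)) ∈ A := by
      have h2 := x.2
      rw [hx2] at h2
      exact h2
    have hdt : Dt L (L.ty d'.1.1) (f (L.tl d'.1.1, Sum.inl (d'.1.2, q₁)))
        (e (d'.1.1, Sum.inl (d'.1.2, q₁))) := (val_dt h1' (dnD hA g (k := k₀) (d', q₁))).1
    obtain ⟨y, hy⟩ : ∃ y : MV A P, y.1 = (e (d'.1.1, Sum.inl (d'.1.2, q₁)),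
        g.g (L.ty d'.1.1) d'.1.2) := ⟨⟨_, comp_dt hA hdt hxA⟩, rfl⟩
    have hDt : Dt (mLS L hA g) τ x y := by
      rw [← hd', m_dt, hx2, hy]
      exact ⟨hdt, rfl, rfl⟩
    have hex := one_dn hA g hc hl (δ := (d', q₁)) hb h1' hx2 hy (hP.nb _ _ hPx hDt)
    have hrv := sw_rv (k₁ := dnKt hA g k₀) (k₂ := k') (d := d.1.1) (q₁ := (d.1.2, q₁))
      (q₂ := q') hn1 hn2
    have hh : evh (swKt (dnKt hA g k₀) k' d.1.1 (d.1.2, q₁) q').net f e
        (d'.1.1, Sum.inl (d'.1.2, q₁)) =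
        evh (dnKt hA g k₀).net (fun w => f (w.1, Sum.inl w.2)) (fun δ => e (δ.1, Sum.inl δ.2))
          (dnD hA g (k := k₀) (d', q₁)) := by
      have hrv' : (swKt (dnKt hA g k₀) k' d.1.1 (d.1.2, q₁) q').net.rv
          (d'.1.1, Sum.inl (d'.1.2, q₁)) =
        (((dnKt hA g k₀).net.rv (d'.1.1, (d'.1.2, q₁))).1,
          Sum.inl ((dnKt hA g k₀).net.rv (d'.1.1, (d'.1.2, q₁))).2) := hrv
      unfold evh Net.hd
      rw [hrv']
      rfl
    refine ⟨?_, x, hPx, hx2⟩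
    rw [hh, ← hex]
    rfl
  · rintro y' ⟨y, hy, hs⟩
    obtain ⟨Y, hY1, hY2, hY3⟩ := star_pair (L := mLS L hA g) (v := (mLS L hA g).tl d)
      (x := (mLS L hA g).tl d) rfl (d₁ := d)
      (d₂ := d') rfl hdd.symm hne (y₁ := y) (y₂ := y') (by rw [hd]; exact hs.1)
      (by rw [hd']; exact hs.2.1) (fun _ h1 => by rw [hd]; exact hs.2.2 h1)
    obtain ⟨f₁, e₁, h1, h2, h3⟩ := hus ((mLS L hA g).tl d) Y rfl hY1
    obtain ⟨f₀, e₀, h1', hf0, he0, -, -⟩ := m_dn hA g h1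
    obtain ⟨f₂, e₂, h4, h5⟩ := hk2 y hy
    have hv1 : f₀ (L.tl d.1.1, (d.1.2, q₁)) = ((mLS L hA g).tl d).1.1 := by
      have h7 := hf0 ((mLS L hA g).tl d, q₁)
      rw [h2] at h7
      exact h7
    have hv2 : e₀ (d.1.1, (d.1.2, q₁)) = y.1.1 := by
      have h7 := he0 (d, q₁)
      rw [h3 d rfl, hY2] at h7
      exact h7
    have hv3 : e₀ (d'.1.1, (d'.1.2, q₁)) = y'.1.1 := by
      have h7 := he0 (d', q₁)
      rw [h3 d' hdd.symm, hY3] at h7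
      exact h7
    have h6 : evt (dnKt hA g k₀).net f₀ e₀ (d.1.1, (d.1.2, q₁)) =
        evt k'.net f₂ e₂ (d.1.1, q') := by
      rw [h5]
      exact Prod.ext hv1 hv2
    refine ⟨_, _, sw_cov h1' h4 h6, ?_⟩
    change (f₀ (L.tl d'.1.1, (d'.1.2, q₁)), e₀ (d'.1.1, (d'.1.2, q₁))) =
      (((mLS L hA g).tl d).1.1, y'.1.1)
    rw [hv3, ← htl, ← hp, hv1]

theorem grd_fullM {τ : MT L A P} (hm : 3 ≤ (mLS L hA g).num τ) {Pr : MV A P → Prop}
    (hP : GoodP (mLS L hA g) τ Pr) {d : MD L A P} (hd : (mLS L hA g).ty d = τ)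
    (hx : Pr ((mLS L hA g).tl d)) (hR : RingM hA g d) :
    GrdM d Pr ((mLS L hA g).tl d) {y | Dt (mLS L hA g) τ ((mLS L hA g).tl d) y} := by
  have hcl : (mLS L hA g).cl ((mLS L hA g).tl d) = (mLS L hA g).sc τ := hP.cl _ hx
  obtain ⟨d', ⟨hd1, hd2⟩, hne⟩ : ∃ d' ∈ {d' | (mLS L hA g).tl d' = (mLS L hA g).tl d ∧
      (mLS L hA g).ty d' = τ}, d' ≠ d := by
    have h1 : 1 < {d' | (mLS L hA g).tl d' = (mLS L hA g).tl d ∧
        (mLS L hA g).ty d' = τ}.ncard := by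
      rw [(mLS L hA g).num_eq _ _ hcl]
      omega
    exact Set.exists_ne_of_one_lt_ncard h1 d
  have h1 := grd_stepM hA g hc hl hP hd hd2 hd1.symm hne.symm hx (grd_ringM hA g hP hx hR)
  rw [← hd1] at h1
  have h2 := grd_stepM hA g hc hl hP hd2 hd hd1 hne (by rw [hd1]; exact hx) h1
  rw [hd1] at h2
  obtain ⟨k, q, h3, h4⟩ := h2
  refine ⟨k, q, h3, ?_⟩
  intro y hy
  obtain ⟨Y, hY⟩ := ful_exists (L := mLS L hA g) (τ := τ) rfl hcl
  obtain ⟨y', h5, h6⟩ := two_mid hm hY (v := (mLS L hA g).hd d) (u := y) ⟨d, rfl, rfl, hd⟩ hy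
  exact h4 y ⟨y', ⟨(mLS L hA g).hd d, rfl, h5⟩, h6⟩

end Pool.Agent.H24.GK
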