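import Pool.Agent.H24.GK.GoodM
import Pool.Agent.H24.GI.Lens

/-!
# JOB GK-15: hardness at a lens of the lift

`M = mLS L hA g` is connected and without loops; there are rings for all darts of `M` which are not bridges. See the files
`Pool.Agent.H24.GI.SigK` (`exists_pin`) and `Pool.Agent.H24.GI.Lens` (`lens_hpat`), whose proofs are followed closely; the kit is a kit
of `L`, the conditions on the values are those of `M`.

`exists_pinM`: `RingM` for `d₁` gives `k', q'`; `exists_ukit` for `M`: `k₀, κ`; `x₀ = M.tl d₁`, `p = d₁.1.2`,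
`k = swKt (dnKt hA g k₀) k' d₁.1.1 (p, κ x₀) q'`, `ι = inl`. `mn`, `pin`: `mainK_sw` (no dart `(d, (p, κ x₀))`, `tl d = x₀.1.1`, is
`rv (d₁.1.1, (p, κ x₀))`: otherwise `M.rv d₁` is a dart at `x₀`, a loop; for `pin`: `(d₁.1.1, (p, κ x₀)) ∉ C`, it is not cut, `evh = evt` for
this dart). `cp`: `dn_ustar`, `proj_el`, `sw_cov`.
`lens_hpatM`. Write `gτ = g τ.1.1 τ.1.2`, `gζ = g ζ.1.1 ζ.1.2`; `gτ = gζ` by `hz`. Let `St α` be: there are `x', y'` with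
`x'.1 = (α.1, τ.1.2)`, `y'.1 = (α.2, gτ)`, `CutV M 3 (x', y')`; `Sz α` the same with `ζ`; `Gt α`: there are `x', y'` with `PStar M τ ζ x'`,
`Dt M τ x' y'`, `x'.1.1 = α.1`, `y'.1.1 = α.2`; `Gz = GzM hA g ζ`; `A y`: there is `y'` with `y'.1 = (y, gτ)`, `Cut M 3 x₀ {y'}`. The kit is
`sigKt` of `k₁` (`exists_pinM` for `d₁`), `k₂` (`exists_prM` for `PStar M τ ζ`, `pstar_p` for `M`), and for every `y : V` with `A y` and
`Dt L τ.1.1 x₀.1.1 y` of the kit of `RingM` for a dart of `M` of type `ζ` from `zt' y'` to `y'` (`nz`), where `y'` is the vertex of `M`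
over `y`, and `zt' y'` an end with `Dt M ζ (zt' y') y'`; `zt y = (zt' y').1.1`. Then `TiesS` for `τ.1.1`, `ζ.1.1`, `x₀.1.1` as in `lens_hpat`:
`sd i` over the darts `dd i` of `M` of type `τ` at `x₀` different from `d₁`. `s_sp`: `pin` (`C` a singleton) gives `PStar M τ ζ (h x₀)` for the
tail (`pstar_p`, `Aut`); `mn`, `one_dn` (`hb`: `nb` for `x₀`). `s_cnt`: as in `lens_hpat`, the count is over the darts of `L` at
`x₀.1.1` of type `τ.1.1`, which are the `d.1.1` for the darts `d` of `M` at `x₀` of type `τ`; the star at `h x₀`: `EL.star`, `m_M`. `b_sp1`, `b_sp2`: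
as in `good_tiesM`. `b_tie`: restrict (`PrM.mn`), `m_up`, `two_val` for `M` (`τ ≠ ζ`, `τ ≠ bar ζ`), `PStar.eq`. `r_sp`: `RingM`, `aut_cut`.
`r_cp`: `proj_el`. `hp_sts` for `L`.
-/

namespace Pool.Agent.H24.GK

open Pool.Agent.H24.GG Pool.Agent.H24.GH Pool.Agent.H24.GI

section

variable {V D T K : Type} {L : LS V D T K}

/-- an automorphism preserves the cuts which separate two vertices -/
private theorem lnm_iff [Finite V] [Finite D] [Finite T] {g : V → V} (h : Aut L g) {j : ℕ} {x y : V} :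
    Cut L j (g x) {g y} ↔ Cut L j x {y} := by
  constructor
  · intro hc S hx hS
    rw [← aut_bd h S]
    refine hc (g '' S) ⟨x, hx, rfl⟩ ?_
    rintro _ rfl ⟨z, hz, hzy⟩
    rw [h.bij.1 hzy] at hz
    exact hS y rfl hz
  · intro hc
    have h1 := aut_cut h hc
    rwa [Set.image_singleton] at h1

open Classical in
/-- counting the darts of a star -/
private theorem lnm_split {S : Set D} {d₁ : D} (h1 : d₁ ∈ S) {m : ℕ} {dd : Fin m → D}
    (hi : Function.Injective dd) (hr : ∀ d, d ∈ S ↔ d = d₁ ∨ ∃ i, dd i = d)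
    (hn : ∀ i, dd i ≠ d₁) (P : D → Prop) :
    {d | d ∈ S ∧ P d}.ncard = {i | P (dd i)}.ncard + if P d₁ then 1 else 0 := by
  have himg : (dd '' {i | P (dd i)}).ncard = {i | P (dd i)}.ncard :=
    Set.ncard_image_of_injective _ hi
  by_cases hP : P d₁
  · rw [if_pos hP, ← himg]
    have h2 : {d | d ∈ S ∧ P d} = insert d₁ (dd '' {i | P (dd i)}) := by
      ext d
      constructor
      · rintro ⟨h3, h4⟩
        rcases (hr d).mp h3 with h5 | ⟨i, h5⟩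
        · exact Or.inl h5
        · right
          refine ⟨i, ?_, h5⟩
          change P (dd i)
          rw [h5]
          exact h4
      · rintro (h3 | ⟨i, h3, h4⟩)
        · rw [h3]
          exact ⟨h1, hP⟩
        · refine ⟨(hr d).mpr (Or.inr ⟨i, h4⟩), ?_⟩
          rw [← h4]
          exact h3
    rw [h2]
    refine Set.ncard_insert_of_notMem ?_ (Set.toFinite _)
    rintro ⟨i, -, h3⟩
    exact hn i h3
  · rw [if_neg hP, ← himg, add_zero]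
    congr 1
    ext d
    constructor
    · rintro ⟨h3, h4⟩
      rcases (hr d).mp h3 with h5 | ⟨i, h5⟩
      · rw [h5] at h4
        exact absurd h4 hP
      · refine ⟨i, ?_, h5⟩
        change P (dd i)
        rw [h5]
        exact h4
    · rintro ⟨i, h3, h4⟩
      refine ⟨(hr d).mpr (Or.inr ⟨i, h4⟩), ?_⟩
      rw [← h4]
      exact h3

open Classical in
/-- equal multiplicities give equal numbers for a property -/
private theorem lnm_cnt [Finite V] [Finite D] {S : Set D} {F G : D → V}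
    (h : ∀ z, {a | a ∈ S ∧ F a = z}.ncard = {a | a ∈ S ∧ G a = z}.ncard) (A : V → Prop) :
    {a | a ∈ S ∧ A (F a)}.ncard = {a | a ∈ S ∧ A (G a)}.ncard := by
  have := Fintype.ofFinite V
  have := Fintype.ofFinite D
  have key : ∀ F : D → V, {a | a ∈ S ∧ A (F a)}.ncard =
      ∑ z : V, if A z then {a | a ∈ S ∧ F a = z}.ncard else 0 := by
    intro F
    have h1 : {a | a ∈ S ∧ A (F a)}.ncard = (Finset.univ.filter fun a => a ∈ S ∧ A (F a)).card := by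
      rw [← Set.ncard_coe_finset]
      congr 1
      ext a
      simp
    rw [h1, Finset.card_eq_sum_card_fiberwise (f := F) (t := Finset.univ)
      (fun d _ => Finset.mem_coe.mpr (Finset.mem_univ _))]
    refine Finset.sum_congr rfl fun z _ => ?_
    by_cases hz : A z
    · rw [if_pos hz, ← Set.ncard_coe_finset]
      congr 1
      ext a
      simp only [Finset.coe_filter, Finset.mem_filter, Finset.mem_univ, true_and]
      constructor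
      · rintro ⟨⟨h2, -⟩, h3⟩
        exact ⟨h2, h3⟩
      · rintro ⟨h2, h3⟩
        have h4 : F a = z := h3
        exact ⟨⟨h2, by rw [h4]; exact hz⟩, h3⟩
    · rw [if_neg hz, Finset.card_eq_zero, Finset.filter_eq_empty_iff]
      intro a ha h2
      apply hz
      rw [← h2]
      exact (Finset.mem_filter.mp ha).2.2
  rw [key F, key G]
  refine Finset.sum_congr rfl fun z _ => ?_
  rw [h z]

/-- a labelling of one part gives a labelling of the union -/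
private theorem lnm_part {ι : Type} [Finite ι] (κ : ι → Kt L) (i₀ : ι) {f₀ : V × (κ i₀).Q → V}
    {e₀ : D × (κ i₀).Q → V} (h : EL (κ i₀).net ∅ f₀ e₀) :
    ∃ f e, EL (sigKt κ).net ∅ f e ∧ (∀ w : V × (κ i₀).Q, f (w.1, ⟨i₀, w.2⟩) = f₀ w) ∧
      ∀ δ : D × (κ i₀).Q, e (δ.1, ⟨i₀, δ.2⟩) = e₀ δ := by
  classical
  have hex : ∀ i, ∃ p : (V × (κ i).Q → V) × (D × (κ i).Q → V), EL (κ i).net ∅ p.1 p.2 ∧
      ∀ hi : i₀ = i, p = hi ▸ (f₀, e₀) := by
    intro i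
    by_cases hi : i₀ = i
    · subst hi
      exact ⟨(f₀, e₀), h, fun _ => rfl⟩
    · exact ⟨(fun w => w.1, fun δ => L.hd δ.1), proj_el (κ i), fun hi' => absurd hi' hi⟩
  choose p hp1 hp2 using hex
  refine ⟨_, _, sig_glue (f := fun i => (p i).1) (e := fun i => (p i).2) hp1, ?_, ?_⟩
  · rintro ⟨x, q⟩
    have h1 := hp2 i₀ rfl
    change (p i₀).1 (x, q) = f₀ (x, q)
    rw [h1]
  · rintro ⟨d, q⟩
    have h1 := hp2 i₀ rfl
    change (p i₀).2 (d, q) = e₀ (d, q)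
    rw [h1]

/-- the restriction of a labelling which is cut at one dart -/
private theorem lnm_res1 {ι : Type} [Finite ι] {κ : ι → Kt L} {i : ι} {d : D} {q : (κ i).Q}
    {f : V × (Σ i, (κ i).Q) → V} {e : D × (Σ i, (κ i).Q) → V}
    (h : EL (sigKt κ).net {(d, ⟨i, q⟩)} f e) :
    EL (κ i).net {(d, q)} (fun w => f (w.1, ⟨i, w.2⟩)) (fun δ => e (δ.1, ⟨i, δ.2⟩)) := by
  refine sumK_congr (sig_res h i) ?_
  ext ⟨d', q'⟩
  constructor
  · intro h1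
    have h2 : ((d', ⟨i, q'⟩) : D × (Σ i, (κ i).Q)) = (d, ⟨i, q⟩) := h1
    have h3 : d' = d := congrArg Prod.fst h2
    have h4 : (⟨i, q'⟩ : Σ i, (κ i).Q) = ⟨i, q⟩ := congrArg Prod.snd h2
    have h5 : q' = q := eq_of_heq (Sigma.mk.inj h4).2
    rw [h3, h5]
    rfl
  · intro h1
    have h2 : ((d', q') : D × (κ i).Q) = (d, q) := h1
    have h3 : d' = d := congrArg Prod.fst h2
    have h4 : q' = q := congrArg Prod.snd h2
    rw [h3, h4]
    rfl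

end

variable {V D T K : Type} {L : LS V D T K} {A : Set V} (hA : Comp L A) {P : Type}
  (g : Vt L P)

/-- a pinned star of the lift -/
structure PinM [Finite P] (k : Kt L) (k₀ : Kt (mLS L hA g)) (ι : P × k₀.Q → k.Q) (κ : k₀.Q)
    (d₁ : MD L A P) : Prop where
  mn : MainK k (dnKt hA g k₀) ι
    {δ | L.tl δ.1 = L.tl d₁.1.1 ∧ δ.1 ≠ d₁.1.1 ∧ δ.2 = (d₁.1.2, κ)}
  pin : ∀ C : Set D, (∀ d ∈ C, L.tl d = L.tl d₁.1.1 ∧ d ≠ d₁.1.1) →
    ∀ f e, EL k.net {δ | δ.1 ∈ C ∧ δ.2 = ι (d₁.1.2, κ)} f e →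
      ∃ h, Aut (mLS L hA g) h ∧
        f (L.tl d₁.1.1, ι (d₁.1.2, κ)) = (h ((mLS L hA g).tl d₁)).1.1 ∧
        e (d₁.1.1, ι (d₁.1.2, κ)) = (h ((mLS L hA g).hd d₁)).1.1
  cp : ∀ y : D → V,
    (∀ t z, {d | L.tl d = L.tl d₁.1.1 ∧ L.ty d = t ∧ y d = z}.ncard = L.M t (L.tl d₁.1.1) z) →
    y d₁.1.1 = L.hd d₁.1.1 →
    ∃ f e, EL k.net ∅ f e ∧ f (L.tl d₁.1.1, ι (d₁.1.2, κ)) = L.tl d₁.1.1 ∧
      ∀ d, L.tl d = L.tl d₁.1.1 → e (d, ι (d₁.1.2, κ)) = y d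

/-- the value is below a value at a star with `PStar` -/
def lnmGt (τ ζ : MT L A P) (α : V × V) : Prop :=
  ∃ x' y' : MV A P, PStar (mLS L hA g) τ ζ x' ∧ Dt (mLS L hA g) τ x' y' ∧ x'.1.1 = α.1 ∧
    y'.1.1 = α.2

/-- the value is below a value which is not cut by two darts -/
def lnmSv (t : MT L A P) (α : V × V) : Prop :=
  ∃ x' y' : MV A P, x'.1 = (α.1, t.1.2) ∧ y'.1 = (α.2, g.g t.1.1 t.1.2) ∧
    CutV (mLS L hA g) 3 (x', y')

private theorem lnm_side {h : MV A P → MV A P} (ha : Aut (mLS L hA g) h) (x : MV A P) :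
    (h x).1.2 = x.1.2 := by
  have h1 : (L.cl (h x).1.1, (h x).1.2) = (L.cl x.1.1, x.1.2) := ha.cl x
  exact (Prod.mk.inj h1).2

private theorem lnm_dinj {k₀ : Kt (mLS L hA g)} {a b : MD L A P × k₀.Q}
    (h : dnD hA g a = dnD hA g b) : a = b := by
  have h0 : (a.1.1.1, (a.1.1.2, a.2)) = (b.1.1.1, (b.1.1.2, b.2)) := h
  obtain ⟨h1, h2⟩ := Prod.mk.inj h0
  obtain ⟨h3, h4⟩ := Prod.mk.inj h2
  exact Prod.ext (Subtype.ext (Prod.ext h1 h3)) h4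

private theorem lnm_sv {t : MT L A P} {α : V × V} {β : MV A P × MV A P} (h : UpV g t.1 α β) :
    lnmSv hA g t α ↔ CutV (mLS L hA g) 3 β := by
  constructor
  · rintro ⟨x', y', h1, h2, h3⟩
    have e1 : x' = β.1 := Subtype.ext (h1.trans h.1.symm)
    have e2 : y' = β.2 := Subtype.ext (h2.trans h.2.symm)
    subst e1 e2
    exact h3
  · intro h3
    exact ⟨β.1, β.2, h.1, h.2, h3⟩

private theorem lnm_gt {τ ζ : MT L A P} {α : V × V} {β : MV A P × MV A P} (h : UpV g τ.1 α β)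
    (hg : lnmGt hA g τ ζ α) :
    PStar (mLS L hA g) τ ζ β.1 ∧ Dt (mLS L hA g) τ β.1 β.2 := by
  obtain ⟨x', y', h1, h2, h3, h4⟩ := hg
  obtain ⟨-, h5, h6⟩ := (m_dt hA g).mp h2
  have e1 : x' = β.1 := Subtype.ext ((Prod.ext h3 h5).trans h.1.symm)
  have e2 : y' = β.2 := Subtype.ext ((Prod.ext h4 h6).trans h.2.symm)
  subst e1 e2
  exact ⟨h1, h2⟩

private theorem lnm_gz {ζ : MT L A P} {α : V × V} {β : MV A P × MV A P} (h : UpV g ζ.1 α β)
    (hg : GzM hA g ζ α) : CutV (mLS L hA g) 2 β := by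
  obtain ⟨x', y', h1, h2, h3⟩ := hg
  have e1 : x' = β.1 := Subtype.ext (h1.trans h.1.symm)
  have e2 : y' = β.2 := Subtype.ext (h2.trans h.2.symm)
  subst e1 e2
  exact h3

private theorem lnm_up [Finite P] {k : Kt (mLS L hA g)} {f : V × (P × k.Q) → V}
    {e : D × (P × k.Q) → V} {f' : MV A P × k.Q → MV A P} {e' : MD L A P × k.Q → MV A P}
    (hf : ∀ w, f (dnV hA g w) ∈ A → (f' w).1 = (f (dnV hA g w), w.1.1.2))
    (he : ∀ δ, f (dnV hA g (k.net.tl δ)) ∈ A →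
      (e' δ).1 = (e (dnD hA g δ), g.g (L.ty δ.1.1.1) δ.1.1.2)) {δ : MD L A P × k.Q}
    {t : MT L A P} (ht : (mLS L hA g).ty δ.1 = t)
    (h1 : f (dnV hA g (k.net.tl δ)) ∈ A) (h2 : f (dnV hA g (k.net.hd δ)) ∈ A) :
    UpV g t.1 (evt (dnKt hA g k).net f e (dnD hA g δ)) (evt k.net f' e' δ) ∧
    UpV g t.1 (evh (dnKt hA g k).net f e (dnD hA g δ)) (evh k.net f' e' δ) := by
  subst ht
  refine ⟨⟨hf _ h1, he _ h1⟩, ?_, ?_⟩
  · have e1 := he (k.net.rv δ) h2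
    have e2 : g.g (L.ty (k.net.rv δ).1.1.1) (k.net.rv δ).1.1.2 = δ.1.1.2 := by
      change g.g (L.ty (L.rv δ.1.1.1)) (g.g (L.ty δ.1.1.1) δ.1.1.2) = δ.1.1.2
      rw [L.ty_rv, g.inv, Equiv.symm_apply_apply]
    rw [e2, ← dn_rv] at e1
    exact e1
  · have e1 := hf (k.net.hd δ) h2
    rw [← dn_hd] at e1
    exact e1

private theorem lnm_resC {ι : Type} [Finite ι] {κ : ι → Kt L} {i : ι} {q : (κ i).Q} {C : Set D}
    {f : V × (Σ i, (κ i).Q) → V} {e : D × (Σ i, (κ i).Q) → V}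
    (h : EL (sigKt κ).net {δ | δ.1 ∈ C ∧ δ.2 = ⟨i, q⟩} f e) :
    EL (κ i).net {δ | δ.1 ∈ C ∧ δ.2 = q} (fun w => f (w.1, ⟨i, w.2⟩))
      (fun δ => e (δ.1, ⟨i, δ.2⟩)) := by
  refine sumK_congr (sig_res h i) ?_
  ext ⟨d, q'⟩
  constructor
  · rintro ⟨c1, c2⟩
    have c3 : (⟨i, q'⟩ : Σ i, (κ i).Q) = ⟨i, q⟩ := c2
    exact ⟨c1, eq_of_heq (Sigma.mk.inj c3).2⟩
  · rintro ⟨c1, c2⟩
    have c3 : q' = q := c2
    subst c3
    exact ⟨c1, rfl⟩

private theorem lnm_img {D Q₀ Q : Type} (ι : Q₀ → Q) (p : Q₀) (C : Set D) :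
    (fun δ : D × Q₀ => ((δ.1, ι δ.2) : D × Q)) '' {δ | δ.1 ∈ C ∧ δ.2 = p} =
      {δ | δ.1 ∈ C ∧ δ.2 = ι p} := by
  ext ⟨d, q⟩
  constructor
  · rintro ⟨⟨d', q'⟩, ⟨h1, h2⟩, h3⟩
    obtain ⟨h4, h5⟩ := Prod.mk.inj h3
    have h6 : q' = p := h2
    subst h4 h5 h6
    exact ⟨h1, rfl⟩
  · rintro ⟨h1, h2⟩
    exact ⟨(d, p), ⟨h1, rfl⟩, Prod.ext rfl h2.symm⟩

private theorem lnm_one [Finite V] [Finite D] [Finite T] [Finite P] (hc : LConn (mLS L hA g))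
    (hl : ∀ d, (mLS L hA g).tl d ≠ (mLS L hA g).hd d) {τ ζ : MT L A P} {k : Kt (mLS L hA g)}
    {δ : MD L A P × k.Q} (hty : (mLS L hA g).ty δ.1 = τ)
    (hb : Cut (mLS L hA g) 2 ((mLS L hA g).tl δ.1) {(mLS L hA g).hd δ.1})
    {f : V × (P × k.Q) → V} {e : D × (P × k.Q) → V}
    (h : EL (dnKt hA g k).net {dnD hA g δ} f e) {x : MV A P} (hx : PStar (mLS L hA g) τ ζ x)
    (hx1 : x.1 = (f (dnV hA g (k.net.tl δ)), δ.1.1.2)) :
    evt (dnKt hA g k).net f e (dnD hA g δ) = evh (dnKt hA g k).net f e (dnD hA g δ) ∧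
      lnmGt hA g τ ζ (evt (dnKt hA g k).net f e (dnD hA g δ)) := by
  have e1 : x.1.1 = f (dnV hA g (k.net.tl δ)) := congrArg Prod.fst hx1
  have e2 : x.1.2 = δ.1.1.2 := congrArg Prod.snd hx1
  have v : Dt L (L.ty δ.1.1.1) (f (dnV hA g (k.net.tl δ))) (e (dnD hA g δ)) :=
    (val_dt h (dnD hA g δ)).1
  have hA1 : f (dnV hA g (k.net.tl δ)) ∈ A := by
    rw [← e1]
    exact x.2
  have hA2 : e (dnD hA g δ) ∈ A := comp_dt hA v hA1
  have hD : Dt (mLS L hA g) τ x ⟨(e (dnD hA g δ), g.g (L.ty δ.1.1.1) δ.1.1.2), hA2⟩ := by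
    subst hty
    refine (m_dt hA g).mpr ⟨?_, e2, rfl⟩
    rw [e1]
    exact v
  exact ⟨one_dn hA g hc hl hb h hx1 rfl (hx.nb _ hD), x, _, hx, hD, e1, rfl⟩

variable [Finite V] [Finite D] [Finite T] [Finite P] (hc : LConn (mLS L hA g))
  (hl : ∀ d, (mLS L hA g).tl d ≠ (mLS L hA g).hd d)

include hc hl

theorem exists_pinM {d₁ : MD L A P} (hR : RingM hA g d₁) :
    ∃ (k : Kt L) (k₀ : Kt (mLS L hA g)) (ι : P × k₀.Q → k.Q) (κ : k₀.Q),
      PinM hA g k k₀ ι κ d₁ := by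
  obtain ⟨k', q', hr⟩ := hR
  obtain ⟨k₀, sd, κ, -, -, hu⟩ := exists_ukit (mLS L hA g)
  have ha : ∀ (d : D) (q : P × k₀.Q), L.tl d = L.tl d₁.1.1 → q = (d₁.1.2, κ ((mLS L hA g).tl d₁)) →
      ((d, q) : D × (P × k₀.Q)) ≠ (dnKt hA g k₀).net.rv (d₁.1.1, (d₁.1.2, κ ((mLS L hA g).tl d₁))) := by
    intro d q h1 h2 h3
    have h4 : (dnKt hA g k₀).net.rv (d₁.1.1, (d₁.1.2, κ ((mLS L hA g).tl d₁))) =
        dnD hA g (k₀.net.rv (d₁, κ ((mLS L hA g).tl d₁))) := dn_rv hA g (d₁, κ ((mLS L hA g).tl d₁))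
    rw [h4] at h3
    have h5 : d = L.rv d₁.1.1 := congrArg Prod.fst h3
    have h6 : q = (g.g (L.ty d₁.1.1) d₁.1.2, (k₀.net.rv (d₁, κ ((mLS L hA g).tl d₁))).2) := congrArg Prod.snd h3
    have h7 : d₁.1.2 = g.g (L.ty d₁.1.1) d₁.1.2 := by
      have h8 := h2.symm.trans h6
      exact congrArg Prod.fst h8
    apply hl d₁
    rw [m_hd]
    apply Subtype.ext
    refine Prod.ext ?_ h7
    change L.tl d₁.1.1 = L.tl (L.rv d₁.1.1)
    rw [← h5, h1]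
  refine ⟨swKt (dnKt hA g k₀) k' d₁.1.1 (d₁.1.2, κ ((mLS L hA g).tl d₁)) q', k₀, Sum.inl, κ ((mLS L hA g).tl d₁), ?_, ?_, ?_⟩
  · refine mainK_mono (mainK_sw (Pg := fun _ => True) fun f₂ e₂ h => ⟨(hr f₂ e₂ h).1, trivial⟩).1 ?_
    rintro ⟨d, q⟩ ⟨h1, -, h2⟩
    exact ha d q h1 h2
  · intro C hC f e h
    have h3 := sw_guard h ?_ (P := fun α => ∃ h, Aut (mLS L hA g) h ∧ α =
      ((h ((mLS L hA g).tl d₁)).1.1, (h ((mLS L hA g).hd d₁)).1.1)) hr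
    · obtain ⟨h', h4, h5⟩ := h3.2
      exact ⟨h', h4, congrArg Prod.fst h5, congrArg Prod.snd h5⟩
    · rintro ⟨d, q⟩ ⟨h4, h5⟩
      have h4' : d ∈ C := h4
      have h5' : q = Sum.inl (d₁.1.2, κ ((mLS L hA g).tl d₁)) := h5
      subst h5'
      refine ⟨(d, (d₁.1.2, κ ((mLS L hA g).tl d₁))), rfl, ?_, ha d _ (hC d h4').1 rfl⟩
      intro h6
      exact (hC d h4').2 (congrArg Prod.fst h6)
  · intro y hy hy1
    obtain ⟨f₁, e₁, h3, h4, h5⟩ := dn_ustar hA g (ukit_star (hu ((mLS L hA g).tl d₁)))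
      (x' := L.tl d₁.1.1) d₁.2 rfl (y := y) hy
    have h4' : f₁ (L.tl d₁.1.1, (d₁.1.2, κ ((mLS L hA g).tl d₁))) = L.tl d₁.1.1 := h4
    have h5' : ∀ d, L.tl d = L.tl d₁.1.1 →
        e₁ (d, (d₁.1.2, κ ((mLS L hA g).tl d₁))) = y d := h5
    have h6 : evt (dnKt hA g k₀).net f₁ e₁ (d₁.1.1, (d₁.1.2, κ ((mLS L hA g).tl d₁))) =
        evt k'.net (fun w => w.1) (fun δ => L.hd δ.1) (d₁.1.1, q') := by
      show (f₁ (L.tl d₁.1.1, (d₁.1.2, κ ((mLS L hA g).tl d₁))), e₁ (d₁.1.1, (d₁.1.2, κ ((mLS L hA g).tl d₁)))) =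
        (L.tl d₁.1.1, L.hd d₁.1.1)
      rw [h4', h5' d₁.1.1 rfl, hy1]
    refine ⟨_, _, sw_cov h3 (proj_el k') h6, ?_, ?_⟩
    · exact h4'
    · intro d hd
      exact h5' d hd

theorem lens_hpatM {τ ζ : MT L A P}
    (hz : (mLS L hA g).sc ((mLS L hA g).bar ζ) = (mLS L hA g).sc ((mLS L hA g).bar τ))
    (h1 : τ ≠ ζ) (h2 : τ ≠ (mLS L hA g).bar ζ) {x₀ : MV A P} (hx : PStar (mLS L hA g) τ ζ x₀)
    {d₁ d₂ d₃ d₄ : MD L A P} (ht1 : (mLS L hA g).tl d₁ = x₀) (ht2 : (mLS L hA g).tl d₂ = x₀)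
    (ht3 : (mLS L hA g).tl d₃ = x₀) (ht4 : (mLS L hA g).tl d₄ = x₀)
    (hy1 : (mLS L hA g).ty d₁ = τ) (hy2 : (mLS L hA g).ty d₂ = τ) (hy3 : (mLS L hA g).ty d₃ = τ)
    (hy4 : (mLS L hA g).ty d₄ = τ) (h12 : d₁ ≠ d₂) (h13 : d₁ ≠ d₃) (h23 : d₂ ≠ d₃)
    (hh : (mLS L hA g).hd d₂ = (mLS L hA g).hd d₃)
    (hs1 : Cut (mLS L hA g) 3 x₀ {(mLS L hA g).hd d₁})
    (hs2 : Cut (mLS L hA g) 3 x₀ {(mLS L hA g).hd d₂})
    (hs4 : ¬ Cut (mLS L hA g) 3 x₀ {(mLS L hA g).hd d₄})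
    (hR : ∀ d, Cut (mLS L hA g) 2 ((mLS L hA g).tl d) {(mLS L hA g).hd d} → RingM hA g d) :
    ∃ k : Kt L, HPat k := by
  classical
  have hP : GoodP (mLS L hA g) τ (PStar (mLS L hA g) τ ζ) := pstar_p τ ζ
  have hxc : x₀.1.2 = τ.1.2 := by
    have e1 : (L.cl x₀.1.1, x₀.1.2) = (L.sc τ.1.1, τ.1.2) := hx.cl
    exact (Prod.mk.inj e1).2
  have hgz : g.g ζ.1.1 ζ.1.2 = g.g τ.1.1 τ.1.2 := by
    have e1 : (L.sc (L.bar ζ.1.1), g.g ζ.1.1 ζ.1.2) =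
        (L.sc (L.bar τ.1.1), g.g τ.1.1 τ.1.2) := hz
    exact (Prod.mk.inj e1).2
  have hm3 : 3 ≤ (mLS L hA g).num τ := by
    rw [← (mLS L hA g).num_eq x₀ τ hx.cl]
    have e1 : ({d₁, d₂, d₃} : Set (MD L A P)).ncard = 3 := Set.ncard_eq_three.mpr
      ⟨d₁, d₂, d₃, h12, h13, h23, rfl⟩
    rw [← e1]
    refine Set.ncard_le_ncard ?_ (Set.toFinite _)
    rintro d (rfl | rfl | rfl)
    · exact ⟨ht1, hy1⟩
    · exact ⟨ht2, hy2⟩
    · exact ⟨ht3, hy3⟩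
  have htl : ∀ d : MD L A P, (mLS L hA g).tl d = x₀ → L.tl d.1.1 = x₀.1.1 ∧ d.1.2 = x₀.1.2 := by
    intro d e1
    rw [← e1]
    exact ⟨rfl, rfl⟩
  have hty : ∀ d : MD L A P, (mLS L hA g).ty d = τ → L.ty d.1.1 = τ.1.1 := by
    intro d e1
    rw [← e1]
    rfl
  have hty' := hty
  have hp1 : d₁.1.2 = x₀.1.2 := (htl d₁ ht1).2
  -- the darts of the star without `d₁`
  obtain ⟨m, hmc⟩ : ∃ m, Nat.card {d | ((mLS L hA g).tl d = x₀ ∧ (mLS L hA g).ty d = τ) ∧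
    d ≠ d₁} = m := ⟨_, rfl⟩
  obtain ⟨dd, hdd, hdi, hdr⟩ : ∃ dd : Fin m → MD L A P,
      (∀ i, ((mLS L hA g).tl (dd i) = x₀ ∧ (mLS L hA g).ty (dd i) = τ) ∧ dd i ≠ d₁) ∧
      Function.Injective dd ∧
      ∀ d, (mLS L hA g).tl d = x₀ → (mLS L hA g).ty d = τ → d ≠ d₁ → ∃ i, dd i = d := by
    let E := Finite.equivFinOfCardEq hmc
    refine ⟨fun i => (E.symm i).1, fun i => (E.symm i).2,
      fun i j hij => E.symm.injective (Subtype.ext hij), ?_⟩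
    intro d e1 e2 e3
    refine ⟨E ⟨d, ⟨e1, e2⟩, e3⟩, ?_⟩
    change (E.symm (E ⟨d, ⟨e1, e2⟩, e3⟩)).1 = d
    rw [Equiv.symm_apply_apply]
  -- above
  obtain ⟨S, hS⟩ : ∃ S : Set (MD L A P),
    S = {d | (mLS L hA g).tl d = x₀ ∧ (mLS L hA g).ty d = τ} := ⟨_, rfl⟩
  have hSm : ∀ d, d ∈ S ↔ (mLS L hA g).tl d = x₀ ∧ (mLS L hA g).ty d = τ := by
    intro d
    rw [hS]
    rfl
  have hd₁S : d₁ ∈ S := (hSm d₁).mpr ⟨ht1, hy1⟩
  have hSr : ∀ d, d ∈ S ↔ d = d₁ ∨ ∃ i, dd i = d := by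
    intro d
    rw [hSm]
    constructor
    · rintro ⟨e1, e2⟩
      by_cases e3 : d = d₁
      · exact Or.inl e3
      · exact Or.inr (hdr d e1 e2 e3)
    · rintro (e1 | ⟨i, e1⟩)
      · rw [e1]
        exact ⟨ht1, hy1⟩
      · rw [← e1]
        exact (hdd i).1
  have hsplit : ∀ P' : MD L A P → Prop, {d | d ∈ S ∧ P' d}.ncard = {i | P' (dd i)}.ncard +
      if P' d₁ then 1 else 0 := fun P' => lnm_split hd₁S hdi hSr (fun i => (hdd i).2) P'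
  have hMS : ∀ (F : MD L A P → MV A P) (z : MV A P),
      {d | (mLS L hA g).tl d = x₀ ∧ (mLS L hA g).ty d = τ ∧ F d = z}.ncard =
      {d | d ∈ S ∧ F d = z}.ncard := by
    intro F z
    congr 1
    ext d
    rw [hS]
    constructor
    · rintro ⟨e1, e2, e3⟩
      exact ⟨⟨e1, e2⟩, e3⟩
    · rintro ⟨⟨e1, e2⟩, e3⟩
      exact ⟨e1, e2, e3⟩
  -- below
  obtain ⟨dl, hdl⟩ : ∃ dl : Fin m → D, ∀ i, dl i = (dd i).1.1 := ⟨_, fun _ => rfl⟩
  have hlt : ∀ i, L.tl (dl i) = x₀.1.1 := by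
    intro i
    rw [hdl]
    exact (htl _ (hdd i).1.1).1
  have hly : ∀ i, L.ty (dl i) = τ.1.1 := by
    intro i
    rw [hdl]
    exact hty _ (hdd i).1.2
  have hinj : ∀ d d' : MD L A P, (mLS L hA g).tl d = x₀ → (mLS L hA g).tl d' = x₀ →
      d.1.1 = d'.1.1 → d = d' := by
    intro d d' e1 e2 e3
    exact Subtype.ext (Prod.ext e3 ((htl d e1).2.trans (htl d' e2).2.symm))
  have hln : ∀ i, dl i ≠ d₁.1.1 := by
    intro i e1
    rw [hdl] at e1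
    exact (hdd i).2 (hinj _ _ (hdd i).1.1 ht1 e1)
  have hli : Function.Injective dl := by
    intro i j e1
    rw [hdl, hdl] at e1
    exact hdi (hinj _ _ (hdd i).1.1 (hdd j).1.1 e1)
  have hlr : ∀ d, L.tl d = x₀.1.1 → L.ty d = τ.1.1 → d ≠ d₁.1.1 → ∃ i, dl i = d := by
    intro d e1 e2 e3
    have e4 : L.tl (d, x₀.1.2).1 ∈ A := by
      change L.tl d ∈ A
      rw [e1]
      exact x₀.2
    obtain ⟨i, hi⟩ := hdr ⟨(d, x₀.1.2), e4⟩ (Subtype.ext (Prod.ext e1 rfl))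
      (Subtype.ext (Prod.ext e2 hxc)) (fun e5 => e3 (by rw [← e5]))
    refine ⟨i, ?_⟩
    rw [hdl, hi]
  obtain ⟨SL, hSL⟩ : ∃ SL : Set D, SL = {d | L.tl d = x₀.1.1 ∧ L.ty d = τ.1.1} := ⟨_, rfl⟩
  have hSLm : ∀ d, d ∈ SL ↔ L.tl d = x₀.1.1 ∧ L.ty d = τ.1.1 := by
    intro d
    rw [hSL]
    rfl
  have hd₁L : d₁.1.1 ∈ SL := (hSLm _).mpr ⟨(htl d₁ ht1).1, hty d₁ hy1⟩
  have hSLr : ∀ d, d ∈ SL ↔ d = d₁.1.1 ∨ ∃ i, dl i = d := by
    intro d
    rw [hSLm]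
    constructor
    · rintro ⟨e1, e2⟩
      by_cases e3 : d = d₁.1.1
      · exact Or.inl e3
      · exact Or.inr (hlr d e1 e2 e3)
    · rintro (e1 | ⟨i, e1⟩)
      · rw [e1]
        exact ⟨(htl d₁ ht1).1, hty d₁ hy1⟩
      · rw [← e1]
        exact ⟨hlt i, hly i⟩
  have hsplitL : ∀ P' : D → Prop, {d | d ∈ SL ∧ P' d}.ncard = {i | P' (dl i)}.ncard +
      if P' d₁.1.1 then 1 else 0 := fun P' => lnm_split hd₁L hli hSLr hln P'
  have hMSL : ∀ (F : D → V) (z : V), {d | L.tl d = x₀.1.1 ∧ L.ty d = τ.1.1 ∧ F d = z}.ncard =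
      {d | d ∈ SL ∧ F d = z}.ncard := by
    intro F z
    congr 1
    ext d
    rw [hSL]
    constructor
    · rintro ⟨e1, e2, e3⟩
      exact ⟨⟨e1, e2⟩, e3⟩
    · rintro ⟨⟨e1, e2⟩, e3⟩
      exact ⟨e1, e2, e3⟩
  obtain ⟨Nv, hNv⟩ : ∃ Nv : V → ℕ, ∀ z, Nv z = {i | L.hd (dl i) = z}.ncard := ⟨_, fun _ => rfl⟩
  have hMN : ∀ z, L.M τ.1.1 x₀.1.1 z = Nv z + if L.hd d₁.1.1 = z then 1 else 0 := by
    intro z
    have e1 : L.M τ.1.1 x₀.1.1 z = {d | d ∈ SL ∧ L.hd d = z}.ncard := hMSL L.hd z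
    rw [e1, hNv, hsplitL (fun d => L.hd d = z)]
  have hND : ∀ z, 0 < Nv z → Dt L τ.1.1 x₀.1.1 z := by
    intro z hz'
    rw [dt_iff, hMN]
    omega
  obtain ⟨AA, hAA⟩ : ∃ AA : V → Prop, ∀ z, AA z ↔ ∃ y' : MV A P,
      y'.1 = (z, g.g τ.1.1 τ.1.2) ∧ Cut (mLS L hA g) 3 x₀ {y'} := ⟨_, fun _ => Iff.rfl⟩
  have hAd : ∀ d, (mLS L hA g).tl d = x₀ → (mLS L hA g).ty d = τ →
      (AA (L.hd d.1.1) ↔ Cut (mLS L hA g) 3 x₀ {(mLS L hA g).hd d}) := by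
    intro d e1 e2
    have e3 : ((mLS L hA g).hd d).1 = (L.hd d.1.1, g.g τ.1.1 τ.1.2) := by
      rw [m_hd]
      change (L.hd d.1.1, g.g (L.ty d.1.1) d.1.2) = _
      rw [hty d e2, (htl d e1).2, hxc]
    rw [hAA]
    constructor
    · rintro ⟨y', e4, e5⟩
      have e6 : y' = (mLS L hA g).hd d := Subtype.ext (e4.trans e3.symm)
      rw [← e6]
      exact e5
    · intro e4
      exact ⟨_, e3, e4⟩
  obtain ⟨r, hr⟩ : ∃ r, {i | AA (L.hd (dl i))}.ncard = r := ⟨_, rfl⟩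
  -- the other ends
  have hzt : ∀ y, ∃ y' z' : MV A P, Dt L τ.1.1 x₀.1.1 y → y'.1 = (y, g.g τ.1.1 τ.1.2) ∧
      Dt (mLS L hA g) τ x₀ y' ∧ Dt (mLS L hA g) ζ z' y' := by
    intro y
    by_cases hy : Dt L τ.1.1 x₀.1.1 y
    · have e0 : Dt (mLS L hA g) τ x₀ ⟨(y, g.g τ.1.1 τ.1.2), comp_dt hA hy x₀.2⟩ :=
        (m_dt hA g).mpr ⟨hy, hxc, rfl⟩
      have e1 := (dt_cl e0).2
      rw [← hz] at e1
      obtain ⟨z, e2⟩ := dt_exists e1
      have e3 := dt_symm e2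
      rw [(mLS L hA g).bar_bar] at e3
      exact ⟨_, z, fun _ => ⟨rfl, e0, e3⟩⟩
    · exact ⟨x₀, x₀, fun e1 => absurd e1 hy⟩
  choose yu zu hyz using hzt
  -- the parts
  obtain ⟨k₁, k₀, ι, κ, hpin⟩ := exists_pinM hA g hc hl (d₁ := d₁) (hR d₁ (by
    rw [ht1]
    exact hx.nb _ ⟨d₁, ht1, rfl, hy1⟩))
  obtain ⟨k₂, k₀', ι', b1, b2, hb⟩ := exists_prM hA g hc hl hm3 hz (fun e1 => absurd e1.symm h1)
    hP hx hx.nz (fun d e1 e2 => hR d (by
      rw [e2]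
      exact hx.nb _ ⟨d, e2, rfl, e1⟩))
  have hring : ∀ y, ∃ (k : Kt L) (q : k.Q) (d : MD L A P), Dt L τ.1.1 x₀.1.1 y →
      (mLS L hA g).tl d = zu y ∧ (mLS L hA g).hd d = yu y ∧
      (mLS L hA g).ty d = ζ ∧ ∀ f e, EL k.net {(d.1.1, q)} f e →
        evt k.net f e (d.1.1, q) = evh k.net f e (d.1.1, q) ∧
        ∃ h, Aut (mLS L hA g) h ∧ evt k.net f e (d.1.1, q) =
          ((h ((mLS L hA g).tl d)).1.1, (h ((mLS L hA g).hd d)).1.1) := by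
    intro y
    by_cases hy : Dt L τ.1.1 x₀.1.1 y
    · obtain ⟨d, e2, e3, e4⟩ := (hyz y hy).2.2
      obtain ⟨k, q, hk⟩ := hR d (by
        rw [e2, e3]
        exact hx.nz _ _ (hyz y hy).2.1 (hyz y hy).2.2)
      exact ⟨k, q, d, fun _ => ⟨e2, e3, e4, hk⟩⟩
    · exact ⟨unitKt L, (), d₁, fun e1 => absurd e1 hy⟩
  choose kk qq dy hk using hring
  let KK : Bool ⊕ V → Kt L := fun i => match i with
    | Sum.inl true => k₁
    | Sum.inl false => k₂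
    | Sum.inr y => kk y
  let q1 : (sigKt KK).Q := ⟨Sum.inl true, ι (d₁.1.2, κ)⟩
  let B1 : D × (sigKt KK).Q := (b1.1.1.1, ⟨Sum.inl false, ι' (b1.1.1.2, b1.2)⟩)
  let B2 : D × (sigKt KK).Q := (b2.1.1.1, ⟨Sum.inl false, ι' (b2.1.1.2, b2.2)⟩)
  let qr : V → (sigKt KK).Q := fun y => ⟨Sum.inr y, qq y⟩
  -- the star
  have s_val : ∀ f e (C : Set D), (∀ d ∈ C, L.tl d = x₀.1.1 ∧ d ≠ d₁.1.1) →
      EL (sigKt KK).net {δ | δ.1 ∈ C ∧ δ.2 = q1} f e →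
      ∃ h, Aut (mLS L hA g) h ∧ f (x₀.1.1, q1) = (h x₀).1.1 ∧
        e (d₁.1.1, q1) = (h ((mLS L hA g).hd d₁)).1.1 := by
    intro f e C hC h
    have e1 := lnm_resC (κ := KK) (i := Sum.inl true) h
    obtain ⟨h', e2, e3, e4⟩ := hpin.pin C
      (fun d hd => ⟨(hC d hd).1.trans (htl d₁ ht1).1.symm, (hC d hd).2⟩) _ _ e1
    rw [ht1, (htl d₁ ht1).1] at e3
    exact ⟨h', e2, e3, e4⟩
  have s_res : ∀ f e (C : Set D), (∀ d ∈ C, L.tl d = x₀.1.1 ∧ d ≠ d₁.1.1) →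
      EL (sigKt KK).net {δ | δ.1 ∈ C ∧ δ.2 = q1} f e →
      EL (dnKt hA g k₀).net {δ | δ.1 ∈ C ∧ δ.2 = (d₁.1.2, κ)}
        (fun w => f (w.1, ⟨Sum.inl true, ι w.2⟩)) (fun δ => e (δ.1, ⟨Sum.inl true, ι δ.2⟩)) ∧
      ∀ d ∈ C, evh (sigKt KK).net f e (d, q1) = evh (dnKt hA g k₀).net
        (fun w => f (w.1, ⟨Sum.inl true, ι w.2⟩)) (fun δ => e (δ.1, ⟨Sum.inl true, ι δ.2⟩))
        (d, (d₁.1.2, κ)) := by
    intro f e C hC h
    have e1 := lnm_resC (κ := KK) (i := Sum.inl true) h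
    obtain ⟨e2, e3⟩ := hpin.mn.res {δ | δ.1 ∈ C ∧ δ.2 = (d₁.1.2, κ)}
      (fun δ hδ => ⟨(hC _ hδ.1).1.trans (htl d₁ ht1).1.symm, (hC _ hδ.1).2, hδ.2⟩) _ _
      (sumK_congr e1 (lnm_img ι (d₁.1.2, κ) C).symm)
    refine ⟨e2, ?_⟩
    intro d hd
    exact e3 (d, (d₁.1.2, κ)) ⟨hd, rfl⟩
  have hs1e : ∀ i, ({(dl i, q1)} : Set (D × (sigKt KK).Q)) =
      {δ | δ.1 ∈ ({dl i} : Set D) ∧ δ.2 = q1} := by
    intro i
    ext ⟨d, q'⟩
    constructor
    · intro c1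
      have c2 : (d, q') = (dl i, q1) := c1
      exact ⟨congrArg Prod.fst c2, congrArg Prod.snd c2⟩
    · rintro ⟨c1, c2⟩
      have c3 : d = dl i := c1
      have c4 : q' = q1 := c2
      rw [c3, c4]
      rfl
  have hdn : ∀ i, dnD hA g (k := k₀) (dd i, κ) = (dl i, (d₁.1.2, κ)) := by
    intro i
    change ((dd i).1.1, ((dd i).1.2, κ)) = (dl i, (d₁.1.2, κ))
    rw [hdl, (htl _ (hdd i).1.1).2, hp1]
  have s_sp : ∀ i f e, EL (sigKt KK).net {(dl i, q1)} f e →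
      (lnmSv hA g τ (evt (sigKt KK).net f e (dl i, q1)) ↔
        lnmSv hA g τ (evh (sigKt KK).net f e (dl i, q1))) ∧
      lnmGt hA g τ ζ (evt (sigKt KK).net f e (dl i, q1)) ∧
      lnmGt hA g τ ζ (evh (sigKt KK).net f e (dl i, q1)) := by
    intro i f e h
    have h' := h
    rw [hs1e i] at h'
    have hC : ∀ d ∈ ({dl i} : Set D), L.tl d = x₀.1.1 ∧ d ≠ d₁.1.1 := by
      rintro d rfl
      exact ⟨hlt i, hln i⟩
    obtain ⟨h₀, g1, g2, -⟩ := s_val f e {dl i} hC h'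
    obtain ⟨r1, r2⟩ := s_res f e {dl i} hC h'
    have r3 := r2 (dl i) rfl
    have r4 : EL (dnKt hA g k₀).net {dnD hA g (dd i, κ)}
        (fun w => f (w.1, ⟨Sum.inl true, ι w.2⟩)) (fun δ => e (δ.1, ⟨Sum.inl true, ι δ.2⟩)) := by
      refine sumK_congr r1 ?_
      rw [hdn i]
      ext ⟨d, q'⟩
      constructor
      · rintro ⟨c1, c2⟩
        exact Prod.ext c1 c2
      · intro c1
        have c2 : (d, q') = (dl i, (d₁.1.2, κ)) := c1
        exact ⟨congrArg Prod.fst c2, congrArg Prod.snd c2⟩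
    have r5 := lnm_one hA g hc hl (ζ := ζ) (δ := (dd i, κ)) (hdd i).1.2 (by
      rw [(hdd i).1.1]
      exact hx.nb _ ⟨_, (hdd i).1.1, rfl, (hdd i).1.2⟩) r4 (hP.au _ _ g1 hx) (by
        refine Prod.ext ?_ ?_
        · rw [← g2]
          change f (x₀.1.1, q1) = f (L.tl (dd i).1.1, ⟨Sum.inl true, ι ((dd i).1.2, κ)⟩)
          rw [(htl _ (hdd i).1.1).1, (htl _ (hdd i).1.1).2, ← hp1]
        · change (h₀ x₀).1.2 = (dd i).1.2
          rw [lnm_side hA g g1, (htl _ (hdd i).1.1).2])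
    rw [hdn i] at r5
    have r6 : evt (sigKt KK).net f e (dl i, q1) = evh (sigKt KK).net f e (dl i, q1) :=
      Eq.trans r5.1 r3.symm
    rw [← r6]
    exact ⟨Iff.rfl, r5.2, r5.2⟩
  have s_cnt : ∀ f e, EL (sigKt KK).net
      (Set.range fun i => ((dl i, q1) : D × (sigKt KK).Q)) f e →
      {i | lnmSv hA g τ (evt (sigKt KK).net f e (dl i, q1))}.ncard = r := by
    intro f e h
    have e2 : (Set.range fun i => ((dl i, q1) : D × (sigKt KK).Q)) =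
        {δ | δ.1 ∈ Set.range dl ∧ δ.2 = q1} := by
      ext ⟨d, q'⟩
      constructor
      · rintro ⟨i, hi⟩
        exact ⟨⟨i, congrArg Prod.fst hi⟩, (congrArg Prod.snd hi).symm⟩
      · rintro ⟨⟨i, hi⟩, h5⟩
        refine ⟨i, ?_⟩
        have h6 : dl i = d := hi
        have h7 : q' = q1 := h5
        change (dl i, q1) = (d, q')
        rw [h6, h7]
    have h' := h
    rw [e2] at h'
    have hC : ∀ d ∈ Set.range dl, L.tl d = x₀.1.1 ∧ d ≠ d₁.1.1 := by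
      rintro _ ⟨i, rfl⟩
      exact ⟨hlt i, hln i⟩
    obtain ⟨h₀, g1, g2, g3⟩ := s_val f e (Set.range dl) hC h'
    obtain ⟨r1, -⟩ := s_res f e (Set.range dl) hC h'
    obtain ⟨f', e', u1, u2, u3⟩ := m_up hA g r1
    have v0 : (fun w : V × (P × k₀.Q) => f (w.1, ⟨Sum.inl true, ι w.2⟩)) (dnV hA g (x₀, κ)) =
        (h₀ x₀).1.1 := by
      rw [← g2]
      change f (x₀.1.1, ⟨Sum.inl true, ι (x₀.1.2, κ)⟩) = f (x₀.1.1, q1)
      rw [← hp1]
    have v0' : (fun w : V × (P × k₀.Q) => f (w.1, ⟨Sum.inl true, ι w.2⟩))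
        (dnV hA g (x₀, κ)) ∈ A := by
      rw [v0]
      exact (h₀ x₀).2
    have v1 : f' (x₀, κ) = h₀ x₀ := by
      apply Subtype.ext
      exact (u2 (x₀, κ) v0').trans (Prod.ext v0 (lnm_side hA g g1 x₀).symm)
    have v2 : ∀ d, (mLS L hA g).tl d = x₀ → (e' (d, κ)).1 =
        (e (d.1.1, q1), g.g (L.ty d.1.1) x₀.1.2) := by
      intro d hd
      have w1 : k₀.net.tl (d, κ) = (x₀, κ) := Prod.ext hd rfl
      have w2 := u3 (d, κ) (by
        rw [w1]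
        exact v0')
      rw [w2]
      change (e (d.1.1, ⟨Sum.inl true, ι (d.1.2, κ)⟩), g.g (L.ty d.1.1) d.1.2) = _
      rw [(htl d hd).2, ← hp1]
    have v3 : e' (d₁, κ) = h₀ ((mLS L hA g).hd d₁) := by
      apply Subtype.ext
      rw [v2 d₁ ht1, g3]
      refine Prod.ext rfl ?_
      rw [lnm_side hA g g1, m_hd, ← hp1]
    have hF : ∀ z, {d | d ∈ S ∧ e' (d, κ) = z}.ncard =
        {d | d ∈ S ∧ h₀ ((mLS L hA g).hd d) = z}.ncard := by
      intro z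
      obtain ⟨z', rfl⟩ := g1.bij.2 z
      have w1 : {d | d ∈ S ∧ h₀ ((mLS L hA g).hd d) = h₀ z'} =
          {d | d ∈ S ∧ (mLS L hA g).hd d = z'} := by
        ext d
        exact and_congr_right fun _ => g1.bij.1.eq_iff
      rw [w1, ← hMS (mLS L hA g).hd z', ← hMS (fun d => e' (d, κ))]
      have st := u1.star (x₀, κ) τ (h₀ z')
      rw [v1, g1.M] at st
      have w2 : {d | (mLS L hA g).tl d = x₀ ∧ (mLS L hA g).ty d = τ ∧
          (mLS L hA g).hd d = z'}.ncard = (mLS L hA g).M τ x₀ z' := rfl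
      rw [w2, ← st]
      refine Set.ncard_congr (fun d _ => ((d, κ) : MD L A P × k₀.Q)) ?_ ?_ ?_
      · rintro d ⟨c1, c2, c3⟩
        exact ⟨Prod.ext c1 rfl, c2, c3⟩
      · rintro d d' _ _ c3
        exact congrArg Prod.fst c3
      · rintro ⟨d, q'⟩ ⟨c1, c2, c3⟩
        have c4 : (mLS L hA g).tl d = x₀ := congrArg Prod.fst c1
        have c5 : q' = κ := congrArg Prod.snd c1
        subst c5
        exact ⟨d, ⟨c4, c2, c3⟩, rfl⟩
    have c1 := lnm_cnt (F := fun d => e' (d, κ)) (G := fun d => h₀ ((mLS L hA g).hd d)) hF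
      (fun z => Cut (mLS L hA g) 3 (h₀ x₀) {z})
    have c0 : ∀ z, Cut (mLS L hA g) 3 (h₀ x₀) {h₀ z} ↔ Cut (mLS L hA g) 3 x₀ {z} :=
      fun z => lnm_iff g1
    rw [hsplit (fun d => Cut (mLS L hA g) 3 (h₀ x₀) {e' (d, κ)}),
      hsplit (fun d => Cut (mLS L hA g) 3 (h₀ x₀) {h₀ ((mLS L hA g).hd d)})] at c1
    rw [v3, if_pos ((c0 _).mpr hs1)] at c1
    have c2 : {i | Cut (mLS L hA g) 3 (h₀ x₀) {e' (dd i, κ)}}.ncard =
        {i | Cut (mLS L hA g) 3 (h₀ x₀) {h₀ ((mLS L hA g).hd (dd i))}}.ncard := by omega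
    have c3 : {i | Cut (mLS L hA g) 3 (h₀ x₀) {h₀ ((mLS L hA g).hd (dd i))}} =
        {i | AA (L.hd (dl i))} := by
      ext i
      change Cut (mLS L hA g) 3 (h₀ x₀) {h₀ ((mLS L hA g).hd (dd i))} ↔ AA (L.hd (dl i))
      rw [c0, hdl, hAd _ (hdd i).1.1 (hdd i).1.2]
    rw [c3, hr] at c2
    rw [← c2]
    congr 1
    ext i
    change lnmSv hA g τ (f (L.tl (dl i), q1), e (dl i, q1)) ↔
      Cut (mLS L hA g) 3 (h₀ x₀) {e' (dd i, κ)}
    refine lnm_sv hA g (β := (h₀ x₀, e' (dd i, κ))) ⟨?_, ?_⟩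
    · refine Prod.ext ?_ ?_
      · change (h₀ x₀).1.1 = f (L.tl (dl i), q1)
        rw [hlt i, g2]
      · change (h₀ x₀).1.2 = τ.1.2
        rw [lnm_side hA g g1, hxc]
    · change (e' (dd i, κ)).1 = (e (dl i, q1), g.g τ.1.1 τ.1.2)
      rw [v2 _ (hdd i).1.1, ← hdl, hly, hxc]
  have s_cp : ∀ y : Fin m → V, (∀ z, {i | y i = z}.ncard = Nv z) →
      ∃ f e, EL (sigKt KK).net ∅ f e ∧
        ∀ i, evt (sigKt KK).net f e (dl i, q1) = (x₀.1.1, y i) := by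
    intro y hy
    have y1 : ∀ i, Function.extend dl y L.hd (dl i) = y i := fun i => hli.extend_apply _ _ i
    have y2 : Function.extend dl y L.hd d₁.1.1 = L.hd d₁.1.1 := by
      rw [Function.extend_apply']
      rintro ⟨i, hi⟩
      exact hln i hi
    have hY : ∀ t z, {d | L.tl d = L.tl d₁.1.1 ∧ L.ty d = t ∧
        Function.extend dl y L.hd d = z}.ncard = L.M t (L.tl d₁.1.1) z := by
      intro t z
      rw [(htl d₁ ht1).1]
      by_cases htt : t = τ.1.1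
      · subst htt
        rw [hMSL, hsplitL (fun d => Function.extend dl y L.hd d = z), y2, hMN, ← hy]
        simp only [y1]
      · unfold LS.M
        congr 1
        ext d
        have c1 : L.ty d = t → Function.extend dl y L.hd d = L.hd d := by
          intro c1
          rw [Function.extend_apply']
          rintro ⟨i, hi⟩
          apply htt
          rw [← c1, ← hi]
          exact hly i
        constructor
        · rintro ⟨c2, c3, c4⟩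
          exact ⟨c2, c3, by rw [← c1 c3]; exact c4⟩
        · rintro ⟨c2, c3, c4⟩
          exact ⟨c2, c3, by rw [c1 c3]; exact c4⟩
    obtain ⟨f, e, c1, c2, c3⟩ := hpin.cp _ hY y2
    obtain ⟨f', e', c4, c5, c6⟩ := lnm_part KK (Sum.inl true) c1
    refine ⟨f', e', c4, fun i => ?_⟩
    have c7 : L.tl (dl i) = L.tl d₁.1.1 := (hlt i).trans (htl d₁ ht1).1.symm
    have c8 : f' (L.tl (dl i), q1) = x₀.1.1 := by
      have c9 := c5 (L.tl (dl i), ι (d₁.1.2, κ))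
      rw [c7] at c9
      rw [c7, ← (htl d₁ ht1).1]
      exact c9.trans c2
    have c9 : e' (dl i, q1) = y i := by
      have c10 := c6 (dl i, ι (d₁.1.2, κ))
      rw [← y1 i, ← c3 (dl i) c7]
      exact c10
    change (f' (L.tl (dl i), q1), e' (dl i, q1)) = (x₀.1.1, y i)
    rw [c8, c9]
  have h14 : d₄ ≠ d₁ := by
    rintro rfl
    exact hs4 hs1
  obtain ⟨i₁, hi₁⟩ := hdr d₂ ht2 hy2 h12.symm
  obtain ⟨i₂, hi₂⟩ := hdr d₃ ht3 hy3 h13.symm
  obtain ⟨i₃, hi₃⟩ := hdr d₄ ht4 hy4 h14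
  have hi12 : i₁ ≠ i₂ := by
    rintro rfl
    exact h23 (hi₁.symm.trans hi₂)
  have s_nrev : ∀ i j, ((dl i, q1) : D × (sigKt KK).Q) ≠ (sigKt KK).net.rv (dl j, q1) := by
    intro i j e1
    have e2 : ((dl i, q1) : D × (sigKt KK).Q) =
      (L.rv (dl j), ⟨Sum.inl true, k₁.R (dl j) (ι (d₁.1.2, κ))⟩) := e1
    obtain ⟨e3, e4⟩ := Prod.mk.inj e2
    have e5 : ι (d₁.1.2, κ) = k₁.R (dl j) (ι (d₁.1.2, κ)) := eq_of_heq (Sigma.mk.inj e4).2
    have e6 : L.hd (dl j) = x₀.1.1 := by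
      rw [← hlt i, e3]
      rfl
    -- all ends are the same
    have e7 : ∀ j', L.hd (dl j') = x₀.1.1 := by
      intro j'
      have y2 : L.hd (Equiv.swap (dl j) (dl j') d₁.1.1) = L.hd d₁.1.1 := by
        rw [Equiv.swap_apply_of_ne_of_ne (hln j).symm (hln j').symm]
      have hsw : ∀ d, L.tl (Equiv.swap (dl j) (dl j') d) = L.tl d ∧
          L.ty (Equiv.swap (dl j) (dl j') d) = L.ty d := by
        intro d
        by_cases a1 : d = dl j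
        · subst a1
          rw [Equiv.swap_apply_left, hlt, hlt, hly, hly]
          exact ⟨rfl, rfl⟩
        · by_cases a2 : d = dl j'
          · subst a2
            rw [Equiv.swap_apply_right, hlt, hlt, hly, hly]
            exact ⟨rfl, rfl⟩
          · rw [Equiv.swap_apply_of_ne_of_ne a1 a2]
            exact ⟨rfl, rfl⟩
      have hY : ∀ t z, {d | L.tl d = L.tl d₁.1.1 ∧ L.ty d = t ∧
          L.hd (Equiv.swap (dl j) (dl j') d) = z}.ncard = L.M t (L.tl d₁.1.1) z := by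
        intro t z
        unfold LS.M
        refine Set.ncard_congr (fun d _ => Equiv.swap (dl j) (dl j') d) ?_ ?_ ?_
        · rintro d ⟨c1, c2, c3⟩
          exact ⟨(hsw d).1.trans c1, (hsw d).2.trans c2, c3⟩
        · rintro d d' _ _ c1
          exact (Equiv.swap (dl j) (dl j')).injective c1
        · rintro d ⟨c1, c2, c3⟩
          refine ⟨Equiv.swap (dl j) (dl j') d, ⟨(hsw d).1.trans c1, (hsw d).2.trans c2, ?_⟩, ?_⟩
          · rw [Equiv.swap_apply_self]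
            exact c3
          · exact Equiv.swap_apply_self _ _ _
      obtain ⟨f, e, c1, c2, c3⟩ := hpin.cp (fun d => L.hd (Equiv.swap (dl j) (dl j') d)) hY y2
      have c4 := c3 (dl j) ((hlt j).trans (htl d₁ ht1).1.symm)
      have c5 := c1.unc (dl j, ι (d₁.1.2, κ)) (Set.notMem_empty _) (Set.notMem_empty _)
      have c6 : k₁.net.hd (dl j, ι (d₁.1.2, κ)) = (L.tl d₁.1.1, ι (d₁.1.2, κ)) := by
        change (L.tl (L.rv (dl j)), k₁.R (dl j) (ι (d₁.1.2, κ))) = _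
        rw [← e5, ← e3, hlt, (htl d₁ ht1).1]
      rw [c6, c2, c4] at c5
      have c7 : Equiv.swap (dl j) (dl j') (dl j) = dl j' := Equiv.swap_apply_left _ _
      rw [c7] at c5
      rw [c5, (htl d₁ ht1).1]
    apply hs4
    have e8 : (mLS L hA g).hd d₄ = (mLS L hA g).hd d₂ := by
      apply Subtype.ext
      rw [m_hd, m_hd]
      change (L.hd d₄.1.1, g.g (L.ty d₄.1.1) d₄.1.2) = (L.hd d₂.1.1, g.g (L.ty d₂.1.1) d₂.1.2)
      have a1 := e7 i₁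
      have a2 := e7 i₃
      rw [hdl, hi₁] at a1
      rw [hdl, hi₃] at a2
      rw [a1, a2, hty d₄ hy4, hty d₂ hy2, (htl d₄ ht4).2, (htl d₂ ht2).2]
    rw [e8]
    exact hs2
  -- the ties
  have hBi : ∀ δ : MD L A P × k₀'.Q, ((δ.1.1.1, ⟨Sum.inl false, ι' (δ.1.1.2, δ.2)⟩) :
      D × (sigKt KK).Q) = ((inD hA g ι' δ).1, ⟨Sum.inl false, (inD hA g ι' δ).2⟩) :=
    fun _ => rfl
  have hIinj : ∀ δ δ' : D × k₂.Q, ((δ.1, (⟨Sum.inl false, δ.2⟩ : Σ i, (KK i).Q)) :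
      D × (sigKt KK).Q) = (δ'.1, ⟨Sum.inl false, δ'.2⟩) → δ = δ' := by
    rintro ⟨d, p⟩ ⟨d', p'⟩ e1
    obtain ⟨e2, e3⟩ := Prod.mk.inj e1
    have e4 : p = p' := eq_of_heq (Sigma.mk.inj e3).2
    have e2' : d = d' := e2
    rw [e2', e4]
  have hIne : inD hA g ι' b1 ≠ inD hA g ι' b2 := by
    intro e1
    obtain ⟨e2, e3⟩ := Prod.mk.inj (show (b1.1.1.1, ι' (b1.1.1.2, b1.2)) =
      (b2.1.1.1, ι' (b2.1.1.2, b2.2)) from e1)
    have e4 : ((b1.1.1.2, b1.2) : P × k₀'.Q) = (b2.1.1.2, b2.2) := hb.mn.inj e3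
    obtain ⟨e5, e6⟩ := Prod.mk.inj e4
    exact hb.ne (Prod.ext (Subtype.ext (Prod.ext e2 e5)) e6)
  have hBne : B1 ≠ B2 := fun e1 => hIne (hIinj _ _ e1)
  have hBnr : B1 ≠ (sigKt KK).net.rv B2 := fun e1 =>
    hb.nrevk (hIinj _ (k₂.net.rv (inD hA g ι' b2)) e1)
  have hty1 : L.ty B1.1 = τ.1.1 := hty' b1.1 hb.ty1
  have hty2 : L.ty B2.1 = ζ.1.1 := by
    have e1 := hb.ty2
    rw [← e1]
    rfl
  -- restriction of a labelling to the main part of `k₂`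
  have b_res : ∀ (C : Set (MD L A P × k₀'.Q)) f e, C ⊆ {b1, b2} →
      EL (sigKt KK).net ((fun δ : MD L A P × k₀'.Q => ((δ.1.1.1,
        ⟨Sum.inl false, ι' (δ.1.1.2, δ.2)⟩) : D × (sigKt KK).Q)) '' C) f e →
      EL k₂.net (inD hA g ι' '' C) (fun w => f (w.1, ⟨Sum.inl false, w.2⟩))
        (fun δ => e (δ.1, ⟨Sum.inl false, δ.2⟩)) ∧
      EL (dnKt hA g k₀').net (dnD hA g '' C) (fun w => f (w.1, ⟨Sum.inl false, ι' w.2⟩))
        (fun δ => e (δ.1, ⟨Sum.inl false, ι' δ.2⟩)) ∧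
      ∀ δ ∈ C, evh (sigKt KK).net f e (δ.1.1.1, ⟨Sum.inl false, ι' (δ.1.1.2, δ.2)⟩) =
        evh (dnKt hA g k₀').net (fun w => f (w.1, ⟨Sum.inl false, ι' w.2⟩))
          (fun δ => e (δ.1, ⟨Sum.inl false, ι' δ.2⟩)) (dnD hA g δ) := by
    intro C f e hC h
    have e1 : EL k₂.net (inD hA g ι' '' C) (fun w => f (w.1, ⟨Sum.inl false, w.2⟩))
        (fun δ => e (δ.1, ⟨Sum.inl false, δ.2⟩)) := by
      refine sumK_congr (sig_res h (Sum.inl false)) ?_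
      ext δ
      constructor
      · rintro ⟨δ', c1, c2⟩
        exact ⟨δ', c1, hIinj _ _ c2⟩
      · rintro ⟨δ', c1, c2⟩
        refine ⟨δ', c1, ?_⟩
        rw [← c2]
        rfl
    have e2 : ((fun δ : D × (dnKt hA g k₀').Q => ((δ.1, ι' δ.2) : D × k₂.Q)) ''
        (dnD hA g '' C)) = inD hA g ι' '' C := by
      ext δ
      constructor
      · rintro ⟨_, ⟨δ', c1, rfl⟩, rfl⟩
        exact ⟨δ', c1, rfl⟩
      · rintro ⟨δ', c1, rfl⟩
        exact ⟨_, ⟨δ', c1, rfl⟩, rfl⟩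
    obtain ⟨e3, e4⟩ := hb.mn.res (dnD hA g '' C) (by
      rintro _ ⟨δ, c1, rfl⟩
      rcases hC c1 with c2 | c2
      · exact Or.inl (congrArg (dnD hA g) c2)
      · exact Or.inr (congrArg (dnD hA g) c2)) _ _ (sumK_congr e1 e2.symm)
    refine ⟨e1, e3, ?_⟩
    intro δ hδ
    exact e4 (dnD hA g δ) ⟨δ, hδ, rfl⟩
  have b_sp1 : ∀ f e, EL (sigKt KK).net {B1} f e →
      (lnmSv hA g τ (evt (sigKt KK).net f e B1) ↔ lnmSv hA g τ (evh (sigKt KK).net f e B1)) ∧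
      lnmGt hA g τ ζ (evt (sigKt KK).net f e B1) ∧
      lnmGt hA g τ ζ (evh (sigKt KK).net f e B1) := by
    intro f e h
    obtain ⟨r1, r2, r3⟩ := b_res {b1} f e (fun _ h => Or.inl h) (by
      rw [Set.image_singleton]
      exact h)
    rw [Set.image_singleton] at r1
    have r2 : EL (dnKt hA g k₀').net {dnD hA g b1} _ _ := sumK_congr r2 Set.image_singleton
    obtain ⟨x, c1, c2⟩ := hb.gd1 _ _ r1
    have r5 := lnm_one hA g hc hl hb.ty1 hb.nb1 r2 c1 c2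
    have r6 : evt (sigKt KK).net f e B1 = evh (sigKt KK).net f e B1 :=
      Eq.trans r5.1 (r3 b1 rfl).symm
    rw [← r6]
    exact ⟨Iff.rfl, r5.2, r5.2⟩
  have b_sp2 : ∀ f e, EL (sigKt KK).net {B2} f e →
      (lnmSv hA g ζ (evt (sigKt KK).net f e B2) ↔ lnmSv hA g ζ (evh (sigKt KK).net f e B2)) ∧
      GzM hA g ζ (evt (sigKt KK).net f e B2) ∧ GzM hA g ζ (evh (sigKt KK).net f e B2) := by
    intro f e h
    obtain ⟨r1, r2, r3⟩ := b_res {b2} f e (fun _ h => Or.inr h) (by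
      rw [Set.image_singleton]
      exact h)
    rw [Set.image_singleton] at r1
    have r2 : EL (dnKt hA g k₀').net {dnD hA g b2} _ _ := sumK_congr r2 Set.image_singleton
    obtain ⟨x, c1, c2⟩ := hb.gd2 _ _ r1
    obtain ⟨f₂, hf₂⟩ : ∃ f₂ : V × (P × k₀'.Q) → V,
      f₂ = fun w => f (w.1, ⟨Sum.inl false, ι' w.2⟩) := ⟨_, rfl⟩
    obtain ⟨e₂, he₂⟩ : ∃ e₂ : D × (P × k₀'.Q) → V,
      e₂ = fun δ => e (δ.1, ⟨Sum.inl false, ι' δ.2⟩) := ⟨_, rfl⟩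
    have r3' : evh (sigKt KK).net f e B2 =
        evh (dnKt hA g k₀').net f₂ e₂ (dnD hA g b2) := by
      rw [hf₂, he₂]
      exact r3 b2 rfl
    have r2 : EL (dnKt hA g k₀').net {dnD hA g b2} f₂ e₂ := by
      rw [hf₂, he₂]
      exact r2
    have a1 : x.1.1 = f₂ (dnV hA g (k₀'.net.tl b1)) := by
      rw [hf₂]
      exact congrArg Prod.fst c2
    have a2 : b1.1.1.2 = τ.1.2 := by
      have e1 := hb.ty1
      rw [← e1]
      rfl
    have a3 : e₂ (dnD hA g b1) = f₂ (dnV hA g (k₀'.net.hd b2)) := by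
      have e1 := r2.unc (dnD hA g b1) (fun e1 => hb.ne (lnm_dinj hA g e1)) (fun e1 => by
        rw [dn_rv] at e1
        have e2 := lnm_dinj hA g (Set.mem_singleton_iff.mp e1)
        apply hb.nrev
        rw [← e2, k₀'.net.rv_rv])
      rw [dn_hd, hb.hd] at e1
      exact e1
    have a4 : Dt L τ.1.1 x.1.1 (f₂ (dnV hA g (k₀'.net.hd b2))) := by
      have e1 := (val_dt r2 (dnD hA g b1)).1
      have e2 : (dnKt hA g k₀').net.ty (dnD hA g b1) = τ.1.1 := hty1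
      rw [e2] at e1
      have e3 : (evt (dnKt hA g k₀').net f₂ e₂ (dnD hA g b1)).2 =
        f₂ (dnV hA g (k₀'.net.hd b2)) := a3
      rw [e3] at e1
      rw [a1]
      exact e1
    have a5 : f₂ (dnV hA g (k₀'.net.hd b2)) ∈ A := comp_dt hA a4 x.2
    have a6 : Dt (mLS L hA g) τ x ⟨(f₂ (dnV hA g (k₀'.net.hd b2)), g.g τ.1.1 τ.1.2), a5⟩ := by
      refine (m_dt hA g).mpr ⟨a4, ?_, rfl⟩
      rw [← a2]
      exact congrArg Prod.snd c2
    have a7 : Dt L ζ.1.1 (e₂ ((dnKt hA g k₀').net.rv (dnD hA g b2)))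
        (f₂ (dnV hA g (k₀'.net.hd b2))) := by
      have e1 := (val_dt r2 (dnD hA g b2)).2
      have e2 : (dnKt hA g k₀').net.ty (dnD hA g b2) = ζ.1.1 := hty2
      rw [e2] at e1
      have e3 : (evh (dnKt hA g k₀').net f₂ e₂ (dnD hA g b2)).2 =
          f₂ (dnV hA g (k₀'.net.hd b2)) := by
        change f₂ ((dnKt hA g k₀').net.hd (dnD hA g b2)) = _
        rw [dn_hd]
      rw [e3] at e1
      exact e1
    have a8 : e₂ ((dnKt hA g k₀').net.rv (dnD hA g b2)) ∈ A := comp_dt hA (dt_symm a7) a5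
    have a9 : Dt (mLS L hA g) ζ
        ⟨(e₂ ((dnKt hA g k₀').net.rv (dnD hA g b2)), ζ.1.2), a8⟩
        ⟨(f₂ (dnV hA g (k₀'.net.hd b2)), g.g τ.1.1 τ.1.2), a5⟩ :=
      (m_dt hA g).mpr ⟨a7, rfl, hgz.symm⟩
    have a10 : CutV (mLS L hA g) 2
        (⟨(e₂ ((dnKt hA g k₀').net.rv (dnD hA g b2)), ζ.1.2), a8⟩,
        ⟨(f₂ (dnV hA g (k₀'.net.hd b2)), g.g τ.1.1 τ.1.2), a5⟩) := c1.nz _ _ a6 a9
    have a11 : b2.1.1.2 = ζ.1.2 := by
      have e1 := hb.ty2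
      rw [← e1]
      rfl
    have a12 := one_dn' hA g hc hl hb.nb2 r2
      (x := ⟨(e₂ ((dnKt hA g k₀').net.rv (dnD hA g b2)), ζ.1.2), a8⟩)
      (y := ⟨(f₂ (dnV hA g (k₀'.net.hd b2)), g.g τ.1.1 τ.1.2), a5⟩)
      (by rw [a11]) (by
        have e1 : L.ty b2.1.1.1 = ζ.1.1 := hty2
        rw [e1, a11, hgz]) a10
    have a13 : evt (sigKt KK).net f e B2 = evh (sigKt KK).net f e B2 := by
      rw [r3', ← a12, hf₂, he₂]
      rfl
    have a14 : GzM hA g ζ (evh (sigKt KK).net f e B2) := by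
      refine ⟨_, _, ?_, ?_, a10⟩
      · rw [r3']
        rfl
      · rw [r3']
        change _ = (f₂ ((dnKt hA g k₀').net.hd (dnD hA g b2)), g.g ζ.1.1 ζ.1.2)
        rw [dn_hd, hgz]
    rw [a13]
    exact ⟨Iff.rfl, a14, a14⟩
  have b_tie : ∀ f e, EL (sigKt KK).net {B1, B2} f e →
      lnmGt hA g τ ζ (evt (sigKt KK).net f e B1) → lnmGt hA g τ ζ (evh (sigKt KK).net f e B1) →
      GzM hA g ζ (evt (sigKt KK).net f e B2) → GzM hA g ζ (evh (sigKt KK).net f e B2) →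
      (lnmSv hA g τ (evt (sigKt KK).net f e B1) ↔ lnmSv hA g τ (evh (sigKt KK).net f e B1)) ∧
      (lnmSv hA g ζ (evt (sigKt KK).net f e B2) ↔ lnmSv hA g τ (evt (sigKt KK).net f e B1)) ∧
      (lnmSv hA g ζ (evh (sigKt KK).net f e B2) ↔ lnmSv hA g τ (evh (sigKt KK).net f e B1)) := by
    intro f e h g1 g2 g3 g4
    obtain ⟨-, r2, r3⟩ := b_res {b1, b2} f e (fun _ h => h) (by
      rw [Set.image_pair]
      exact h)
    obtain ⟨f₂, hf₂⟩ : ∃ f₂ : V × (P × k₀'.Q) → V,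
      f₂ = fun w => f (w.1, ⟨Sum.inl false, ι' w.2⟩) := ⟨_, rfl⟩
    obtain ⟨e₂, he₂⟩ : ∃ e₂ : D × (P × k₀'.Q) → V,
      e₂ = fun δ => e (δ.1, ⟨Sum.inl false, ι' δ.2⟩) := ⟨_, rfl⟩
    have q1' : evt (sigKt KK).net f e B1 =
        evt (dnKt hA g k₀').net f₂ e₂ (dnD hA g b1) := by
      rw [hf₂, he₂]
      rfl
    have q2' : evt (sigKt KK).net f e B2 =
        evt (dnKt hA g k₀').net f₂ e₂ (dnD hA g b2) := by
      rw [hf₂, he₂]
      rfl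
    have q3' : evh (sigKt KK).net f e B1 =
        evh (dnKt hA g k₀').net f₂ e₂ (dnD hA g b1) := by
      rw [hf₂, he₂]
      exact r3 b1 (Or.inl rfl)
    have q4' : evh (sigKt KK).net f e B2 =
        evh (dnKt hA g k₀').net f₂ e₂ (dnD hA g b2) := by
      rw [hf₂, he₂]
      exact r3 b2 (Or.inr rfl)
    have r2' : EL (dnKt hA g k₀').net (dnD hA g '' {b1, b2}) f₂ e₂ := by
      rw [hf₂, he₂]
      exact r2
    rw [q1', q2', q3', q4']
    rw [q1'] at g1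
    rw [q3'] at g2
    rw [q2'] at g3
    rw [q4'] at g4
    obtain ⟨f', e', u1, u2, u3⟩ := m_up hA g r2'
    have u1' : EL k₀'.net {b1, b2} f' e' := by
      refine sumK_congr u1 ?_
      ext δ
      constructor
      · rintro ⟨δ', c1, c2⟩
        have c3 : δ' = δ := lnm_dinj hA g c2
        rw [← c3]
        exact c1
      · intro c1
        exact ⟨δ, c1, rfl⟩
    have m1 : f₂ (dnV hA g (k₀'.net.tl b1)) ∈ A := by
      obtain ⟨x', -, -, -, e1, -⟩ := g1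
      have e2 : x'.1.1 = f₂ (dnV hA g (k₀'.net.tl b1)) := e1
      rw [← e2]
      exact x'.2
    have m2 : f₂ (dnV hA g (k₀'.net.hd b1)) ∈ A := by
      obtain ⟨-, y', -, -, -, e1⟩ := g2
      have e2 : y'.1.1 = f₂ ((dnKt hA g k₀').net.hd (dnD hA g b1)) := e1
      rw [dn_hd] at e2
      rw [← e2]
      exact y'.2
    have m3 : f₂ (dnV hA g (k₀'.net.tl b2)) ∈ A := by
      obtain ⟨z', -, e1, -, -⟩ := g3
      have e2 : z'.1.1 = f₂ (dnV hA g (k₀'.net.tl b2)) := congrArg Prod.fst e1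
      rw [← e2]
      exact z'.2
    have m4 : f₂ (dnV hA g (k₀'.net.hd b2)) ∈ A := by
      rw [← hb.hd]
      exact m2
    obtain ⟨w1, w2⟩ := lnm_up hA g u2 u3 hb.ty1 m1 m2
    obtain ⟨w3, w4⟩ := lnm_up hA g u2 u3 hb.ty2 m3 m4
    rw [lnm_sv hA g w1, lnm_sv hA g w2, lnm_sv hA g w3, lnm_sv hA g w4]
    have p1 := lnm_gt hA g w1 g1
    have p2 := lnm_gt hA g w2 g2
    have p3 := lnm_gz hA g w3 g3
    have p4 := lnm_gz hA g w4 g4
    have htt : (mLS L hA g).ty b1.1 ≠ (mLS L hA g).ty b2.1 := by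
      rw [hb.ty1, hb.ty2]
      exact h1
    have htt' : (mLS L hA g).ty b1.1 ≠ (mLS L hA g).bar ((mLS L hA g).ty b2.1) := by
      rw [hb.ty1, hb.ty2]
      exact h2
    have c5 : Dt (mLS L hA g) ζ (evh k₀'.net f' e' b2).1 (evh k₀'.net f' e' b2).2 := by
      have e1 := (val_dt u1' b2).2
      have e2 : k₀'.net.ty b2 = ζ := hb.ty2
      rw [e2] at e1
      exact e1
    have c6 : (evh k₀'.net f' e' b2).2 = (evh k₀'.net f' e' b1).2 := by
      change f' (k₀'.net.hd b2) = f' (k₀'.net.hd b1)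
      rw [hb.hd]
    have c7 : CutV (mLS L hA g) 3 (evh k₀'.net f' e' b1) ↔
        CutV (mLS L hA g) 3 (evh k₀'.net f' e' b2) := by
      rw [c6] at c5
      have c8 := p2.1.eq _ _ p2.2 c5
      unfold CutV
      rw [c6]
      exact c8
    rcases two_val hc hl hb.ne hb.nrev htt htt' u1' (p1.1.nb _ p1.2) p3 (p2.1.nb _ p2.2) p4 with
      ⟨e1, e2⟩ | ⟨e1, e2, e3, e4⟩
    · rw [e1, e2]
      exact ⟨Iff.rfl, c7.symm, c7.symm⟩
    · exact ⟨iff_of_false e1 e3, iff_of_false e2 e1, iff_of_false e4 e3⟩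
  have b_cp : ∀ y, 0 < Nv y → ∃ f e, EL (sigKt KK).net ∅ f e ∧
      evt (sigKt KK).net f e B1 = (x₀.1.1, y) ∧
      evt (sigKt KK).net f e B2 = ((zu y).1.1, y) := by
    intro y hy
    obtain ⟨e1, e2, e3⟩ := hyz y (hND y hy)
    obtain ⟨f, e, v1, v2, v3⟩ := hb.cp (yu y) (zu y) e2 e3 (fun e1 => absurd e1.symm h1)
    have e4 : (yu y).1.1 = y := congrArg Prod.fst e1
    rw [e4] at v2 v3
    obtain ⟨f', e', v4, v5, v6⟩ := lnm_part KK (Sum.inl false) v1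
    refine ⟨f', e', v4, ?_, ?_⟩
    · rw [← v2]
      exact Prod.ext (v5 (k₂.net.tl (inD hA g ι' b1))) (v6 (inD hA g ι' b1))
    · rw [← v3]
      exact Prod.ext (v5 (k₂.net.tl (inD hA g ι' b2))) (v6 (inD hA g ι' b2))
  have r_sp : ∀ y, AA y → 0 < Nv y → ∀ f e, EL (sigKt KK).net {((dy y).1.1, qr y)} f e →
      (lnmSv hA g ζ (evt (sigKt KK).net f e ((dy y).1.1, qr y)) ∧
        lnmSv hA g ζ (evh (sigKt KK).net f e ((dy y).1.1, qr y))) ∧
      GzM hA g ζ (evt (sigKt KK).net f e ((dy y).1.1, qr y)) ∧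
        GzM hA g ζ (evh (sigKt KK).net f e ((dy y).1.1, qr y)) := by
    intro y e1 e2 f e h
    obtain ⟨a1, a2, a3⟩ := hyz y (hND y e2)
    obtain ⟨c1, c2, c3, c4⟩ := hk y (hND y e2)
    obtain ⟨c5, h₀, hg, c6⟩ := c4 _ _ (lnm_res1 (κ := KK) (i := Sum.inr y) h)
    have c7 : evt (sigKt KK).net f e ((dy y).1.1, qr y) =
      ((h₀ ((mLS L hA g).tl (dy y))).1.1, (h₀ ((mLS L hA g).hd (dy y))).1.1) := c6
    have c8 : evt (sigKt KK).net f e ((dy y).1.1, qr y) =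
      evh (sigKt KK).net f e ((dy y).1.1, qr y) := c5
    rw [c1, c2] at c7
    have s1 : (h₀ (zu y)).1 = ((h₀ (zu y)).1.1, ζ.1.2) := by
      refine Prod.ext rfl ?_
      rw [lnm_side hA g hg]
      exact ((m_dt hA g).mp a3).2.1
    have s2 : (h₀ (yu y)).1 = ((h₀ (yu y)).1.1, g.g ζ.1.1 ζ.1.2) := by
      refine Prod.ext rfl ?_
      have a1' : (yu y).1.2 = g.g τ.1.1 τ.1.2 := by rw [a1]
      rw [lnm_side hA g hg, hgz]
      exact a1'
    have hcut : Cut (mLS L hA g) 3 x₀ {yu y} := by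
      obtain ⟨y', b1', b2'⟩ := (hAA y).mp e1
      have b3' : y' = yu y := Subtype.ext (b1'.trans a1.symm)
      rw [← b3']
      exact b2'
    have c9 : lnmSv hA g ζ (evt (sigKt KK).net f e ((dy y).1.1, qr y)) := by
      rw [c7]
      exact ⟨h₀ (zu y), h₀ (yu y), s1, s2, (lnm_iff hg).mpr ((hx.eq _ _ a2 a3).mp hcut)⟩
    have c10 : GzM hA g ζ (evt (sigKt KK).net f e ((dy y).1.1, qr y)) := by
      rw [c7]
      exact ⟨h₀ (zu y), h₀ (yu y), s1, s2, (lnm_iff hg).mpr (hx.nz _ _ a2 a3)⟩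
    rw [← c8]
    exact ⟨⟨c9, c9⟩, c10, c10⟩
  have r_cp : ∀ y, AA y → 0 < Nv y → ∃ f e, EL (sigKt KK).net ∅ f e ∧
      evt (sigKt KK).net f e ((dy y).1.1, qr y) = ((zu y).1.1, y) := by
    intro y e1 e2
    obtain ⟨a1, -, -⟩ := hyz y (hND y e2)
    obtain ⟨c1, c2, -, -⟩ := hk y (hND y e2)
    refine ⟨_, _, proj_el (sigKt KK), ?_⟩
    change (((mLS L hA g).tl (dy y)).1.1, ((mLS L hA g).hd (dy y)).1.1) = ((zu y).1.1, y)
    rw [c1, c2]
    exact Prod.ext rfl (congrArg Prod.fst a1)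
  have hties : TiesS (sigKt KK) τ.1.1 ζ.1.1 m r x₀.1.1 Nv (fun y => (zu y).1.1) AA
      (lnmSv hA g τ) (lnmSv hA g ζ) (lnmGt hA g τ ζ) (GzM hA g ζ) :=
    { sd := fun i => (dl i, q1)
      s_inj := fun i j h => hli (congrArg Prod.fst h)
      s_ty := fun i => hly i
      s_nrev := s_nrev
      s_sp := s_sp
      s_cnt := s_cnt
      s_cp := s_cp
      b1 := B1
      b2 := B2
      b_ty1 := hty1
      b_ty2 := hty2
      b_ne := hBne
      b_nrev := hBnr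
      b_sp1 := b_sp1
      b_sp2 := b_sp2
      b_tie := b_tie
      b_cp := b_cp
      rd := fun y => ((dy y).1.1, qr y)
      r_ty := fun y e1 e2 => by
        have e3 := (hk y (hND y e2)).2.2.1
        change L.ty (dy y).1.1 = ζ.1.1
        rw [← e3]
        rfl
      r_sp := r_sp
      r_cp := r_cp }
  have hAi : ∀ i, AA (L.hd (dl i)) ↔ Cut (mLS L hA g) 3 x₀ {(mLS L hA g).hd (dd i)} := by
    intro i
    rw [hdl]
    exact hAd _ (hdd i).1.1 (hdd i).1.2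
  exact ⟨sigKt KK, hp_sts hties (y₀ := fun i => L.hd (dl i)) (fun z => (hNv z).symm) hr hi12
    (by
      rw [hdl, hdl, hi₁, hi₂]
      exact congrArg (fun x : MV A P => x.1.1) hh) (by
      rw [hAi, hi₁]
      exact hs2) (i₃ := i₃) (by
      rw [hAi, hi₃]
      exact hs4)⟩

end Pool.Agent.H24.GK
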