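import Pool.Agent.H24.GK.RingP
import Pool.Agent.H24.GI.Pen

/-!
# JOB GK-16: hardness at a vertex with a pendant, several components

The proof of `pen_hpat` (file `Pool.Agent.H24.GI.Pen`) with the following changes (`L` need not be connected and may have loops). The
facts (S), (P) do not use that `L` is connected. `exists_ring` and `exists_pin` were used only for darts `d` of type `τ` from `y₀` to some
`y` with `supp L (bar τ) y ≤ 1` (so `M τ y₀ y ≥ 3`); use `hR` instead, with the kit `swKt k₀ k' d₁ (κ y₀) q'` for the pinned star (as in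
`exists_pin`, with `k', q'` from `hR`; `(d, κ y₀) ≠ rv (d₁, κ y₀)` for darts `d` of type `τ`, as `τ ≠ bar τ`; so use the pinned star only for
sets `C` of darts of type `τ`). The automorphism `g` is one of `L`.
-/

namespace Pool.Agent.H24.GK

open Pool.Agent.H24.GG Pool.Agent.H24.GH Pool.Agent.H24.GI

variable {V D T K : Type} {L : LS V D T K}


section

variable [Finite V] [Finite D] [Finite T]

omit [Finite V] [Finite T] in
private theorem penl_M {τ : T} {x y : V} (hs : supp L (L.bar τ) x ≤ 1) (hd : Dt L τ y x) :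
    L.M τ y x = L.num (L.bar τ) := by
  rw [← M_bar L τ y x]
  exact supp_one hs (dt_symm hd)

omit [Finite V] [Finite D] [Finite T] in
private theorem penl_nc {ι : Type} [Finite ι] {P Q : ι → Prop}
    (h : {i | P i}.ncard = {i | Q i}.ncard) {i : ι} (hi : P i) : ∃ j, Q j := by
  have h1 : 0 < {i | P i}.ncard := (Set.ncard_pos (Set.toFinite _)).mpr ⟨i, hi⟩
  rw [h] at h1
  exact Set.nonempty_of_ncard_ne_zero h1.ne'

omit [Finite V] [Finite T] in
open Classical in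
/-- counting the darts of a star -/
private theorem penl_split {S : Set D} {d₁ : D} (h1 : d₁ ∈ S) {m : ℕ} {dd : Fin m → D}
    (hi : Function.Injective dd) (hr : ∀ d, d ∈ S ↔ d = d₁ ∨ ∃ i, dd i = d)
    (hn : ∀ i, dd i ≠ d₁) (P : D → Prop) :
    {d | d ∈ S ∧ P d}.ncard = {i | P (dd i)}.ncard + if P d₁ then 1 else 0 := by
  have himg : (dd '' {i | P (dd i)}).ncard = {i | P (dd i)}.ncard :=
    Set.ncard_image_of_injective _ hi
  by_cases hP : P d₁
  · rw [if_pos hP, ← himg]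
    have h2 : {d | d ∈ S ∧ P d} = insert d₁ (dd '' {i | P (dd i)}) := by
      ext d
      constructor
      · rintro ⟨h3, h4⟩
        rcases (hr d).mp h3 with h5 | ⟨i, h5⟩
        · exact Or.inl h5
        · right
          refine ⟨i, ?_, h5⟩
          change P (dd i)
          rw [h5]
          exact h4
      · rintro (h3 | ⟨i, h3, h4⟩)
        · rw [h3]
          exact ⟨h1, hP⟩
        · refine ⟨(hr d).mpr (Or.inr ⟨i, h4⟩), ?_⟩
          rw [← h4]
          exact h3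
    rw [h2]
    refine Set.ncard_insert_of_notMem ?_ (Set.toFinite _)
    rintro ⟨i, -, h3⟩
    exact hn i h3
  · rw [if_neg hP, ← himg, add_zero]
    congr 1
    ext d
    constructor
    · rintro ⟨h3, h4⟩
      rcases (hr d).mp h3 with h5 | ⟨i, h5⟩
      · rw [h5] at h4
        exact absurd h4 hP
      · refine ⟨i, ?_, h5⟩
        change P (dd i)
        rw [h5]
        exact h4
    · rintro ⟨i, h3, h4⟩
      refine ⟨(hr d).mpr (Or.inr ⟨i, h4⟩), ?_⟩
      rw [← h4]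
      exact h3

omit [Finite T] in
open Classical in
/-- equal multiplicities give equal numbers for a property -/
private theorem penl_cnt {S : Set D} {F G : D → V}
    (h : ∀ z, {a | a ∈ S ∧ F a = z}.ncard = {a | a ∈ S ∧ G a = z}.ncard) (A : V → Prop) :
    {a | a ∈ S ∧ A (F a)}.ncard = {a | a ∈ S ∧ A (G a)}.ncard := by
  have := Fintype.ofFinite V
  have := Fintype.ofFinite D
  have key : ∀ F : D → V, {a | a ∈ S ∧ A (F a)}.ncard =
      ∑ z : V, if A z then {a | a ∈ S ∧ F a = z}.ncard else 0 := by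
    intro F
    have h1 : {a | a ∈ S ∧ A (F a)}.ncard = (Finset.univ.filter fun a => a ∈ S ∧ A (F a)).card := by
      rw [← Set.ncard_coe_finset]
      congr 1
      ext a
      simp
    rw [h1, Finset.card_eq_sum_card_fiberwise (f := F) (t := Finset.univ)
      (fun d _ => Finset.mem_coe.mpr (Finset.mem_univ _))]
    refine Finset.sum_congr rfl fun z _ => ?_
    by_cases hz : A z
    · rw [if_pos hz, ← Set.ncard_coe_finset]
      congr 1
      ext a
      simp only [Finset.coe_filter, Finset.mem_filter, Finset.mem_univ, true_and]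
      constructor
      · rintro ⟨⟨h2, -⟩, h3⟩
        exact ⟨h2, h3⟩
      · rintro ⟨h2, h3⟩
        have h4 : F a = z := h3
        exact ⟨⟨h2, by rw [h4]; exact hz⟩, h3⟩
    · rw [if_neg hz, Finset.card_eq_zero, Finset.filter_eq_empty_iff]
      intro a ha h2
      apply hz
      rw [← h2]
      exact (Finset.mem_filter.mp ha).2.2
  rw [key F, key G]
  refine Finset.sum_congr rfl fun z _ => ?_
  rw [h z]

omit [Finite V] [Finite D] [Finite T] in
/-- a labelling of one part gives a labelling of the union -/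
private theorem penl_part {ι : Type} [Finite ι] (κ : ι → Kt L) (i₀ : ι) {f₀ : V × (κ i₀).Q → V}
    {e₀ : D × (κ i₀).Q → V} (h : EL (κ i₀).net ∅ f₀ e₀) :
    ∃ f e, EL (sigKt κ).net ∅ f e ∧ (∀ w : V × (κ i₀).Q, f (w.1, ⟨i₀, w.2⟩) = f₀ w) ∧
      ∀ δ : D × (κ i₀).Q, e (δ.1, ⟨i₀, δ.2⟩) = e₀ δ := by
  classical
  have hex : ∀ i, ∃ p : (V × (κ i).Q → V) × (D × (κ i).Q → V), EL (κ i).net ∅ p.1 p.2 ∧
      ∀ hi : i₀ = i, p = hi ▸ (f₀, e₀) := by
    intro i
    by_cases hi : i₀ = i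
    · subst hi
      exact ⟨(f₀, e₀), h, fun _ => rfl⟩
    · exact ⟨(fun w => w.1, fun δ => L.hd δ.1), proj_el (κ i), fun hi' => absurd hi' hi⟩
  choose p hp1 hp2 using hex
  refine ⟨_, _, sig_glue (f := fun i => (p i).1) (e := fun i => (p i).2) hp1, ?_, ?_⟩
  · rintro ⟨x, q⟩
    have h1 := hp2 i₀ rfl
    change (p i₀).1 (x, q) = f₀ (x, q)
    rw [h1]
  · rintro ⟨d, q⟩
    have h1 := hp2 i₀ rfl
    change (p i₀).2 (d, q) = e₀ (d, q)
    rw [h1]


omit [Finite V] [Finite D] [Finite T] in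
/-- the restriction of a labelling which is cut at one dart -/
private theorem penl_res1 {ι : Type} [Finite ι] {κ : ι → Kt L} {i : ι} {d : D} {q : (κ i).Q}
    {f : V × (Σ i, (κ i).Q) → V} {e : D × (Σ i, (κ i).Q) → V}
    (h : EL (sigKt κ).net {(d, ⟨i, q⟩)} f e) :
    EL (κ i).net {(d, q)} (fun w => f (w.1, ⟨i, w.2⟩)) (fun δ => e (δ.1, ⟨i, δ.2⟩)) := by
  refine sumK_congr (sig_res h i) ?_
  ext ⟨d', q'⟩
  constructor
  · intro h1
    have h2 : ((d', ⟨i, q'⟩) : D × (Σ i, (κ i).Q)) = (d, ⟨i, q⟩) := h1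
    have h3 : d' = d := congrArg Prod.fst h2
    have h4 : (⟨i, q'⟩ : Σ i, (κ i).Q) = ⟨i, q⟩ := congrArg Prod.snd h2
    have h5 : q' = q := eq_of_heq (Sigma.mk.inj h4).2
    rw [h3, h5]
    rfl
  · intro h1
    have h2 : ((d', q') : D × (κ i).Q) = (d, q) := h1
    have h3 : d' = d := congrArg Prod.fst h2
    have h4 : q' = q := congrArg Prod.snd h2
    rw [h3, h4]
    rfl

/-- the pinned star of `exists_pin`, with the ring of a component; only for darts of the type of `d₁` -/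
private theorem penl_pin {A : Set V} {d₁ : D} (ht : L.ty d₁ ≠ L.bar (L.ty d₁))
    (hR : RingP L A d₁) :
    ∃ (k : Kt L) (q : k.Q), (∀ C : Set D, (∀ d ∈ C, L.ty d = L.ty d₁ ∧ d ≠ d₁) →
      ∀ f e, EL k.net {δ | δ.1 ∈ C ∧ δ.2 = q} f e →
        ∃ g, Aut L g ∧ f (L.tl d₁, q) = g (L.tl d₁) ∧ e (d₁, q) = g (L.hd d₁)) ∧
      ∀ y : D → V, (∀ t z, {d | L.tl d = L.tl d₁ ∧ L.ty d = t ∧ y d = z}.ncard =
        L.M t (L.tl d₁) z) → y d₁ = L.hd d₁ →
        ∃ f e, EL k.net ∅ f e ∧ f (L.tl d₁, q) = L.tl d₁ ∧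
          ∀ d, L.tl d = L.tl d₁ → e (d, q) = y d := by
  obtain ⟨k', q', hr⟩ := hR
  obtain ⟨k₀, sd, κ, -, -, hu⟩ := exists_ukit L
  refine ⟨swKt k₀ k' d₁ (κ (L.tl d₁)) q', Sum.inl (κ (L.tl d₁)), ?_, ?_⟩
  · intro C hC f e h
    have h3 := sw_guard h ?_ (P := fun α => ∃ g, Aut L g ∧ α = (g (L.tl d₁), g (L.hd d₁)))
      (fun f₂ e₂ h₂ => by
        obtain ⟨r1, g, r2, -, r3⟩ := hr f₂ e₂ h₂
        exact ⟨r1, g, r2, r3⟩)
    · obtain ⟨g, h4, h5⟩ := h3.2
      exact ⟨g, h4, congrArg Prod.fst h5, congrArg Prod.snd h5⟩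
    · rintro ⟨d, q⟩ ⟨h4, h5⟩
      have h4' : d ∈ C := h4
      have h5' : q = Sum.inl (κ (L.tl d₁)) := h5
      subst h5'
      refine ⟨(d, κ (L.tl d₁)), rfl, ?_, ?_⟩
      · intro h6
        exact (hC d h4').2 (congrArg Prod.fst h6)
      · intro h6
        have h7 : d = L.rv d₁ := congrArg Prod.fst h6
        have h8 := (hC d h4').1
        rw [h7, L.ty_rv] at h8
        exact ht h8.symm
  · intro y hy hy1
    obtain ⟨f₁, e₁, h3, h4, h5⟩ := ukit_star (hu (L.tl d₁)) (L.tl d₁) y rfl hy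
    have h6 : evt k₀.net f₁ e₁ (d₁, κ (L.tl d₁)) =
        evt k'.net (fun w => w.1) (fun δ => L.hd δ.1) (d₁, q') := by
      show (f₁ (L.tl d₁, κ (L.tl d₁)), e₁ (d₁, κ (L.tl d₁))) = (L.tl d₁, L.hd d₁)
      rw [h4, h5 d₁ rfl, hy1]
    refine ⟨_, _, sw_cov h3 (proj_el k') h6, ?_, ?_⟩
    · exact h4
    · intro d hd
      exact h5 d hd

end

theorem pen_hpatL [Finite V] [Finite D] [Finite T] {A : Set V} {τ : T}
    (hm : 3 ≤ L.num (L.bar τ)) {y₀ x₁ x₂ : V} (h1 : Dt L τ y₀ x₁)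
    (h1' : supp L (L.bar τ) x₁ ≤ 1) (h2 : Dt L τ y₀ x₂) (h2' : 2 ≤ supp L (L.bar τ) x₂)
    (hR : ∀ d, L.ty d = τ → L.tl d = y₀ → 3 ≤ L.M τ (L.tl d) (L.hd d) → RingP L A d) :
    ∃ k : Kt L, HPat k := by
  classical
  have hx12 : x₁ ≠ x₂ := by
    rintro rfl
    omega
  have hM1 : L.M τ y₀ x₁ = L.num (L.bar τ) := penl_M h1' h1
  have ht : τ ≠ L.bar τ := by
    intro ht
    have e1 := M_two (L := L) (τ := τ) (x := y₀) hx12
    have e2 := dt_iff.mp h2
    rw [hM1, ← ht] at e1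
    omega
  obtain ⟨d₁, a1, a2, a3⟩ := id h1
  obtain ⟨d₂, b1, b2, b3⟩ := id h2
  have hd12 : d₂ ≠ d₁ := by
    rintro rfl
    exact hx12 (a2.symm.trans b2)
  -- the darts of the star without `d₁`
  obtain ⟨m, hmc⟩ : ∃ m, Nat.card {d | (L.tl d = y₀ ∧ L.ty d = τ) ∧ d ≠ d₁} = m := ⟨_, rfl⟩
  obtain ⟨dd, hdd, hdi, hdr⟩ : ∃ dd : Fin m → D,
      (∀ i, (L.tl (dd i) = y₀ ∧ L.ty (dd i) = τ) ∧ dd i ≠ d₁) ∧ Function.Injective dd ∧
      ∀ d, L.tl d = y₀ → L.ty d = τ → d ≠ d₁ → ∃ i, dd i = d := by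
    let E := Finite.equivFinOfCardEq hmc
    refine ⟨fun i => (E.symm i).1, fun i => (E.symm i).2,
      fun i j hij => E.symm.injective (Subtype.ext hij), ?_⟩
    intro d e1 e2 e3
    refine ⟨E ⟨d, ⟨e1, e2⟩, e3⟩, ?_⟩
    change (E.symm (E ⟨d, ⟨e1, e2⟩, e3⟩)).1 = d
    rw [Equiv.symm_apply_apply]
  obtain ⟨S, hS⟩ : ∃ S : Set D, S = {d | L.tl d = y₀ ∧ L.ty d = τ} := ⟨_, rfl⟩
  have hSm : ∀ d, d ∈ S ↔ L.tl d = y₀ ∧ L.ty d = τ := by
    intro d
    rw [hS]
    rfl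
  have hd₁S : d₁ ∈ S := (hSm d₁).mpr ⟨a1, a3⟩
  have hSr : ∀ d, d ∈ S ↔ d = d₁ ∨ ∃ i, dd i = d := by
    intro d
    rw [hSm]
    constructor
    · rintro ⟨e1, e2⟩
      by_cases e3 : d = d₁
      · exact Or.inl e3
      · exact Or.inr (hdr d e1 e2 e3)
    · rintro (e1 | ⟨i, e1⟩)
      · rw [e1]
        exact ⟨a1, a3⟩
      · rw [← e1]
        exact (hdd i).1
  have hsplit : ∀ P : D → Prop, {d | d ∈ S ∧ P d}.ncard = {i | P (dd i)}.ncard +
      if P d₁ then 1 else 0 := fun P => penl_split hd₁S hdi hSr (fun i => (hdd i).2) P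
  have hMS : ∀ (F : D → V) (z : V), {d | L.tl d = y₀ ∧ L.ty d = τ ∧ F d = z}.ncard =
      {d | d ∈ S ∧ F d = z}.ncard := by
    intro F z
    congr 1
    ext d
    rw [hS]
    constructor
    · rintro ⟨e1, e2, e3⟩
      exact ⟨⟨e1, e2⟩, e3⟩
    · rintro ⟨⟨e1, e2⟩, e3⟩
      exact ⟨e1, e2, e3⟩
  obtain ⟨Nv, hNv⟩ : ∃ Nv : V → ℕ, ∀ z, Nv z = {i | L.hd (dd i) = z}.ncard := ⟨_, fun _ => rfl⟩
  have hMN : ∀ z, L.M τ y₀ z = Nv z + if x₁ = z then 1 else 0 := by
    intro z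
    have e1 : L.M τ y₀ z = {d | d ∈ S ∧ L.hd d = z}.ncard := hMS L.hd z
    rw [e1, hNv, hsplit (fun d => L.hd d = z)]
    simp only [a2]
  have hND : ∀ z, 0 < Nv z → Dt L τ y₀ z := by
    intro z hz
    rw [dt_iff, hMN]
    omega
  obtain ⟨Ap, hA⟩ : ∃ Ap : V → Prop, ∀ z, Ap z ↔ supp L (L.bar τ) z ≤ 1 := ⟨_, fun _ => Iff.rfl⟩
  obtain ⟨r, hr⟩ : ∃ r, {i | Ap (L.hd (dd i))}.ncard = r := ⟨_, rfl⟩
  have hAM : ∀ y, Ap y → Dt L τ y₀ y → 3 ≤ L.M τ y₀ y := by
    intro y e1 e2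
    rw [penl_M ((hA y).mp e1) e2]
    exact hm
  have hAx : Ap x₁ := (hA x₁).mpr h1'
  -- the other ends
  have hzt : ∀ y, ∃ z, 0 < Nv y → Dt L τ z y ∧ (z = y₀ → 2 ≤ L.M τ y₀ y) ∧ (Ap y → z = y₀) := by
    intro y
    by_cases hy : Ap y
    · exact ⟨y₀, fun e1 => ⟨hND y e1, fun _ => by have := hAM y hy (hND y e1); omega,
        fun _ => rfl⟩⟩
    · by_cases hN : 0 < Nv y
      · have e1 : 1 < {z | Dt L (L.bar τ) y z}.ncard := by
          by_contra e2
          exact hy ((hA y).mpr (by unfold supp; omega))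
        obtain ⟨z, e2, e3⟩ := Set.exists_ne_of_one_lt_ncard e1 y₀
        have e4 : Dt L (L.bar τ) y z := e2
        have e5 := dt_symm e4
        rw [L.bar_bar] at e5
        exact ⟨z, fun _ => ⟨e5, fun e6 => absurd e6 e3, fun e6 => absurd e6 hy⟩⟩
      · exact ⟨y₀, fun e1 => absurd e1 hN⟩
  choose zt hzt using hzt
  -- the parts
  have hcut : ∀ d, L.tl d = y₀ → L.ty d = τ → Ap (L.hd d) → RingP L A d := by
    intro d e1 e2 e3
    refine hR d e2 e1 ?_
    rw [e1]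
    exact hAM _ e3 ⟨d, e1, rfl, e2⟩
  obtain ⟨k₁, q, hp1, hp2⟩ := penl_pin (by rw [a3]; exact ht)
    (hcut d₁ a1 a3 (by rw [a2]; exact hAx))
  obtain ⟨k₀, -, κ, -, -, hU⟩ := exists_ukit L
  have hUs : UStar k₀ x₁ (κ x₁) := ukit_star (hU x₁)
  have hring : ∀ y, ∃ (k : Kt L) (q : k.Q) (d : D), Ap y → Dt L τ y₀ y → L.tl d = y₀ ∧ L.hd d = y ∧
      L.ty d = τ ∧ ∀ f e, EL k.net {(d, q)} f e →
        evt k.net f e (d, q) = evh k.net f e (d, q) ∧
        ∃ g, Aut L g ∧ evt k.net f e (d, q) = (g (L.tl d), g (L.hd d)) := by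
    intro y
    by_cases hy : Ap y ∧ Dt L τ y₀ y
    · obtain ⟨e1, d, e2, e3, e4⟩ := hy
      obtain ⟨k, q, hk⟩ := hcut d e2 e4 (by rw [e3]; exact e1)
      exact ⟨k, q, d, fun _ _ => ⟨e2, e3, e4, fun f e h => by
        obtain ⟨r1, g, r2, -, r3⟩ := hk f e h
        exact ⟨r1, g, r2, r3⟩⟩⟩
    · exact ⟨unitKt L, (), d₁, fun e1 e2 => absurd ⟨e1, e2⟩ hy⟩
  choose kk qq dy hk using hring
  let KK : Bool ⊕ V → Kt L := fun i => match i with
    | Sum.inl true => k₁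
    | Sum.inl false => k₀
    | Sum.inr y => kk y
  let q1 : (sigKt KK).Q := ⟨Sum.inl true, q⟩
  let q0 : (sigKt KK).Q := ⟨Sum.inl false, κ x₁⟩
  let qr : V → (sigKt KK).Q := fun y => ⟨Sum.inr y, qq y⟩
  -- the darts at `x₁`
  obtain ⟨da, db, hab, ⟨ta1, ta2⟩, tb1, tb2⟩ : ∃ da db : D, da ≠ db ∧
      (L.tl da = x₁ ∧ L.ty da = L.bar τ) ∧ L.tl db = x₁ ∧ L.ty db = L.bar τ := by
    have e1 : 1 < {d | L.tl d = x₁ ∧ L.ty d = L.bar τ}.ncard := by
      rw [L.num_eq x₁ (L.bar τ) (dt_cl h1).2]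
      omega
    obtain ⟨u, hu, w, hw, huw⟩ := (Set.one_lt_ncard_iff_nontrivial).1 e1
    exact ⟨u, w, huw, hu, hw⟩
  have hAg : ∀ g, Aut L g → ∀ z, Ap (g z) ↔ Ap z := by
    intro g hg z
    rw [hA, hA, aut_supp hg]
  -- the star
  have s_cnt : ∀ f e, EL (sigKt KK).net
      (Set.range fun i => ((dd i, q1) : D × (sigKt KK).Q)) f e →
      {i | Ap (evt (sigKt KK).net f e (dd i, q1)).2}.ncard = r := by
    intro f e h
    have e1 := sig_res h (Sum.inl true)
    have e2 : {δ : D × (KK (Sum.inl true)).Q | (δ.1, (⟨Sum.inl true, δ.2⟩ : (sigKt KK).Q)) ∈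
        (Set.range fun i => ((dd i, q1) : D × (sigKt KK).Q))} =
        {δ : D × k₁.Q | δ.1 ∈ Set.range dd ∧ δ.2 = q} := by
      ext ⟨d, q'⟩
      constructor
      · rintro ⟨i, hi⟩
        have h3 : dd i = d := congrArg Prod.fst hi
        have h4 : (⟨Sum.inl true, q⟩ : Σ i, (KK i).Q) = ⟨Sum.inl true, q'⟩ := congrArg Prod.snd hi
        have h5 : q = q' := eq_of_heq (Sigma.mk.inj h4).2
        exact ⟨⟨i, h3⟩, h5.symm⟩
      · rintro ⟨⟨i, hi⟩, h5⟩
        refine ⟨i, ?_⟩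
        change ((dd i, (⟨Sum.inl true, q⟩ : Σ i, (KK i).Q)) : D × (Σ i, (KK i).Q)) =
          (d, ⟨Sum.inl true, q'⟩)
        have h6 : dd i = d := hi
        have h7 : q' = q := h5
        rw [h6, h7]
    obtain ⟨g, hg, g1, g2⟩ := hp1 (Set.range dd)
      (by
        rintro _ ⟨i, rfl⟩
        exact ⟨(hdd i).1.2.trans a3.symm, (hdd i).2⟩) _ _ (sumK_congr e1 e2)
    rw [a1] at g1
    rw [a2] at g2
    have g1' : f (y₀, q1) = g y₀ := g1
    have g2' : e (d₁, q1) = g x₁ := g2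
    have hF : ∀ z, {d | d ∈ S ∧ e (d, q1) = z}.ncard = {d | d ∈ S ∧ g (L.hd d) = z}.ncard := by
      intro z
      obtain ⟨z', rfl⟩ := hg.bij.2 z
      have r1 : {d | d ∈ S ∧ g (L.hd d) = g z'} = {d | d ∈ S ∧ L.hd d = z'} := by
        ext d
        exact and_congr_right fun _ => hg.bij.1.eq_iff
      rw [r1, ← hMS L.hd z', ← hMS (fun d => e (d, q1))]
      have st := h.star (y₀, q1) τ (g z')
      rw [g1', hg.M] at st
      have r2 : {d | L.tl d = y₀ ∧ L.ty d = τ ∧ L.hd d = z'}.ncard = L.M τ y₀ z' := rfl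
      rw [r2, ← st]
      refine Set.ncard_congr (fun d _ => ((d, q1) : D × (sigKt KK).Q)) ?_ ?_ ?_
      · rintro d ⟨c1, c2, c3⟩
        refine ⟨?_, c2, c3⟩
        change (L.tl d, q1) = (y₀, q1)
        rw [c1]
      · rintro d d' _ _ c3
        exact congrArg Prod.fst c3
      · rintro ⟨d, q'⟩ ⟨c1, c2, c3⟩
        have c4 : L.tl d = y₀ := congrArg Prod.fst c1
        have c5 : q' = q1 := congrArg Prod.snd c1
        subst c5
        exact ⟨d, ⟨c4, c2, c3⟩, rfl⟩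
    have c1 := penl_cnt (F := fun d => e (d, q1)) (G := fun d => g (L.hd d)) hF Ap
    rw [hsplit (fun d => Ap (e (d, q1))), hsplit (fun d => Ap (g (L.hd d)))] at c1
    rw [g2', a2, if_pos ((hAg g hg x₁).mpr hAx)] at c1
    have c2 : {i | Ap (e (dd i, q1))}.ncard = {i | Ap (g (L.hd (dd i)))}.ncard := by omega
    have c3 : {i | Ap (g (L.hd (dd i)))} = {i | Ap (L.hd (dd i))} := by
      ext i
      exact hAg g hg _
    rw [c3, hr] at c2
    exact c2
  have s_cp : ∀ y : Fin m → V, (∀ z, {i | y i = z}.ncard = Nv z) →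
      ∃ f e, EL (sigKt KK).net ∅ f e ∧
        ∀ i, evt (sigKt KK).net f e (dd i, q1) = (y₀, y i) := by
    intro y hy
    have y1 : ∀ i, Function.extend dd y L.hd (dd i) = y i := fun i => hdi.extend_apply _ _ i
    have y2 : Function.extend dd y L.hd d₁ = L.hd d₁ := by
      rw [Function.extend_apply']
      rintro ⟨i, hi⟩
      exact (hdd i).2 hi
    have hY : ∀ t z, {d | L.tl d = L.tl d₁ ∧ L.ty d = t ∧
        Function.extend dd y L.hd d = z}.ncard = L.M t (L.tl d₁) z := by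
      intro t z
      rw [a1]
      by_cases htt : t = τ
      · subst htt
        rw [hMS, hsplit (fun d => Function.extend dd y L.hd d = z), y2, a2, hMN, ← hy]
        simp only [y1]
      · unfold LS.M
        congr 1
        ext d
        have c1 : L.ty d = t → Function.extend dd y L.hd d = L.hd d := by
          intro c1
          rw [Function.extend_apply']
          rintro ⟨i, hi⟩
          apply htt
          rw [← c1, ← hi]
          exact (hdd i).1.2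
        constructor
        · rintro ⟨c2, c3, c4⟩
          exact ⟨c2, c3, by rw [← c1 c3]; exact c4⟩
        · rintro ⟨c2, c3, c4⟩
          exact ⟨c2, c3, by rw [c1 c3]; exact c4⟩
    obtain ⟨f, e, c1, c2, c3⟩ := hp2 _ hY y2
    obtain ⟨f', e', c4, c5, c6⟩ := penl_part KK (Sum.inl true) c1
    refine ⟨f', e', c4, fun i => ?_⟩
    have c7 : L.tl (dd i) = L.tl d₁ := (hdd i).1.1.trans a1.symm
    have c8 : f' (L.tl (dd i), q1) = y₀ := by
      have c9 := c5 (L.tl (dd i), q)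
      rw [c7] at c9
      rw [c7, ← a1]
      exact c9.trans c2
    have c9 : e' (dd i, q1) = y i := by
      have c10 := c6 (dd i, q)
      rw [← y1 i, ← c3 (dd i) c7]
      exact c10
    change (f' (L.tl (dd i), q1), e' (dd i, q1)) = (y₀, y i)
    rw [c8, c9]
  -- the ties
  have hrvrv : ∀ δ, (sigKt KK).net.hd ((sigKt KK).net.rv δ) = (sigKt KK).net.tl δ := by
    intro δ
    unfold Net.hd
    rw [(sigKt KK).net.rv_rv]
  have htr : ∀ d, L.ty d = L.bar τ → L.ty (L.rv d) = τ := by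
    intro d e1
    rw [L.ty_rv, e1, L.bar_bar]
  have b_cp : ∀ y, 0 < Nv y → ∃ f e, EL (sigKt KK).net ∅ f e ∧
      evt (sigKt KK).net f e ((sigKt KK).net.rv (da, q0)) = (y₀, y) ∧
      evt (sigKt KK).net f e ((sigKt KK).net.rv (db, q0)) = (zt y, y) := by
    intro y hy
    have hD := hND y hy
    obtain ⟨z1, z2, -⟩ := hzt y hy
    have hcl : L.cl y = L.cl x₁ := by
      rw [(dt_cl hD).2, (dt_cl h1).2]
    obtain ⟨Y, u1, u2, u3⟩ := star_pair (L := L) hcl ta1 tb1 hab (y₁ := y₀) (y₂ := zt y)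
      (by rw [ta2]; exact dt_symm hD) (by rw [tb2]; exact dt_symm z1) (fun _ e2 => by
        rw [ta2, M_bar]
        exact z2 e2.symm)
    obtain ⟨f, e, v1, v2, v3⟩ := hUs y Y hcl u1
    obtain ⟨f', e', v4, v5, v6⟩ := penl_part KK (Sum.inl false) v1
    have v7 : ∀ δ, e' δ = f' ((sigKt KK).net.hd δ) := fun δ =>
      v4.unc δ (Set.notMem_empty _) (Set.notMem_empty _)
    have v8 : f' (x₁, q0) = y := (v5 (x₁, κ x₁)).trans v2
    have v9 : ∀ d, L.tl d = x₁ → evt (sigKt KK).net f' e' ((sigKt KK).net.rv (d, q0)) =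
        (Y d, y) := by
      intro d e1
      have e2 : e' (d, q0) = Y d := (v6 (d, κ x₁)).trans (v3 d e1)
      have e3 : f' ((sigKt KK).net.tl ((sigKt KK).net.rv (d, q0))) = Y d := by
        rw [← e2]
        exact (v7 (d, q0)).symm
      have e4 : e' ((sigKt KK).net.rv (d, q0)) = y := by
        rw [v7, hrvrv]
        change f' (L.tl d, q0) = y
        rw [e1]
        exact v8
      unfold evt
      rw [e3, e4]
    refine ⟨f', e', v4, ?_, ?_⟩
    · rw [v9 da ta1, u2]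
    · rw [v9 db tb1, u3]
  have r_sp : ∀ y, Ap y → 0 < Nv y → ∀ f e, EL (sigKt KK).net {(dy y, qr y)} f e →
      Ap (evt (sigKt KK).net f e (dy y, qr y)).2 ∧ Ap (evh (sigKt KK).net f e (dy y, qr y)).2 := by
    intro y e1 e2 f e h
    obtain ⟨c1, c2, c3, c4⟩ := hk y e1 (hND y e2)
    obtain ⟨c5, g, hg, c6⟩ := c4 _ _ (penl_res1 (κ := KK) (i := Sum.inr y) h)
    have c7 : evt (sigKt KK).net f e (dy y, qr y) = (g (L.tl (dy y)), g (L.hd (dy y))) := c6
    have c8 : evt (sigKt KK).net f e (dy y, qr y) = evh (sigKt KK).net f e (dy y, qr y) := c5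
    have c9 : Ap (evt (sigKt KK).net f e (dy y, qr y)).2 := by
      rw [c7, c2]
      exact (hAg g hg y).mpr e1
    exact ⟨c9, by rw [← c8]; exact c9⟩
  have hsing : ∀ (δ : D × (sigKt KK).Q) f e, L.ty δ.1 = τ → EL (sigKt KK).net {δ} f e →
      (Ap (evt (sigKt KK).net f e δ).2 ↔ Ap (evh (sigKt KK).net f e δ).2) := by
    intro δ f e e1 h
    rw [hA, hA]
    exact pen_single hm ht e1 h
  have hnrv : ∀ δ δ' : D × (sigKt KK).Q, L.ty δ.1 = τ → L.ty δ'.1 = τ →
      δ ≠ (sigKt KK).net.rv δ' := by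
    intro δ δ' e1 e2 e3
    apply ht
    have e4 : L.ty δ.1 = L.ty (L.rv δ'.1) := congrArg L.ty (congrArg Prod.fst e3)
    rw [e1, L.ty_rv, e2] at e4
    exact e4
  obtain ⟨i₁, i₂, h12, hi₁, hi₂⟩ : ∃ i₁ i₂ : Fin m, i₁ ≠ i₂ ∧ L.hd (dd i₁) = x₁ ∧
      L.hd (dd i₂) = x₁ := by
    have e1 : 1 < {i | L.hd (dd i) = x₁}.ncard := by
      rw [← hNv]
      have e2 := hMN x₁
      rw [if_pos rfl, hM1] at e2
      omega
    obtain ⟨u, hu, w, hw, huw⟩ := (Set.one_lt_ncard_iff_nontrivial).1 e1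
    exact ⟨u, w, huw, hu, hw⟩
  obtain ⟨i₃, hi₃⟩ := hdr d₂ b1 b3 hd12
  have b_tie : ∀ f e, EL (sigKt KK).net
      {(sigKt KK).net.rv (da, q0), (sigKt KK).net.rv (db, q0)} f e →
      (Ap (evt (sigKt KK).net f e ((sigKt KK).net.rv (da, q0))).2 ↔
        Ap (evh (sigKt KK).net f e ((sigKt KK).net.rv (da, q0))).2) ∧
      (Ap (evt (sigKt KK).net f e ((sigKt KK).net.rv (db, q0))).2 ↔
        Ap (evt (sigKt KK).net f e ((sigKt KK).net.rv (da, q0))).2) ∧
      (Ap (evh (sigKt KK).net f e ((sigKt KK).net.rv (db, q0))).2 ↔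
        Ap (evh (sigKt KK).net f e ((sigKt KK).net.rv (da, q0))).2) := by
    intro f e h
    have e1 : (sigKt KK).net.hd ((sigKt KK).net.rv (da, q0)) =
        (sigKt KK).net.hd ((sigKt KK).net.rv (db, q0)) := by
      rw [hrvrv, hrvrv]
      change (L.tl da, q0) = (L.tl db, q0)
      rw [ta1, tb1]
    have e2 : (sigKt KK).net.rv (da, q0) ≠ (sigKt KK).net.rv (db, q0) := by
      intro e2
      have e3 := congrArg (sigKt KK).net.rv e2
      rw [(sigKt KK).net.rv_rv, (sigKt KK).net.rv_rv] at e3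
      exact hab (congrArg Prod.fst e3)
    obtain ⟨p1, p2⟩ := pen_pair hm ht (htr da ta2) (htr db tb2) e2
      (hnrv _ _ (htr da ta2) (htr db tb2)) e1 h
    rw [← hA, ← hA] at p1 p2
    have p3 : Ap (evh (sigKt KK).net f e ((sigKt KK).net.rv (da, q0))).2 ↔
        Ap (f ((sigKt KK).net.hd ((sigKt KK).net.rv (da, q0)))) := Iff.rfl
    have p4 : Ap (evh (sigKt KK).net f e ((sigKt KK).net.rv (db, q0))).2 ↔
        Ap (f ((sigKt KK).net.hd ((sigKt KK).net.rv (da, q0)))) := by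
      rw [e1]
      exact Iff.rfl
    exact ⟨p1.trans p3.symm, p2.trans p1.symm, p4.trans p3.symm⟩
  have r_cp : ∀ y, Ap y → 0 < Nv y → ∃ f e, EL (sigKt KK).net ∅ f e ∧
      evt (sigKt KK).net f e (dy y, qr y) = (zt y, y) := by
    intro y e1 e2
    obtain ⟨c1, c2, -, -⟩ := hk y e1 (hND y e2)
    refine ⟨_, _, proj_el (sigKt KK), ?_⟩
    change (L.tl (dy y), L.hd (dy y)) = (zt y, y)
    rw [c1, c2, (hzt y e2).2.2 e1]
  have hties : TiesS (sigKt KK) τ τ m r y₀ Nv zt Ap (fun α => Ap α.2) (fun α => Ap α.2)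
      (fun _ => True) (fun _ => True) :=
    { sd := fun i => (dd i, q1)
      s_inj := fun i j h => hdi (congrArg Prod.fst h)
      s_ty := fun i => (hdd i).1.2
      s_nrev := fun i j => hnrv _ _ (hdd i).1.2 (hdd j).1.2
      s_sp := fun i f e h => ⟨hsing _ f e (hdd i).1.2 h, trivial, trivial⟩
      s_cnt := s_cnt
      s_cp := s_cp
      b1 := (sigKt KK).net.rv (da, q0)
      b2 := (sigKt KK).net.rv (db, q0)
      b_ty1 := htr da ta2
      b_ty2 := htr db tb2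
      b_ne := fun h => by
        have e1 := congrArg (sigKt KK).net.rv h
        rw [(sigKt KK).net.rv_rv, (sigKt KK).net.rv_rv] at e1
        exact hab (congrArg Prod.fst e1)
      b_nrev := hnrv _ _ (htr da ta2) (htr db tb2)
      b_sp1 := fun f e h => ⟨hsing _ f e (htr da ta2) h, trivial, trivial⟩
      b_sp2 := fun f e h => ⟨hsing _ f e (htr db tb2) h, trivial, trivial⟩
      b_tie := fun f e h _ _ _ _ => b_tie f e h
      b_cp := b_cp
      rd := fun y => (dy y, qr y)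
      r_ty := fun y e1 e2 => (hk y e1 (hND y e2)).2.2.1
      r_sp := fun y e1 e2 f e h => ⟨r_sp y e1 e2 f e h, trivial, trivial⟩
      r_cp := r_cp }
  exact ⟨sigKt KK, hp_sts hties (y₀ := fun i => L.hd (dd i)) (fun z => (hNv z).symm) hr h12
    (hi₁.trans hi₂.symm) (by rw [hi₁]; exact hAx) (i₃ := i₃) (by
      rw [hi₃, b2, hA]
      omega)⟩


end Pool.Agent.H24.GK
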