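import Pool.Agent.H24.GK.Star
import Pool.Agent.H24.GK.CaseX
import Pool.Agent.H24.GK.LensM
import Pool.Agent.H24.GK.PenL
import Pool.Agent.H24.GK.Cut3

/-!
# JOB GK-24: hardness for reduced label structures

`meet_all`: induction along a path from `x` to `x'`: for a dart `d` with `cl y = cl (tl d)` there is a `y'` with `Dt (ty d) y y'`
(`dt_exists`), `cl y' = sc (bar (ty d)) = cl (hd d)` (`dt_cl`), and `y' ∈ B` (`comp_dt`).
`exists_dens`: among the finitely many `A ∈ F` take those with the largest `|brd A| / |A|` (in `ℚ`; `|A| > 0`), among these one with the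
smallest `|A|`.
`hpat_1`: let `F` be the set of the components `A` with `UnA L A c`; it is not empty (`¬ Mtd`, the component of `tl d`). `exists_dens`
gives `A`. Claim: `RingP L A d` for every dart `d` of type `c` or `bar c` with `tl d ∈ A` and (`Cut L 3 (tl d) {hd d}` or
`tl d = hd d`): `ringP_of`; let `B ≠ A` be a component. If `UnA L B c`, use the choice of `A`. Otherwise for every dart `d'` of `B` of
type `c` or `bar c` all darts of this type at `tl d'` have the head `hd d'`, so `M (ty d') (tl d') (hd d') = num (ty d') ≥ 3`.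
There is such a `d`: a loop, or by `exists_cut3` with `E = {d | ty d = c ∨ ty d = bar c}` (`num_eq`).
`star1`. In the first case `good_hpatM` with `ζ = τ` (`num τ = num τ.1.1 ≥ 3`, also for `bar τ`), `exists_ringM`. In the second case
`pen_hpatL`: a dart `d` of type `σ` at `y₀` with `3 ≤ M σ (tl d) (hd d)` is a loop, or `Cut L 3 (tl d) {hd d}` holds (three
parallel darts leave every set which contains `tl d` and not `hd d`).
`hpat_2`: let `x₀` be of the class `sc s` (`Lfs s`), `A₀ = {y | Cd L x₀ y}`. If there is a live type with a source class which is met by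
`A₀`: `ndtA`, `hpat_X'` (`3 ≤ num (bar c)` by `ncaseX_num3`, so `num c ≤ 2` by `h2`). Otherwise let `F` be the set of the components
which meet `sc s`; `exists_dens` gives `A`. No type with a source class which is met by `A` is live (`meet_all` for `A`, `A₀`).
`d₀`: a loop of `A`, or by `exists_cut3` with `E = Set.univ`, `h3`. `ringP_of`: a component `B` which meets `cl (tl d₀)` meets `sc s`
(`meet_all`), so it is in `F`. `star2`; `good_hpatM`, or `lens_hpatM`, where `τ ≠ bar ζ` as in `f_hpat` (file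
`Pool.Agent.H24.GI.Choice`); `exists_ringM`.
`hpat_N`: if `3 ≤ num c`, `3 ≤ num (bar c)` for some `c` then `c` is not matched (`hr`), `hpat_1`; otherwise `hpat_2`.
`redc_rf`: a labelling of `unitKt L'` is a labelling of `unitKt L`; `Cd` is the same (`tl`, `rv`).
`hard_N`: `lab_deg`, `hpat_N` for `L'`, `HPat.tr`, `hard_of_hpat` (see `hard_leaf` in the file `Pool.Agent.H24.GH.NFin`).
-/

namespace Pool.Agent.H24.GK

open Pool.Agent.H24.GC Pool.Agent.H24.GG Pool.Agent.H24.GH Pool.Agent.H24.GI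

variable {V D T K : Type} {L : LS V D T K}

theorem meet_all {A B : Set V} (hA : Comp L A) (hB : Comp L B) {x y x' : V} (hx : x ∈ A)
    (hy : y ∈ B) (h : L.cl x = L.cl y) (hx' : x' ∈ A) : ∃ y' ∈ B, L.cl y' = L.cl x' := by
  have h1 := hA.cn x hx x' hx'
  clear hx'
  induction h1 with
  | refl => exact ⟨y, hy, h.symm⟩
  | tail _ h2 ih =>
    obtain ⟨d, h3, h4⟩ := h2
    obtain ⟨y', hy', h5⟩ := ih
    have h6 : L.cl y' = L.sc (L.ty d) := by rw [h5, ← h3, L.cl_tl]
    obtain ⟨y'', hy''⟩ := dt_exists h6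
    refine ⟨y'', comp_dt hB hy'' hy', ?_⟩
    rw [(dt_cl hy'').2, ← h4]
    change _ = L.cl (L.tl (L.rv d))
    rw [L.cl_tl, L.ty_rv]

theorem exists_dens [Finite V] {F : Set (Set V)} (hF : ∀ A ∈ F, Comp L A) (hne : F.Nonempty) :
    ∃ A ∈ F, ∀ B ∈ F, (brd L B).ncard * A.ncard ≤ (brd L A).ncard * B.ncard ∧
      ((brd L B).ncard * A.ncard = (brd L A).ncard * B.ncard → A.ncard ≤ B.ncard) := by
  have hpos : ∀ A ∈ F, 0 < A.ncard := fun A hA =>
    (Set.ncard_pos (Set.toFinite A)).2 (hF A hA).ne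
  obtain ⟨r, hr⟩ : ∃ r : Set V → ℚ, r = fun A => ((brd L A).ncard : ℚ) / (A.ncard : ℚ) := ⟨_, rfl⟩
  have hr' : ∀ A, r A = ((brd L A).ncard : ℚ) / (A.ncard : ℚ) := fun A => by rw [hr]
  obtain ⟨A₁, hA₁, hmax⟩ := Set.exists_max_image F r (Set.toFinite F) hne
  obtain ⟨A, ⟨hA, hAr⟩, hmin⟩ := Set.exists_min_image {A | A ∈ F ∧ r A = r A₁} (fun A => A.ncard)
    (Set.toFinite _) ⟨A₁, hA₁, rfl⟩
  refine ⟨A, hA, fun B hB => ?_⟩
  have h1 : (0 : ℚ) < (A.ncard : ℚ) := by exact_mod_cast hpos A hA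
  have h2 : (0 : ℚ) < (B.ncard : ℚ) := by exact_mod_cast hpos B hB
  have h3 : r B ≤ r A := by
    rw [hAr]
    exact hmax B hB
  constructor
  · rw [hr', hr', div_le_div_iff₀ h2 h1] at h3
    exact_mod_cast h3
  · intro h4
    refine hmin B ⟨hB, ?_⟩
    rw [← hAr, hr', hr', div_eq_div_iff h2.ne' h1.ne']
    exact_mod_cast h4

section gk24

/-- all darts of the type of `d` at the tail of `d` are parallel to `d` -/
private theorem gk24_all {d : D}
    (h : ∀ d', L.tl d' = L.tl d → L.ty d' = L.ty d → L.hd d' = L.hd d) :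
    L.M (L.ty d) (L.tl d) (L.hd d) = L.num (L.ty d) := by
  rw [← L.num_eq (L.tl d) (L.ty d) (L.cl_tl d)]
  unfold LS.M
  congr 1
  ext d'
  constructor
  · rintro ⟨h1, h2, -⟩
    exact ⟨h1, h2⟩
  · rintro ⟨h1, h2⟩
    exact ⟨h1, h2, h d' h1 h2⟩

private theorem gk24_type {c : T} {d : D} (h : L.ty d = c ∨ L.ty d = L.bar c) :
    L.ty (L.rv d) = c ∨ L.ty (L.rv d) = L.bar c := by
  rw [L.ty_rv]
  rcases h with h | h
  · exact Or.inr (by rw [h])
  · exact Or.inl (by rw [h, L.bar_bar])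

private theorem gk24_num {c : T} (h1 : 3 ≤ L.num c) (h2 : 3 ≤ L.num (L.bar c)) {t : T}
    (h : t = c ∨ t = L.bar c) : 3 ≤ L.num t ∧ 3 ≤ L.num (L.bar t) := by
  rcases h with rfl | rfl
  · exact ⟨h1, h2⟩
  · exact ⟨h2, by rw [L.bar_bar]; exact h1⟩

/-- three parallel darts -/
private theorem gk24_cut [Finite D] {d : D} {t : T} (h : 3 ≤ L.M t (L.tl d) (L.hd d)) :
    Cut L 3 (L.tl d) {L.hd d} :=
  cut_mono (cut_M t (L.tl d) (L.hd d)) h (fun _ h => h)

/-- a loop, or a dart with a large cut -/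
private theorem gk24_dart {A : Set V} (hA : Comp L A) {E : Set D}
    (hr : ∀ d ∈ E, L.rv d ∈ E) (hne : ∃ d ∈ E, L.tl d ∈ A) [Finite V] [Finite D]
    (h3 : ∀ x ∈ A, (∃ d ∈ E, L.tl d = x) → 3 ≤ {d | d ∈ E ∧ L.tl d = x}.ncard) :
    ∃ d ∈ E, L.tl d ∈ A ∧ (Cut L 3 (L.tl d) {L.hd d} ∨ L.tl d = L.hd d) := by
  by_cases hl : ∃ d ∈ E, L.tl d ∈ A ∧ L.tl d = L.hd d
  · obtain ⟨d, h1, h2, h4⟩ := hl
    exact ⟨d, h1, h2, Or.inr h4⟩
  · obtain ⟨d, h1, h2, h4⟩ := exists_cut3 hA hr
      (fun d hd hd2 hd3 => hl ⟨d, hd, hd2, hd3⟩) hne h3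
    exact ⟨d, h1, h2, Or.inl h4⟩

end gk24

variable [Finite V] [Finite D] [Finite T]

theorem hpat_1 (hred : Redc L) {c : T} (h1 : 3 ≤ L.num c) (h2 : 3 ≤ L.num (L.bar c))
    (hm : ¬ Mtd L c) : ∃ k : Kt L, HPat k := by
  have hex : ∃ A, Comp L A ∧ UnA L A c := by
    unfold Mtd at hm
    rw [not_and_or] at hm
    rcases hm with hm | hm
    · push Not at hm
      obtain ⟨d, d', e1, e2, e3, e4⟩ := hm
      exact ⟨_, comp_of (L.tl d), d, d', Relation.ReflTransGen.refl, e3, e4, Or.inl ⟨e1, e2⟩⟩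
    · push Not at hm
      obtain ⟨d, d', e1, e2, e3, e4⟩ := hm
      exact ⟨_, comp_of (L.tl d), d, d', Relation.ReflTransGen.refl, e3, e4, Or.inr ⟨e1, e2⟩⟩
  obtain ⟨A₀, hA₀, hU₀⟩ := hex
  obtain ⟨A, ⟨hA, hU⟩, hd⟩ := exists_dens (L := L) (F := {A | Comp L A ∧ UnA L A c})
    (fun A h => h.1) ⟨A₀, hA₀, hU₀⟩
  have hring : ∀ d, L.tl d ∈ A → (L.ty d = c ∨ L.ty d = L.bar c) →
      (Cut L 3 (L.tl d) {L.hd d} ∨ L.tl d = L.hd d) → RingP L A d := by
    intro d hd1 hd2 hd3
    refine ringP_of hA hd1 hd3 hred ?_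
    intro B hB _ _
    by_cases hUB : UnA L B c
    · exact Or.inr (hd B ⟨hB, hUB⟩)
    · left
      intro d' hd4 hd5
      have hd6 : L.ty d' = c ∨ L.ty d' = L.bar c := by
        rcases hd5 with hd5 | hd5
        · rw [hd5]
          exact hd2
        · rw [hd5]
          rcases hd2 with hd2 | hd2
          · exact Or.inr (by rw [hd2])
          · exact Or.inl (by rw [hd2, L.bar_bar])
      rw [gk24_all ?_]
      · exact (gk24_num h1 h2 hd6).1
      · intro d'' e1 e2
        by_contra e3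
        refine hUB ⟨d', d'', hd4, e1.symm, fun e4 => e3 e4.symm, ?_⟩
        rcases hd6 with hd6 | hd6
        · exact Or.inl ⟨hd6, e2.trans hd6⟩
        · exact Or.inr ⟨hd6, e2.trans hd6⟩
  rcases star1 hA h1 h2 hU with ⟨P, iP, g, hc, hl, τ, x, hx, hτ⟩ |
    ⟨σ, y₀, x₁, x₂, hσ, hy₀, e1, e2, e3, e4⟩
  · obtain ⟨d₀, hd₀, hd₀A, hd₀c⟩ := gk24_dart hA (E := {d | L.ty d = c ∨ L.ty d = L.bar c})
      (fun d hd => gk24_type hd) (by
        obtain ⟨d, d', a1, -, -, a2⟩ := hU
        refine ⟨d, ?_, a1⟩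
        rcases a2 with ⟨a2, -⟩ | ⟨a2, -⟩
        · exact Or.inl a2
        · exact Or.inr a2) (by
        rintro x - ⟨d, hd1, rfl⟩
        have e1 := (gk24_num h1 h2 hd1).1
        rw [← L.num_eq (L.tl d) (L.ty d) (L.cl_tl d)] at e1
        refine e1.trans (Set.ncard_le_ncard ?_ (Set.toFinite _))
        rintro d' ⟨e2, e3⟩
        refine ⟨?_, e2⟩
        show L.ty d' = c ∨ L.ty d' = L.bar c
        rw [e3]
        exact hd1)
    have hR := hring d₀ hd₀A hd₀ hd₀c
    have hn := gk24_num h1 h2 hτ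
    exact good_hpatM hA g hc hl (τ := τ) (ζ := τ) hn.1 rfl
      (fun _ => le_trans (by norm_num) hn.2) ⟨x, hx⟩
      (fun d hd => exists_ringM hA g hc hl hd₀A hR hd)
  · refine pen_hpatL (A := A) (τ := σ) (gk24_num h1 h2 hσ).2 e1 e2 e3 e4 ?_
    intro d a1 a2 a3
    refine hring d (by rw [a2]; exact hy₀) (by rw [a1]; exact hσ) (Or.inl (gk24_cut a3))

theorem hpat_2 (hred : Redc L) (h3 : ∀ x, 3 ≤ {d | L.tl d = x}.ncard)
    (h2 : ∀ t, L.num t ≤ 2 ∨ L.num (L.bar t) ≤ 2) (hlf : ∃ s, Lfs L.sc s) :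
    ∃ k : Kt L, HPat k := by
  obtain ⟨s, hs⟩ := hlf
  obtain ⟨x₀, hx₀⟩ := L.cls s
  have hA₀ := comp_of (L := L) x₀
  have hx₀A : x₀ ∈ {y | Cd L x₀ y} := Relation.ReflTransGen.refl
  by_cases hlive : ∃ s', (∃ x ∈ {y | Cd L x₀ y}, L.cl x = L.sc s') ∧ TLive L.sc L.bar s'
  · obtain ⟨c, -, c1, c2, c3⟩ := ndtA hA₀ hlive ⟨s, ⟨x₀, hx₀A, hx₀⟩, hs⟩
    have e1 := ncaseX_num3 h3 c1
    have e2 : L.num c ≤ 2 := by
      rcases h2 c with e2 | e2
      · exact e2
      · omega
    exact hpat_X' h3 c1 c2 c3 e2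
  · obtain ⟨A, ⟨hA, y₀, hy₀, hy₀c⟩, hd⟩ := exists_dens (L := L)
      (F := {A | Comp L A ∧ ∃ y ∈ A, L.cl y = L.sc s}) (fun A h => h.1)
      ⟨_, hA₀, x₀, hx₀A, hx₀⟩
    have hn : ∀ t, (∃ x ∈ A, L.cl x = L.sc t) → ¬ TLive L.sc L.bar t := by
      rintro t ⟨x, hx, hxc⟩ ht
      obtain ⟨y', hy', hy'c⟩ := meet_all hA hA₀ hy₀ hx₀A (hy₀c.trans hx₀.symm) hx
      exact hlive ⟨t, ⟨y', hy', hy'c.trans hxc⟩, ht⟩
    obtain ⟨d₀, -, hd₀A, hd₀c⟩ := gk24_dart hA (E := Set.univ) (fun _ _ => Set.mem_univ _) (by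
        have e1 : {d | L.tl d = y₀}.ncard ≠ 0 := by
          have := h3 y₀
          omega
        obtain ⟨d, hd⟩ := Set.nonempty_of_ncard_ne_zero e1
        refine ⟨d, Set.mem_univ _, ?_⟩
        have hd' : L.tl d = y₀ := hd
        rw [hd']
        exact hy₀) (by
        rintro x - -
        refine (h3 x).trans (Set.ncard_le_ncard ?_ (Set.toFinite _))
        exact fun d hd => ⟨Set.mem_univ _, hd⟩)
    have hR : RingP L A d₀ := by
      refine ringP_of hA hd₀A hd₀c hred ?_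
      rintro B hB ⟨y, hy, hyc⟩ -
      obtain ⟨y', hy', hy'c⟩ := meet_all hA hB hd₀A hy hyc.symm hy₀
      exact Or.inr (hd B ⟨hB, y', hy', hy'c.trans hy₀c⟩)
    obtain ⟨P, iP, g, hc, hl, hnl, h4⟩ := star2 hA h3 hn h2
    rcases h4 with ⟨τ, ζ, x, h4, h5, h6, h7⟩ | ⟨τ, ζ, z₀, h1, h4, h5, h6, d₁, d₂, d₃, d₄,
      ⟨a1, a2, a3, a4⟩, ⟨b1, b2, b3, b4⟩, c1, c2, c3, g1, g2, g3, g4⟩
    · exact good_hpatM hA g hc hl h5 h6 h7 ⟨x, h4⟩
        (fun d hd => exists_ringM hA g hc hl hd₀A hR hd)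
    · have h7 : τ ≠ (mLS L hA g).bar ζ := by
        intro h7
        have h8 : (mLS L hA g).sc τ = (mLS L hA g).sc ((mLS L hA g).bar τ) := by
          rw [← h1, ← h7]
        refine hnl τ ⟨fun _ => τ, rfl, fun _ => ⟨h8, fun h9 => ?_⟩⟩
        have h10 : (mLS L hA g).num τ = (mLS L hA g).num ((mLS L hA g).bar τ) :=
          congrArg (mLS L hA g).num h9
        omega
      exact lens_hpatM hA g hc hl h1 h4 h7 h6 a1 a2 a3 a4 b1 b2 b3 b4 c1 c2 c3 g1 g2 g3 g4
        (fun d hd => exists_ringM hA g hc hl hd₀A hR hd)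

theorem hpat_N (hred : Redc L) (h3 : ∀ x, 3 ≤ {d | L.tl d = x}.ncard)
    (hr : ∀ t, Mtd L t → L.num t = 1) (hlf : ∃ s, Lfs L.sc s) : ∃ k : Kt L, HPat k := by
  by_cases h : ∃ c, 3 ≤ L.num c ∧ 3 ≤ L.num (L.bar c)
  · obtain ⟨c, h1, h2⟩ := h
    refine hpat_1 hred h1 h2 (fun hm => ?_)
    have := hr c hm
    omega
  · refine hpat_2 hred h3 (fun t => ?_) hlf
    by_contra h4
    exact h ⟨t, by omega, by omega⟩

omit [Finite V] [Finite D] [Finite T] in
private theorem gk24_el {T' : Type} {L' : LS V D T' K} {ρ : T' → T} (h : Rf L L' ρ)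
    {f : V × Unit → V} {e : D × Unit → V} (he : EL (unitKt L').net ∅ f e) :
    EL (unitKt L).net ∅ f e := by
  have hhd : ∀ d, L'.hd d = L.hd d := by
    intro d
    unfold LS.hd
    rw [h.tl, h.rv]
  have hcl : ∀ w : V × Unit, L.cl (f w) = L.cl w.1 := by
    intro w
    have h1 : L'.cl (f w) = L'.cl w.1 := he.cls w
    rwa [h.cl] at h1
  have hst : ∀ (w : V × Unit) (t' : T') (y' : V),
      {δ : D × Unit | (L'.tl δ.1, δ.2) = w ∧ L'.ty δ.1 = t' ∧ e δ = y'}.ncard =
        L'.M t' (f w) y' := fun w t' y' => he.star w t' y'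
  refine ⟨hcl, ?_, ?_⟩
  · show ∀ (w : V × Unit) (t : T) (y : V),
      {δ : D × Unit | (L.tl δ.1, δ.2) = w ∧ L.ty δ.1 = t ∧ e δ = y}.ncard = L.M t (f w) y
    rintro ⟨x, u⟩ t y
    by_cases hx : L.cl x = L.sc t
    · have hfx : L.cl (f (x, u)) = L.sc t := (hcl (x, u)).trans hx
      have hfin : ∀ z, L.cl z = L.sc t → {d | L.tl d = z ∧ L.ty d = t}.Finite := by
        intro z hz
        by_contra hinf
        have h1 := L.num_eq z t hz
        rw [Set.Infinite.ncard hinf] at h1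
        exact absurd h1 (L.num_pos t).ne
      have i1 : Finite {d // L.tl d = x ∧ L.ty d = t} := (hfin x hx).to_subtype
      have i2 : Finite {d // L.tl d = f (x, u) ∧ L.ty d = t} := (hfin _ hfx).to_subtype
      have key := refi_fib (A := {d // L.tl d = x ∧ L.ty d = t})
        (B := {d // L.tl d = f (x, u) ∧ L.ty d = t})
        (a := fun d => (L'.ty d.1, e (d.1, u))) (b := fun d => (L'.ty d.1, L.hd d.1)) (by
          rintro ⟨t', y'⟩
          rw [hon_sub_ncard (fun d => L.tl d = x ∧ L.ty d = t)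
              (fun d => (L'.ty d, e (d, u)) = (t', y')),
            hon_sub_ncard (fun d => L.tl d = f (x, u) ∧ L.ty d = t)
              (fun d => (L'.ty d, L.hd d) = (t', y'))]
          by_cases ht : ρ t' = t
          · have h1 := hst (x, u) t' y'
            have h2 : {δ : D × Unit | (L'.tl δ.1, δ.2) = (x, u) ∧ L'.ty δ.1 = t' ∧
                e δ = y'}.ncard = {d | (L'.ty d, e (d, u)) = (t', y') ∧
                  (L.tl d = x ∧ L.ty d = t)}.ncard := by
              refine Set.ncard_congr (fun δ _ => δ.1) ?_ ?_ ?_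
              · rintro ⟨d, u'⟩ ⟨e1, e2, e3⟩
                have e1' : L'.tl d = x := congrArg Prod.fst e1
                have e2' : L'.ty d = t' := e2
                refine ⟨Prod.ext e2' e3, ?_, ?_⟩
                · show L.tl d = x
                  rw [← h.tl]
                  exact e1'
                · show L.ty d = t
                  rw [h.ty, e2', ht]
              · rintro ⟨d, u1⟩ ⟨d', u2⟩ - - (e4 : d = d')
                rw [e4]
              · rintro d ⟨e1, e2, e3⟩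
                refine ⟨(d, u), ⟨?_, congrArg Prod.fst e1, congrArg Prod.snd e1⟩, rfl⟩
                show (L'.tl d, u) = (x, u)
                rw [h.tl, e2]
            rw [← h2, h1]
            unfold LS.M
            congr 1
            ext d
            constructor
            · rintro ⟨e1, e2, e3⟩
              refine ⟨Prod.ext e2 ?_, ?_, ?_⟩
              · rw [← e3]
                exact (hhd d).symm
              · rw [← h.tl]
                exact e1
              · rw [h.ty, e2, ht]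
            · rintro ⟨e1, e2, e3⟩
              refine ⟨?_, congrArg Prod.fst e1, ?_⟩
              · rw [h.tl]
                exact e2
              · rw [hhd]
                exact congrArg Prod.snd e1
          · have h1 : {d | (L'.ty d, e (d, u)) = (t', y') ∧ (L.tl d = x ∧ L.ty d = t)} = ∅ := by
              rw [Set.eq_empty_iff_forall_notMem]
              rintro d ⟨e1, -, e3⟩
              refine ht ?_
              have e4 : L'.ty d = t' := congrArg Prod.fst e1
              rw [← e4, ← h.ty, e3]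
            have h2 : {d | (L'.ty d, L.hd d) = (t', y') ∧
                (L.tl d = f (x, u) ∧ L.ty d = t)} = ∅ := by
              rw [Set.eq_empty_iff_forall_notMem]
              rintro d ⟨e1, -, e3⟩
              refine ht ?_
              have e4 : L'.ty d = t' := congrArg Prod.fst e1
              rw [← e4, ← h.ty, e3]
            rw [h1, h2]) (fun z : T' × V => z.2) y
      rw [hon_sub_ncard (fun d => L.tl d = x ∧ L.ty d = t) (fun d => e (d, u) = y),
        hon_sub_ncard (fun d => L.tl d = f (x, u) ∧ L.ty d = t) (fun d => L.hd d = y)] at key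
      have h1 : {δ : D × Unit | (L.tl δ.1, δ.2) = (x, u) ∧ L.ty δ.1 = t ∧
          e δ = y}.ncard = {d | e (d, u) = y ∧ (L.tl d = x ∧ L.ty d = t)}.ncard := by
        refine Set.ncard_congr (fun δ _ => δ.1) ?_ ?_ ?_
        · rintro ⟨d, u'⟩ ⟨e1, e2, e3⟩
          exact ⟨e3, congrArg Prod.fst e1, e2⟩
        · rintro ⟨d, u1⟩ ⟨d', u2⟩ - - (e4 : d = d')
          rw [e4]
        · rintro d ⟨e1, e2, e3⟩
          refine ⟨(d, u), ⟨?_, e3, e1⟩, rfl⟩
          show (L.tl d, u) = (x, u)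
          rw [e2]
      rw [h1, key]
      unfold LS.M
      congr 1
      ext d
      constructor
      · rintro ⟨e1, e2, e3⟩
        exact ⟨e2, e3, e1⟩
      · rintro ⟨e1, e2, e3⟩
        exact ⟨e3, e1, e2⟩
    · have h1 : {δ : D × Unit | (L.tl δ.1, δ.2) = (x, u) ∧ L.ty δ.1 = t ∧ e δ = y} = ∅ := by
        rw [Set.eq_empty_iff_forall_notMem]
        rintro ⟨d, u'⟩ ⟨e1, e2, -⟩
        refine hx ?_
        have e1' : L.tl d = x := congrArg Prod.fst e1
        have e2' : L.ty d = t := e2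
        rw [← e1', ← e2', L.cl_tl]
      have h2 : {d | L.tl d = f (x, u) ∧ L.ty d = t ∧ L.hd d = y} = ∅ := by
        rw [Set.eq_empty_iff_forall_notMem]
        rintro d ⟨e1, e2, -⟩
        refine hx ?_
        have e3 : L.cl (f (x, u)) = L.cl x := hcl (x, u)
        rw [← e3, ← e1, ← e2, L.cl_tl]
      unfold LS.M
      rw [h1, h2, Set.ncard_empty, Set.ncard_empty]
  · rintro ⟨d, u⟩ - -
    have h1 := he.unc (d, u) (Set.notMem_empty _) (Set.notMem_empty _)
    refine h1.trans ?_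
    show f (L'.tl (L'.rv d), u) = f (L.tl (L.rv d), u)
    rw [h.tl, h.rv]

omit [Finite V] [Finite D] [Finite T] in
theorem redc_rf {T' : Type} {L' : LS V D T' K} {ρ : T' → T} (h : Rf L L' ρ) (hred : Redc L) :
    Redc L' := by
  intro f e he x
  have h1 := hred f e (gk24_el h he) x
  refine Relation.ReflTransGen.mono ?_ _ _ h1
  rintro a b ⟨d, e1, e2⟩
  refine ⟨d, ?_, ?_⟩
  · rw [h.tl]
    exact e1
  · show L'.tl (L'.rv d) = b
    rw [h.tl, h.rv]
    exact e2

theorem hard_N {V : Type} [Finite V] {H : SimpleGraph V} (hH : Gd H) {T' : Type} [Finite T']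
    {L' : LS (LV H) (LD H) T' (LK H)} {ρ : T' → LT H} (h : Rf (lab H) L' ρ)
    (hr : ∀ t', Mtd L' t' → L'.num t' = 1) (hred : Redc (lab H)) (hlf : ∃ s, Lfs L'.sc s) :
    HardH H := by
  have h3 : ∀ x, 3 ≤ {d | L'.tl d = x}.ncard := by
    intro x
    rw [h.tl]
    exact lab_deg H x
  obtain ⟨k, hk⟩ := hpat_N (redc_rf h hred) h3 hr hlf
  exact hard_of_hpat hH (HPat.tr h hk)

end Pool.Agent.H24.GK
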