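import Pool.Agent.H24.GK.Comp
import Pool.Agent.H24.GI.RingK

/-!
# JOB GK-2: a labelling which is cut at one dart

`N` is any finite net, `f, e` a labelling cut at `δ` only, `t = ty δ`, `α = evt δ`, `β = evh δ`. For `u = fun _ : Unit => δ` (`unit_flow`;
`Set.range u = {δ}`, `δ ≠ rv δ`): `M s x y * (nf x - nf y) = uP s x y - uN s x y`, where
`uP s x y = [t = s, α = (x, y)] + [bar t = s, β = (y, x)]`, `uN s x y = [t = s, β = (x, y)] + [bar t = s, α = (y, x)]`.

`val_loop`: if `α` or `β` is of the form `(x, x)` then `α = β`. For `rv δ`: `evt (rv δ)` is `β` with the components exchanged, `evh (rv δ)` is `α`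
exchanged, so assume `α = (x, x)`. If `bar t ≠ t`: the flow at `t, x, x` gives `0 = [α = (x, x)] - [β = (x, x)]`. If `bar t = t`: let `S` be the
set of the `ε` with `ty ε = t`, `f (tl ε) = x`, `e ε = x`; its number is `M t x x * nf x` (`flow_count`), even by `M_even`. If `β ≠ (x, x)`
then `rv δ ∉ S`, and `rv` maps `S \ {δ}` to itself (for `ε ≠ δ, rv δ`: `e ε = f (hd ε)`, `e (rv ε) = f (tl ε)`), without fixed points,
so `S \ {δ}` has an even number of elements (`hon_even`), but `δ ∈ S`, contradiction.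

`oc_main`. `OneC` is symmetric: `OneC L B (bar t) (swap β) (swap α) E ↔ OneC L B t α β E`, so (pass to `rv δ`, `cut_symm`) assume
`CutV 2 α`. By `val_loop` `α.1 ≠ α.2`, `β.1 ≠ β.2`.
(1) The flow at `t, α`: `M t α * (nf α.1 - nf α.2) = 1 + [bar t = t, β = swap α] ≥ 1`. Let `E = {x ∈ B | nf α.1 ≤ nf x}`, `α.1 ∈ E`, `α.2 ∉ E`
(`α.2 ∈ B` by `val_dt`, `comp_dt`).
(2) Let `D₁` be the set of the darts with type `t` and ends `α`, `D₂` the set of those with type `bar t` and ends `swap β`. If `d ∈ bd L E`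
then `nf (hd d) < nf α.1 ≤ nf (tl d)` (`hd d ∈ B`), so `uP > 0`, so `d ∈ D₁ ∪ D₂`. `D₁ ⊆ bd L E`. By `CutV 2 α`: `2 ≤ (bd L E).ncard`.
If `D₁ ∩ D₂` is not empty: `bar t = t`, `β = swap α`, `D₁ = D₂ = bd L E`, `M * (nf α.1 - nf α.2) = 2`, `2 ≤ M = D₁.ncard`, so `M = 2`,
`nf α.1 = nf α.2 + 1`. Otherwise `M t α * (nf α.1 - nf α.2) = 1`, so `D₁.ncard = 1`, `nf α.1 = nf α.2 + 1`; so some element of `D₂` is in
`bd L E`, so `D₂ ⊆ bd L E`, `β.2 ∈ E`, `β.1 ∉ E`; the flow at `bar t, β.2, β.1` is `1`, so `D₂.ncard = 1`, `nf β.2 = nf β.1 + 1`.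
So `bd L E = D₁ ∪ D₂` has two elements.
(3) Let `c = nf α.2`. `nf β.2 = c + 1`, `nf β.1 = c` (`nf β.2 ≥ c + 1`, `nf β.1 < c + 1`). Let `F` be the set of the `x ∈ B` with
`nf x = c + 1` and `x ∈ E`, or `nf x = c` and `x ∉ E`. `α.1 ∈ F`; `F` is closed under darts `d`: if `nf (tl d) = nf (hd d)` then both ends
are on the same side; otherwise `d` or `rv d` is in `D₁ ∪ D₂` (`uP > 0` or `uN > 0`). So `F = B` (`Comp.cn`).
(4) `vb`: suppose `S` contains `β.2` and not `β.1` and `(bd L S).ncard < 2` (`bd_compl` for the other orientation). If `D₁ = D₂` then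
both elements of `D₂` are in `bd L S`, contradiction. Otherwise `D₁ = {a}`, `D₂ = {b}`, `bd L S = {b}`, `a ≠ b`, `rv a ≠ b` (otherwise `α = β`), so
`α.1 ∈ S ↔ α.2 ∈ S`. If both are in `S`: `Y = S \ E` contains `α.2`, not `α.1`, and `bd L Y ⊆ {rv a}` (a dart from `Y` to the outside of `S` is
`b`, but `β.2 ∈ E`; a dart `d` from `Y` to `E` is the reverse of an element of `bd L E`, of `a` or `b`; `hd b = β.1 ∉ S`), contradiction to
`CutV 2 α`. If both are not in `S`: `Y = E \ S` contains `α.1`, not `α.2`, and `bd L Y ⊆ {a}` (`tl b = β.2 ∈ S`; a dart from `Y` to `S` is the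
reverse of an element of `bd L S`, of `b`, but `β.1 ∉ E`), contradiction.
`oc_size`: `∑ x ∈ B, nf x` is the number of all `w`.

`bridge_img'`: as `bridge_img` (file `RingK`), where the only use of `hl` is to show that `evt δ₀ = (x, y)`, `x ≠ y`. Instead: let
`a x` be the number of the `w ∈ S` with `f w = x`. Suppose `x = y`, `t = ty δ₀`. If `bar t ≠ t`: `M t x x * (a x - a x) = 1 - 0`. If
`bar t = t`: `M t x x * a x` is the number of the darts with tail in `S`, type `t` and value `(x, x)`, it is even; those with the head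
in `S` are exchanged by `rv` (no fixed points), so their number is even; the only other one is `δ₀`, contradiction.
-/

namespace Pool.Agent.H24.GK

open Pool.Agent.H24.GG Pool.Agent.H24.GH Pool.Agent.H24.GI

variable {V D T K : Type} {L : LS V D T K}

/-- the set `E` is left by the darts with the values `α` (type `t`) and `β` reversed -/
structure OneC (L : LS V D T K) (B : Set V) (t : T) (α β : V × V) (E : Set V) : Prop where
  sub : E ⊆ B
  a1 : α.1 ∈ E
  a2 : α.2 ∈ B ∧ α.2 ∉ E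
  b2 : β.2 ∈ E
  b1 : β.1 ∈ B ∧ β.1 ∉ E
  bd : ∀ d, d ∈ bd L E ↔ (L.ty d = t ∧ (L.tl d, L.hd d) = α) ∨
    (L.ty d = L.bar t ∧ (L.hd d, L.tl d) = β)
  two : (GI.bd L E).ncard = 2
  va : CutV L 2 α
  vb : CutV L 2 β

variable [Finite V] [Finite D] {W Δ : Type} [Finite W] [Finite Δ] {N : Net L W Δ} {f : W → V}
  {e : Δ → V}

/-! ## auxiliary lemmas -/

open Classical in
/-- the indicator of a proposition -/
noncomputable def ocI (p : Prop) : ℤ := if p then 1 else 0

theorem ocI_pos {p : Prop} (h : p) : ocI p = 1 := by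
  unfold ocI
  exact if_pos h

theorem ocI_neg {p : Prop} (h : ¬ p) : ocI p = 0 := by
  unfold ocI
  exact if_neg h

theorem ocI_nonneg (p : Prop) : 0 ≤ ocI p := by
  by_cases h : p
  · rw [ocI_pos h]
    norm_num
  · rw [ocI_neg h]

theorem ocI_congr {p q : Prop} (h : p ↔ q) : ocI p = ocI q := by
  rw [propext h]

theorem ocI_ncard (p : Prop) : (({_i : Unit | p} : Set Unit).ncard : ℤ) = ocI p := by
  by_cases h : p
  · rw [ocI_pos h]
    have h1 : ({_i : Unit | p} : Set Unit) = {()} := by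
      ext i
      exact ⟨fun _ => rfl, fun _ => h⟩
    rw [h1, Set.ncard_singleton]
    rfl
  · rw [ocI_neg h]
    have h1 : ({_i : Unit | p} : Set Unit) = ∅ := by
      ext i
      exact ⟨fun h2 => h h2, fun h2 => h2.elim⟩
    rw [h1, Set.ncard_empty]
    rfl

omit [Finite V] [Finite D] in
theorem oc_flow {δ : Δ} (h : EL N {δ} f e) (s : T) (x y : V) :
    (L.M s x y : ℤ) * (nf f x - nf f y) =
      ocI (N.ty δ = s ∧ evt N f e δ = (x, y)) + ocI (L.bar (N.ty δ) = s ∧ evh N f e δ = (y, x)) -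
      (ocI (N.ty δ = s ∧ evh N f e δ = (x, y)) + ocI (L.bar (N.ty δ) = s ∧ evt N f e δ = (y, x))) := by
  have h1 : Set.range (fun _ : Unit => δ) = {δ} := by
    ext a
    constructor
    · rintro ⟨i, hi⟩
      exact hi.symm
    · intro ha
      exact ⟨(), Eq.symm ha⟩
  have h2 : EL N (Set.range (fun _ : Unit => δ)) f e := by
    rw [h1]
    exact h
  have h3 := unit_flow (u := fun _ : Unit => δ) (fun _ _ _ => rfl)
    (fun _ _ h4 => N.rv_ne δ h4.symm) h2 s x y
  rw [h3]
  unfold uP uN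
  push_cast
  rw [ocI_ncard, ocI_ncard, ocI_ncard, ocI_ncard]

omit [Finite V] [Finite D] [Finite W] [Finite Δ] in
theorem oc_symm {δ : Δ} (h : EL N {δ} f e) : EL N {N.rv δ} f e := by
  refine ⟨h.cls, h.star, ?_⟩
  intro δ' h1 h2
  refine h.unc δ' ?_ ?_
  · intro h3
    apply h2
    have h3' : δ' = δ := h3
    show N.rv δ' = N.rv δ
    rw [h3']
  · intro h3
    apply h1
    have h3' : N.rv δ' = δ := h3
    show δ' = N.rv δ
    rw [← h3', N.rv_rv]

omit [Finite V] [Finite D] [Finite W] [Finite Δ] in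
theorem oc_evt_rv (δ : Δ) : evt N f e (N.rv δ) = ((evh N f e δ).2, (evh N f e δ).1) := rfl

omit [Finite V] [Finite D] [Finite W] [Finite Δ] in
theorem oc_evh_rv (δ : Δ) : evh N f e (N.rv δ) = ((evt N f e δ).2, (evt N f e δ).1) := by
  unfold evt evh
  rw [N.rv_rv, hon_nhd_rv]

omit [Finite V] in
theorem oc_loop {δ : Δ} (h : EL N {δ} f e) (hx : (evt N f e δ).1 = (evt N f e δ).2) :
    evt N f e δ = evh N f e δ := by
  classical
  have := Fintype.ofFinite Δ
  set x := (evt N f e δ).1 with hxd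
  set t := N.ty δ with ht
  have hα : evt N f e δ = (x, x) := Prod.ext rfl hx.symm
  by_contra hne
  have hβ : evh N f e δ ≠ (x, x) := fun h1 => hne (hα.trans h1.symm)
  by_cases hb : L.bar t = t
  · -- parity
    have h1 : f (N.tl δ) = x := rfl
    have h2 : e δ = x := congrArg Prod.snd hα
    have h3 := flow_count h (fun _ => ()) t x x ()
    set S : Finset Δ := Finset.univ.filter
      (fun ε => N.ty ε = t ∧ (() : Unit) = () ∧ f (N.tl ε) = x ∧ e ε = x) with hS
    have h4 : ({ε | N.ty ε = t ∧ (() : Unit) = () ∧ f (N.tl ε) = x ∧ e ε = x} : Set Δ) = S := by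
      ext ε
      simp [hS]
    rw [h4, Set.ncard_coe_finset] at h3
    have h5 : Even (S.card : ℤ) := by
      rw [h3]
      exact Even.mul_right (by exact_mod_cast M_even L hb x) _
    have h5' : Even S.card := by exact_mod_cast h5
    have h6 : δ ∈ S := by
      rw [hS, Finset.mem_filter]
      exact ⟨Finset.mem_univ _, rfl, rfl, h1, h2⟩
    have h7 : Even (S.erase δ).card := by
      refine hon_even _ N.rv ?_ (fun a _ => N.rv_rv a) (fun a _ => N.rv_ne a)
      intro ε hε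
      rw [Finset.mem_erase, hS, Finset.mem_filter] at hε
      obtain ⟨b1, -, b2, -, b3, b4⟩ := hε
      have b5 : ε ≠ N.rv δ := by
        rintro rfl
        apply hβ
        exact Prod.ext b4 b3
      have b6 : N.rv ε ≠ δ := by
        intro b7
        apply b5
        rw [← b7, N.rv_rv]
      have b8 : e ε = f (N.hd ε) := h.unc ε b1 b6
      have b9 : e (N.rv ε) = f (N.tl ε) := by
        have b10 := h.unc (N.rv ε) b6 (by
          rw [N.rv_rv]
          exact b1)
        rw [b10, hon_nhd_rv]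
      rw [Finset.mem_erase, hS, Finset.mem_filter]
      refine ⟨b6, Finset.mem_univ _, ?_, rfl, ?_, ?_⟩
      · rw [N.ty_rv, b2, hb]
      · exact b8.symm.trans b4
      · exact b9.trans b3
    rw [Finset.card_erase_of_mem h6] at h7
    have h8 : 0 < S.card := Finset.card_pos.2 ⟨δ, h6⟩
    obtain ⟨a, ha⟩ := h5'
    obtain ⟨b, hb'⟩ := h7
    omega
  · have h1 := oc_flow h t x x
    rw [sub_self, mul_zero, ocI_pos ⟨rfl, hα⟩, ocI_neg (fun h2 => hb h2.1),
      ocI_neg (fun h2 => hβ h2.2), ocI_neg (fun h2 => hb h2.1)] at h1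
    norm_num at h1

theorem val_loop {δ : Δ} (h : EL N {δ} f e)
    (hx : (evt N f e δ).1 = (evt N f e δ).2 ∨ (evh N f e δ).1 = (evh N f e δ).2) :
    evt N f e δ = evh N f e δ := by
  rcases hx with hx | hx
  · exact oc_loop h hx
  · have h1 := oc_loop (oc_symm h) (by
      rw [oc_evt_rv]
      exact hx.symm)
    rw [oc_evt_rv, oc_evh_rv, Prod.mk.injEq] at h1
    exact Prod.ext h1.2.symm h1.1.symm

/-- the flow equation for the values `α`, `β` -/
def OcFl (L : LS V D T K) (t : T) (α β : V × V) (n : V → ℤ) : Prop :=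
  ∀ s x y, (L.M s x y : ℤ) * (n x - n y) =
    ocI (t = s ∧ α = (x, y)) + ocI (L.bar t = s ∧ β = (y, x)) -
    (ocI (t = s ∧ β = (x, y)) + ocI (L.bar t = s ∧ α = (y, x)))

omit [Finite V] in
theorem oc_M_pos {t : T} {x y : V} (h : Dt L t x y) : 0 < L.M t x y :=
  Nat.pos_of_ne_zero (dt_iff.1 h)

theorem oc_abs {t : T} {α β : V × V} {n : V → ℤ} (hn : ∀ x, 0 ≤ n x) (hfl : OcFl L t α β n)
    (hαβ : α ≠ β) (ha : α.1 ≠ α.2) (hb : β.1 ≠ β.2) (hda : Dt L t α.1 α.2)
    (hdb : Dt L t β.1 β.2) {B : Set V} (hB : Comp L B) (haB : α.1 ∈ B) (hbB : β.1 ∈ B)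
    (hv : CutV L 2 α) :
    ∃ E, OneC L B t α β E ∧ ∃ c : ℤ, 0 ≤ c ∧
      (∀ x ∈ B, x ∈ E → n x = c + 1) ∧ ∀ x ∈ B, x ∉ E → n x = c := by
  classical
  have hα2 : α.2 ∈ B := comp_dt hB hda haB
  have hβ2 : β.2 ∈ B := comp_dt hB hdb hbB
  have hsw : ∀ γ : V × V, γ.1 ≠ γ.2 → γ ≠ (γ.2, γ.1) := by
    intro γ h1 h2
    exact h1 (congrArg Prod.fst h2)
  -- the flow at `α`
  have f1 := hfl t α.1 α.2
  rw [ocI_pos (⟨rfl, rfl⟩ : t = t ∧ α = (α.1, α.2)),
    ocI_neg (fun h1 : t = t ∧ β = (α.1, α.2) => hαβ h1.2.symm),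
    ocI_neg (fun h1 : L.bar t = t ∧ α = (α.2, α.1) => hsw α ha h1.2)] at f1
  have m1 := oc_M_pos hda
  have m1' : (1 : ℤ) ≤ (L.M t α.1 α.2 : ℤ) := by exact_mod_cast m1
  have g1 : n α.2 < n α.1 := by
    by_contra h1
    have h2 : n α.1 - n α.2 ≤ 0 := by linarith [not_lt.1 h1]
    have h3 := ocI_nonneg (L.bar t = t ∧ β = (α.2, α.1))
    have h4 : (L.M t α.1 α.2 : ℤ) * (n α.1 - n α.2) ≤ 0 :=
      mul_nonpos_of_nonneg_of_nonpos (by linarith) h2
    linarith
  -- the set `E`
  set E : Set V := {x | x ∈ B ∧ n α.1 ≤ n x} with hE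
  set D₁ : Set D := {d | L.ty d = t ∧ (L.tl d, L.hd d) = α} with hD1
  set D₂ : Set D := {d | L.ty d = L.bar t ∧ (L.hd d, L.tl d) = β} with hD2
  have e1 : α.1 ∈ E := ⟨haB, le_refl _⟩
  have e2 : α.2 ∉ E := fun h1 => absurd h1.2 (not_le.2 g1)
  have q1 : bd L E ⊆ D₁ ∪ D₂ := by
    rintro d ⟨h1, h2⟩
    have h3 : L.hd d ∈ B := hB.cl d h1.1
    have h4 : n (L.hd d) < n α.1 := by
      by_contra h5
      exact h2 ⟨h3, not_lt.1 h5⟩
    have h5 : (0 : ℤ) < L.M (L.ty d) (L.tl d) (L.hd d) := by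
      exact_mod_cast oc_M_pos ⟨d, rfl, rfl, rfl⟩
    have h6 : (0 : ℤ) < (L.M (L.ty d) (L.tl d) (L.hd d) : ℤ) * (n (L.tl d) - n (L.hd d)) :=
      mul_pos h5 (by linarith [h1.2])
    rw [hfl] at h6
    by_cases h7 : t = L.ty d ∧ α = (L.tl d, L.hd d)
    · exact Or.inl ⟨h7.1.symm, h7.2.symm⟩
    · by_cases h8 : L.bar t = L.ty d ∧ β = (L.hd d, L.tl d)
      · exact Or.inr ⟨h8.1.symm, h8.2.symm⟩
      · rw [ocI_neg h7, ocI_neg h8] at h6
        have h9 := ocI_nonneg (t = L.ty d ∧ β = (L.tl d, L.hd d))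
        have h10 := ocI_nonneg (L.bar t = L.ty d ∧ α = (L.hd d, L.tl d))
        linarith
  have q2 : D₁ ⊆ bd L E := by
    rintro d ⟨h1, h2⟩
    constructor
    · rw [show L.tl d = α.1 from congrArg Prod.fst h2]
      exact e1
    · rw [show L.hd d = α.2 from congrArg Prod.snd h2]
      exact e2
  have q3 : 2 ≤ (bd L E).ncard := hv E e1 (by
    rintro y hy
    have hy' : y = α.2 := hy
    rw [hy']
    exact e2)
  have k1 : D₁.ncard = L.M t α.1 α.2 := by
    unfold LS.M
    congr 1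
    ext d
    constructor
    · rintro ⟨h1, h2⟩
      exact ⟨congrArg Prod.fst h2, h1, congrArg Prod.snd h2⟩
    · rintro ⟨h1, h2, h3⟩
      exact ⟨h2, Prod.ext h1 h3⟩
  have k2 : D₂.ncard = L.M (L.bar t) β.2 β.1 := by
    unfold LS.M
    congr 1
    ext d
    constructor
    · rintro ⟨h1, h2⟩
      exact ⟨congrArg Prod.snd h2, h1, congrArg Prod.fst h2⟩
    · rintro ⟨h1, h2, h3⟩
      exact ⟨h2, Prod.ext h3 h1⟩
  -- the facts which do not depend on the case
  obtain ⟨r1, r2, r3, r4, r5, r6⟩ : (bd L E = D₁ ∪ D₂) ∧ (bd L E).ncard = 2 ∧ β.2 ∈ E ∧ β.1 ∉ E ∧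
      n α.1 = n α.2 + 1 ∧ n β.2 = n β.1 + 1 := by
    by_cases hc : L.bar t = t ∧ β = (α.2, α.1)
    · obtain ⟨hc1, hc2⟩ := hc
      have h1 : D₂ = D₁ := by
        ext d
        constructor
        · rintro ⟨h1, h2⟩
          rw [hc2] at h2
          exact ⟨h1.trans hc1, Prod.ext (congrArg Prod.snd h2) (congrArg Prod.fst h2)⟩
        · rintro ⟨h1, h2⟩
          refine ⟨h1.trans hc1.symm, ?_⟩
          rw [hc2]
          exact Prod.ext (congrArg Prod.snd h2) (congrArg Prod.fst h2)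
      rw [h1, Set.union_self] at q1 ⊢
      have h2 : bd L E = D₁ := Set.Subset.antisymm q1 q2
      rw [ocI_pos (⟨hc1, hc2⟩ : L.bar t = t ∧ β = (α.2, α.1))] at f1
      have h3 : 2 ≤ L.M t α.1 α.2 := by
        rw [← k1, ← h2]
        exact q3
      have h3' : (2 : ℤ) ≤ (L.M t α.1 α.2 : ℤ) := by exact_mod_cast h3
      have h4 : (L.M t α.1 α.2 : ℤ) * (n α.1 - n α.2) = 2 := by linarith
      have h5 : n α.1 - n α.2 = 1 := by nlinarith
      rw [h5, mul_one] at h4
      have h6 : L.M t α.1 α.2 = 2 := by exact_mod_cast h4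
      refine ⟨h2, ?_, ?_, ?_, by linarith, ?_⟩
      · rw [h2, k1, h6]
      · rw [hc2]
        exact e1
      · rw [hc2]
        exact e2
      · rw [hc2]
        show n α.1 = n α.2 + 1
        linarith
    · rw [ocI_neg hc] at f1
      have h1 : (L.M t α.1 α.2 : ℤ) * (n α.1 - n α.2) = 1 := by linarith
      have h2 : (L.M t α.1 α.2 : ℤ) = 1 :=
        Int.eq_one_of_dvd_one (by linarith) ⟨_, h1.symm⟩
      have h3 : n α.1 - n α.2 = 1 := by
        rw [h2, one_mul] at h1
        exact h1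
      have h4 : D₁.ncard = 1 := by
        rw [k1]
        exact_mod_cast h2
      have h5 : ∃ d ∈ bd L E, d ∉ D₁ := by
        by_contra h6
        push Not at h6
        have h7 := Set.ncard_le_ncard (show bd L E ⊆ D₁ from h6) (Set.toFinite _)
        omega
      obtain ⟨d, h6, h7⟩ := h5
      have h8 : d ∈ D₂ := (q1 h6).resolve_left h7
      have h9 : L.tl d = β.2 := congrArg Prod.snd h8.2
      have h10 : L.hd d = β.1 := congrArg Prod.fst h8.2
      have h11 : β.2 ∈ E := by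
        rw [← h9]
        exact h6.1
      have h12 : β.1 ∉ E := by
        rw [← h10]
        exact h6.2
      have h13 : D₂ ⊆ bd L E := by
        rintro d' ⟨b1, b2⟩
        constructor
        · rw [show L.tl d' = β.2 from congrArg Prod.snd b2]
          exact h11
        · rw [show L.hd d' = β.1 from congrArg Prod.fst b2]
          exact h12
      have f2 := hfl (L.bar t) β.2 β.1
      rw [ocI_neg (fun b1 : t = L.bar t ∧ α = (β.2, β.1) => hc ⟨b1.1.symm, by rw [b1.2]⟩),
        ocI_pos (⟨rfl, rfl⟩ : L.bar t = L.bar t ∧ β = (β.1, β.2)),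
        ocI_neg (fun b1 : t = L.bar t ∧ β = (β.2, β.1) => hsw β hb b1.2),
        ocI_neg (fun b1 : L.bar t = L.bar t ∧ α = (β.1, β.2) => hαβ b1.2)] at f2
      have h14 : (L.M (L.bar t) β.2 β.1 : ℤ) * (n β.2 - n β.1) = 1 := by linarith
      have h15 : (L.M (L.bar t) β.2 β.1 : ℤ) = 1 :=
        Int.eq_one_of_dvd_one (by positivity) ⟨_, h14.symm⟩
      have h16 : n β.2 - n β.1 = 1 := by
        rw [h15, one_mul] at h14
        exact h14
      have h17 : D₂.ncard = 1 := by
        rw [k2]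
        exact_mod_cast h15
      have h18 : bd L E = D₁ ∪ D₂ := Set.Subset.antisymm q1 (Set.union_subset q2 h13)
      have h19 : Disjoint D₁ D₂ := by
        rw [Set.disjoint_left]
        rintro d' ⟨b1, b2⟩ ⟨b3, b4⟩
        apply hc
        refine ⟨b3.symm.trans b1, ?_⟩
        rw [← b4, ← b2]
      refine ⟨h18, ?_, h11, h12, by linarith, by linarith⟩
      rw [h18, Set.ncard_union_eq h19 (Set.toFinite _) (Set.toFinite _), h4, h17]
  -- the levels
  have s1 : n β.2 = n α.2 + 1 := by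
    have h1 := r3.2
    have h2 : n β.1 < n α.1 := by
      by_contra h3
      exact r4 ⟨hbB, not_lt.1 h3⟩
    omega
  have s2 : n β.1 = n α.2 := by linarith
  have s3 : ∀ x ∈ B, n x = n α.2 + 1 ∨ n x = n α.2 := by
    have h0 : ∀ x, Cd L α.1 x → n x = n α.2 + 1 ∨ n x = n α.2 := by
      intro x hx
      induction hx with
      | refl => exact Or.inl r5
      | tail _ h2 ih =>
        obtain ⟨d, rfl, rfl⟩ := h2
        by_cases h3 : n (L.tl d) = n (L.hd d)
        · rw [← h3]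
          exact ih
        · have h5 : (0 : ℤ) < L.M (L.ty d) (L.tl d) (L.hd d) := by
            exact_mod_cast oc_M_pos ⟨d, rfl, rfl, rfl⟩
          have h6 : (L.M (L.ty d) (L.tl d) (L.hd d) : ℤ) * (n (L.tl d) - n (L.hd d)) ≠ 0 :=
            mul_ne_zero h5.ne' (sub_ne_zero.2 h3)
          rw [hfl] at h6
          by_cases h7 : t = L.ty d ∧ α = (L.tl d, L.hd d)
          · right
            rw [h7.2]
          · by_cases h8 : L.bar t = L.ty d ∧ β = (L.hd d, L.tl d)
            · right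
              rw [← s2, h8.2]
            · by_cases h9 : t = L.ty d ∧ β = (L.tl d, L.hd d)
              · left
                rw [← s1, h9.2]
              · by_cases h10 : L.bar t = L.ty d ∧ α = (L.hd d, L.tl d)
                · left
                  rw [← r5, h10.2]
                · rw [ocI_neg h7, ocI_neg h8, ocI_neg h9, ocI_neg h10] at h6
                  exact absurd (by norm_num) h6
    intro x hx
    exact h0 x (hB.cn _ haB _ hx)
  refine ⟨E, ⟨fun x hx => hx.1, e1, ⟨hα2, e2⟩, r3, ⟨hbB, r4⟩, ?_, r2, hv, ?_⟩,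
    n α.2, hn _, ?_, ?_⟩
  · intro d
    rw [r1]
    rfl
  · -- `vb`
    have hv' : Cut L 2 α.2 {α.1} := cut_symm hv
    refine cut_symm ?_
    intro S hS1 hS2
    have hS2' : β.1 ∉ S := hS2 _ rfl
    by_contra hlt
    have hD2S : D₂ ⊆ bd L S := by
      rintro d' ⟨b1, b2⟩
      constructor
      · rw [show L.tl d' = β.2 from congrArg Prod.snd b2]
        exact hS1
      · rw [show L.hd d' = β.1 from congrArg Prod.fst b2]
        exact hS2'
    have hD2le : D₂.ncard ≤ 1 := by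
      have := Set.ncard_le_ncard hD2S (Set.toFinite _)
      omega
    have hD2ne : D₂.Nonempty := by
      obtain ⟨d, h1, h2, h3⟩ := dt_symm hdb
      exact ⟨d, h3, Prod.ext h2 h1⟩
    obtain ⟨b, hb1⟩ := hD2ne
    have hSb : ∀ d ∈ bd L S, d = b := by
      intro d hd
      by_contra hne
      have h5 : ({d, b} : Set D) ⊆ bd L S := by
        rintro z (rfl | rfl)
        · exact hd
        · exact hD2S hb1
      have h6 := Set.ncard_le_ncard h5 (Set.toFinite _)
      rw [Set.ncard_pair hne] at h6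
      omega
    -- the elements of `D₁`
    have hD1b : ∀ a ∈ D₁, a ≠ b → ∀ a' ∈ D₁, a' ≠ b → a' = a := by
      intro a h1 h2 a' h3 h4
      by_contra hne
      have h5 : ({a, a', b} : Set D) ⊆ bd L E := by
        rw [r1]
        rintro z (rfl | rfl | rfl)
        · exact Or.inl h1
        · exact Or.inl h3
        · exact Or.inr hb1
      have h6 := Set.ncard_le_ncard h5 (Set.toFinite _)
      have h7 : ({a, a', b} : Set D).ncard = 3 := by
        rw [Set.ncard_eq_three]
        exact ⟨a, a', b, fun h => hne h.symm, h2, h4, rfl⟩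
      omega
    have hbE : bd L E ≠ {b} := by
      intro h1
      rw [h1, Set.ncard_singleton] at r2
      omega
    obtain ⟨a, ha1, ha2⟩ : ∃ a ∈ D₁, a ≠ b := by
      by_contra h1
      push Not at h1
      apply hbE
      ext d
      constructor
      · intro h2
        rw [r1] at h2
        rcases h2 with h2 | h2
        · exact h1 d h2
        · exact hSb d (hD2S h2)
      · intro h2
        have h2' : d = b := h2
        rw [h2', r1]
        exact Or.inr hb1
    have hEab : ∀ d ∈ bd L E, d = a ∨ d = b := by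
      intro d hd
      rw [r1] at hd
      rcases hd with hd | hd
      · by_cases h1 : d = b
        · exact Or.inr h1
        · exact Or.inl (hD1b a ha1 ha2 d hd h1)
      · exact Or.inr (hSb d (hD2S hd))
    have ta : L.tl a = α.1 := congrArg Prod.fst ha1.2
    have hda' : L.hd a = α.2 := congrArg Prod.snd ha1.2
    have tb : L.tl b = β.2 := congrArg Prod.snd hb1.2
    have hdb' : L.hd b = β.1 := congrArg Prod.fst hb1.2
    have hrab : L.rv a ≠ b := by
      intro h1
      apply hαβ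
      have h2 : L.tl b = α.2 := by
        rw [← h1]
        exact hda'
      have h3 : L.hd b = α.1 := by
        rw [← h1, hd_rv, ta]
      exact Prod.ext (by rw [← h3, hdb']) (by rw [← h2, tb])
    by_cases hA1 : α.1 ∈ S
    · have hA2 : α.2 ∈ S := by
        by_contra h1
        exact ha2 (hSb a ⟨by rw [ta]; exact hA1, by rw [hda']; exact h1⟩)
      have h1 := hv' (S \ E) ⟨hA2, e2⟩ (by
        rintro y hy hy'
        have h2 : y = α.1 := hy
        rw [h2] at hy'
        exact hy'.2 e1)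
      have h2 : bd L (S \ E) ⊆ {L.rv a} := by
        rintro d ⟨⟨b1, b2⟩, b3⟩
        by_cases b4 : L.hd d ∈ S
        · have b5 : L.hd d ∈ E := by
            by_contra b6
            exact b3 ⟨b4, b6⟩
          have b6 : L.rv d ∈ bd L E := ⟨b5, by rw [hd_rv]; exact b2⟩
          rcases hEab _ b6 with b7 | b7
          · show d = L.rv a
            rw [← b7, L.rv_rv]
          · exfalso
            apply hS2'
            rw [← hdb', ← b7, hd_rv]
            exact b1
        · exfalso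
          have b5 : d = b := hSb d ⟨b1, b4⟩
          apply b2
          rw [b5, tb]
          exact r3
      have h3 := Set.ncard_le_ncard h2 (Set.toFinite _)
      rw [Set.ncard_singleton] at h3
      omega
    · have hA2 : α.2 ∉ S := by
        intro h1
        exact hrab (hSb (L.rv a) ⟨by
          show L.hd a ∈ S
          rw [hda']
          exact h1, by
          rw [hd_rv, ta]
          exact hA1⟩)
      have h1 := hv (E \ S) ⟨e1, hA1⟩ (by
        rintro y hy hy'
        have h2 : y = α.2 := hy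
        rw [h2] at hy'
        exact e2 hy'.1)
      have h2 : bd L (E \ S) ⊆ {a} := by
        rintro d ⟨⟨b1, b2⟩, b3⟩
        by_cases b4 : L.hd d ∈ S
        · exfalso
          have b5 : L.rv d = b := hSb (L.rv d) ⟨b4, by
            rw [hd_rv]
            exact b2⟩
          apply r4
          rw [← hdb', ← b5, hd_rv]
          exact b1
        · have b5 : L.hd d ∉ E := fun b6 => b3 ⟨b6, b4⟩
          rcases hEab d ⟨b1, b5⟩ with b7 | b7
          · exact b7
          · exfalso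
            apply b2
            rw [b7, tb]
            exact hS1
      have h3 := Set.ncard_le_ncard h2 (Set.toFinite _)
      rw [Set.ncard_singleton] at h3
      omega
  · intro x hx hxE
    rcases s3 x hx with h1 | h1
    · exact h1
    · exfalso
      have h2 := hxE.2
      omega
  · intro x hx hxE
    rcases s3 x hx with h1 | h1
    · exfalso
      apply hxE
      exact ⟨hx, by omega⟩
    · exact h1

theorem oc_main {δ : Δ} (h : EL N {δ} f e) (hne : evt N f e δ ≠ evh N f e δ)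
    (hv : CutV L 2 (evt N f e δ) ∨ CutV L 2 (evh N f e δ)) {B : Set V} (hB : Comp L B)
    (hfB : ∀ w, f w ∈ B) :
    ∃ E, OneC L B (N.ty δ) (evt N f e δ) (evh N f e δ) E ∧ ∃ c : ℤ, 0 ≤ c ∧
      (∀ x ∈ B, x ∈ E → nf f x = c + 1) ∧ ∀ x ∈ B, x ∉ E → nf f x = c := by
  have ha : (evt N f e δ).1 ≠ (evt N f e δ).2 := fun h1 => hne (val_loop h (Or.inl h1))
  have hb : (evh N f e δ).1 ≠ (evh N f e δ).2 := fun h1 => hne (val_loop h (Or.inr h1))
  obtain ⟨hda, hdb⟩ := val_dt h δ
  have hn : ∀ x, 0 ≤ nf f x := by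
    intro x
    unfold nf
    positivity
  have haB : (evt N f e δ).1 ∈ B := hfB _
  have hbB2 : (evh N f e δ).2 ∈ B := hfB _
  have hbB : (evh N f e δ).1 ∈ B := comp_dt hB (dt_symm hdb) hbB2
  have hfl : OcFl L (N.ty δ) (evt N f e δ) (evh N f e δ) (nf f) := fun s x y => oc_flow h s x y
  rcases hv with hv | hv
  · exact oc_abs hn hfl hne ha hb hda hdb hB haB hbB hv
  · have hα2 : (evt N f e δ).2 ∈ B := comp_dt hB hda haB
    have hfl' : OcFl L (L.bar (N.ty δ)) ((evh N f e δ).2, (evh N f e δ).1)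
        ((evt N f e δ).2, (evt N f e δ).1) (nf f) := by
      intro s x y
      rw [hfl s x y, L.bar_bar]
      have e1 : ∀ γ : V × V, ∀ x y : V, (γ.2, γ.1) = (x, y) ↔ γ = (y, x) := by
        intro γ x y
        constructor
        · intro h1
          exact Prod.ext (congrArg Prod.snd h1) (congrArg Prod.fst h1)
        · intro h1
          rw [h1]
      rw [ocI_congr (show (L.bar (N.ty δ) = s ∧ ((evh N f e δ).2, (evh N f e δ).1) = (x, y)) ↔
          (L.bar (N.ty δ) = s ∧ evh N f e δ = (y, x)) from and_congr_right (fun _ => e1 _ _ _)),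
        ocI_congr (show (N.ty δ = s ∧ ((evt N f e δ).2, (evt N f e δ).1) = (y, x)) ↔
          (N.ty δ = s ∧ evt N f e δ = (x, y)) from and_congr_right (fun _ => e1 _ _ _)),
        ocI_congr (show (L.bar (N.ty δ) = s ∧ ((evt N f e δ).2, (evt N f e δ).1) = (x, y)) ↔
          (L.bar (N.ty δ) = s ∧ evt N f e δ = (y, x)) from and_congr_right (fun _ => e1 _ _ _)),
        ocI_congr (show (N.ty δ = s ∧ ((evh N f e δ).2, (evh N f e δ).1) = (y, x)) ↔
          (N.ty δ = s ∧ evh N f e δ = (x, y)) from and_congr_right (fun _ => e1 _ _ _))]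
      ring
    obtain ⟨E, hE, hc⟩ := oc_abs (α := ((evh N f e δ).2, (evh N f e δ).1))
      (β := ((evt N f e δ).2, (evt N f e δ).1)) hn hfl' (by
        intro h1
        apply hne
        exact Prod.ext (congrArg Prod.snd h1).symm (congrArg Prod.fst h1).symm)
      hb.symm ha.symm (dt_symm hdb) (dt_symm hda) hB hbB2 hα2 (cut_symm hv)
    refine ⟨E, ⟨hE.sub, hE.b2, hE.b1, hE.a1, hE.a2, ?_, hE.two, cut_symm hE.vb, hv⟩, hc⟩
    intro d
    rw [hE.bd d, L.bar_bar]
    constructor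
    · rintro (⟨h1, h2⟩ | ⟨h1, h2⟩)
      · exact Or.inr ⟨h1, Prod.ext (congrArg Prod.snd h2) (congrArg Prod.fst h2)⟩
      · exact Or.inl ⟨h1, Prod.ext (congrArg Prod.snd h2) (congrArg Prod.fst h2)⟩
    · rintro (⟨h1, h2⟩ | ⟨h1, h2⟩)
      · exact Or.inr ⟨h1, Prod.ext (congrArg Prod.snd h2) (congrArg Prod.fst h2)⟩
      · exact Or.inl ⟨h1, Prod.ext (congrArg Prod.snd h2) (congrArg Prod.fst h2)⟩

omit [Finite D] [Finite Δ] in
theorem oc_size {B E : Set V} (hE : E ⊆ B) {c : ℤ} (hfB : ∀ w, f w ∈ B)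
    (h1 : ∀ x ∈ B, x ∈ E → nf f x = c + 1) (h2 : ∀ x ∈ B, x ∉ E → nf f x = c) :
    (Nat.card W : ℤ) = c * (B.ncard : ℤ) + E.ncard := by
  classical
  have := Fintype.ofFinite W
  have := Fintype.ofFinite V
  have h3 := Finset.card_eq_sum_card_fiberwise (s := (Finset.univ : Finset W))
    (t := Finset.univ.filter (fun x => x ∈ B)) (f := f) (by
      intro w _
      exact Finset.mem_coe.2 (Finset.mem_filter.2 ⟨Finset.mem_univ _, hfB w⟩))
  have h4 : ∀ x, ((Finset.univ.filter (fun w => f w = x)).card : ℤ) = nf f x := by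
    intro x
    unfold nf
    rw [← Set.ncard_coe_finset]
    congr 2
    ext w
    simp
  have h5 : (Nat.card W : ℤ) = ∑ x ∈ Finset.univ.filter (fun x => x ∈ B), nf f x := by
    rw [Nat.card_eq_fintype_card, ← Finset.card_univ, h3, Nat.cast_sum]
    exact Finset.sum_congr rfl (fun x _ => h4 x)
  have h6 : ∀ x ∈ Finset.univ.filter (fun x => x ∈ B), nf f x = c + (if x ∈ E then 1 else 0) := by
    intro x hx
    have hxB := (Finset.mem_filter.1 hx).2
    by_cases hxE : x ∈ E
    · rw [h1 x hxB hxE, if_pos hxE]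
    · rw [h2 x hxB hxE, if_neg hxE, add_zero]
  rw [h5, Finset.sum_congr rfl h6, Finset.sum_add_distrib, Finset.sum_const, ← Finset.sum_filter,
    Finset.sum_const, nsmul_eq_mul, nsmul_eq_mul, mul_one, Finset.filter_filter]
  have h7 : B = ((Finset.univ.filter (fun x => x ∈ B) : Finset V) : Set V) := by
    ext x
    simp
  have h8 : E = ((Finset.univ.filter (fun x => x ∈ B ∧ x ∈ E) : Finset V) : Set V) := by
    ext x
    simp only [Finset.coe_filter, Finset.mem_univ, true_and, Set.mem_ofPred_eq]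
    exact ⟨fun h9 => ⟨hE h9, h9⟩, fun h9 => h9.2⟩
  have h9 : (B.ncard : ℤ) = ((Finset.univ.filter (fun x => x ∈ B)).card : ℤ) := by
    conv_lhs => rw [h7]
    rw [Set.ncard_coe_finset]
  have h10 : (E.ncard : ℤ) = ((Finset.univ.filter (fun x => x ∈ B ∧ x ∈ E)).card : ℤ) := by
    conv_lhs => rw [h8]
    rw [Set.ncard_coe_finset]
  rw [h9, h10]
  ring

omit [Finite V] in
theorem oc_bridge (h : EL N ∅ f e) {A : Set W} {δ₀ : Δ} (h1 : N.tl δ₀ ∈ A) (h2 : N.hd δ₀ ∉ A)
    (h3 : ∀ δ, N.tl δ ∈ A → N.hd δ ∉ A → δ = δ₀) : ¬ CutV L 2 (evt N f e δ₀) := by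
  classical
  have := Fintype.ofFinite Δ
  let a : V → ℤ := fun x => ({w | w ∈ A ∧ f w = x}.ncard : ℤ)
  -- the darts inside and the darts which leave
  let mi : T → V → V → Set Δ := fun t x y =>
    {δ | N.tl δ ∈ A ∧ N.hd δ ∈ A ∧ N.ty δ = t ∧ f (N.tl δ) = x ∧ e δ = y}
  let mo : T → V → V → Set Δ := fun t x y =>
    {δ | N.tl δ ∈ A ∧ N.hd δ ∉ A ∧ N.ty δ = t ∧ f (N.tl δ) = x ∧ e δ = y}
  have hcount : ∀ t x y, (L.M t x y : ℤ) * a x = ((mi t x y).ncard : ℤ) + (mo t x y).ncard := by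
    intro t x y
    have h4 := flow_count h (fun w => w ∈ A) t x y True
    unfold nq at h4
    have h5 : {w | (w ∈ A) = True ∧ f w = x} = {w | w ∈ A ∧ f w = x} := by
      ext w
      simp
    rw [h5] at h4
    change (L.M t x y : ℤ) * ({w | w ∈ A ∧ f w = x}.ncard : ℤ) = _
    rw [← h4]
    have h6 : {δ | N.ty δ = t ∧ (N.tl δ ∈ A) = True ∧ f (N.tl δ) = x ∧ e δ = y} =
        mi t x y ∪ mo t x y := by
      ext δ
      constructor
      · rintro ⟨b1, b2, b3, b4⟩
        have b2' : N.tl δ ∈ A := of_eq_true b2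
        by_cases hh : N.hd δ ∈ A
        · exact Or.inl ⟨b2', hh, b1, b3, b4⟩
        · exact Or.inr ⟨b2', hh, b1, b3, b4⟩
      · rintro (⟨b2, _, b1, b3, b4⟩ | ⟨b2, _, b1, b3, b4⟩)
        · exact ⟨b1, eq_true b2, b3, b4⟩
        · exact ⟨b1, eq_true b2, b3, b4⟩
    have h7 : Disjoint (mi t x y) (mo t x y) := by
      rw [Set.disjoint_left]
      rintro δ ⟨_, c1, _⟩ ⟨_, c2, _⟩
      exact c2 c1
    rw [h6, Set.ncard_union_eq h7 (Set.toFinite _) (Set.toFinite _)]
    push_cast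
    ring
  have hmi : ∀ t x y, (mi (L.bar t) y x).ncard = (mi t x y).ncard := by
    intro t x y
    refine Set.ncard_congr (fun δ _ => N.rv δ) ?_ ?_ ?_
    · rintro δ ⟨b1, b2, b3, b4, b5⟩
      refine ⟨b2, ?_, ?_, ?_, ?_⟩
      · rw [hon_nhd_rv]
        exact b1
      · rw [N.ty_rv, b3, L.bar_bar]
      · rw [hon_f_hd h, b5]
      · rw [hon_e_rv h, b4]
    · intro δ δ' _ _ h4
      exact hon_nrv_inj N h4
    · rintro δ ⟨b1, b2, b3, b4, b5⟩
      refine ⟨N.rv δ, ⟨b2, ?_, ?_, ?_, ?_⟩, N.rv_rv δ⟩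
      · rw [hon_nhd_rv]
        exact b1
      · rw [N.ty_rv, b3]
      · rw [hon_f_hd h, b5]
      · rw [hon_e_rv h, b4]
  have hflow : ∀ t x y, (L.M t x y : ℤ) * (a x - a y) =
      ((mo t x y).ncard : ℤ) - (mo (L.bar t) y x).ncard := by
    intro t x y
    have h4 := hcount t x y
    have h5 := hcount (L.bar t) y x
    rw [M_bar, hmi] at h5
    rw [mul_sub, h4, h5]
    ring
  have hmo1 : ∀ t x y, (mo t x y).ncard ≤ 1 := by
    intro t x y
    rw [Set.ncard_le_one (Set.toFinite _)]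
    rintro δ ⟨b1, b2, -⟩ δ' ⟨b1', b2', -⟩
    rw [h3 δ b1 b2, h3 δ' b1' b2']
  have hmo2 : ∀ t x y, 0 < (mo t x y).ncard → N.ty δ₀ = t ∧ f (N.tl δ₀) = x ∧ e δ₀ = y := by
    intro t x y h4
    obtain ⟨δ, b1, b2, b3⟩ := (Set.ncard_pos (Set.toFinite _)).1 h4
    rw [h3 δ b1 b2] at b3
    exact b3
  set x₁ := f (N.tl δ₀) with hx₁
  set y₁ := e δ₀ with hy₁
  set t₁ := N.ty δ₀ with ht₁
  have hM1 : 0 < L.M t₁ x₁ y₁ := by
    rw [hx₁, ← h.star (N.tl δ₀) t₁ y₁]
    rw [Set.ncard_pos (Set.toFinite _)]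
    exact ⟨δ₀, rfl, rfl, rfl⟩
  have hmo3 : (mo t₁ x₁ y₁).ncard = 1 := by
    refine le_antisymm (hmo1 _ _ _) ?_
    have : 0 < (mo t₁ x₁ y₁).ncard := by
      rw [Set.ncard_pos (Set.toFinite _)]
      exact ⟨δ₀, h1, h2, rfl, rfl, rfl⟩
    exact this
  have hne : x₁ ≠ y₁ := by
    intro hxy
    rw [← hxy] at hmo3
    by_cases hb : L.bar t₁ = t₁
    · have c1 := hcount t₁ x₁ x₁
      rw [hmo3] at c1
      have c2 : Even ((L.M t₁ x₁ x₁ : ℤ) * a x₁) :=
        Even.mul_right (by exact_mod_cast M_even L hb x₁) _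
      have c3 : Even (mi t₁ x₁ x₁).ncard := by
        rw [Set.ncard_eq_toFinset_card']
        refine hon_even _ N.rv ?_ (fun δ _ => N.rv_rv δ) (fun δ _ => N.rv_ne δ)
        intro δ hδ
        rw [Set.mem_toFinset] at hδ ⊢
        obtain ⟨b1, b2, b3, b4, b5⟩ := hδ
        refine ⟨b2, ?_, ?_, ?_, ?_⟩
        · rw [hon_nhd_rv]
          exact b1
        · rw [N.ty_rv, b3, hb]
        · rw [hon_f_hd h, b5]
        · rw [hon_e_rv h, b4]
      rw [c1] at c2
      obtain ⟨i, hi⟩ := c2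
      obtain ⟨j, hj⟩ := c3
      rw [hj] at hi
      push_cast at hi
      omega
    · have c1 := hflow t₁ x₁ x₁
      rw [hmo3, sub_self, mul_zero] at c1
      have c2 : (mo (L.bar t₁) x₁ x₁).ncard = 0 := by
        by_contra h4
        have h5 := hmo2 _ _ _ (Nat.pos_of_ne_zero h4)
        exact hb h5.1.symm
      rw [c2] at c1
      norm_num at c1
  have hmo4 : (mo (L.bar t₁) y₁ x₁).ncard = 0 := by
    by_contra h4
    have h5 := hmo2 _ _ _ (Nat.pos_of_ne_zero h4)
    exact hne h5.2.1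
  have h5 : (L.M t₁ x₁ y₁ : ℤ) * (a x₁ - a y₁) = 1 := by
    rw [hflow, hmo3, hmo4]
    norm_num
  have hM1' : (L.M t₁ x₁ y₁ : ℤ) = 1 := by
    have h6 : (L.M t₁ x₁ y₁ : ℤ) ∣ 1 := ⟨_, h5.symm⟩
    exact Int.eq_one_of_dvd_one (by positivity) h6
  have ha : a x₁ = a y₁ + 1 := by
    rw [hM1'] at h5
    linarith
  intro hcut
  have h6 := hcut {v | a x₁ ≤ a v} (le_refl (a x₁)) (by
    intro y hy hy'
    have hy1 : y = y₁ := hy
    rw [hy1] at hy'
    have hy2 : a x₁ ≤ a y₁ := hy'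
    linarith)
  have h7 : bd L {v | a x₁ ≤ a v} ⊆ {d | L.tl d = x₁ ∧ L.ty d = t₁ ∧ L.hd d = y₁} := by
    rintro d ⟨b1, b2⟩
    have b1' : a x₁ ≤ a (L.tl d) := b1
    have b2' : a (L.hd d) < a x₁ := not_le.1 b2
    have b3 := hflow (L.ty d) (L.tl d) (L.hd d)
    have b4 : (0 : ℤ) < L.M (L.ty d) (L.tl d) (L.hd d) := by
      have : 0 < L.M (L.ty d) (L.tl d) (L.hd d) := by
        unfold LS.M
        rw [Set.ncard_pos (Set.toFinite _)]
        exact ⟨d, rfl, rfl, rfl⟩
      exact_mod_cast this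
    have b5 : (0 : ℤ) < (L.M (L.ty d) (L.tl d) (L.hd d) : ℤ) * (a (L.tl d) - a (L.hd d)) :=
      mul_pos b4 (by linarith)
    have b6 : 0 < (mo (L.ty d) (L.tl d) (L.hd d)).ncard := by
      by_contra h8
      have h9 : (mo (L.ty d) (L.tl d) (L.hd d)).ncard = 0 := by omega
      rw [h9] at b3
      have h10 : (0 : ℤ) ≤ ((mo (L.bar (L.ty d)) (L.hd d) (L.tl d)).ncard : ℤ) := by positivity
      push_cast at b3
      linarith
    obtain ⟨c1, c2, c3⟩ := hmo2 _ _ _ b6
    exact ⟨c2.symm, c1.symm, c3.symm⟩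
  have h8 : (bd L {v | a x₁ ≤ a v}).ncard ≤ L.M t₁ x₁ y₁ :=
    Set.ncard_le_ncard h7 (Set.toFinite _)
  have h9 : L.M t₁ x₁ y₁ = 1 := by exact_mod_cast hM1'
  omega

theorem bridge_img' (h : EL N ∅ f e) {S : Set W} {δ₀ : Δ} (h1 : N.tl δ₀ ∈ S) (h2 : N.hd δ₀ ∉ S)
    (h3 : ∀ δ, N.tl δ ∈ S → N.hd δ ∉ S → δ = δ₀) : ¬ CutV L 2 (evt N f e δ₀) :=
  oc_bridge h h1 h2 h3

end Pool.Agent.H24.GK
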