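import Pool.Agent.H24.GJ.CycIff

/-!
# JOB GK-25: unions of components of graphs

`G.comap σ` for an injective `σ : B → A` is the subgraph of `G` on the range of `σ`. `Pt G σ`: `σ` is injective and its range is closed
under adjacency, so it is a union of components.

`pt_nb`: `σ` maps the neighbourhood of `a` in `G.comap σ` bijectively to the neighbourhood of `σ a`.
`pt_incl`: `pt_nb`.
`pt_restr`: for `a : B` choose `F' a` with `ι (F' a) = F (σ a)`; `pt_nb` on both sides.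
`pt_glue`: `F a = ι (F₁ b)` if `a = σ b`, otherwise `F a = ι' (F₂ b)` with `a = σ' b`. A neighbour of `σ b` is in the range of `σ`; a
neighbour of a vertex which is not in the range of `σ` is not in it (symmetry).
`pt_sim`: (→) not needed. If `s` is an equitable partition of `H` with `s (ι x) (ι y)` then the setoid `s (ι ·) (ι ·)` is equitable for
`H.comap ι`: the set `N(x) ∩ {w | s (ι w) (ι z)}` is mapped by `ι` to `N(ι x) ∩ {w | s w (ι z)}` bijectively (`pt_nb`).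
`pt_cr`: a set `C` of minimum degree two of `G.comap σ` gives `σ '' C`; a set `C` of minimum degree two of `G` gives `σ ⁻¹' C`
(`pt_nb`). `pt_cn`. 
`pt_typed`: for `a` let `e` be the bijection for `σ a`; `e (σ b)` is a neighbour of `π (σ a) = ι (π' a)`, so `e (σ b) = ι (e' b)`;
`pt_sim`.
`typed_reach`: (→) along a walk of `G` from `a`: a neighbour `b` of `a` gives the neighbour `e b` of `π a`, with `Sim H (e b) (π b)`;
a walk of `H` which starts at `π b` gives a walk which starts at `e b`, with ends `Sim` to each other (`exists_cp`). (←) along a walk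
of `H` which starts at `π a`: the neighbour `y` of `π a` is `e b` with `Sim H y (π b)`.
-/

namespace Pool.Agent.H24.GK

open Pool.Agent.H24.GC Pool.Agent.H24.GG Pool.Agent.H24.GJ

variable {A B B' V U U' : Type} {G : SimpleGraph A} {H : SimpleGraph V}

/-- `σ` is injective and its range is a union of components -/
structure Pt (G : SimpleGraph A) (σ : B → A) : Prop where
  inj : Function.Injective σ
  cl : ∀ b a, G.Adj (σ b) a → ∃ b', σ b' = a

theorem cov_trans {K : SimpleGraph U} (h1 : Covers G H) (h2 : Covers H K) : Covers G K := by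
  obtain ⟨f, hf⟩ := h1
  obtain ⟨g, hg⟩ := h2
  exact ⟨fun a => g (f a), fun a => (hg (f a)).comp (hf a)⟩

theorem pt_nb {σ : B → A} (h : Pt G σ) (b : B) :
    Set.BijOn σ ((G.comap σ).neighborSet b) (G.neighborSet (σ b)) := by
  refine ⟨fun c hc => hc, h.inj.injOn, ?_⟩
  intro a ha
  obtain ⟨c, rfl⟩ := h.cl b a ha
  exact ⟨c, ha, rfl⟩

theorem pt_incl {ι : U → V} (h : Pt H ι) : IsCover (H.comap ι) H ι :=
  fun u => pt_nb h u

theorem pt_restr {F : A → V} (hF : IsCover G H F) {σ : B → A} {ι : U → V} (hσ : Pt G σ)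
    (hι : Pt H ι) (h : ∀ b, ∃ u, ι u = F (σ b)) : Covers (G.comap σ) (H.comap ι) := by
  choose F' hF' using h
  refine ⟨F', fun b => ⟨?_, ?_, ?_⟩⟩
  · intro c hc
    show H.Adj (ι (F' b)) (ι (F' c))
    rw [hF', hF']
    exact (hF (σ b)).mapsTo hc
  · intro c hc d hd hcd
    refine hσ.inj ((hF (σ b)).injOn hc hd ?_)
    rw [← hF' c, ← hF' d, hcd]
  · intro u hu
    have hu' : H.Adj (ι (F' b)) (ι u) := hu
    rw [hF'] at hu'
    obtain ⟨a, ha, hau⟩ := (hF (σ b)).surjOn hu'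
    obtain ⟨c, rfl⟩ := hσ.cl b a ha
    refine ⟨c, ha, hι.inj ?_⟩
    rw [hF', hau]

theorem pt_compl_aux {σ : B → A} {σ' : B' → A} (hσ : Pt G σ) (hσ' : Function.Injective σ')
    (hu : ∀ a, (∃ b, σ' b = a) ↔ ¬ ∃ b, σ b = a) : Pt G σ' := by
  refine ⟨hσ', ?_⟩
  intro b a hba
  rw [hu]
  rintro ⟨c, rfl⟩
  exact (hu (σ' b)).1 ⟨b, rfl⟩ (hσ.cl c (σ' b) hba.symm)

theorem pt_bij_aux {σ : B → A} {F : A → V} {s : Set B} {t : Set A} {u : Set V}
    (h1 : Set.BijOn σ s t) (h2 : Set.BijOn (fun b => F (σ b)) s u) : Set.BijOn F t u := by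
  refine ⟨?_, ?_, ?_⟩
  · intro a ha
    obtain ⟨b, hb, rfl⟩ := h1.surjOn ha
    exact h2.mapsTo hb
  · intro a ha a' ha' haa
    obtain ⟨b, hb, rfl⟩ := h1.surjOn ha
    obtain ⟨b', hb', rfl⟩ := h1.surjOn ha'
    rw [h2.injOn hb hb' haa]
  · intro v hv
    obtain ⟨b, hb, rfl⟩ := h2.surjOn hv
    exact ⟨σ b, h1.mapsTo hb, rfl⟩

theorem pt_glue {σ : B → A} {σ' : B' → A} (hσ : Pt G σ) (hσ' : Function.Injective σ')
    (hu : ∀ a, (∃ b, σ' b = a) ↔ ¬ ∃ b, σ b = a) (h1 : Covers (G.comap σ) H)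
    (h2 : Covers (G.comap σ') H) : Covers G H := by
  classical
  have hσ2 : Pt G σ' := pt_compl_aux hσ hσ' hu
  obtain ⟨F₁, hF₁⟩ := h1
  obtain ⟨F₂, hF₂⟩ := h2
  let F : A → V := fun a => if h : ∃ b, σ b = a then F₁ h.choose
    else F₂ ((hu a).2 h).choose
  have e1 : ∀ b, F (σ b) = F₁ b := by
    intro b
    have h : ∃ c, σ c = σ b := ⟨b, rfl⟩
    have : F (σ b) = F₁ h.choose := dif_pos h
    rw [this, hσ.inj h.choose_spec]
  have e2 : ∀ b, F (σ' b) = F₂ b := by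
    intro b
    have h : ¬ ∃ c, σ c = σ' b := (hu _).1 ⟨b, rfl⟩
    have : F (σ' b) = F₂ ((hu (σ' b)).2 h).choose := dif_neg h
    rw [this, hσ' ((hu (σ' b)).2 h).choose_spec]
  refine ⟨F, fun a => ?_⟩
  by_cases ha : ∃ b, σ b = a
  · obtain ⟨b, rfl⟩ := ha
    refine pt_bij_aux (pt_nb hσ b) ?_
    rw [e1]
    have h3 : (fun c => F (σ c)) = F₁ := funext e1
    rw [h3]
    exact hF₁ b
  · obtain ⟨b, rfl⟩ := (hu a).2 ha
    refine pt_bij_aux (pt_nb hσ2 b) ?_
    rw [e2]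
    have h3 : (fun c => F (σ' c)) = F₂ := funext e2
    rw [h3]
    exact hF₂ b

theorem pt_compl {σ : B → A} {σ' : B' → A} (hσ : Pt G σ) (hσ' : Function.Injective σ')
    (hu : ∀ a, (∃ b, σ' b = a) ↔ ¬ ∃ b, σ b = a) : Pt G σ' :=
  pt_compl_aux hσ hσ' hu

theorem pt_sim {ι : U → V} (h : Pt H ι) {x y : U} (hs : Sim H (ι x) (ι y)) :
    Sim (H.comap ι) x y := by
  obtain ⟨s, hs, hxy⟩ := hs
  refine ⟨Setoid.comap ι s, ?_, hxy⟩
  intro a b z hab
  have key : ∀ c : U, ((H.comap ι).neighborSet c ∩ {w | (Setoid.comap ι s) w z}).ncard =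
      (H.neighborSet (ι c) ∩ {w | s w (ι z)}).ncard := by
    intro c
    have e : H.neighborSet (ι c) ∩ {w | s w (ι z)} =
        ι '' ((H.comap ι).neighborSet c ∩ {w | (Setoid.comap ι s) w z}) := by
      ext w
      constructor
      · rintro ⟨hw, hwz⟩
        obtain ⟨d, rfl⟩ := h.cl c w hw
        exact ⟨d, ⟨hw, hwz⟩, rfl⟩
      · rintro ⟨d, ⟨hd, hdz⟩, rfl⟩
        exact ⟨hd, hdz⟩
    rw [e, Set.ncard_image_of_injective _ h.inj]
  rw [key, key]
  exact hs (ι a) (ι b) (ι z) hab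

theorem pt_cr {σ : B → A} (h : Pt G σ) (b : B) : Cr (G.comap σ) b ↔ Cr G (σ b) :=
  cr_of_cover (pt_incl h) b

theorem pt_cn {σ : B → A} (h : Pt G σ) (b : B) :
    Set.BijOn σ (cn (G.comap σ) b) (cn G (σ b)) := by
  refine ⟨?_, h.inj.injOn, ?_⟩
  · rintro c ⟨hc, hc'⟩
    exact ⟨hc, (pt_cr h c).1 hc'⟩
  · rintro a ⟨ha, ha'⟩
    obtain ⟨c, rfl⟩ := h.cl b a ha
    exact ⟨c, ⟨ha, (pt_cr h c).2 ha'⟩, rfl⟩

theorem pt_br {σ : B → A} (h : Pt G σ) (b : B) : Br (G.comap σ) b ↔ Br G (σ b) := by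
  have e : (cn G (σ b)).ncard = (cn (G.comap σ) b).ncard := by
    rw [← (pt_cn h b).image_eq, Set.ncard_image_of_injective _ h.inj]
  unfold Br
  rw [pt_cr h, e]

theorem pt_walk_aux {σ : B → A} (h : Pt G σ) {x y : A} (p : G.Walk x y) :
    ∀ b b', σ b = x → σ b' = y → (G.comap σ).Reachable b b' := by
  induction p with
  | nil =>
    intro b b' hb hb'
    have : b = b' := h.inj (hb.trans hb'.symm)
    rw [this]
  | cons hadj _ ih =>
    intro b b' hb hb'
    subst hb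
    obtain ⟨c, hc⟩ := h.cl b _ hadj
    have h1 : (G.comap σ).Adj b c := by
      show G.Adj (σ b) (σ c)
      rw [hc]
      exact hadj
    exact h1.reachable.trans (ih c b' hc hb')

theorem pt_reach {σ : B → A} (h : Pt G σ) (b b' : B) :
    (G.comap σ).Reachable b b' ↔ G.Reachable (σ b) (σ b') := by
  constructor
  · intro hr
    exact hr.map (SimpleGraph.Hom.comap σ G)
  · rintro ⟨p⟩
    exact pt_walk_aux h p b b' rfl rfl

theorem pt_typed {π : A → V} (hπ : Typed G H π) {σ : B → A} {ι : U → V} (hσ : Pt G σ)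
    (hι : Pt H ι) {π' : B → U} (h : ∀ b, ι (π' b) = π (σ b)) :
    Typed (G.comap σ) (H.comap ι) π' := by
  classical
  intro b
  obtain ⟨e, he, hs⟩ := hπ (σ b)
  have key : ∀ c, G.Adj (σ b) (σ c) → ∃ u, ι u = e (σ c) := by
    intro c hc
    refine hι.cl (π' b) _ ?_
    rw [h]
    exact he.mapsTo hc
  let e' : B → U := fun c => if hc : G.Adj (σ b) (σ c) then (key c hc).choose else π' c
  have he' : ∀ c, G.Adj (σ b) (σ c) → ι (e' c) = e (σ c) := by
    intro c hc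
    have : e' c = (key c hc).choose := dif_pos hc
    rw [this]
    exact (key c hc).choose_spec
  refine ⟨e', ⟨?_, ?_, ?_⟩, ?_⟩
  · intro c hc
    show H.Adj (ι (π' b)) (ι (e' c))
    rw [h, he' c hc]
    exact he.mapsTo hc
  · intro c hc d hd hcd
    refine hσ.inj (he.injOn hc hd ?_)
    rw [← he' c hc, ← he' d hd, hcd]
  · intro u hu
    have hu' : H.Adj (ι (π' b)) (ι u) := hu
    rw [h] at hu'
    obtain ⟨a, ha, hau⟩ := he.surjOn hu'
    obtain ⟨c, rfl⟩ := hσ.cl b a ha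
    refine ⟨c, ha, hι.inj ?_⟩
    rw [he' c ha, hau]
  · intro c hc
    refine pt_sim hι ?_
    rw [he' c hc, h]
    exact hs (σ c) hc

theorem sim_walk_aux [Finite V] {R : V → Prop} (hR : ∀ x y, Sim H x y → (R x ↔ R y)) {x z : V}
    (p : H.Walk x z) : R z → ∀ y, Sim H x y → ∃ z', R z' ∧ H.Reachable y z' := by
  induction p with
  | nil =>
    intro hz y hy
    exact ⟨y, (hR _ _ hy).1 hz, SimpleGraph.Reachable.refl y⟩
  | @cons x x' z hadj _ ih =>
    intro hz y hy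
    obtain ⟨σ, hσ⟩ := exists_cp hy
    have h1 : H.Adj y (σ x') := (hσ.2 x').1 hadj
    obtain ⟨z', hz', hr⟩ := ih hz (σ x') (sim_symm (hσ.1 x'))
    exact ⟨z', hz', h1.reachable.trans hr⟩

theorem typed_walk_aux [Finite V] {π : A → V} (hπ : Typed G H π) {Q : A → Prop} {R : V → Prop}
    (hQ : ∀ a, Q a ↔ R (π a)) (hR : ∀ x y, Sim H x y → (R x ↔ R y)) {a b : A} (p : G.Walk a b) :
    Q b → ∃ y, R y ∧ H.Reachable (π a) y := by
  induction p with
  | nil =>
    intro hb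
    exact ⟨_, (hQ _).1 hb, SimpleGraph.Reachable.refl _⟩
  | @cons a c b hadj _ ih =>
    intro hb
    obtain ⟨y, hy, ⟨q⟩⟩ := ih hb
    obtain ⟨e, he, hs⟩ := hπ a
    obtain ⟨z, hz, hr⟩ := sim_walk_aux hR q hy (e c) (sim_symm (hs c hadj))
    have h1 : H.Adj (π a) (e c) := he.mapsTo hadj
    exact ⟨z, hz, h1.reachable.trans hr⟩

theorem typed_lift_aux [Finite V] {π : A → V} (hπ : Typed G H π) {Q : A → Prop} {R : V → Prop}
    (hQ : ∀ a, Q a ↔ R (π a)) (hR : ∀ x y, Sim H x y → (R x ↔ R y)) {x y : V} (p : H.Walk x y) :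
    R y → ∀ a, Sim H x (π a) → ∃ b, Q b ∧ G.Reachable a b := by
  induction p with
  | nil =>
    intro hy a ha
    exact ⟨a, (hQ a).2 ((hR _ _ ha).1 hy), SimpleGraph.Reachable.refl a⟩
  | @cons x x' y hadj _ ih =>
    intro hy a ha
    obtain ⟨σ, hσ⟩ := exists_cp ha
    have h1 : H.Adj (π a) (σ x') := (hσ.2 x').1 hadj
    obtain ⟨e, he, hs⟩ := hπ a
    obtain ⟨c, hc, hce⟩ := he.surjOn h1
    have h2 : Sim H x' (π c) := by
      refine sim_trans (sim_symm (hσ.1 x')) ?_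
      rw [← hce]
      exact hs c hc
    obtain ⟨b, hb, hr⟩ := ih hy c h2
    have hc' : G.Adj a c := hc
    exact ⟨b, hb, hc'.reachable.trans hr⟩

theorem typed_reach [Finite V] {π : A → V} (hπ : Typed G H π) {Q : A → Prop} {R : V → Prop}
    (hQ : ∀ a, Q a ↔ R (π a)) (hR : ∀ x y, Sim H x y → (R x ↔ R y)) (a : A) :
    (∃ b, Q b ∧ G.Reachable a b) ↔ ∃ y, R y ∧ H.Reachable (π a) y := by
  constructor
  · rintro ⟨b, hb, ⟨p⟩⟩
    exact typed_walk_aux hπ hQ hR p hb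
  · rintro ⟨y, hy, ⟨p⟩⟩
    exact typed_lift_aux hπ hQ hR p hy a (sim_refl H _)

theorem sim_reach [Finite V] {R : V → Prop} (hR : ∀ x y, Sim H x y → (R x ↔ R y)) {x y : V}
    (h : Sim H x y) : (∃ z, R z ∧ H.Reachable x z) ↔ ∃ z, R z ∧ H.Reachable y z := by
  constructor
  · rintro ⟨z, hz, ⟨p⟩⟩
    exact sim_walk_aux hR p hz y h
  · rintro ⟨z, hz, ⟨p⟩⟩
    exact sim_walk_aux hR p hz x (sim_symm h)

theorem cover_walk_aux {F : A → V} (hF : IsCover G H F) {a b : A} (p : G.Walk a b) :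
    H.Reachable (F a) (F b) := by
  induction p with
  | nil => exact SimpleGraph.Reachable.refl _
  | @cons a c b hadj _ ih =>
    have h1 : H.Adj (F a) (F c) := (hF a).mapsTo hadj
    exact h1.reachable.trans ih

theorem cover_lift_aux {F : A → V} (hF : IsCover G H F) {x y : V} (p : H.Walk x y) :
    ∀ a, F a = x → ∃ b, F b = y ∧ G.Reachable a b := by
  induction p with
  | nil =>
    intro a ha
    exact ⟨a, ha, SimpleGraph.Reachable.refl a⟩
  | @cons x x' y hadj _ ih =>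
    intro a ha
    subst ha
    obtain ⟨c, hc, hcx⟩ := (hF a).surjOn (show x' ∈ H.neighborSet (F a) from hadj)
    obtain ⟨b, hb, hr⟩ := ih c hcx
    have hc' : G.Adj a c := hc
    exact ⟨b, hb, hc'.reachable.trans hr⟩

theorem cover_reach {F : A → V} (hF : IsCover G H F) {Q : A → Prop} {R : V → Prop}
    (hQ : ∀ a, Q a ↔ R (F a)) (a : A) :
    (∃ b, Q b ∧ G.Reachable a b) ↔ ∃ y, R y ∧ H.Reachable (F a) y := by
  constructor
  · rintro ⟨b, hb, ⟨p⟩⟩
    exact ⟨F b, (hQ b).1 hb, cover_walk_aux hF p⟩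
  · rintro ⟨y, hy, ⟨p⟩⟩
    obtain ⟨b, hb, hr⟩ := cover_lift_aux hF p a rfl
    refine ⟨b, (hQ b).2 ?_, hr⟩
    rw [hb]
    exact hy

end Pool.Agent.H24.GK
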