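import Pool.Agent.H24.GK.StM

/-!
# JOB GK-13: guarded pairs of the lift

See `exists_prb` in the file `Pool.Agent.H24.GI.StB`. `M = mLS L hA g` is connected and without loops.

`exists_prM`. Let `d₁` be a dart of `M` of type `τ` at `x₀`, `y₁ = M.hd d₁`; `exists_ukit` for `M` gives `k₀, κ`; `q₀ = κ y₁`,
`q₁ = k₀.R (M.rv d₁) q₀`, so `k₀.R d₁ q₁ = q₀`. Let `d₄ ≠ M.rv d₁` be a dart of type `M.bar ζ` at `y₁` (`hz`; if `ζ = τ` there are at least two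
darts of this type by `hz'`), `hb`: it can be chosen such that it is not a bridge: every dart of type `M.bar ζ` at the end `y₁` of `x₀` is
the reverse of one of type `ζ` to `y₁`, use `hnz`. Let `d₃ ≠ d₁` be a dart of type `τ` at `x₀` with
`(d₄, q₀) ≠ k₀.net.rv (d₃, q₁)` (there are two darts `d₃ ≠ d₁`, `3 ≤ num τ`). `grd_fullM` gives the guard `G₃, q₃` for `d₃`.
`k₁ = dnKt hA g k₀`, `k = swKt k₁ G₃ d₃.1.1 (x₀.1.2, q₁) q₃`, `ι = inl`, `b1 = (d₁, q₁)`, `b2 = k₀.net.rv (d₄, q₀)`. `hd b1 = (y₁, q₀) = hd b2` in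
`k₀`; in `k`: the head of `ιD b1` is `(y₁, inl q₀)` below (`sw_rv`: `(d₁.1.1, _) ≠ (d₃.1.1, _)`, and `≠ rv (d₃.1.1, _)` as `M` has no loops),
and that of `ιD b2` too: `b2 ≠ (d₃, q₁)` as `(d₄, q₀) ≠ rv (d₃, q₁)`; `b2 ≠ rv (d₃, q₁)`: otherwise `(d₄, q₀) = (d₃, q₁)`, but the tail of `d₄` is
`y₁ = M.hd d₁ ≠ x₀`. `mn`: `mainK_sw`, `mainK_mono` (`dnD b1`, `dnD b2` are not `rv (d₃.1.1, _) = dnD (rv (d₃, q₁))`: just shown). `gd1`, `gd2`:
`mainK_sw` (second part, `C = {dnD b1}` or `{dnD b2}`; the dart `r = dnD (d₃, q₁)` is not in `C`, and `rv r ∉ C`, so it is not cut in `k₁`,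
`evh r = evt r`, and its tail is that of `b1`). `cp`: `star_pair` for `M` at `y₁` with the label `y` and the ends `x₀` for `M.rv d₁`, `z` for
`d₄` (see the file `StB`); `UStar` at `(y₁, q₀)` gives a labelling of `k₀` with `f (y₁, q₀) = y`, `e (rv d₁, q₀) = x₀`, `e (d₄, q₀) = z`; so
`f (x₀, q₁) = x₀`; `m_dn`; the value at `dnD (d₃, q₁)` is `(x₀.1.1, y'.1.1)` with an end `y'` of `x₀` of type `τ`; the labelling of `G₃` with this
value; `sw_cov`.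
-/

namespace Pool.Agent.H24.GK

open Pool.Agent.H24.GG Pool.Agent.H24.GH Pool.Agent.H24.GI

variable {V D T K : Type} {L : LS V D T K} {A : Set V} (hA : Comp L A) {P : Type} [Finite P]
  (g : Vt L P)

/-- the dart of the kit `k` for a dart of the main part -/
def inD {k : Kt L} {k₀ : Kt (mLS L hA g)} (ι : P × k₀.Q → k.Q) (δ : MD L A P × k₀.Q) : D × k.Q :=
  (δ.1.1.1, ι (δ.1.1.2, δ.2))

/-- a guarded pair of the lift -/
structure PrM (k : Kt L) (k₀ : Kt (mLS L hA g)) (ι : P × k₀.Q → k.Q) (τ ζ : MT L A P)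
    (x₀ : MV A P) (Pr : MV A P → Prop) (b1 b2 : MD L A P × k₀.Q) : Prop where
  mn : MainK k (dnKt hA g k₀) ι {dnD hA g b1, dnD hA g b2}
  ty1 : (mLS L hA g).ty b1.1 = τ
  ty2 : (mLS L hA g).ty b2.1 = ζ
  hd : k₀.net.hd b1 = k₀.net.hd b2
  hdk : k.net.hd (inD hA g ι b1) = k.net.hd (inD hA g ι b2)
  ne : b1 ≠ b2
  nrev : b1 ≠ k₀.net.rv b2
  nrevk : inD hA g ι b1 ≠ k.net.rv (inD hA g ι b2)
  nb1 : Cut (mLS L hA g) 2 ((mLS L hA g).tl b1.1) {(mLS L hA g).hd b1.1}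
  nb2 : Cut (mLS L hA g) 2 ((mLS L hA g).tl b2.1) {(mLS L hA g).hd b2.1}
  gd1 : ∀ f e, EL k.net {inD hA g ι b1} f e →
    ∃ x : MV A P, Pr x ∧ x.1 = (f (k.net.tl (inD hA g ι b1)), b1.1.1.2)
  gd2 : ∀ f e, EL k.net {inD hA g ι b2} f e →
    ∃ x : MV A P, Pr x ∧ x.1 = (f (k.net.tl (inD hA g ι b1)), b1.1.1.2)
  cp : ∀ y z, Dt (mLS L hA g) τ x₀ y → Dt (mLS L hA g) ζ z y →
    (ζ = τ → z = x₀ → 2 ≤ (mLS L hA g).M τ x₀ y) →
    ∃ f e, EL k.net ∅ f e ∧ evt k.net f e (inD hA g ι b1) = (x₀.1.1, y.1.1) ∧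
      evt k.net f e (inD hA g ι b2) = (z.1.1, y.1.1)

variable [Finite V] [Finite D] [Finite T] (hc : LConn (mLS L hA g))
  (hl : ∀ d, (mLS L hA g).tl d ≠ (mLS L hA g).hd d)

include hc hl

theorem exists_prM {τ ζ : MT L A P} (hm : 3 ≤ (mLS L hA g).num τ)
    (hz : (mLS L hA g).sc ((mLS L hA g).bar ζ) = (mLS L hA g).sc ((mLS L hA g).bar τ))
    (hz' : ζ = τ → 2 ≤ (mLS L hA g).num ((mLS L hA g).bar τ)) {Pr : MV A P → Prop}
    (hP : GoodP (mLS L hA g) τ Pr) {x₀ : MV A P} (hx : Pr x₀)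
    (hnz : ∀ y z, Dt (mLS L hA g) τ x₀ y → Dt (mLS L hA g) ζ z y → Cut (mLS L hA g) 2 z {y})
    (hR : ∀ d, (mLS L hA g).ty d = τ → (mLS L hA g).tl d = x₀ → RingM hA g d) :
    ∃ (k : Kt L) (k₀ : Kt (mLS L hA g)) (ι : P × k₀.Q → k.Q) (b1 b2 : MD L A P × k₀.Q),
      PrM hA g k k₀ ι τ ζ x₀ Pr b1 b2 := by
  have hcl : (mLS L hA g).cl x₀ = (mLS L hA g).sc τ := hP.cl _ hx
  have hcard : {d | (mLS L hA g).tl d = x₀ ∧ (mLS L hA g).ty d = τ}.ncard = (mLS L hA g).num τ :=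
    (mLS L hA g).num_eq _ _ hcl
  have hne1 : {d | (mLS L hA g).tl d = x₀ ∧ (mLS L hA g).ty d = τ}.Nonempty :=
    Set.nonempty_of_ncard_ne_zero (by rw [hcard]; omega)
  obtain ⟨d₁, h11, h12⟩ := hne1
  obtain ⟨k₀, sd, κ, -, -, hU⟩ := exists_ukit (mLS L hA g)
  have hcy : (mLS L hA g).cl ((mLS L hA g).hd d₁) = (mLS L hA g).sc ((mLS L hA g).bar τ) := by
    unfold LS.hd
    rw [(mLS L hA g).cl_tl, (mLS L hA g).ty_rv, h12]
  obtain ⟨d₄, h41, h42, h43⟩ : ∃ d, (mLS L hA g).tl d = (mLS L hA g).hd d₁ ∧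
      (mLS L hA g).ty d = (mLS L hA g).bar ζ ∧ d ≠ (mLS L hA g).rv d₁ := by
    have hc4 : {d | (mLS L hA g).tl d = (mLS L hA g).hd d₁ ∧
        (mLS L hA g).ty d = (mLS L hA g).bar ζ}.ncard =
          (mLS L hA g).num ((mLS L hA g).bar ζ) :=
      (mLS L hA g).num_eq _ _ (by rw [hcy, hz])
    by_cases hζ : ζ = τ
    · subst hζ
      have h1 : 1 < {d | (mLS L hA g).tl d = (mLS L hA g).hd d₁ ∧
          (mLS L hA g).ty d = (mLS L hA g).bar ζ}.ncard := by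
        rw [hc4]
        exact hz' rfl
      obtain ⟨d, ⟨a1, a2⟩, a3⟩ := Set.exists_ne_of_one_lt_ncard h1 ((mLS L hA g).rv d₁)
      exact ⟨d, a1, a2, a3⟩
    · have hne4 : {d | (mLS L hA g).tl d = (mLS L hA g).hd d₁ ∧
          (mLS L hA g).ty d = (mLS L hA g).bar ζ}.Nonempty :=
        Set.nonempty_of_ncard_ne_zero (by rw [hc4]; exact ((mLS L hA g).num_pos _).ne')
      obtain ⟨d, a1, a2⟩ := hne4
      refine ⟨d, a1, a2, ?_⟩
      rintro rfl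
      rw [(mLS L hA g).ty_rv, h12] at a2
      apply hζ
      rw [← (mLS L hA g).bar_bar ζ, ← a2, (mLS L hA g).bar_bar]
  have hus : UStar k₀ ((mLS L hA g).hd d₁) (κ ((mLS L hA g).hd d₁)) := ukit_star (hU _)
  obtain ⟨q₀, hq₀⟩ : ∃ q₀, κ ((mLS L hA g).hd d₁) = q₀ := ⟨_, rfl⟩
  rw [hq₀] at hus
  obtain ⟨q₁, hq₁⟩ : ∃ q₁, k₀.R ((mLS L hA g).rv d₁) q₀ = q₁ := ⟨_, rfl⟩
  have hq₁' : k₀.R d₁ q₁ = q₀ := by
    rw [← hq₁, k₀.R_rv, Equiv.apply_symm_apply]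
  obtain ⟨d₃, h31, h32, h33, h34⟩ : ∃ d, (mLS L hA g).tl d = x₀ ∧ (mLS L hA g).ty d = τ ∧
      d ≠ d₁ ∧ ((d₄, q₀) : MD L A P × k₀.Q) ≠ k₀.net.rv (d, q₁) := by
    by_contra hcon
    push Not at hcon
    have hsub : {d | (mLS L hA g).tl d = x₀ ∧ (mLS L hA g).ty d = τ} ⊆
        {d₁, (mLS L hA g).rv d₄} := by
      rintro d ⟨a1, a2⟩
      by_cases a3 : d = d₁
      · exact Or.inl a3
      · have h1 := hcon d a1 a2 a3
        have h2 : d₄ = (mLS L hA g).rv d := congrArg Prod.fst h1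
        right
        change d = (mLS L hA g).rv d₄
        rw [h2, (mLS L hA g).rv_rv]
    have h3 := Set.ncard_le_ncard hsub (Set.toFinite _)
    have h4 := Set.ncard_insert_le d₁ {(mLS L hA g).rv d₄}
    rw [Set.ncard_singleton] at h4
    omega
  have hG3 := grd_fullM hA g hc hl hm hP h32 (by rw [h31]; exact hx) (hR d₃ h32 h31)
  rw [h31] at hG3
  obtain ⟨G₃, q₃, g31, g32⟩ := hG3
  have n14 : d₁ ≠ d₄ := by
    intro h
    apply hl d₁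
    rw [← h41, ← h]
  have n34 : d₃ ≠ d₄ := by
    intro h
    apply hl d₁
    rw [← h41, ← h, h31, h11]
  have t1 : L.tl d₁.1.1 = x₀.1.1 := congrArg (fun x => x.1.1) h11
  have t3 : L.tl d₃.1.1 = x₀.1.1 := congrArg (fun x => x.1.1) h31
  have p1 : d₁.1.2 = x₀.1.2 := congrArg (fun x => x.1.2) h11
  have p3 : d₃.1.2 = x₀.1.2 := congrArg (fun x => x.1.2) h31
  obtain ⟨z, hz0⟩ : ∃ z : (dnKt hA g k₀).Q, z = (x₀.1.2, q₁) := ⟨_, rfl⟩
  have hd3 : dnD hA g ((d₃, q₁) : MD L A P × k₀.Q) = (d₃.1.1, z) := by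
    rw [hz0]
    show (d₃.1.1, (d₃.1.2, q₁)) = (d₃.1.1, (x₀.1.2, q₁))
    rw [p3]
  obtain ⟨b2, hb2⟩ : ∃ b2 : MD L A P × k₀.Q, b2 = k₀.net.rv (d₄, q₀) := ⟨_, rfl⟩
  have hb2' : k₀.net.rv b2 = (d₄, q₀) := by
    rw [hb2, k₀.net.rv_rv]
  have hb21 : b2.1 = (mLS L hA g).rv d₄ := by
    rw [hb2]
    rfl
  have hhd1 : k₀.net.hd ((d₁, q₁) : MD L A P × k₀.Q) = ((mLS L hA g).hd d₁, q₀) := by
    change ((mLS L hA g).hd d₁, k₀.R d₁ q₁) = _
    rw [hq₁']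
  have hhd2 : k₀.net.hd b2 = ((mLS L hA g).hd d₁, q₀) := by
    unfold Net.hd
    rw [hb2']
    change ((mLS L hA g).tl d₄, q₀) = _
    rw [h41]
  -- the darts `b1`, `b2` are not exchanged
  have nb11 : dnD hA g ((d₁, q₁) : MD L A P × k₀.Q) ≠ (d₃.1.1, z) := by
    rw [← hd3]
    intro h
    exact h33 (congrArg Prod.fst (gku_inj hA g h)).symm
  have nb12 : dnD hA g ((d₁, q₁) : MD L A P × k₀.Q) ≠ (dnKt hA g k₀).net.rv (d₃.1.1, z) := by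
    rw [← hd3, dn_rv]
    intro h
    have h1 : d₁ = (mLS L hA g).rv d₃ := congrArg Prod.fst (gku_inj hA g h)
    apply hl d₃
    rw [h31, ← h11, h1]
    rfl
  have nb21 : dnD hA g b2 ≠ (d₃.1.1, z) := by
    rw [← hd3]
    intro h
    have h1 : b2 = (d₃, q₁) := gku_inj hA g h
    apply h34
    rw [← h1, hb2']
  have nb22 : dnD hA g b2 ≠ (dnKt hA g k₀).net.rv (d₃.1.1, z) := by
    rw [← hd3, dn_rv]
    intro h
    have h1 : b2 = k₀.net.rv (d₃, q₁) := gku_inj hA g h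
    have h2 : ((d₄, q₀) : MD L A P × k₀.Q) = (d₃, q₁) := by
      rw [← hb2', h1, k₀.net.rv_rv]
    exact n34 (congrArg Prod.fst h2).symm
  have hrv : ∀ δ : MD L A P × k₀.Q, dnD hA g δ ≠ (d₃.1.1, z) →
      dnD hA g δ ≠ (dnKt hA g k₀).net.rv (d₃.1.1, z) →
      (swKt (dnKt hA g k₀) G₃ d₃.1.1 z q₃).net.rv
        ((dnD hA g δ).1, Sum.inl (dnD hA g δ).2) =
      ((dnD hA g (k₀.net.rv δ)).1, Sum.inl (dnD hA g (k₀.net.rv δ)).2) := by
    intro δ h1 h2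
    have h3 := sw_rv (k₁ := dnKt hA g k₀) (k₂ := G₃) (d := d₃.1.1) (q₁ := z) (q₂ := q₃) h1 h2
    rw [dn_rv] at h3
    exact h3
  have M3 := mainK_sw (k₁ := dnKt hA g k₀) (k₂ := G₃) (d := d₃.1.1)
    (q₁ := z) (q₂ := q₃)
    (Pg := fun α => ∃ x : MV A P, Pr x ∧ x.1 = (α.1, d₃.1.2)) g31
  have hgd : ∀ b : MD L A P × k₀.Q, dnD hA g b ≠ (d₃.1.1, z) →
      dnD hA g b ≠ (dnKt hA g k₀).net.rv (d₃.1.1, z) →
      ∀ f e, EL (swKt (dnKt hA g k₀) G₃ d₃.1.1 z q₃).net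
        {((dnD hA g b).1, Sum.inl (dnD hA g b).2)} f e →
      ∃ x : MV A P, Pr x ∧ x.1 = (f (L.tl d₁.1.1, Sum.inl (d₁.1.2, q₁)), d₁.1.2) := by
    intro b h1 h2 f e h
    obtain ⟨x, h3, h4⟩ := (sw_guard (k₁ := dnKt hA g k₀) (k₂ := G₃)
      (P := fun α => ∃ x : MV A P, Pr x ∧ x.1 = (α.1, d₃.1.2)) h
      (fun δ hδ => ⟨dnD hA g b, hδ, h1, h2⟩) g31).2
    refine ⟨x, h3, ?_⟩
    rw [h4, p1, p3, t1, ← hz0]
    refine Prod.ext ?_ rfl
    show f (L.tl d₃.1.1, Sum.inl z) = f (x₀.1.1, Sum.inl z)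
    rw [t3]
  refine ⟨swKt (dnKt hA g k₀) G₃ d₃.1.1 z q₃, k₀, Sum.inl, (d₁, q₁), b2, ?_, h12, ?_, ?_, ?_,
    ?_, ?_, ?_, ?_, ?_, ?_, ?_, ?_⟩
  · refine mainK_mono M3.1 ?_
    rintro δ (h1 | h1)
    · rw [h1]
      exact nb12
    · have h2 : δ = dnD hA g b2 := h1
      rw [h2]
      exact nb22
  · rw [hb21, (mLS L hA g).ty_rv, h42, (mLS L hA g).bar_bar]
  · rw [hhd1, hhd2]
  · have h1 := hrv (d₁, q₁) nb11 nb12
    have h2 := hrv b2 nb21 nb22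
    have h3 : dnV hA g (k₀.net.hd ((d₁, q₁) : MD L A P × k₀.Q)) = dnV hA g (k₀.net.hd b2) := by
      rw [hhd1, hhd2]
    have h4 : (swKt (dnKt hA g k₀) G₃ d₃.1.1 z q₃).net.hd
        ((dnD hA g ((d₁, q₁) : MD L A P × k₀.Q)).1, Sum.inl (dnD hA g (d₁, q₁)).2) =
        ((dnV hA g (k₀.net.hd ((d₁, q₁) : MD L A P × k₀.Q))).1,
          Sum.inl (dnV hA g (k₀.net.hd ((d₁, q₁) : MD L A P × k₀.Q))).2) := by
      unfold Net.hd
      rw [h1]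
      rfl
    have h5 : (swKt (dnKt hA g k₀) G₃ d₃.1.1 z q₃).net.hd
        ((dnD hA g b2).1, Sum.inl (dnD hA g b2).2) =
        ((dnV hA g (k₀.net.hd b2)).1, Sum.inl (dnV hA g (k₀.net.hd b2)).2) := by
      unfold Net.hd
      rw [h2]
      rfl
    refine h4.trans (Eq.trans ?_ h5.symm)
    rw [h3]
  · intro h
    have h1 : d₁ = (mLS L hA g).rv d₄ := by
      rw [← hb21, ← h]
    apply h43
    rw [h1, (mLS L hA g).rv_rv]
  · rw [hb2']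
    intro h
    exact n14 (congrArg Prod.fst h)
  · intro h
    have h1 := hrv b2 nb21 nb22
    rw [hb2'] at h1
    have h2 : ((d₁.1.1, Sum.inl (d₁.1.2, q₁)) : D × ((dnKt hA g k₀).Q ⊕ G₃.Q)) =
        (d₄.1.1, Sum.inl (d₄.1.2, q₀)) := h.trans h1
    have h3 : d₁.1.1 = d₄.1.1 :=
      congrArg (fun z : D × ((dnKt hA g k₀).Q ⊕ G₃.Q) => z.1) h2
    have h4 : ((d₁.1.2, q₁) : P × k₀.Q) = (d₄.1.2, q₀) :=
      Sum.inl_injective (congrArg (fun z : D × ((dnKt hA g k₀).Q ⊕ G₃.Q) => z.2) h2)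
    have h5 : d₁.1.2 = d₄.1.2 := congrArg (fun z : P × k₀.Q => z.1) h4
    exact n14 (Subtype.ext (Prod.ext h3 h5))
  · show Cut (mLS L hA g) 2 ((mLS L hA g).tl d₁) {(mLS L hA g).hd d₁}
    rw [h11]
    exact hP.nb _ _ hx ⟨d₁, h11, rfl, h12⟩
  · rw [hb21]
    have h1 : (mLS L hA g).hd ((mLS L hA g).rv d₄) = (mLS L hA g).hd d₁ := by
      rw [hd_rv, h41]
    rw [h1]
    refine hnz _ _ ⟨d₁, h11, rfl, h12⟩ ⟨(mLS L hA g).rv d₄, rfl, h1, ?_⟩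
    rw [(mLS L hA g).ty_rv, h42, (mLS L hA g).bar_bar]
  · intro f e h
    exact hgd (d₁, q₁) nb11 nb12 f e h
  · intro f e h
    exact hgd b2 nb21 nb22 f e h
  · intro y z' hy hzy hyz
    have hy' := dt_symm hy
    have hz'' := dt_symm hzy
    obtain ⟨Y, hY1, hY2, hY3⟩ := star_pair (L := mLS L hA g) (v := (mLS L hA g).hd d₁) (x := y)
      (by rw [hcy, (dt_cl hy).2]) (d₁ := (mLS L hA g).rv d₁) (d₂ := d₄) rfl h41 h43.symm
      (y₁ := x₀) (y₂ := z')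
      (by rw [(mLS L hA g).ty_rv, h12]; exact hy') (by rw [h42]; exact hz'') (by
        intro a1 a2
        rw [(mLS L hA g).ty_rv, h12] at a1 ⊢
        rw [h42] at a1
        rw [M_bar]
        refine hyz ?_ a2.symm
        rw [← (mLS L hA g).bar_bar ζ, ← a1, (mLS L hA g).bar_bar])
    obtain ⟨f', e', h1, h2, h3⟩ := hus y Y (by rw [hcy, (dt_cl hy).2]) hY1
    have h4 : f' (x₀, q₁) = x₀ := by
      have h5 := h1.unc ((mLS L hA g).rv d₁, q₀) (Set.notMem_empty _) (Set.notMem_empty _)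
      have h6 : k₀.net.hd ((mLS L hA g).rv d₁, q₀) = (x₀, q₁) := by
        change ((mLS L hA g).tl ((mLS L hA g).rv ((mLS L hA g).rv d₁)),
          k₀.R ((mLS L hA g).rv d₁) q₀) = _
        rw [(mLS L hA g).rv_rv, h11, hq₁]
      rw [h6, h3 ((mLS L hA g).rv d₁) rfl, hY2] at h5
      exact h5.symm
    have h5 : e' (d₁, q₁) = y := by
      have h6 := h1.unc (d₁, q₁) (Set.notMem_empty _) (Set.notMem_empty _)
      rw [hhd1, h2] at h6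
      exact h6
    have h6 : e' (d₄, q₀) = z' := by
      rw [h3 d₄ h41, hY3]
    have h7 : Dt (mLS L hA g) τ x₀ (e' (d₃, q₁)) := by
      have h8 : Dt (mLS L hA g) ((mLS L hA g).ty d₃) (f' ((mLS L hA g).tl d₃, q₁))
        (e' (d₃, q₁)) := (val_dt h1 (d₃, q₁)).1
      rw [h31, h32, h4] at h8
      exact h8
    have h8 : e' b2 = y := by
      have h9 := h1.unc b2 (Set.notMem_empty _) (Set.notMem_empty _)
      rw [hhd2, h2] at h9
      exact h9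
    have h9 : f' (k₀.net.tl b2) = z' := by
      have h10 := h1.unc (d₄, q₀) (Set.notMem_empty _) (Set.notMem_empty _)
      rw [h6] at h10
      rw [hb2]
      exact h10.symm
    obtain ⟨f₃, e₃, h10, h11'⟩ := g32 _ h7
    obtain ⟨f, e, hE, hf, he, -, -⟩ := m_dn hA g h1
    have h12' : evt (dnKt hA g k₀).net f e (d₃.1.1, z) = evt G₃.net f₃ e₃ (d₃.1.1, q₃) := by
      rw [h11', ← hd3]
      refine Prod.ext ?_ ?_
      · show f (dnV hA g (((mLS L hA g).tl d₃, q₁) : MV A P × k₀.Q)) = x₀.1.1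
        rw [hf, h31, h4]
      · exact he _
    have h13 := sw_cov hE h10 h12'
    refine ⟨_, _, h13, ?_, ?_⟩
    · refine Prod.ext ?_ ?_
      · show f (dnV hA g (((mLS L hA g).tl d₁, q₁) : MV A P × k₀.Q)) = x₀.1.1
        rw [hf, h11, h4]
      · show e (dnD hA g ((d₁, q₁) : MD L A P × k₀.Q)) = y.1.1
        rw [he, h5]
    · refine Prod.ext ?_ ?_
      · show f (dnV hA g (k₀.net.tl b2)) = z'.1.1
        rw [hf, h9]
      · show e (dnD hA g b2) = y.1.1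
        rw [he, h8]

end Pool.Agent.H24.GK
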