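import Pool.Agent.H24.GK.OneCut
import Pool.Agent.H24.GI.RingV

/-!
# JOB GK-3: the part of a net over a component; copies of a component

`rNet k hA`: the part of the net of the kit `k` over the component `A`. `PL L A f`: `f` is a labelling of `A` (a cover of the component of
its values). `Redc L`: no component covers another one.

`r_el`: restriction. (`rv` of a dart over `A`: `k.net.rv δ` has the tail over `hd δ.1`.)
`pl_ext`: the identity outside of `A`; the star at `x ∉ A` is `M t x z` (`LS.M`); the heads of the darts at `x ∈ A` are in `A`, those at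
`x ∉ A` are not (`comp_tl`).
`pl_redc`: `pl_ext`, `Redc`, `comp_cd`.
`pl_aut`: let `g` be `f` on `A` and the identity outside. Consider `N = rNet (unitKt L) hA`, with the labelling `f` (uncut; `el_const` does
not apply, but `flow_unc`/`unit_flow` with `ι = Empty`, or `oc`-style counting, gives `M t x y * (nf x - nf y) = 0`), so `nf` is constant
on `A` (`Comp.cn`, `dt_iff`), `A.ncard = nf * A.ncard`, so `nf = 1` on `A`: `f` is a bijection of `A`. `M t (g x) (g y)` for `x ∈ A`: by `st`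
it is the number of the darts `d` of type `t` at `x` with `g (hd d) = g y`, i.e. `hd d = y` (`g` is injective).
`copy_eq`: if `evt = evh` then `e (d₀, ()) = f (hd d₀)`, `e (rv d₀, ()) = f (tl d₀)`, so nothing is cut; `EL.star`, `EL.unc`.
`copy_step`: restrict to `rNet (unitKt L) hA`; `oc_main` gives `E` and `c`, `oc_size`: `A.ncard = c * B.ncard + E.ncard`, with
`0 < E.ncard < B.ncard` (`a1`, `a2`); so `c = 0` (otherwise `A.ncard > B.ncard`), `nf x = 1` for `x ∈ E` and `nf x = 0` for the other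
`x ∈ B`: so the image is `E`, and `f` is injective on `A`.
`copy_strong`: otherwise: `evt` is a value of type `t` in `B` (`val_dt`), so `3 ≤ M`, `CutV 2 evt` (`cut_M`, `cut_mono`), `oc_main`; all the
darts of type `t` with the ends `evt` are in `bd L E` (`OneC.bd`), at least three, but `OneC.two`.
-/

namespace Pool.Agent.H24.GK

open Pool.Agent.H24.GG Pool.Agent.H24.GH Pool.Agent.H24.GI

variable {V D T K : Type} {L : LS V D T K}

/-- no component covers another one -/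
def Redc (L : LS V D T K) : Prop := ∀ f e, EL (unitKt L).net ∅ f e → ∀ x, Cd L x (f (x, ()))

/-- the part of the net of a kit over a component -/
def rNet (k : Kt L) {A : Set V} (hA : Comp L A) :
    Net L {w : V × k.Q // w.1 ∈ A} {δ : D × k.Q // L.tl δ.1 ∈ A} where
  tl δ := ⟨k.net.tl δ.1, δ.2⟩
  rv δ := ⟨k.net.rv δ.1, hA.cl _ δ.2⟩
  ty δ := L.ty δ.1.1
  cl w := L.cl w.1.1
  rv_rv δ := Subtype.ext (k.net.rv_rv δ.1)
  rv_ne δ h := k.net.rv_ne δ.1 (congrArg Subtype.val h)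
  ty_rv δ := L.ty_rv δ.1.1
  cl_tl δ := L.cl_tl δ.1.1
  num_eq := by
    rintro ⟨w, hw⟩ t h
    rw [← k.net.num_eq w t h]
    refine Set.ncard_congr (fun δ _ => δ.1) ?_ ?_ ?_
    · rintro δ ⟨h1, h2⟩
      exact ⟨congrArg Subtype.val h1, h2⟩
    · intro δ δ' _ _ h3
      exact Subtype.ext h3
    · rintro δ ⟨h1, h2⟩
      have h3 : L.tl δ.1 ∈ A := by
        have h4 : L.tl δ.1 = w.1 := congrArg Prod.fst h1
        rw [h4]
        exact hw
      exact ⟨⟨δ, h3⟩, ⟨Subtype.ext h1, h2⟩, rfl⟩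

theorem r_el {k : Kt L} {A : Set V} (hA : Comp L A) {C : Set (D × k.Q)} {f : V × k.Q → V}
    {e : D × k.Q → V} (h : EL k.net C f e) :
    EL (rNet k hA) {δ | δ.1 ∈ C} (fun w => f w.1) (fun δ => e δ.1) := by
  refine ⟨fun w => h.cls w.1, ?_, ?_⟩
  · rintro ⟨w, hw⟩ t y
    refine Eq.trans ?_ (h.star w t y)
    refine Set.ncard_congr (fun δ _ => δ.1) ?_ ?_ ?_
    · rintro δ ⟨h1, h2, h3⟩
      exact ⟨congrArg Subtype.val h1, h2, h3⟩
    · intro δ δ' _ _ h3
      exact Subtype.ext h3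
    · rintro δ ⟨h1, h2, h3⟩
      have h5 : L.tl δ.1 ∈ A := by
        have h4 : L.tl δ.1 = w.1 := congrArg Prod.fst h1
        rw [h4]
        exact hw
      exact ⟨⟨δ, h5⟩, ⟨Subtype.ext h1, h2, h3⟩, rfl⟩
  · intro δ h1 h2
    exact h.unc δ.1 h1 h2

/-- `f` is a labelling of `A` -/
structure PL (L : LS V D T K) (A : Set V) (f : V → V) : Prop where
  cls : ∀ x ∈ A, L.cl (f x) = L.cl x
  st : ∀ x ∈ A, ∀ t z, {d | L.tl d = x ∧ L.ty d = t ∧ f (L.hd d) = z}.ncard = L.M t (f x) z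

/-- the star of the trivial kit -/
theorem rnet_unit_star (F : D → V) (x : V) (t : T) (y : V) :
    {δ : D × (unitKt L).Q | (unitKt L).net.tl δ = (x, ()) ∧ (unitKt L).net.ty δ = t ∧
      F δ.1 = y}.ncard = {d | L.tl d = x ∧ L.ty d = t ∧ F d = y}.ncard := by
  refine Set.ncard_congr (fun δ _ => δ.1) ?_ ?_ ?_
  · rintro ⟨d, u⟩ ⟨h1, h2, h3⟩
    exact ⟨congrArg Prod.fst h1, h2, h3⟩
  · rintro ⟨d, ⟨⟩⟩ ⟨d', ⟨⟩⟩ _ _ h3
    have h4 : d = d' := h3
    rw [h4]
  · rintro d ⟨h1, h2, h3⟩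
    refine ⟨(d, ()), ⟨?_, h2, h3⟩, rfl⟩
    show (L.tl d, ()) = (x, ())
    rw [h1]

/-- there are no darts from the outside to a component -/
theorem rnet_M_out {A : Set V} (hA : Comp L A) {x y : V} (hx : x ∉ A) (hy : y ∈ A) (t : T) :
    L.M t x y = 0 := by
  unfold LS.M
  have h1 : {d | L.tl d = x ∧ L.ty d = t ∧ L.hd d = y} = ∅ := by
    ext d
    simp only [Set.mem_ofPred_eq, Set.mem_empty_iff_false, iff_false]
    rintro ⟨h2, -, h3⟩
    have h4 : L.hd d ∈ A := by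
      rw [h3]
      exact hy
    have h5 := comp_tl hA h4
    rw [h2] at h5
    exact hx h5
  rw [h1, Set.ncard_empty]

theorem pl_ext {A : Set V} (hA : Comp L A) {f : V → V} (h : PL L A f) :
    ∃ f' e', EL (unitKt L).net ∅ f' e' ∧ ∀ x ∈ A, f' (x, ()) = f x := by
  classical
  let g : V → V := fun x => if x ∈ A then f x else x
  have g1 : ∀ x ∈ A, g x = f x := fun x hx => if_pos hx
  have g2 : ∀ x, x ∉ A → g x = x := fun x hx => if_neg hx
  refine ⟨fun w => g w.1, fun δ => g (L.hd δ.1), ⟨?_, ?_, fun _ _ _ => rfl⟩, g1⟩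
  · rintro ⟨x, u⟩
    show L.cl (g x) = L.cl x
    by_cases hx : x ∈ A
    · rw [g1 x hx]
      exact h.cls x hx
    · rw [g2 x hx]
  · rintro ⟨x, ⟨⟩⟩ t y
    refine (rnet_unit_star (fun d => g (L.hd d)) x t y).trans ?_
    show _ = L.M t (g x) y
    by_cases hx : x ∈ A
    · rw [g1 x hx, ← h.st x hx t y]
      congr 1
      ext d
      simp only [Set.mem_ofPred_eq]
      constructor
      · rintro ⟨h1, h2, h3⟩
        have h4 : L.hd d ∈ A := hA.cl d (by rw [h1]; exact hx)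
        rw [g1 _ h4] at h3
        exact ⟨h1, h2, h3⟩
      · rintro ⟨h1, h2, h3⟩
        have h4 : L.hd d ∈ A := hA.cl d (by rw [h1]; exact hx)
        exact ⟨h1, h2, by rw [g1 _ h4]; exact h3⟩
    · rw [g2 x hx]
      unfold LS.M
      congr 1
      ext d
      simp only [Set.mem_ofPred_eq]
      have h4 : L.tl d = x → g (L.hd d) = L.hd d := by
        intro h1
        refine g2 _ fun h5 => hx ?_
        rw [← h1]
        exact comp_tl hA h5
      constructor
      · rintro ⟨h1, h2, h3⟩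
        exact ⟨h1, h2, by rw [← h4 h1]; exact h3⟩
      · rintro ⟨h1, h2, h3⟩
        exact ⟨h1, h2, by rw [h4 h1]; exact h3⟩

theorem pl_redc (hr : Redc L) {A : Set V} (hA : Comp L A) {f : V → V} (h : PL L A f) :
    ∀ x ∈ A, f x ∈ A := by
  intro x hx
  obtain ⟨f', e', h1, h2⟩ := pl_ext hA h
  have h3 := hr f' e' h1 x
  rw [h2 x hx] at h3
  exact comp_cd hA hx h3

theorem pl_aut [Finite V] [Finite D] {A : Set V} (hA : Comp L A) {f : V → V} (h : PL L A f)
    (hf : ∀ x ∈ A, f x ∈ A) : ∃ g, Aut L g ∧ ∀ x ∈ A, g x = f x ∧ g x ∈ A := by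
  classical
  let g : V → V := fun x => if x ∈ A then f x else x
  have g1 : ∀ x ∈ A, g x = f x := fun x hx => if_pos hx
  have g2 : ∀ x, x ∉ A → g x = x := fun x hx => if_neg hx
  have hsur : ∀ y ∈ A, ∃ x ∈ A, f x = y := by
    obtain ⟨x₀, hx₀⟩ := hA.ne
    intro y hy
    have h1 : Cd L (f x₀) y := hA.cn _ (hf x₀ hx₀) _ hy
    clear hy
    induction h1 with
    | refl => exact ⟨x₀, hx₀, rfl⟩
    | @tail b c _ h2 ih =>
      obtain ⟨x, hx, h3⟩ := ih
      obtain ⟨d, h4, h5⟩ := h2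
      have h6 : L.M (L.ty d) (f x) c ≠ 0 := by
        rw [← dt_iff, h3]
        exact ⟨d, h4, h5, rfl⟩
      rw [← h.st x hx (L.ty d) c] at h6
      obtain ⟨d', h7, h8, h9⟩ := Set.nonempty_of_ncard_ne_zero h6
      exact ⟨L.hd d', hA.cl d' (by rw [h7]; exact hx), h9⟩
  have hbij : Function.Bijective g := by
    refine (Finite.surjective_iff_bijective).1 fun y => ?_
    by_cases hy : y ∈ A
    · obtain ⟨x, hx, h1⟩ := hsur y hy
      exact ⟨x, by rw [g1 x hx, h1]⟩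
    · exact ⟨y, g2 y hy⟩
  have hgA : ∀ x ∈ A, g x ∈ A := by
    intro x hx
    rw [g1 x hx]
    exact hf x hx
  refine ⟨g, ⟨hbij, ?_, ?_⟩, fun x hx => ⟨g1 x hx, hgA x hx⟩⟩
  · intro x
    by_cases hx : x ∈ A
    · rw [g1 x hx]
      exact h.cls x hx
    · rw [g2 x hx]
  · intro t x y
    by_cases hx : x ∈ A
    · rw [g1 x hx, ← h.st x hx t (g y)]
      unfold LS.M
      congr 1
      ext d
      simp only [Set.mem_ofPred_eq]
      constructor
      · rintro ⟨h1, h2, h3⟩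
        have h4 : L.hd d ∈ A := hA.cl d (by rw [h1]; exact hx)
        rw [← g1 _ h4] at h3
        exact ⟨h1, h2, hbij.1 h3⟩
      · rintro ⟨h1, h2, h3⟩
        have h4 : L.hd d ∈ A := hA.cl d (by rw [h1]; exact hx)
        refine ⟨h1, h2, ?_⟩
        rw [← g1 _ h4, h3]
    · rw [g2 x hx]
      by_cases hy : y ∈ A
      · rw [rnet_M_out hA hx hy, rnet_M_out hA hx (hgA y hy)]
      · rw [g2 y hy]

theorem copy_eq {A : Set V} (hA : Comp L A) {d₀ : D} {f : V × Unit → V} {e : D × Unit → V}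
    (h : EL (unitKt L).net {(d₀, ())} f e)
    (he : evt (unitKt L).net f e (d₀, ()) = evh (unitKt L).net f e (d₀, ())) :
    PL L A (fun x => f (x, ())) := by
  have key : ∀ d, e (d, ()) = f (L.hd d, ()) := by
    intro d
    by_cases h1 : d = d₀
    · rw [h1]
      exact congrArg Prod.snd he
    · by_cases h2 : L.rv d = d₀
      · have h3 : d = L.rv d₀ := by rw [← h2, L.rv_rv]
        have h4 : f (L.tl d₀, ()) = e (L.rv d₀, ()) := congrArg Prod.fst he
        rw [h3, hd_rv, h4]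
      · refine h.unc (d, ()) (fun h3 => h1 (congrArg Prod.fst h3)) fun h3 => h2 ?_
        exact congrArg Prod.fst h3
  refine ⟨fun x _ => h.cls (x, ()), fun x _ t z => ?_⟩
  refine Eq.trans ?_ (h.star (x, ()) t z)
  refine (rnet_unit_star (fun d => f (L.hd d, ())) x t z).symm.trans ?_
  congr 1
  ext ⟨d, ⟨⟩⟩
  constructor
  · rintro ⟨h1, h2, h3⟩
    exact ⟨h1, h2, (key d).trans h3⟩
  · rintro ⟨h1, h2, h3⟩
    exact ⟨h1, h2, (key d).symm.trans h3⟩

/-- restriction of a labelling which is cut at one dart -/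
theorem rnet_el_one {k : Kt L} {A : Set V} (hA : Comp L A) {δ₀ : D × k.Q} (h0 : L.tl δ₀.1 ∈ A)
    {f : V × k.Q → V} {e : D × k.Q → V} (h : EL k.net {δ₀} f e) :
    EL (rNet k hA) {⟨δ₀, h0⟩} (fun w => f w.1) (fun δ => e δ.1) := by
  have h1 := r_el hA h
  have hC : {δ : {δ : D × k.Q // L.tl δ.1 ∈ A} | δ.1 ∈ ({δ₀} : Set (D × k.Q))} = {⟨δ₀, h0⟩} := by
    ext δ
    constructor
    · intro h2
      exact Subtype.ext h2
    · intro h2
      exact congrArg Subtype.val h2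
  rw [hC] at h1
  exact h1

/-- the part over `A` of a labelling which is cut at one dart -/
theorem rnet_main [Finite V] [Finite D] {A B : Set V} (hA : Comp L A) (hB : Comp L B) {d₀ : D}
    (h0 : L.tl d₀ ∈ A) {f : V × Unit → V} {e : D × Unit → V}
    (h : EL (unitKt L).net {(d₀, ())} f e) (hfB : ∀ x ∈ A, f (x, ()) ∈ B)
    (hne : evt (unitKt L).net f e (d₀, ()) ≠ evh (unitKt L).net f e (d₀, ()))
    (hv : CutV L 2 (evt (unitKt L).net f e (d₀, ())) ∨
      CutV L 2 (evh (unitKt L).net f e (d₀, ()))) :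
    ∃ E, OneC L B (L.ty d₀) (evt (unitKt L).net f e (d₀, ()))
      (evh (unitKt L).net f e (d₀, ())) E ∧ ∃ c : ℤ, 0 ≤ c ∧
      (A.ncard : ℤ) = c * (B.ncard : ℤ) + E.ncard ∧
      (∀ y ∈ B, y ∈ E → ({x | x ∈ A ∧ f (x, ()) = y}.ncard : ℤ) = c + 1) ∧
      ∀ y ∈ B, y ∉ E → ({x | x ∈ A ∧ f (x, ()) = y}.ncard : ℤ) = c := by
  have hfin : Finite (unitKt L).Q := (unitKt L).fin
  have h1 := rnet_el_one (k := unitKt L) hA h0 h
  obtain ⟨E, h2, c, h3, h4, h5⟩ := oc_main h1 hne hv hB (fun w => hfB w.1.1 w.2)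
  have h6 := oc_size (f := fun w : {w : V × (unitKt L).Q // w.1 ∈ A} => f w.1) h2.sub
    (fun w => hfB w.1.1 w.2) h4 h5
  have h7 : Nat.card {w : V × (unitKt L).Q // w.1 ∈ A} = A.ncard := by
    rw [← Nat.card_coe_set_eq]
    refine Nat.card_congr ⟨fun w => ⟨w.1.1, w.2⟩, fun x => ⟨(x.1, ()), x.2⟩, fun w => rfl,
      fun x => rfl⟩
  have h8 : ∀ y, nf (fun w : {w : V × (unitKt L).Q // w.1 ∈ A} => f w.1) y =
      ({x | x ∈ A ∧ f (x, ()) = y}.ncard : ℤ) := by
    intro y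
    unfold nf
    congr 1
    refine Set.ncard_congr (fun w _ => w.1.1) ?_ ?_ ?_
    · rintro ⟨⟨x, ⟨⟩⟩, hx⟩ hw
      exact ⟨hx, hw⟩
    · rintro ⟨⟨x, ⟨⟩⟩, hx⟩ ⟨⟨x', ⟨⟩⟩, hx'⟩ _ _ h9
      have h10 : x = x' := h9
      subst h10
      rfl
    · rintro x ⟨hx, h9⟩
      exact ⟨⟨(x, ()), hx⟩, h9, rfl⟩
  rw [h7] at h6
  refine ⟨E, h2, c, h3, h6, fun y hy hyE => ?_, fun y hy hyE => ?_⟩
  · rw [← h8 y]
    exact h4 y hy hyE
  · rw [← h8 y]
    exact h5 y hy hyE

theorem copy_step [Finite V] [Finite D] {A B : Set V} (hA : Comp L A) (hB : Comp L B) {d₀ : D}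
    (h0 : L.tl d₀ ∈ A) (hle : A.ncard ≤ B.ncard) {f : V × Unit → V} {e : D × Unit → V}
    (h : EL (unitKt L).net {(d₀, ())} f e) (hfB : ∀ x ∈ A, f (x, ()) ∈ B)
    (hne : evt (unitKt L).net f e (d₀, ()) ≠ evh (unitKt L).net f e (d₀, ()))
    (hv : CutV L 2 (evt (unitKt L).net f e (d₀, ())) ∨
      CutV L 2 (evh (unitKt L).net f e (d₀, ()))) :
    OneC L B (L.ty d₀) (evt (unitKt L).net f e (d₀, ())) (evh (unitKt L).net f e (d₀, ()))
      ((fun x => f (x, ())) '' A) ∧ Set.InjOn (fun x => f (x, ())) A ∧ A.ncard < B.ncard := by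
  obtain ⟨E, h1, c, h2, h3, h4, h5⟩ := rnet_main hA hB h0 h hfB hne hv
  have hE : 0 < E.ncard := (Set.ncard_pos (Set.toFinite _)).2 ⟨_, h1.a1⟩
  have hEB : E.ncard < B.ncard := Set.ncard_lt_ncard
    ⟨h1.sub, fun h6 => h1.a2.2 (h6 h1.a2.1)⟩ (Set.toFinite _)
  have hc : c = 0 := by
    by_contra hc
    have h6 : 1 ≤ c := by omega
    have h7 : (1 : ℤ) * (B.ncard : ℤ) ≤ c * (B.ncard : ℤ) :=
      mul_le_mul_of_nonneg_right h6 (by positivity)
    omega
  subst hc
  rw [zero_mul, zero_add] at h3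
  have h3' : A.ncard = E.ncard := by exact_mod_cast h3
  have hEq : E = (fun x => f (x, ())) '' A := by
    ext y
    constructor
    · intro hy
      have h6 := h4 y (h1.sub hy) hy
      have h7 : {x | x ∈ A ∧ f (x, ()) = y}.ncard ≠ 0 := by omega
      obtain ⟨x, hx, h8⟩ := Set.nonempty_of_ncard_ne_zero h7
      exact ⟨x, hx, h8⟩
    · rintro ⟨x, hx, rfl⟩
      by_contra hy
      have h6 := h5 _ (hfB x hx) hy
      have h7 : {x' | x' ∈ A ∧ f (x', ()) = f (x, ())}.ncard = 0 := by exact_mod_cast h6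
      rw [Set.ncard_eq_zero (Set.toFinite _)] at h7
      have h8 : x ∈ {x' | x' ∈ A ∧ f (x', ()) = f (x, ())} := ⟨hx, rfl⟩
      rw [h7] at h8
      exact h8
  rw [hEq] at h1 h3'
  refine ⟨h1, ?_, by rw [h3', ← hEq]; exact hEB⟩
  exact (Set.ncard_image_iff (Set.toFinite _)).1 h3'.symm

theorem copy_strong [Finite V] [Finite D] {A B : Set V} (hA : Comp L A) (hB : Comp L B) {d₀ : D}
    (h0 : L.tl d₀ ∈ A)
    (hs : ∀ d, L.tl d ∈ B → (L.ty d = L.ty d₀ ∨ L.ty d = L.bar (L.ty d₀)) →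
      3 ≤ L.M (L.ty d) (L.tl d) (L.hd d)) {f : V × Unit → V} {e : D × Unit → V}
    (h : EL (unitKt L).net {(d₀, ())} f e) (hfB : ∀ x ∈ A, f (x, ()) ∈ B) :
    evt (unitKt L).net f e (d₀, ()) = evh (unitKt L).net f e (d₀, ()) := by
  by_contra hne
  have hfin : Finite (unitKt L).Q := (unitKt L).fin
  obtain ⟨d, h1, h2, h3⟩ := (val_dt h (d₀, ())).1
  have h3' : L.ty d = L.ty d₀ := h3
  have h4 : L.tl d ∈ B := by
    rw [h1]
    exact hfB _ h0
  have h5 := hs d h4 (Or.inl h3')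
  rw [h1, h2, h3'] at h5
  have h6 : CutV L 2 (evt (unitKt L).net f e (d₀, ())) :=
    cut_mono (cut_M (L.ty d₀) _ _) (by omega) (subset_refl _)
  obtain ⟨E, h7, -⟩ := rnet_main hA hB h0 h hfB hne (Or.inl h6)
  have h8 : L.M (L.ty d₀) (evt (unitKt L).net f e (d₀, ())).1
      (evt (unitKt L).net f e (d₀, ())).2 ≤ (GI.bd L E).ncard := by
    unfold LS.M
    refine Set.ncard_le_ncard ?_ (Set.toFinite _)
    rintro d' ⟨a1, a2, a3⟩
    exact (h7.bd d').2 (Or.inl ⟨a2, Prod.ext a1 a3⟩)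
  have h9 := h7.two
  omega

end Pool.Agent.H24.GK
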