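import Pool.Agent.H24.GK.ClosedNb

/-!
# JOB GK-5: long rings and closed rings

The ring `permKt L d₀ (finRotate (N + 1))`: the dart `(d₀, i)` leads from `(tl d₀, i)` to `(hd d₀, i + 1)`; it is cut at `(d₀, N)`.

`ring_conn`. Let `B` be the component of `f (tl d₀, 0)` (`comp_of`), `S` the set of the `w` with `f w ∈ B`. If `ε` is a dart with
`ε ≠ (d₀, N)`, `rv ε ≠ (d₀, N)` then `tl ε ∈ S ↔ hd ε ∈ S` (`e ε = f (hd ε)`; there is a dart of `L` from `f (tl ε)` to `e ε`, `val_dt`,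
`comp_dt`, `comp_tl`). For every `q` the set of the `x ∈ A` with `(x, q) ∈ S` is empty or `A`: it is closed under the darts different
from `d₀`, `rv d₀`, so it is left by at most one dart (`d₀` or `rv d₀`; if both leave it, the ends of `d₀` are in it and not in it) if
it is not closed, contradiction to `Cut 2` (`cut_symm`); use `Comp.cn`. `(tl d₀, i) ∈ S ↔ (hd d₀, i + 1) ∈ S` for `i < N`. Induction.
`ring_close` (the copies `i + 1, ..., i + 1 + l`, closed up). See `ringv_two`, `ringv_link` in the file `Pool.Agent.H24.GI.RingV`: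
`star`, `cls` are clear, `unc` at a dart `(d, m)` with `d ≠ d₀, rv d₀`: `h.unc`; at `(d₀, m)` for `m < l`: `h.unc` (`i + 1 + m < N`); at
`(d₀, l)`: `e (d₀, i + 1 + l) = e (d₀, i)` by `heq`, `= f (hd d₀, i + 1)` by `h.unc` (`i < N`); at `(rv d₀, 0)`:
`e (rv d₀, i + 1) = f (tl d₀, i) = f (tl d₀, i + 1 + l)`.
`beads_of`. Let `F q x = f (x, φ q)`, `φ : ℤ → Fin (l + 1)` with `φ (q + 1) = finRotate (l + 1) (φ q)`, `φ (q + (l + 1)) = φ q` (e.g. the
class of `q` modulo `l + 1`). `ring_copy` for every copy: a labelling of the unit kit cut at `(d₀, ())`, `evt` is the value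
`(F q (tl d₀), F (q + 1) (hd d₀))` of the dart `(d₀, φ q)`, `evh` is `(F (q - 1) (tl d₀), F q (hd d₀))`. They are different: otherwise
`copy_eq`, `pl_redc` give `f (x, φ q) ∈ A` for `x ∈ A`, so `A = B` (`comp_eq`). `copy_step` gives `inj`, `oc`. `st`: `EL.star`, `EL.unc`. `br`:
`ring_bridge'` (`h.unc`: `e (d, q) = f (hd d, q)` for `d ≠ d₀, rv d₀`; a bridge is different from `d₀`, `rv d₀`).
-/

namespace Pool.Agent.H24.GK

open Pool.Agent.H24.GG Pool.Agent.H24.GH Pool.Agent.H24.GI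

variable {V D T K : Type} {L : LS V D T K} [Finite V] [Finite D]

omit [Finite V] [Finite D] in
private theorem ringc_star {k k' : Kt L} (φ : k'.Q → k.Q) (e : D × k.Q → V) (w : V × k'.Q)
    (t : T) (y : V) :
    {δ : D × k'.Q | k'.net.tl δ = w ∧ k'.net.ty δ = t ∧ e (δ.1, φ δ.2) = y}.ncard =
      {δ | k.net.tl δ = (w.1, φ w.2) ∧ k.net.ty δ = t ∧ e δ = y}.ncard := by
  obtain ⟨x, m⟩ := w
  refine Set.ncard_congr (fun δ _ => ((δ.1, φ δ.2) : D × k.Q)) ?_ ?_ ?_
  · rintro ⟨d, m'⟩ ⟨h1, h2, h3⟩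
    have h4 : (L.tl d, m') = (x, m) := h1
    have h5 : L.tl d = x := congrArg Prod.fst h4
    have h6 : m' = m := congrArg Prod.snd h4
    refine ⟨?_, h2, h3⟩
    change (L.tl d, φ m') = (x, φ m)
    rw [h5, h6]
  · rintro ⟨d, m₁⟩ ⟨d', m₂⟩ ⟨h1, -⟩ ⟨h2, -⟩ h3
    have h4 : d = d' := congrArg Prod.fst h3
    have h5 : m₁ = m := congrArg Prod.snd h1
    have h6 : m₂ = m := congrArg Prod.snd h2
    rw [h4, h5, h6]
  · rintro ⟨d, q⟩ ⟨h1, h2, h3⟩
    have h4 : (L.tl d, q) = (x, φ m) := h1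
    have h5 : L.tl d = x := congrArg Prod.fst h4
    have h6 : q = φ m := congrArg Prod.snd h4
    subst h6
    refine ⟨(d, m), ⟨?_, h2, h3⟩, rfl⟩
    change (L.tl d, m) = (x, m)
    rw [h5]

omit [Finite V] [Finite D] in
private theorem ringc_R0 (d₀ : D) {Q : Type} (s : Equiv.Perm Q) : permR L d₀ s d₀ = s := by
  unfold permR
  rw [if_pos rfl]

omit [Finite V] [Finite D] in
private theorem ringc_R1 (d₀ : D) {Q : Type} (s : Equiv.Perm Q) :
    permR L d₀ s (L.rv d₀) = s.symm := by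
  unfold permR
  rw [if_neg (L.rv_ne d₀), if_pos rfl]

omit [Finite V] [Finite D] in
private theorem ringc_rv0 {d₀ : D} {Q : Type} [Finite Q] (s : Equiv.Perm Q) (i : Q) :
    (permKt L d₀ s).net.rv (d₀, i) = (L.rv d₀, s i) := by
  change (L.rv d₀, permR L d₀ s d₀ i) = (L.rv d₀, s i)
  rw [ringc_R0]

omit [Finite V] [Finite D] in
private theorem ringc_rv1 {d₀ : D} {Q : Type} [Finite Q] (s : Equiv.Perm Q) (i : Q) :
    (permKt L d₀ s).net.rv (L.rv d₀, i) = (d₀, s.symm i) := by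
  change (L.rv (L.rv d₀), permR L d₀ s (L.rv d₀) i) = (d₀, s.symm i)
  rw [ringc_R1, L.rv_rv]

omit [Finite V] [Finite D] in
private theorem ringc_rv2 {d₀ : D} {Q : Type} [Finite Q] (s : Equiv.Perm Q) {d : D}
    (h1 : d ≠ d₀) (h2 : d ≠ L.rv d₀) (i : Q) :
    (permKt L d₀ s).net.rv (d, i) = (L.rv d, i) := by
  change (L.rv d, permR L d₀ s d i) = (L.rv d, i)
  rw [ringk_other L s h1 h2]
  rfl

omit [Finite V] [Finite D] in
private theorem ringc_hd0 {d₀ : D} {Q : Type} [Finite Q] (s : Equiv.Perm Q) (i : Q) :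
    (permKt L d₀ s).net.hd (d₀, i) = (L.hd d₀, s i) := by
  unfold Net.hd
  rw [ringc_rv0]
  rfl

omit [Finite V] [Finite D] in
private theorem ringc_hd1 {d₀ : D} {Q : Type} [Finite Q] (s : Equiv.Perm Q) (i : Q) :
    (permKt L d₀ s).net.hd (L.rv d₀, i) = (L.tl d₀, s.symm i) := by
  unfold Net.hd
  rw [ringc_rv1]
  rfl

omit [Finite V] [Finite D] in
private theorem ringc_hd2 {d₀ : D} {Q : Type} [Finite Q] (s : Equiv.Perm Q) {d : D}
    (h1 : d ≠ d₀) (h2 : d ≠ L.rv d₀) (i : Q) :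
    (permKt L d₀ s).net.hd (d, i) = (L.hd d, i) := by
  unfold Net.hd
  rw [ringc_rv2 s h1 h2]
  rfl

omit [Finite V] [Finite D] in
private theorem ringc_rne {d₀ d : D} (h : d ≠ L.rv d₀) : L.rv d ≠ d₀ := by
  intro hx
  apply h
  rw [← hx, L.rv_rv]

omit [Finite V] [Finite D] in
private theorem ringc_link {d₀ : D} {Q : Type} [Finite Q] {s : Equiv.Perm Q} {C : Set (D × Q)}
    (hC : ∀ δ ∈ C, δ.1 = d₀) {f : V × Q → V} {e : D × Q → V}
    (h : EL (permKt L d₀ s).net C f e) {i : Q} (hi : (d₀, i) ∉ C) :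
    e (d₀, i) = f (L.hd d₀, s i) ∧ e (L.rv d₀, s i) = f (L.tl d₀, i) := by
  have hr := ringc_rv0 (L := L) (d₀ := d₀) s i
  have hr' : (permKt L d₀ s).net.rv (L.rv d₀, s i) = (d₀, i) := by
    rw [ringc_rv1, Equiv.symm_apply_apply]
  have hn2 : ((L.rv d₀, s i) : D × Q) ∉ C := fun hx => L.rv_ne d₀ (hC _ hx)
  constructor
  · have h1 := h.unc (d₀, i) hi (by rw [hr]; exact hn2)
    rw [ringc_hd0] at h1
    exact h1
  · have h1 := h.unc (L.rv d₀, s i) hn2 (by rw [hr']; exact hi)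
    rw [ringc_hd1, Equiv.symm_apply_apply] at h1
    exact h1

omit [Finite V] [Finite D] in
private theorem ringc_oth {d₀ : D} {Q : Type} [Finite Q] {s : Equiv.Perm Q} {C : Set (D × Q)}
    (hC : ∀ δ ∈ C, δ.1 = d₀) {f : V × Q → V} {e : D × Q → V}
    (h : EL (permKt L d₀ s).net C f e) {d : D} (h1 : d ≠ d₀) (h2 : d ≠ L.rv d₀) (i : Q) :
    e (d, i) = f (L.hd d, i) := by
  have h3 := h.unc (d, i) (fun hx => h1 (hC _ hx)) (by
    rw [ringc_rv2 s h1 h2]
    exact fun hx => ringc_rne h2 (hC _ hx))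
  rw [ringc_hd2 s h1 h2] at h3
  exact h3

omit [Finite V] in
private theorem ringc_all {A : Set V} (hA : Comp L A) {d₀ : D}
    (h2 : Cut L 2 (L.tl d₀) {L.hd d₀}) {Q : Type} [Finite Q] {s : Equiv.Perm Q}
    {C : Set (D × Q)} (hC : ∀ δ ∈ C, δ.1 = d₀) {f : V × Q → V} {e : D × Q → V}
    (h : EL (permKt L d₀ s).net C f e) {B : Set V} (hB : Comp L B) (q : Q) {x : V} (hx : x ∈ A)
    (hxB : f (x, q) ∈ B) : ∀ y ∈ A, f (y, q) ∈ B := by
  have hst : ∀ d, d ≠ d₀ → d ≠ L.rv d₀ → (f (L.tl d, q) ∈ B ↔ f (L.hd d, q) ∈ B) := by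
    intro d h3 h4
    have h5 := (val_dt h (d, q)).1
    change Dt L (L.ty d) (f (L.tl d, q)) (e (d, q)) at h5
    rw [ringc_oth hC h h3 h4 q] at h5
    exact ⟨fun h6 => comp_dt hB h5 h6, fun h6 => comp_dt hB (dt_symm h5) h6⟩
  have hor : ∀ d ∈ bd L {z | z ∈ A ∧ f (z, q) ∈ B}, d = d₀ ∨ d = L.rv d₀ := by
    rintro d ⟨⟨h3, h4⟩, h5⟩
    by_contra h6
    push Not at h6
    exact h5 ⟨hA.cl d h3, (hst d h6.1 h6.2).1 h4⟩
  have hn0 : d₀ ∉ bd L {z | z ∈ A ∧ f (z, q) ∈ B} := by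
    rintro ⟨h3, h4⟩
    have h5 := h2 {z | z ∈ A ∧ f (z, q) ∈ B} h3 (by
      rintro z rfl
      exact h4)
    have h6 : bd L {z | z ∈ A ∧ f (z, q) ∈ B} ⊆ {d₀} := by
      intro d hd
      rcases hor d hd with rfl | rfl
      · rfl
      · exfalso
        apply hd.2
        rw [hon_hd_rv]
        exact h3
    have h7 := Set.ncard_le_ncard h6 (Set.toFinite _)
    rw [Set.ncard_singleton] at h7
    omega
  have hn1 : L.rv d₀ ∉ bd L {z | z ∈ A ∧ f (z, q) ∈ B} := by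
    rintro ⟨h3, h4⟩
    rw [hon_hd_rv] at h4
    have h5 := cut_symm h2 {z | z ∈ A ∧ f (z, q) ∈ B} h3 (by
      rintro z rfl
      exact h4)
    have h6 : bd L {z | z ∈ A ∧ f (z, q) ∈ B} ⊆ {L.rv d₀} := by
      intro d hd
      rcases hor d hd with rfl | rfl
      · exact absurd hd.1 h4
      · rfl
    have h7 := Set.ncard_le_ncard h6 (Set.toFinite _)
    rw [Set.ncard_singleton] at h7
    omega
  have hcl : ∀ d, L.tl d ∈ A → f (L.tl d, q) ∈ B → f (L.hd d, q) ∈ B := by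
    intro d h3 h4
    by_contra h5
    have h6 : d ∈ bd L {z | z ∈ A ∧ f (z, q) ∈ B} := ⟨⟨h3, h4⟩, fun h7 => h5 h7.2⟩
    rcases hor d h6 with rfl | rfl
    · exact hn0 h6
    · exact hn1 h6
  intro y hy
  have h3 : Cd L x y := hA.cn x hx y hy
  have h4 : y ∈ A ∧ f (y, q) ∈ B := by
    clear hy
    induction h3 with
    | refl => exact ⟨hx, hxB⟩
    | tail _ h5 ih =>
      obtain ⟨d, rfl, rfl⟩ := h5
      exact ⟨hA.cl d ih.1, hcl d ih.1 ih.2⟩
  exact h4.2

theorem ring_conn {A : Set V} (hA : Comp L A) {d₀ : D} (h0 : L.tl d₀ ∈ A)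
    (h2 : Cut L 2 (L.tl d₀) {L.hd d₀}) {N : ℕ} {f : V × Fin (N + 1) → V}
    {e : D × Fin (N + 1) → V}
    (h : EL (permKt L d₀ (finRotate (N + 1))).net {(d₀, Fin.last N)} f e) :
    ∃ B, Comp L B ∧ ∀ x ∈ A, ∀ q, f (x, q) ∈ B := by
  refine ⟨{y | Cd L (f (L.tl d₀, 0)) y}, comp_of _, ?_⟩
  have hB := comp_of (L := L) (f (L.tl d₀, 0))
  have hC : ∀ δ ∈ ({(d₀, Fin.last N)} : Set (D × Fin (N + 1))), δ.1 = d₀ := by
    rintro δ rfl
    rfl
  have hall := fun q x hx hxB => ringc_all (x := x) hA h2 hC h hB q hx hxB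
  have key : ∀ q, ∀ x ∈ A, f (x, q) ∈ {y | Cd L (f (L.tl d₀, 0)) y} := by
    intro q
    induction q using Fin.induction with
    | zero => exact hall 0 (L.tl d₀) h0 Relation.ReflTransGen.refl
    | succ i ih =>
      have hne : i.castSucc ≠ Fin.last N := (Fin.castSucc_lt_last i).ne
      have hs : finRotate (N + 1) i.castSucc = i.succ := by
        apply Fin.ext
        rw [coe_finRotate_of_ne_last hne]
        simp
      have h3 := (val_dt h (d₀, i.castSucc)).1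
      change Dt L (L.ty d₀) (f (L.tl d₀, i.castSucc)) (e (d₀, i.castSucc)) at h3
      rw [(ringc_link hC h (i := i.castSucc) (fun hx => hne (congrArg Prod.snd hx))).1, hs] at h3
      exact hall i.succ (L.hd d₀) (hA.cl _ h0) (comp_dt hB h3 (ih _ h0))
  exact fun x hx q => key q x hx

theorem ring_close {d₀ : D} {N : ℕ} {f : V × Fin (N + 1) → V} {e : D × Fin (N + 1) → V}
    (h : EL (permKt L d₀ (finRotate (N + 1))).net {(d₀, Fin.last N)} f e) {i l : ℕ}
    (hl : i + 1 + l < N + 1)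
    (heq : evt (permKt L d₀ (finRotate (N + 1))).net f e (d₀, ⟨i, by omega⟩) =
      evt (permKt L d₀ (finRotate (N + 1))).net f e (d₀, ⟨i + 1 + l, hl⟩)) :
    EL (permKt L d₀ (finRotate (l + 1))).net ∅
      (fun w => f (w.1, ⟨i + 1 + w.2.1, by have := w.2.2; omega⟩))
      (fun δ => e (δ.1, ⟨i + 1 + δ.2.1, by have := δ.2.2; omega⟩)) := by
  have hb : ∀ m : Fin (l + 1), i + 1 + m.1 < N + 1 := fun m => by
    have := m.2
    omega
  obtain ⟨φ, hφ⟩ : ∃ φ : Fin (l + 1) → Fin (N + 1), ∀ m, φ m = ⟨i + 1 + m.1, hb m⟩ :=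
    ⟨fun m => ⟨i + 1 + m.1, hb m⟩, fun _ => rfl⟩
  have hφl : φ (Fin.last l) = ⟨i + 1 + l, by omega⟩ := hφ _
  have hC : ∀ δ ∈ ({(d₀, Fin.last N)} : Set (D × Fin (N + 1))), δ.1 = d₀ := by
    rintro δ rfl
    rfl
  have heq1 : f (L.tl d₀, (⟨i, by omega⟩ : Fin (N + 1))) =
      f (L.tl d₀, (⟨i + 1 + l, hl⟩ : Fin (N + 1))) := congrArg Prod.fst heq
  have heq2 : e (d₀, (⟨i, by omega⟩ : Fin (N + 1))) =
      e (d₀, (⟨i + 1 + l, hl⟩ : Fin (N + 1))) := congrArg Prod.snd heq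
  have key : ∀ m : Fin (l + 1), e (d₀, φ m) = f (L.hd d₀, φ (finRotate (l + 1) m)) ∧
      e (L.rv d₀, φ (finRotate (l + 1) m)) = f (L.tl d₀, φ m) := by
    intro m
    by_cases hm : m = Fin.last l
    · subst hm
      rw [finRotate_last, hφl]
      have hne : (⟨i, by omega⟩ : Fin (N + 1)) ≠ Fin.last N := by
        intro hx
        have := congrArg Fin.val hx
        simp only [Fin.val_last] at this
        omega
      have hφ0 : finRotate (N + 1) ⟨i, by omega⟩ = φ 0 := by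
        apply Fin.ext
        rw [coe_finRotate_of_ne_last hne, hφ]
        simp
      have hlk := ringc_link hC h (i := (⟨i, by omega⟩ : Fin (N + 1)))
        (fun hx => hne (congrArg Prod.snd hx))
      rw [hφ0] at hlk
      exact ⟨heq2.symm.trans hlk.1, hlk.2.trans heq1⟩
    · have hne : φ m ≠ Fin.last N := by
        intro hx
        rw [hφ] at hx
        have h3 := congrArg Fin.val hx
        simp only [Fin.val_last] at h3
        have h4 := m.2
        have h5 : m.1 ≠ l := fun h6 => hm (Fin.ext h6)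
        omega
      have hlk := ringc_link hC h (i := φ m) (fun hx => hne (congrArg Prod.snd hx))
      have hφs : finRotate (N + 1) (φ m) = φ (finRotate (l + 1) m) := by
        apply Fin.ext
        rw [coe_finRotate_of_ne_last hne, hφ, hφ]
        change i + 1 + m.1 + 1 = i + 1 + (finRotate (l + 1) m).1
        rw [coe_finRotate_of_ne_last hm]
        omega
      rw [hφs] at hlk
      exact hlk
  have hEL : EL (permKt L d₀ (finRotate (l + 1))).net ∅
      (fun w : V × Fin (l + 1) => f (w.1, φ w.2)) (fun δ : D × Fin (l + 1) => e (δ.1, φ δ.2)) := by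
    refine ⟨fun w => h.cls (w.1, φ w.2), ?_, ?_⟩
    · intro w t y
      exact (ringc_star (k := permKt L d₀ (finRotate (N + 1)))
        (k' := permKt L d₀ (finRotate (l + 1))) φ e w t y).trans (h.star (w.1, φ w.2) t y)
    · rintro ⟨d, (m : Fin (l + 1))⟩ - -
      by_cases hd : d = d₀
      · subst hd
        rw [ringc_hd0]
        exact (key m).1
      · by_cases hd' : d = L.rv d₀
        · subst hd'
          rw [ringc_hd1]
          have h4 := (key ((finRotate (l + 1)).symm m)).2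
          rw [Equiv.apply_symm_apply] at h4
          exact h4
        · rw [ringc_hd2 _ hd hd']
          exact ringc_oth hC h hd hd' (φ m)
  have hf : (fun w : V × Fin (l + 1) => f (w.1, φ w.2)) =
      (fun w => f (w.1, ⟨i + 1 + w.2.1, by have := w.2.2; omega⟩)) := by
    funext w
    rw [hφ]
  have he : (fun δ : D × Fin (l + 1) => e (δ.1, φ δ.2)) =
      (fun δ => e (δ.1, ⟨i + 1 + δ.2.1, by have := δ.2.2; omega⟩)) := by
    funext δ
    rw [hφ]
  rw [hf, he] at hEL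
  exact hEL

open Classical in
/-- the values of the darts of the copy `q` -/
noncomputable def bev (L : LS V D T K) (d₀ : D) (F : ℤ → V → V) (q : ℤ) (d : D) : V :=
  if d = d₀ then F (q + 1) (L.hd d₀) else if d = L.rv d₀ then F (q - 1) (L.tl d₀) else F q (L.hd d)

/-- a closed ring of copies of `A` with labels in `B` -/
structure Beads (L : LS V D T K) (A B : Set V) (d₀ : D) (F : ℤ → V → V) (m : ℕ) : Prop where
  mp : 0 < m
  per : ∀ q x, F (q + m) x = F q x
  cl : ∀ q, ∀ x ∈ A, L.cl (F q x) = L.cl x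
  inj : ∀ q, Set.InjOn (F q) A
  oc : ∀ q, OneC L B (L.ty d₀) (F q (L.tl d₀), F (q + 1) (L.hd d₀))
    (F (q - 1) (L.tl d₀), F q (L.hd d₀)) (F q '' A)
  st : ∀ q, ∀ x ∈ A, ∀ t z,
    {d | L.tl d = x ∧ L.ty d = t ∧ bev L d₀ F q d = z}.ncard = L.M t (F q x) z
  br : ∀ q d, L.tl d ∈ A → ¬ Cut L 2 (L.tl d) {L.hd d} →
    ¬ CutV L 2 (F q (L.tl d), F q (L.hd d))

theorem beads_of {A B : Set V} (hA : Comp L A) (hB : Comp L B) {d₀ : D} (h0 : L.tl d₀ ∈ A)
    (h2 : Cut L 2 (L.tl d₀) {L.hd d₀}) (hred : Redc L) (hne : A ≠ B) (hle : A.ncard ≤ B.ncard)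
    {l : ℕ} {f : V × Fin (l + 1) → V} {e : D × Fin (l + 1) → V}
    (h : EL (permKt L d₀ (finRotate (l + 1))).net ∅ f e) (hfB : ∀ x ∈ A, ∀ q, f (x, q) ∈ B)
    (hnb : ∀ q, CutV L 2 (evt (permKt L d₀ (finRotate (l + 1))).net f e (d₀, q))) :
    ∃ F : ℤ → V → V, Beads L A B d₀ F (l + 1) := by
  have : Finite T := by
    refine Finite.of_surjective L.ty fun t => ?_
    obtain ⟨x, hx⟩ := L.cls t
    obtain ⟨y, d, -, -, hd⟩ := dt_exists hx
    exact ⟨d, hd⟩
  have hC : ∀ δ ∈ (∅ : Set (D × Fin (l + 1))), δ.1 = d₀ := fun δ hδ => absurd hδ (Set.notMem_empty _)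
  have hpos : (0 : ℤ) < ((l + 1 : ℕ) : ℤ) := by positivity
  obtain ⟨φ, hφ⟩ : ∃ φ : ℤ → Fin (l + 1), ∀ q, ((φ q).1 : ℤ) = q % ((l + 1 : ℕ) : ℤ) := by
    refine ⟨fun q => ⟨(q % ((l + 1 : ℕ) : ℤ)).toNat, ?_⟩, fun q => ?_⟩
    · have h3 := Int.emod_lt_of_pos q hpos
      have h4 := Int.emod_nonneg q hpos.ne'
      omega
    · have h4 := Int.emod_nonneg q hpos.ne'
      change ((q % ((l + 1 : ℕ) : ℤ)).toNat : ℤ) = _
      omega
  have hφp : ∀ q, φ (q + ((l + 1 : ℕ) : ℤ)) = φ q := by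
    intro q
    apply Fin.ext
    have h3 := hφ (q + ((l + 1 : ℕ) : ℤ))
    rw [Int.add_emod_right, ← hφ q] at h3
    exact_mod_cast h3
  have hφs : ∀ q, φ (q + 1) = finRotate (l + 1) (φ q) := by
    intro q
    apply Fin.ext
    have h3 := hφ (q + 1)
    have h4 := hφ q
    have h5 := Int.emod_lt_of_pos q hpos
    have h6 := Int.emod_nonneg q hpos.ne'
    have h7 : (q + 1) % ((l + 1 : ℕ) : ℤ) = (q % ((l + 1 : ℕ) : ℤ) + 1) % ((l + 1 : ℕ) : ℤ) := by
      rw [Int.add_emod, Int.add_emod (q % ((l + 1 : ℕ) : ℤ)) 1, Int.emod_emod_of_dvd _ (dvd_refl _)]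
    by_cases hm : φ q = Fin.last l
    · rw [hm, finRotate_last]
      have h8 : q % ((l + 1 : ℕ) : ℤ) = (l : ℤ) := by
        rw [← h4, hm, Fin.val_last]
      rw [h7, h8] at h3
      have h9 : ((l : ℤ) + 1) % ((l + 1 : ℕ) : ℤ) = 0 := by
        push_cast
        exact Int.emod_self
      rw [h9] at h3
      have h10 : (φ (q + 1)).1 = 0 := by exact_mod_cast h3
      rw [h10]
      rfl
    · rw [coe_finRotate_of_ne_last hm]
      have h8 : (φ q).1 ≠ l := fun h9 => hm (Fin.ext h9)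
      have h9 := (φ q).2
      have h10 : q % ((l + 1 : ℕ) : ℤ) + 1 < ((l + 1 : ℕ) : ℤ) := by
        rw [← h4]
        push_cast
        omega
      rw [h7, Int.emod_eq_of_lt (by omega) h10, ← h4] at h3
      exact_mod_cast h3
  have hφm : ∀ q, φ (q - 1) = (finRotate (l + 1)).symm (φ q) := by
    intro q
    rw [Equiv.eq_symm_apply, ← hφs, sub_add_cancel]
  have he0 : ∀ q, e (d₀, φ q) = f (L.hd d₀, φ (q + 1)) := by
    intro q
    rw [hφs]
    exact (ringc_link hC h (i := φ q) (Set.notMem_empty _)).1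
  have he1 : ∀ q, e (L.rv d₀, φ q) = f (L.tl d₀, φ (q - 1)) := by
    intro q
    have h3 := (ringc_link hC h (i := φ (q - 1)) (Set.notMem_empty _)).2
    rw [← hφs, sub_add_cancel] at h3
    exact h3
  have hev : ∀ q d, e (d, φ q) = bev L d₀ (fun q x => f (x, φ q)) q d := by
    intro q d
    unfold bev
    by_cases hd : d = d₀
    · subst hd
      rw [if_pos rfl]
      exact he0 q
    · rw [if_neg hd]
      by_cases hd' : d = L.rv d₀
      · subst hd'
        rw [if_pos rfl]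
        exact he1 q
      · rw [if_neg hd']
        exact ringc_oth hC h hd hd' (φ q)
  have hcp : ∀ q, OneC L B (L.ty d₀) (f (L.tl d₀, φ q), f (L.hd d₀, φ (q + 1)))
      (f (L.tl d₀, φ (q - 1)), f (L.hd d₀, φ q)) ((fun x => f (x, φ q)) '' A) ∧
      Set.InjOn (fun x => f (x, φ q)) A := by
    intro q
    have h1 := ring_copy hC h (φ q)
    have h3 : evt (unitKt L).net (fun w : V × Unit => f (w.1, φ q))
        (fun δ : D × Unit => e (δ.1, φ q)) (d₀, ()) ≠ evh (unitKt L).net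
          (fun w : V × Unit => f (w.1, φ q)) (fun δ : D × Unit => e (δ.1, φ q)) (d₀, ()) := by
      intro h4
      have h5 := pl_redc hred hA (copy_eq hA h1 h4) (L.tl d₀) h0
      exact hne (comp_eq hA hB h5 (hfB _ h0 (φ q)))
    obtain ⟨h4, h5, -⟩ := copy_step hA hB h0 hle h1 (fun x hx => hfB x hx (φ q)) h3
      (Or.inl (hnb (φ q)))
    have h6 : OneC L B (L.ty d₀) (f (L.tl d₀, φ q), e (d₀, φ q))
      (e (L.rv d₀, φ q), f (L.hd d₀, φ q)) ((fun x => f (x, φ q)) '' A) := h4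
    rw [he0, he1] at h6
    exact ⟨h6, h5⟩
  refine ⟨fun q x => f (x, φ q), ⟨Nat.succ_pos l, ?_, ?_, fun q => (hcp q).2,
    fun q => (hcp q).1, ?_, ?_⟩⟩
  · intro q x
    rw [hφp]
  · intro q x _
    exact h.cls (x, φ q)
  · intro q x _ t z
    have h3 := h.star (x, φ q) t z
    refine Eq.trans ?_ h3
    refine Set.ncard_congr (fun d _ => ((d, φ q) : D × Fin (l + 1))) ?_ ?_ ?_
    · rintro d ⟨h4, h5, h6⟩
      refine ⟨?_, h5, ?_⟩
      · change (L.tl d, φ q) = (x, φ q)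
        rw [h4]
      · rw [← h6]
        exact hev q d
    · intro d d' _ _ h4
      exact congrArg Prod.fst h4
    · rintro ⟨d, p⟩ ⟨h4, h5, h6⟩
      have h7 : p = φ q := congrArg Prod.snd h4
      subst h7
      exact ⟨d, ⟨congrArg Prod.fst h4, h5, (hev q d).symm.trans h6⟩, rfl⟩
  · intro q d hdA hd
    have h3 := ring_bridge' h2 h hd (φ q)
    have h4 : d ≠ d₀ := by
      rintro rfl
      exact hd h2
    have h5 : d ≠ L.rv d₀ := by
      rintro rfl
      rw [hon_hd_rv] at hd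
      exact hd (cut_symm h2)
    change ¬ CutV L 2 (f (L.tl d, φ q), e (d, φ q)) at h3
    rw [ringc_oth hC h h4 h5 (φ q)] at h3
    exact h3

end Pool.Agent.H24.GK
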