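import Pool.Agent.H24.GK.Beads2

/-!
# JOB GK-8: the ring of a component

`ringP_of`. `Cut L 2 (tl d₀) {hd d₀}` in both cases of `h3` (`cut_mono`; for a loop it is trivial). `k = permKt L d₀ (finRotate (N + 1))`,
`q = Fin.last N`, `N` the number of the elements of `V × V`. Let `f, e` be a labelling cut at `(d₀, N)`, `a i = evt (d₀, i)` for `i ≤ N`.
`ring_conn` gives `B`. The class of `f (tl d₀, 0) ∈ B` is `cl (tl d₀)`. By the pigeonhole principle there are `i < j ≤ N` with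
`a i = a j`; `ring_close` (`j = i + 1 + l`).
Suppose `A ≠ B`. If the first case of `hB` holds: `ring_copy` for one copy and `copy_strong`, `copy_eq`, `pl_redc` give `A = B`,
contradiction. Otherwise `closed_nb` for the closed ring: the values are not bridges, and the equality gives `A.ncard ≤ B.ncard`;
`beads_of`, `beads_false`. So `A = B`.
`closed_nb` for the closed ring (`le_rfl`): `CutV L 2 (a j)`. For every copy `q` (`ring_copy`) `evt` is `a q`, and `evh` is `a (q - 1)` for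
`0 < q` (`h.unc`, see `ringv_step`) and `evh (d₀, N)` for `q = 0`. If one of them is `CutV 2` then they agree (`copy_step` would give
`A.ncard < A.ncard`). So all `a q` are `a j`, and `evh (d₀, N) = a j`. So `evt = evh` for the copy `0`; `copy_eq`, `pl_aut` give `g` with
`g x = f (x, 0)` on `A`, and `a 0 = (f (tl d₀, 0), e (d₀, 0)) = (g (tl d₀), g (hd d₀))` (`e (d₀, 0) = f (hd d₀, 0)`, as `evt = evh` for
this copy).
`ringP_rv`: the same kit, with the dart `rv (d₀, q)`; `el_symm`; `evt (rv δ)`, `evh (rv δ)` are `evh δ`, `evt δ` with the components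
exchanged. If `rv (d₀, q) = (rv d₀, R d₀ q)`: the position is `R d₀ q`.
-/

namespace Pool.Agent.H24.GK

open Pool.Agent.H24.GG Pool.Agent.H24.GH Pool.Agent.H24.GI

variable {V D T K : Type} {L : LS V D T K} [Finite V] [Finite D]

/-- there is a ring for the dart `d₀` of the component `A` -/
def RingP (L : LS V D T K) (A : Set V) (d₀ : D) : Prop :=
  ∃ (k : Kt L) (q : k.Q), ∀ f e, EL k.net {(d₀, q)} f e →
    evt k.net f e (d₀, q) = evh k.net f e (d₀, q) ∧
      ∃ g, Aut L g ∧ (∀ x ∈ A, g x ∈ A) ∧ evt k.net f e (d₀, q) = (g (L.tl d₀), g (L.hd d₀))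

omit [Finite V] [Finite D] in
private theorem rpc_R0 (d₀ : D) {Q : Type} (s : Equiv.Perm Q) : permR L d₀ s d₀ = s := by
  unfold permR
  rw [if_pos rfl]

omit [Finite V] [Finite D] in
private theorem rpc_link {d₀ : D} {Q : Type} [Finite Q] {s : Equiv.Perm Q} {q : Q}
    {f : V × Q → V} {e : D × Q → V} (h : EL (permKt L d₀ s).net {(d₀, q)} f e) {i : Q}
    (hi : i ≠ q) :
    e (d₀, i) = f (L.hd d₀, s i) ∧ e (L.rv d₀, s i) = f (L.tl d₀, i) := by
  have hr : (permKt L d₀ s).net.rv (d₀, i) = (L.rv d₀, s i) := by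
    change (L.rv d₀, permR L d₀ s d₀ i) = (L.rv d₀, s i)
    rw [rpc_R0]
  have hr' : (permKt L d₀ s).net.rv (L.rv d₀, s i) = (d₀, i) := by
    have h0 := (permKt L d₀ s).net.rv_rv (d₀, i)
    rw [hr] at h0
    exact h0
  have hn1 : ((d₀, i) : D × Q) ∉ ({(d₀, q)} : Set (D × Q)) :=
    fun hx => hi (congrArg Prod.snd hx)
  have hn2 : ((L.rv d₀, s i) : D × Q) ∉ ({(d₀, q)} : Set (D × Q)) :=
    fun hx => L.rv_ne d₀ (congrArg Prod.fst hx)
  constructor
  · have h1 := h.unc (d₀, i) hn1 (by rw [hr]; exact hn2)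
    have h2 : (permKt L d₀ s).net.hd (d₀, i) = (L.hd d₀, s i) := by
      unfold Net.hd
      rw [hr]
      rfl
    rw [h2] at h1
    exact h1
  · have h1 := h.unc (L.rv d₀, s i) hn2 (by rw [hr']; exact hn1)
    have h2 : (permKt L d₀ s).net.hd (L.rv d₀, s i) = (L.tl d₀, i) := by
      unfold Net.hd
      rw [hr']
      rfl
    rw [h2] at h1
    exact h1

omit [Finite V] [Finite D] in
private theorem rpc_step {d₀ : D} {N : ℕ} {f : V × Fin (N + 1) → V}
    {e : D × Fin (N + 1) → V}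
    (h : EL (permKt L d₀ (finRotate (N + 1))).net {(d₀, Fin.last N)} f e) (i : Fin N) :
    (f (L.tl d₀, i.castSucc), e (d₀, i.castSucc)) =
      (e (L.rv d₀, i.succ), f (L.hd d₀, i.succ)) := by
  have hne : i.castSucc ≠ Fin.last N := (Fin.castSucc_lt_last i).ne
  have hs : finRotate (N + 1) i.castSucc = i.succ := by
    apply Fin.ext
    rw [coe_finRotate_of_ne_last hne]
    simp
  have hlk := rpc_link h hne
  rw [hs] at hlk
  rw [hlk.1, hlk.2]

omit [Finite V] [Finite D] in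
private theorem rpc_R2 {d₀ : D} {Q : Type} (s : Equiv.Perm Q) {d : D} (h1 : d ≠ d₀)
    (h2 : d ≠ L.rv d₀) : permR L d₀ s d = Equiv.refl _ := by
  unfold permR
  rw [if_neg h1, if_neg h2]

omit [Finite V] [Finite D] in
private theorem rpc_star {k k' : Kt L} (φ : k'.Q → k.Q) (e : D × k.Q → V) (w : V × k'.Q)
    (t : T) (y : V) :
    {δ : D × k'.Q | k'.net.tl δ = w ∧ k'.net.ty δ = t ∧ e (δ.1, φ δ.2) = y}.ncard =
      {δ | k.net.tl δ = (w.1, φ w.2) ∧ k.net.ty δ = t ∧ e δ = y}.ncard := by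
  obtain ⟨x, m⟩ := w
  refine Set.ncard_congr (fun δ _ => ((δ.1, φ δ.2) : D × k.Q)) ?_ ?_ ?_
  · rintro ⟨d, m'⟩ ⟨h1, h2, h3⟩
    have h4 : (L.tl d, m') = (x, m) := h1
    have h5 : L.tl d = x := congrArg Prod.fst h4
    have h6 : m' = m := congrArg Prod.snd h4
    refine ⟨?_, h2, h3⟩
    change (L.tl d, φ m') = (x, φ m)
    rw [h5, h6]
  · rintro ⟨d, m₁⟩ ⟨d', m₂⟩ ⟨h1, -⟩ ⟨h2, -⟩ h3
    have h4 : d = d' := congrArg Prod.fst h3
    have h5 : m₁ = m := congrArg Prod.snd h1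
    have h6 : m₂ = m := congrArg Prod.snd h2
    rw [h4, h5, h6]
  · rintro ⟨d, q⟩ ⟨h1, h2, h3⟩
    have h4 : (L.tl d, q) = (x, φ m) := h1
    have h5 : L.tl d = x := congrArg Prod.fst h4
    have h6 : q = φ m := congrArg Prod.snd h4
    subst h6
    refine ⟨(d, m), ⟨?_, h2, h3⟩, rfl⟩
    change (L.tl d, m) = (x, m)
    rw [h5]

omit [Finite V] [Finite D] in
/-- `ring_copy` without the assumption that the set of types is finite -/
private theorem rpc_copy {d₀ : D} {Q : Type} [Finite Q] {s : Equiv.Perm Q} {q₀ : Q}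
    {f : V × Q → V} {e : D × Q → V}
    (h : EL (permKt L d₀ s).net {(d₀, q₀)} f e) (q : Q) :
    EL (unitKt L).net {(d₀, ())} (fun w => f (w.1, q)) (fun δ => e (δ.1, q)) := by
  refine ⟨fun w => h.cls (w.1, q), ?_, ?_⟩
  · intro w t y
    exact (rpc_star (k := permKt L d₀ s) (k' := unitKt L) (fun _ => q) e w t y).trans
      (h.star (w.1, q) t y)
  · rintro ⟨d, u⟩ h1 h2
    have h3 : d ≠ d₀ := by
      rintro rfl
      exact h1 rfl
    have h4 : L.rv d ≠ d₀ := by
      intro h5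
      apply h2
      change (L.rv d, ()) = (d₀, ())
      rw [h5]
    have h4' : d ≠ L.rv d₀ := by
      intro h5
      apply h4
      rw [h5, L.rv_rv]
    have h6 := h.unc (d, q) (fun hx => h3 (congrArg Prod.fst hx))
      (fun hx => h4 (congrArg Prod.fst hx))
    have h7 : (permKt L d₀ s).net.hd (d, q) = (L.hd d, q) := by
      change (L.tl (L.rv d), permR L d₀ s d q) = (L.hd d, q)
      rw [rpc_R2 s h3 h4']
      rfl
    rw [h7] at h6
    exact h6

/-- the component of the labels is `A` -/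
private theorem rpc_eq {A : Set V} (hA : Comp L A) {d₀ : D} (h0 : L.tl d₀ ∈ A)
    (h3 : Cut L 3 (L.tl d₀) {L.hd d₀} ∨ L.tl d₀ = L.hd d₀)
    (h2 : Cut L 2 (L.tl d₀) {L.hd d₀}) (hred : Redc L)
    (hB : ∀ B, Comp L B → (∃ y ∈ B, L.cl y = L.cl (L.tl d₀)) → B ≠ A →
      (∀ d, L.tl d ∈ B → (L.ty d = L.ty d₀ ∨ L.ty d = L.bar (L.ty d₀)) →
        3 ≤ L.M (L.ty d) (L.tl d) (L.hd d)) ∨
      ((brd L B).ncard * A.ncard ≤ (brd L A).ncard * B.ncard ∧
        ((brd L B).ncard * A.ncard = (brd L A).ncard * B.ncard → A.ncard ≤ B.ncard)))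
    {N : ℕ} {f : V × Fin (N + 1) → V} {e : D × Fin (N + 1) → V}
    (h : EL (permKt L d₀ (finRotate (N + 1))).net {(d₀, Fin.last N)} f e) {B : Set V}
    (hBc : Comp L B) (hfB : ∀ x ∈ A, ∀ q, f (x, q) ∈ B) {i l : ℕ} (hl : i + 1 + l < N + 1)
    (heq : evt (permKt L d₀ (finRotate (N + 1))).net f e (d₀, ⟨i, by omega⟩) =
      evt (permKt L d₀ (finRotate (N + 1))).net f e (d₀, ⟨i + 1 + l, hl⟩)) : B = A := by
  by_contra hne
  have hcl : L.cl (f (L.tl d₀, (0 : Fin (N + 1)))) = L.cl (L.tl d₀) :=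
    h.cls (L.tl d₀, (0 : Fin (N + 1)))
  rcases hB B hBc ⟨f (L.tl d₀, (0 : Fin (N + 1))), hfB _ h0 (0 : Fin (N + 1)), hcl⟩ hne with hs | ⟨hd1, hd2⟩
  · have h4 := rpc_copy h (0 : Fin (N + 1))
    have h5 := copy_strong hA hBc h0 hs h4 (fun x hx => hfB x hx (0 : Fin (N + 1)))
    have h6 := copy_eq hA h4 h5
    have h7 := pl_redc hred hA h6 _ h0
    exact hne (comp_eq hBc hA (hfB _ h0 (0 : Fin (N + 1))) h7)
  · have h4 := ring_close h hl heq
    have h5 := closed_nb hA hBc h0 h2 hd1 h4 (fun x hx q => hfB x hx _)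
    obtain ⟨F, hF⟩ := beads_of hA hBc h0 h2 hred (Ne.symm hne) (hd2 h5.2) h4
      (fun x hx q => hfB x hx _) h5.1
    exact beads_false hA hBc h0 h3 hred (Ne.symm hne) hF

private theorem rpc_good {A : Set V} (hA : Comp L A) {d₀ : D} (h0 : L.tl d₀ ∈ A)
    {Q : Type} [Finite Q] {s : Equiv.Perm Q} {q : Q} {f : V × Q → V} {e : D × Q → V}
    (h : EL (permKt L d₀ s).net {(d₀, q)} f e) (hfA : ∀ x ∈ A, ∀ q, f (x, q) ∈ A) (i : Q)
    (hv : CutV L 2 (f (L.tl d₀, i), e (d₀, i)) ∨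
      CutV L 2 (e (L.rv d₀, i), f (L.hd d₀, i))) :
    (f (L.tl d₀, i), e (d₀, i)) = (e (L.rv d₀, i), f (L.hd d₀, i)) := by
  have h1 := rpc_copy h i
  by_contra hne
  have h2 := copy_step hA hA h0 le_rfl h1 (fun x hx => hfA x hx i) hne hv
  exact lt_irrefl _ h2.2.2

theorem ringP_of {A : Set V} (hA : Comp L A) {d₀ : D} (h0 : L.tl d₀ ∈ A)
    (h3 : Cut L 3 (L.tl d₀) {L.hd d₀} ∨ L.tl d₀ = L.hd d₀) (hred : Redc L)
    (hB : ∀ B, Comp L B → (∃ y ∈ B, L.cl y = L.cl (L.tl d₀)) → B ≠ A →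
      (∀ d, L.tl d ∈ B → (L.ty d = L.ty d₀ ∨ L.ty d = L.bar (L.ty d₀)) →
        3 ≤ L.M (L.ty d) (L.tl d) (L.hd d)) ∨
      ((brd L B).ncard * A.ncard ≤ (brd L A).ncard * B.ncard ∧
        ((brd L B).ncard * A.ncard = (brd L A).ncard * B.ncard → A.ncard ≤ B.ncard))) :
    RingP L A d₀ := by
  have h2 : Cut L 2 (L.tl d₀) {L.hd d₀} := by
    rcases h3 with h3 | h3
    · exact cut_mono h3 (by norm_num) (fun _ h => h)
    · intro S hx hS
      exact absurd hx (hS _ h3)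
  obtain ⟨N, hN⟩ : ∃ N, Nat.card (V × V) = N := ⟨_, rfl⟩
  refine ⟨permKt L d₀ (finRotate (N + 1)), (Fin.last N : Fin (N + 1)), ?_⟩
  intro f e (h : EL (permKt L d₀ (finRotate (N + 1))).net {(d₀, Fin.last N)} f e)
  change V × Fin (N + 1) → V at f
  change D × Fin (N + 1) → V at e
  obtain ⟨B, hBc, hfB⟩ := ring_conn hA h0 h2 h
  -- the pigeonhole principle
  have hex : ∃ (i l : ℕ) (hl : i + 1 + l < N + 1),
      evt (permKt L d₀ (finRotate (N + 1))).net f e (d₀, ⟨i, by omega⟩) =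
        evt (permKt L d₀ (finRotate (N + 1))).net f e (d₀, ⟨i + 1 + l, hl⟩) := by
    by_contra hno
    have hlt : ∀ i j : Fin (N + 1), i < j →
        (f (L.tl d₀, i), e (d₀, i)) ≠ (f (L.tl d₀, j), e (d₀, j)) := by
      rintro ⟨i, hi⟩ ⟨j, hj⟩ hij heq
      have hij' : i < j := hij
      obtain ⟨l, rfl⟩ : ∃ l, j = i + 1 + l := ⟨j - i - 1, by omega⟩
      exact hno ⟨i, l, hj, heq⟩
    have hinj : Function.Injective
        (fun i : Fin (N + 1) => ((f (L.tl d₀, i), e (d₀, i)) : V × V)) := by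
      intro i j hij
      rcases lt_trichotomy i j with h4 | h4 | h4
      · exact absurd hij (hlt i j h4)
      · exact h4
      · exact absurd hij.symm (hlt j i h4)
    have hle := Nat.card_le_card_of_injective _ hinj
    rw [Nat.card_fin, hN] at hle
    omega
  obtain ⟨i, l, hl, heq⟩ := hex
  have hBA : B = A := rpc_eq hA h0 h3 h2 hred hB h hBc hfB hl heq
  subst hBA
  have h4 := ring_close h hl heq
  have h5 := (closed_nb hA hA h0 h2 le_rfl h4 (fun x hx q => hfB x hx _)).1 (Fin.last l)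
  have h6 : CutV L 2 (f (L.tl d₀, (⟨i + 1 + l, hl⟩ : Fin (N + 1))),
      e (d₀, (⟨i + 1 + l, hl⟩ : Fin (N + 1)))) := h5
  -- down to the copy zero
  have hdown : ∀ j : Fin (N + 1), CutV L 2 (f (L.tl d₀, j), e (d₀, j)) →
      CutV L 2 (f (L.tl d₀, 0), e (d₀, 0)) := by
    intro j
    induction j using Fin.induction with
    | zero => exact fun h => h
    | succ j ih =>
      intro hv
      apply ih
      rw [rpc_step h j, ← rpc_good hA h0 h hfB j.succ (Or.inl hv)]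
      exact hv
  have hz := hdown _ h6
  have hall : ∀ j : Fin (N + 1), (f (L.tl d₀, j), e (d₀, j)) = (f (L.tl d₀, 0), e (d₀, 0)) := by
    intro j
    induction j using Fin.induction with
    | zero => rfl
    | succ j ih =>
      have h7 := rpc_step h j
      have h8 : CutV L 2 (e (L.rv d₀, j.succ), f (L.hd d₀, j.succ)) := by
        rw [← h7, ih]
        exact hz
      rw [rpc_good hA h0 h hfB j.succ (Or.inr h8), ← h7, ih]
  have hg := rpc_good hA h0 h hfB 0 (Or.inl hz)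
  have hev : evh (permKt L d₀ (finRotate (N + 1))).net f e (d₀, Fin.last N) =
      (e (L.rv d₀, 0), f (L.hd d₀, 0)) := by
    have hr : (permKt L d₀ (finRotate (N + 1))).net.rv (d₀, Fin.last N) =
        (L.rv d₀, (0 : Fin (N + 1))) := by
      change (L.rv d₀, permR L d₀ (finRotate (N + 1)) d₀ (Fin.last N)) =
        (L.rv d₀, (0 : Fin (N + 1)))
      rw [rpc_R0, finRotate_last]
    unfold evh Net.hd
    rw [hr]
    rfl
  have hl' := hall (Fin.last N)
  have h9 := rpc_copy h (0 : Fin (N + 1))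
  have h10 : PL L B (fun x => f (x, (0 : Fin (N + 1)))) := copy_eq hA h9 hg
  obtain ⟨g, hg1, hg2⟩ := pl_aut hA h10 (fun x hx => hfB x hx 0)
  refine ⟨?_, g, hg1, fun x hx => (hg2 x hx).2, ?_⟩
  · change (f (L.tl d₀, Fin.last N), e (d₀, Fin.last N)) = _
    rw [hev, hl', hg]
  · change (f (L.tl d₀, Fin.last N), e (d₀, Fin.last N)) = _
    rw [hl', (hg2 _ h0).1, (hg2 _ (hA.cl _ h0)).1]
    exact Prod.ext rfl (Prod.mk.inj hg).2

theorem ringP_rv {A : Set V} {d₀ : D} (h : RingP L A d₀) : RingP L A (L.rv d₀) := by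
  obtain ⟨k, q, hk⟩ := h
  refine ⟨k, k.R d₀ q, ?_⟩
  intro f e h1
  have hr : k.net.rv (d₀, q) = (L.rv d₀, k.R d₀ q) := rfl
  have hr' : k.net.rv (L.rv d₀, k.R d₀ q) = (d₀, q) := by
    rw [← hr, k.net.rv_rv]
  have h2 : EL k.net {(d₀, q)} f e := by
    refine el_symm (C := {(L.rv d₀, k.R d₀ q)}) ?_ h1
    intro δ
    simp only [Set.mem_singleton_iff]
    constructor
    · rintro (h3 | h3)
      · right
        rw [h3, hr']
      · left
        rw [← k.net.rv_rv δ, h3, hr']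
    · rintro (h3 | h3)
      · right
        rw [h3, hr]
      · left
        rw [← k.net.rv_rv δ, h3, hr]
  obtain ⟨h3, g, hg1, hg2, hg3⟩ := hk f e h2
  have e1 : evt k.net f e (L.rv d₀, k.R d₀ q) =
      ((evh k.net f e (d₀, q)).2, (evh k.net f e (d₀, q)).1) := rfl
  have e2 : evh k.net f e (L.rv d₀, k.R d₀ q) =
      ((evt k.net f e (d₀, q)).2, (evt k.net f e (d₀, q)).1) := by
    unfold evh evt Net.hd
    rw [hr']
  refine ⟨?_, g, hg1, hg2, ?_⟩
  · rw [e1, e2, h3]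
  · rw [e1, ← h3, hg3]
    change (g (L.hd d₀), g (L.tl d₀)) = (g (L.hd d₀), g (L.hd (L.rv d₀)))
    rw [hd_rv]

end Pool.Agent.H24.GK
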