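import Pool.Agent.H24.GK.Up
import Pool.Agent.H24.GK.RingP
import Pool.Agent.H24.GI.Sw

/-!
# JOB GK-10: rings for the darts of the lift which are not bridges

`M = mLS L hA g` is connected and without loops. `RingM hA g d`: a kit of `L` with a dart over `d.1.1`, such that for every labelling cut at
this dart the two values agree, and are the ends of `d`, moved by an automorphism of `M` (and projected to `V`).

`exists_ringM`. (1) `d.1.1 = d₀`: the kit of `RingP`: the value is `(g₀ (tl d₀), g₀ (hd d₀))`; take `h` from `aut_up` for `g₀`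
(`m_hd`). (2) `d.1.1 = rv d₀`: the same with `ringP_rv`.
(3) Otherwise. `exists_ring` for `M` gives `k₁ : Kt M`, `q₁`. `m_path` (from `(⟨(tl d₀, d.1.2), _⟩, q₀)` to `k₁.net.tl (d, q₁)`) gives `q₀`;
`p₀ = d.1.2`. Let `kr, qr` be from `RingP`, `k = swKt (dnKt hA g k₁) kr d₀ (p₀, q₀) qr`, `q = inl (d.1.2, q₁)`. Let `f, e` be a labelling cut
at `(d.1.1, q)`. It is not `(d₀, inl (p₀, q₀))`, and `(d.1.1, (d.1.2, q₁)) ≠ rv (d₀, (p₀, q₀))` (cases (1), (2)), so `sw_guard` gives that the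
restriction `f₁, e₁` to `dnKt hA g k₁` is cut at `(d.1.1, (d.1.2, q₁)) = dnD (d, q₁)` only (set equality, `sumK_congr`), and the value at
`(d₀, (p₀, q₀))` is `(g₀ (tl d₀), g₀ (hd d₀))`, so `f₁ (dnV (⟨(tl d₀, p₀), _⟩, q₀)) = g₀ (tl d₀) ∈ A`. `dn_con`: the labels of both ends
of `dnD (d, q₁)` are in `A`. `m_up` gives a labelling `f', e'` of `k₁` cut at `(d, q₁)` (`{δ | dnD δ ∈ {dnD (d, q₁)}} = {(d, q₁)}`), with
`(f' w).1 = (f₁ (dnV w), _)` at the two ends and `(e' δ).1 = (e₁ (dnD δ), _)` for `δ = (d, q₁)` and for `δ = rv (d, q₁)` (`dn_rv`,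
`dn_hd`). `exists_ring`: `evt = evh` and `h`; project. The value of `(d.1.1, q)` in `k` is that in `dnKt hA g k₁` (`sw_rv`).
-/

namespace Pool.Agent.H24.GK

open Pool.Agent.H24.GG Pool.Agent.H24.GH Pool.Agent.H24.GI

variable {V D T K : Type} {L : LS V D T K} {A : Set V} (hA : Comp L A) {P : Type} (g : Vt L P)

/-- there is a ring for the dart `d` of the lift -/
def RingM (d : MD L A P) : Prop :=
  ∃ (k : Kt L) (q : k.Q), ∀ f e, EL k.net {(d.1.1, q)} f e →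
    evt k.net f e (d.1.1, q) = evh k.net f e (d.1.1, q) ∧
      ∃ h, Aut (mLS L hA g) h ∧ evt k.net f e (d.1.1, q) =
        ((h ((mLS L hA g).tl d)).1.1, (h ((mLS L hA g).hd d)).1.1)

variable [Finite V] [Finite D] [Finite T] [Finite P]

omit [Finite T] in
/-- the ring of the component -/
private theorem rgm_base {d : MD L A P} (hR : RingP L A d.1.1) : RingM hA g d := by
  obtain ⟨k, q, hk⟩ := hR
  refine ⟨k, q, ?_⟩
  intro f e h
  obtain ⟨h1, g₀, hg1, hg2, hg3⟩ := hk f e h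
  exact ⟨h1, fun x => ⟨(g₀ x.1.1, x.1.2), hg2 _ x.2⟩, aut_up hA g hg1 hg2, hg3⟩

theorem exists_ringM (hc : LConn (mLS L hA g))
    (hl : ∀ d, (mLS L hA g).tl d ≠ (mLS L hA g).hd d) {d₀ : D} (h0 : L.tl d₀ ∈ A)
    (hR : RingP L A d₀) {d : MD L A P}
    (hd : Cut (mLS L hA g) 2 ((mLS L hA g).tl d) {(mLS L hA g).hd d}) : RingM hA g d := by
  by_cases c1 : d.1.1 = d₀
  · exact rgm_base hA g (by rw [c1]; exact hR)
  by_cases c2 : d.1.1 = L.rv d₀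
  · exact rgm_base hA g (by rw [c2]; exact ringP_rv hR)
  obtain ⟨k₁, q₁, hk₁⟩ := exists_ring hc hl hd
  obtain ⟨q₀, hq₀⟩ := m_path hA g hc k₁ (k₁.net.tl (d, q₁)) ⟨(L.tl d₀, d.1.2), h0⟩
  obtain ⟨kr, qr, hkr⟩ := hR
  refine ⟨swKt (dnKt hA g k₁) kr d₀ (d.1.2, q₀) qr, Sum.inl (d.1.2, q₁), ?_⟩
  intro f e h
  have hne1 : dnD hA g (k := k₁) (d, q₁) ≠ (d₀, (d.1.2, q₀)) :=
    fun h1 => c1 (congrArg Prod.fst h1)
  have hne2 : dnD hA g (k := k₁) (d, q₁) ≠ (dnKt hA g k₁).net.rv (d₀, (d.1.2, q₀)) :=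
    fun h1 => c2 (congrArg Prod.fst h1)
  obtain ⟨h2, h3⟩ := sw_guard (P := fun v => v.1 ∈ A) h
    (by
      intro δ hδ
      exact ⟨dnD hA g (k := k₁) (d, q₁), hδ, hne1, hne2⟩)
    (by
      intro f₂ e₂ h4
      obtain ⟨h5, g₀, -, hg2, hg3⟩ := hkr f₂ e₂ h4
      refine ⟨h5, ?_⟩
      rw [hg3]
      exact hg2 _ h0)
  have hs : ∀ δ : D × (dnKt hA g k₁).Q, ((δ.1, Sum.inl δ.2) : D × ((dnKt hA g k₁).Q ⊕ kr.Q)) ∈
      ({(d.1.1, Sum.inl (d.1.2, q₁))} : Set (D × ((dnKt hA g k₁).Q ⊕ kr.Q))) →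
      δ ∈ ({dnD hA g (k := k₁) (d, q₁)} : Set (D × (P × k₁.Q))) := by
    intro δ h4
    have h5 : δ.1 = d.1.1 := congrArg Prod.fst h4
    have h6 : (Sum.inl δ.2 : (dnKt hA g k₁).Q ⊕ kr.Q) = Sum.inl (d.1.2, q₁) :=
      congrArg Prod.snd h4
    exact Prod.ext h5 (Sum.inl_injective h6)
  have h2 : EL (dnKt hA g k₁).net {dnD hA g (k := k₁) (d, q₁)} (fun w => f (w.1, Sum.inl w.2))
      (fun δ => e (δ.1, Sum.inl δ.2)) :=
    ⟨h2.cls, h2.star, fun δ a1 a2 => h2.unc δ (fun h4 => a1 (hs δ h4)) (fun h4 => a2 (hs _ h4))⟩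
  obtain ⟨h6, h7⟩ := dn_con hA g hd hq₀ h2 h3
  obtain ⟨f', e', h8, hf', he'⟩ := m_up hA g h2
  have h8 : EL k₁.net {(d, q₁)} f' e' :=
    ⟨h8.cls, h8.star, fun δ a1 a2 => h8.unc δ (fun h4 => a1 (gku_inj hA g h4))
      (fun h4 => a2 (gku_inj hA g h4))⟩
  obtain ⟨h9, h', ha, h10⟩ := hk₁ f' e' h8
  have f1 := hf' _ h6
  have f2 := hf' _ h7
  have e1 := he' (d, q₁) h6
  have e2 := he' (k₁.net.rv (d, q₁)) h7
  have hrv : (swKt (dnKt hA g k₁) kr d₀ (d.1.2, q₀) qr).net.rv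
      (d.1.1, Sum.inl (d.1.2, q₁)) =
      ((dnD hA g (k₁.net.rv (d, q₁))).1, Sum.inl (dnD hA g (k₁.net.rv (d, q₁))).2) := by
    have h11 := sw_rv (k₁ := dnKt hA g k₁) (k₂ := kr) (d := d₀) (q₁ := ((d.1.2, q₀) : P × k₁.Q))
      (q₂ := qr) (δ := dnD hA g (k := k₁) (d, q₁)) hne1 hne2
    refine h11.trans ?_
    rw [dn_rv]
    rfl
  have g1 : f ((swKt (dnKt hA g k₁) kr d₀ (d.1.2, q₀) qr).net.tl
      (d.1.1, Sum.inl (d.1.2, q₁))) = (f' (k₁.net.tl (d, q₁))).1.1 :=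
    (congrArg Prod.fst f1).symm
  have g2 : e (d.1.1, Sum.inl (d.1.2, q₁)) = (e' (d, q₁)).1.1 := (congrArg Prod.fst e1).symm
  have g3 : e ((swKt (dnKt hA g k₁) kr d₀ (d.1.2, q₀) qr).net.rv
      (d.1.1, Sum.inl (d.1.2, q₁))) = (e' (k₁.net.rv (d, q₁))).1.1 := by
    rw [hrv]
    exact (congrArg Prod.fst e2).symm
  have g4 : f ((swKt (dnKt hA g k₁) kr d₀ (d.1.2, q₀) qr).net.hd
      (d.1.1, Sum.inl (d.1.2, q₁))) = (f' (k₁.net.hd (d, q₁))).1.1 := by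
    show f ((swKt (dnKt hA g k₁) kr d₀ (d.1.2, q₀) qr).net.tl
      ((swKt (dnKt hA g k₁) kr d₀ (d.1.2, q₀) qr).net.rv (d.1.1, Sum.inl (d.1.2, q₁)))) = _
    rw [hrv]
    exact (congrArg Prod.fst f2).symm
  refine ⟨?_, h', ha, ?_⟩
  · refine Prod.ext ?_ ?_
    · exact (g1.trans (congrArg (fun v => v.1.1.1) h9)).trans g3.symm
    · exact (g2.trans (congrArg (fun v => v.2.1.1) h9)).trans g4.symm
  · refine Prod.ext ?_ ?_
    · exact g1.trans (congrArg (fun v => v.1.1.1) h10)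
    · exact g2.trans (congrArg (fun v => v.2.1.1) h10)

end Pool.Agent.H24.GK
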