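import Pool.Agent.H24.GK.Side

/-!
# JOB GK-21: label structures with sides, general version

`SideH L s`: the darts whose type `t` has `sc t = sc (bar t)`, and only these, change the side `s`. `sdH`: the label structure with the
same vertices and darts, where the classes and types are refined by the side (see the file `Pool.Agent.H24.GI.SideL`, where `fl L` is
used instead of `(flV L).g`).

`sh_ne`: if `sc t = sc (bar t)` then the sides differ (`Bool.not`). `sh_nolive`: an infinite walk `p i` of types of `sdH` gives the walk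
`(p i).1.1`. `sh_mtd`: there are darts `d, d'` with the same tail and different heads, of type `t` (take the type of `d` in `sdH`) or
of type `bar t` (take the reverse of the type of `d` in `sdH`). `sh_loop`: `tl d = hd d` gives `cl (tl d) = cl (hd d)`, so
`sc (ty d) = sc (bar (ty d))` and the side changes.
`sh_dt`: as `side_dt_iff`. `sh_supp`, `sh_good`, `sh_fgood`, `sh_flens`: as in `sd_back`.
-/

namespace Pool.Agent.H24.GK

open Pool.Agent.H24.GG Pool.Agent.H24.GH Pool.Agent.H24.GI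

variable {V D T K : Type} {L : LS V D T K}

/-- the darts of types with the same class at both ends change the side -/
def SideH (L : LS V D T K) (s : V → Bool) : Prop :=
  ∀ d, s (L.hd d) = (flV L).g (L.ty d) (s (L.tl d))

theorem sh_ex {s : V → Bool} (hs : SideH L s) {p : T × Bool}
    (h : ∃ x, L.cl x = L.sc p.1 ∧ s x = p.2) :
    ∃ x, L.cl x = L.sc (L.bar p.1) ∧ s x = (flV L).g p.1 p.2 := by
  obtain ⟨x, h1, h2⟩ := h
  obtain ⟨y, d, hd1, hd2, hd3⟩ := dt_exists h1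
  refine ⟨y, (dt_cl ⟨d, hd1, hd2, hd3⟩).2, ?_⟩
  rw [← hd2, hs d, hd1, hd3, h2]

/-- the label structure with sides -/
noncomputable def sdH (L : LS V D T K) {s : V → Bool} (hs : SideH L s) :
    LS V D {p : T × Bool // ∃ x, L.cl x = L.sc p.1 ∧ s x = p.2} (K × Bool) where
  tl := L.tl
  rv := L.rv
  ty d := ⟨(L.ty d, s (L.tl d)), L.tl d, L.cl_tl d, rfl⟩
  bar p := ⟨(L.bar p.1.1, (flV L).g p.1.1 p.1.2), sh_ex hs p.2⟩
  cl x := (L.cl x, s x)
  sc p := (L.sc p.1.1, p.1.2)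
  num p := L.num p.1.1
  rv_rv := L.rv_rv
  rv_ne := L.rv_ne
  ty_rv d := Subtype.ext (Prod.ext (L.ty_rv d) (hs d))
  bar_bar p := Subtype.ext (Prod.ext (L.bar_bar p.1.1) (by
    show (flV L).g (L.bar p.1.1) ((flV L).g p.1.1 p.1.2) = p.1.2
    rw [(flV L).inv, Equiv.symm_apply_apply]))
  cl_tl d := Prod.ext (L.cl_tl d) rfl
  num_eq := by
    rintro x ⟨⟨t, b⟩, hp⟩ h
    rw [Prod.mk.injEq] at h
    rw [← L.num_eq x t h.1]
    congr 1
    ext d
    constructor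
    · rintro ⟨h1, h2⟩
      exact ⟨h1, congrArg (fun p => p.1.1) h2⟩
    · rintro ⟨h1, h2⟩
      refine ⟨h1, Subtype.ext (Prod.ext h2 ?_)⟩
      show s (L.tl d) = b
      rw [h1]
      exact h.2
  num_pos p := L.num_pos p.1.1
  cls p := by
    obtain ⟨x, h1, h2⟩ := p.2
    exact ⟨x, Prod.ext h1 h2⟩

variable {s : V → Bool} (hs : SideH L s)

private theorem shx_dt {s : V → Bool} (hs : SideH L s) {t : T} {x y : V} (h : Dt L t x y) :
    s y = (flV L).g t (s x) := by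
  obtain ⟨d, h1, h2, h3⟩ := h
  rw [← h1, ← h2, ← h3]
  exact hs d

theorem sh_ne (p : {p : T × Bool // ∃ x, L.cl x = L.sc p.1 ∧ s x = p.2}) :
    (sdH L hs).sc p ≠ (sdH L hs).sc ((sdH L hs).bar p) := by
  intro h
  have h1 : (L.sc p.1.1, p.1.2) = (L.sc (L.bar p.1.1), (flV L).g p.1.1 p.1.2) := h
  rw [Prod.mk.injEq] at h1
  obtain ⟨h2, h3⟩ := h1
  have h4 : (flV L).g p.1.1 = Equiv.boolNot := if_pos h2
  rw [h4] at h3
  cases hb : p.1.2 <;> rw [hb] at h3 <;> exact absurd h3 (by decide)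

theorem sh_nolive (hn : NoLive L) : NoLive (sdH L hs) := by
  rintro p ⟨w, -, hw⟩
  refine hn (w 0).1.1 ⟨fun i => (w i).1.1, rfl, fun i => ?_⟩
  obtain ⟨h1, h2⟩ := hw i
  have h1' : (L.sc (w (i + 1)).1.1, (w (i + 1)).1.2) =
      (L.sc (L.bar (w i).1.1), (flV L).g (w i).1.1 (w i).1.2) := h1
  rw [Prod.mk.injEq] at h1'
  refine ⟨h1'.1, fun h3 => h2 ?_⟩
  exact Subtype.ext (Prod.ext h3 h1'.2)

theorem sh_mtd {t : T} (h : ¬ Mtd L t) :
    ∃ p : {p : T × Bool // ∃ x, L.cl x = L.sc p.1 ∧ s x = p.2}, p.1.1 = t ∧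
      ¬ Mtd (sdH L hs) p := by
  by_cases hc : ∃ d d', L.ty d = t ∧ L.ty d' = t ∧ L.tl d = L.tl d' ∧ L.hd d ≠ L.hd d'
  · obtain ⟨d, d', hd, hd', htl, hhd⟩ := hc
    refine ⟨(sdH L hs).ty d, hd, fun hm => hhd ?_⟩
    refine hm.1 d d' rfl (Subtype.ext (Prod.ext ?_ ?_)) htl
    · show L.ty d' = L.ty d
      rw [hd, hd']
    · show s (L.tl d') = s (L.tl d)
      rw [htl]
  · by_cases hc' : ∃ d d', L.ty d = L.bar t ∧ L.ty d' = L.bar t ∧ L.tl d = L.tl d' ∧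
        L.hd d ≠ L.hd d'
    · obtain ⟨d, d', hd, hd', htl, hhd⟩ := hc'
      refine ⟨(sdH L hs).bar ((sdH L hs).ty d), ?_, fun hm => hhd ?_⟩
      · show L.bar (L.ty d) = t
        rw [hd, L.bar_bar]
      · refine hm.2 d d' ?_ ?_ htl
        · rw [(sdH L hs).bar_bar]
        · rw [(sdH L hs).bar_bar]
          refine Subtype.ext (Prod.ext ?_ ?_)
          · show L.ty d' = L.ty d
            rw [hd, hd']
          · show s (L.tl d') = s (L.tl d)
            rw [htl]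
    · exfalso
      apply h
      refine ⟨fun d d' h3 h4 h5 => ?_, fun d d' h3 h4 h5 => ?_⟩
      · by_contra h6
        exact hc ⟨d, d', h3, h4, h5, h6⟩
      · by_contra h6
        exact hc' ⟨d, d', h3, h4, h5, h6⟩

include hs in
theorem sh_loop (d : D) : L.tl d ≠ L.hd d := by
  intro h
  have hdt : Dt L (L.ty d) (L.tl d) (L.hd d) := ⟨d, rfl, rfl, rfl⟩
  have h3 := (dt_cl hdt).1
  have h4 := (dt_cl hdt).2
  rw [← h] at h4
  have h5 : L.sc (L.ty d) = L.sc (L.bar (L.ty d)) := h3.symm.trans h4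
  have h6 : (flV L).g (L.ty d) = Equiv.boolNot := if_pos h5
  have h7 := hs d
  rw [h6, ← h] at h7
  cases hb : s (L.tl d) <;> rw [hb] at h7 <;> exact absurd h7 (by decide)

theorem sh_dt (p : {p : T × Bool // ∃ x, L.cl x = L.sc p.1 ∧ s x = p.2}) (x y : V) :
    Dt (sdH L hs) p x y ↔ Dt L p.1.1 x y ∧ s x = p.1.2 := by
  constructor
  · rintro ⟨d, h1, h2, rfl⟩
    refine ⟨⟨d, h1, h2, rfl⟩, ?_⟩
    rw [← h1]
    rfl
  · rintro ⟨⟨d, h1, h2, h3⟩, h4⟩
    refine ⟨d, h1, h2, Subtype.ext (Prod.ext h3 ?_)⟩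
    show s (L.tl d) = p.1.2
    rw [h1, h4]

private theorem shx_M (hs : SideH L s)
    (p : {p : T × Bool // ∃ x, L.cl x = L.sc p.1 ∧ s x = p.2}) {x : V} (hx : s x = p.1.2) (y : V) :
    (sdH L hs).M p x y = L.M p.1.1 x y := by
  unfold LS.M
  congr 1
  ext d
  constructor
  · rintro ⟨h1, h2, h3⟩
    exact ⟨h1, congrArg (fun q => q.1.1) h2, h3⟩
  · rintro ⟨h1, h2, h3⟩
    have h1' : L.tl d = x := h1
    refine ⟨h1, Subtype.ext (Prod.ext h2 ?_), h3⟩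
    show s (L.tl d) = p.1.2
    rw [h1', hx]

theorem sh_supp (p : {p : T × Bool // ∃ x, L.cl x = L.sc p.1 ∧ s x = p.2}) {x : V}
    (hx : s x = p.1.2) : supp (sdH L hs) p x = supp L p.1.1 x := by
  unfold supp
  congr 1
  ext y
  exact ⟨fun h => ((sh_dt hs p x y).1 h).1, fun h => (sh_dt hs p x y).2 ⟨h, hx⟩⟩

/-- the darts of the second type -/
private theorem shx_zeta (hs : SideH L s)
    {p q : {p : T × Bool // ∃ x, L.cl x = L.sc p.1 ∧ s x = p.2}}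
    (hpq : (sdH L hs).sc ((sdH L hs).bar q) = (sdH L hs).sc ((sdH L hs).bar p)) {x y z : V}
    (hx : Dt (sdH L hs) p x y) (hz : Dt L q.1.1 z y) : Dt (sdH L hs) q z y := by
  rw [sh_dt] at hx ⊢
  refine ⟨hz, ?_⟩
  have h1 : (L.sc (L.bar q.1.1), (flV L).g q.1.1 q.1.2) =
      (L.sc (L.bar p.1.1), (flV L).g p.1.1 p.1.2) := hpq
  rw [Prod.mk.injEq] at h1
  have h2 := shx_dt hs hx.1
  have h3 := shx_dt hs hz
  rw [hx.2, ← h1.2, h3] at h2
  exact ((flV L).g q.1.1).injective h2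

private theorem shx_sc (hs : SideH L s)
    {p q : {p : T × Bool // ∃ x, L.cl x = L.sc p.1 ∧ s x = p.2}}
    (hpq : (sdH L hs).sc ((sdH L hs).bar q) = (sdH L hs).sc ((sdH L hs).bar p)) :
    L.sc (L.bar q.1.1) = L.sc (L.bar p.1.1) := by
  have h1 : (L.sc (L.bar q.1.1), (flV L).g q.1.1 q.1.2) =
      (L.sc (L.bar p.1.1), (flV L).g p.1.1 p.1.2) := hpq
  rw [Prod.mk.injEq] at h1
  exact h1.1

private theorem shx_eq (hs : SideH L s)
    {p q : {p : T × Bool // ∃ x, L.cl x = L.sc p.1 ∧ s x = p.2}}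
    (hpq : (sdH L hs).sc ((sdH L hs).bar q) = (sdH L hs).sc ((sdH L hs).bar p))
    (h : q.1.1 = p.1.1) : q = p := by
  have h1 : (L.sc (L.bar q.1.1), (flV L).g q.1.1 q.1.2) =
      (L.sc (L.bar p.1.1), (flV L).g p.1.1 p.1.2) := hpq
  rw [Prod.mk.injEq] at h1
  have h2 := h1.2
  rw [h] at h2
  exact Subtype.ext (Prod.ext h (((flV L).g p.1.1).injective h2))

theorem sh_good {τ ζ : {p : T × Bool // ∃ x, L.cl x = L.sc p.1 ∧ s x = p.2}} {x : V}
    (hz : (sdH L hs).sc ((sdH L hs).bar ζ) = (sdH L hs).sc ((sdH L hs).bar τ))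
    (h : GoodC (sdH L hs) τ ζ x) : GoodC L τ.1.1 ζ.1.1 x := by
  have hcl : (L.cl x, s x) = (L.sc τ.1.1, τ.1.2) := h.cl
  rw [Prod.mk.injEq] at hcl
  have hdt : ∀ {y}, Dt L τ.1.1 x y → Dt (sdH L hs) τ x y := fun hy =>
    (sh_dt hs τ x _).2 ⟨hy, hcl.2⟩
  refine ⟨hcl.1, ?_, fun y hy => h.nb y (hdt hy), ?_, ?_, ?_⟩
  · rw [← sh_supp hs τ hcl.2]
    exact h.s2
  · intro y z hy hzy
    exact h.nz y z (hdt hy) (shx_zeta hs hz (hdt hy) hzy)
  · intro y y' hy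
    refine h.t1 y y' ⟨hdt hy.1, hdt hy.2.1, fun h' => ?_⟩
    rw [shx_M hs τ hcl.2]
    exact hy.2.2 h'
  · intro y z hy hzy h1
    refine h.t2 y z (hdt hy) (shx_zeta hs hz (hdt hy) hzy) fun h' h'' => ?_
    rw [shx_M hs τ hcl.2]
    exact h1 (by rw [h']) h''

theorem sh_pen {σ : {p : T × Bool // ∃ x, L.cl x = L.sc p.1 ∧ s x = p.2}} {y₀ x : V}
    (h : Dt (sdH L hs) σ y₀ x) : Dt L σ.1.1 y₀ x ∧
      supp (sdH L hs) ((sdH L hs).bar σ) x = supp L (L.bar σ.1.1) x := by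
  obtain ⟨h2a, h2b⟩ := (sh_dt hs σ y₀ x).1 h
  have e1 : s x = ((sdH L hs).bar σ).1.2 := by
    rw [shx_dt hs h2a, h2b]
    rfl
  exact ⟨h2a, sh_supp hs _ e1⟩

theorem sh_fgood [Finite V] [Finite D] (h : FGood (sdH L hs)) : FGood L := by
  obtain ⟨τ, ζ, x, hg, h1, h2, h3⟩ := h
  exact ⟨τ.1.1, ζ.1.1, x, sh_good hs h2 hg, h1, shx_sc hs h2, fun h => h3 (shx_eq hs h2 h)⟩

theorem sh_flens [Finite V] [Finite D] (h : FLens (sdH L hs)) : FLens L := by
  obtain ⟨τ, ζ, x₀, h1, h2, h3, h4, d₁, d₂, d₃, d₄, h5, h6, h7, h8, h9, h10, h11, h12, h13⟩ := h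
  have hcl : (L.cl x₀, s x₀) = (L.sc τ.1.1, τ.1.2) := h4.cl
  rw [Prod.mk.injEq] at hcl
  have hdt : ∀ {y}, Dt L τ.1.1 x₀ y → Dt (sdH L hs) τ x₀ y := fun hy =>
    (sh_dt hs τ x₀ _).2 ⟨hy, hcl.2⟩
  refine ⟨τ.1.1, ζ.1.1, x₀, shx_sc hs h1, fun h => h2 (shx_eq hs h1 h.symm).symm, h3,
    ⟨hcl.1, fun y hy => h4.nb y (hdt hy), ?_, ?_⟩, d₁, d₂, d₃, d₄, h5, ?_, h7, h8, h9, h10,
    h11, h12, h13⟩
  · intro y z hy hz
    exact h4.nz y z (hdt hy) (shx_zeta hs h1 (hdt hy) hz)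
  · intro y z hy hz
    exact h4.eq y z (hdt hy) (shx_zeta hs h1 (hdt hy) hz)
  · exact ⟨congrArg (fun q => q.1.1) h6.1, congrArg (fun q => q.1.1) h6.2.1,
      congrArg (fun q => q.1.1) h6.2.2.1, congrArg (fun q => q.1.1) h6.2.2.2⟩

end Pool.Agent.H24.GK
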