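import Pool.Agent.H24.GK.Up
import Pool.Agent.H24.GI.FinF

/-!
# JOB GK-20: the double cover of a component

`flV L : Vt L Bool`: the types `t` with `sc t = sc (bar t)` change the side. `trV L : Vt L Unit`: the trivial voltages.
`M = mLS L hA g`.

`m_conn1`: `Comp.cn`; a dart `d` of `L` with the tail in `A` gives the dart `⟨(d, ()), _⟩`.
`g_side`: as `dc_side` (file `Pool.Agent.H24.GI.DcL`): let `v₀ ∈ A`, `R` the set of the vertices of `M = mLS L hA (flV L)` which are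
connected to `(v₀, false)`. For every `x ∈ A` some `(x, b)` is in `R` (lift a path from `v₀` to `x`). The map `(x, b) ↦ (x, !b)` maps
darts to darts. If both `(v, false)`, `(v, true)` are in `R` for some `v` then both are for every `x ∈ A`, and `M` is connected. Otherwise
let `s x` be the `b` with `(x, b) ∈ R`.
`m_loopG`: a loop `d` of `M` gives `cl (tl d) = cl (hd d)`, `sc (ty d) = sc (bar (ty d))`, so the side is changed.
`m_neG`: if `sc t.1.1 = sc (bar t.1.1)` the sides differ.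
`m_nolive`: a walk of `M` gives a walk of `L` (`NX M s s'` gives `NX L s.1.1 s'.1.1`: if `s'.1.1 = bar s.1.1` then `s' = bar s`, as the
sides agree by `sc s' = sc (bar s)`).
`m_deg`: `d ↦ d.1.1`. `m_lfs`: a type `t'` of `L` with `sc t' = sc t.1.1` gives the type `⟨(t', t.1.2), _⟩` of `M`.
`m_mtd`: take the darts `⟨(d, p), _⟩`, `⟨(d', p), _⟩` with `p = t.1.2` (first case) or `p = g t.1.1 t.1.2` (second case, type `bar t`).
-/

namespace Pool.Agent.H24.GK

open Pool.Agent.H24.GG Pool.Agent.H24.GH Pool.Agent.H24.GI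

variable {V D T K : Type}

open Classical in
/-- the types `t` with `sc t = sc (bar t)` change the side -/
noncomputable def flV (L : LS V D T K) : Vt L Bool where
  g t := if L.sc t = L.sc (L.bar t) then Equiv.boolNot else Equiv.refl _
  inv t := by
    by_cases h : L.sc t = L.sc (L.bar t)
    · have h' : L.sc (L.bar t) = L.sc (L.bar (L.bar t)) := by rw [L.bar_bar, h]
      rw [if_pos h, if_pos h']
      rfl
    · have h' : ¬ L.sc (L.bar t) = L.sc (L.bar (L.bar t)) := by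
        rw [L.bar_bar]
        exact fun h1 => h h1.symm
      rw [if_neg h, if_neg h']
      rfl

/-- the trivial voltages -/
def trV (L : LS V D T K) : Vt L Unit where
  g _ := Equiv.refl _
  inv _ := rfl

variable {L : LS V D T K} {A : Set V} (hA : Comp L A)

/-- `t` is not matched on `A` -/
def UnA (L : LS V D T K) (A : Set V) (t : T) : Prop :=
  ∃ d d', L.tl d ∈ A ∧ L.tl d = L.tl d' ∧ L.hd d ≠ L.hd d' ∧
    ((L.ty d = t ∧ L.ty d' = t) ∨ (L.ty d = L.bar t ∧ L.ty d' = L.bar t))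

/-- a walk below which starts at a vertex of the component is lifted -/
private theorem side_lift {P : Type} (g : Vt L P) {x y : V} (hx : x ∈ A) (h : Cd L x y) (p : P) :
    ∃ (hy : y ∈ A) (q : P), Cd (mLS L hA g) ⟨(x, p), hx⟩ ⟨(y, q), hy⟩ := by
  induction h with
  | refl => exact ⟨hx, p, Relation.ReflTransGen.refl⟩
  | tail _ h2 ih =>
    obtain ⟨hb, q, hq⟩ := ih
    obtain ⟨d, h3, h4⟩ := h2
    subst h3
    subst h4
    exact ⟨hA.cl d hb, g.g (L.ty d) q,
      Relation.ReflTransGen.tail hq ⟨⟨(d, q), hb⟩, rfl, rfl⟩⟩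

theorem m_conn1 : LConn (mLS L hA (trV L)) := by
  rintro ⟨⟨x, p⟩, hx⟩ ⟨⟨y, q⟩, hy⟩
  obtain ⟨h1, q', h2⟩ := side_lift hA (trV L) hx (hA.cn x hx y hy) p
  exact h2

private theorem side_fl_not (t : T) (b : Bool) : (flV L).g t (!b) = !((flV L).g t b) := by
  classical
  unfold flV
  by_cases h : L.sc t = L.sc (L.bar t)
  · simp [h]
  · simp [h]

private theorem side_not {x y : MV A Bool} (h : Cd (mLS L hA (flV L)) x y) :
    Cd (mLS L hA (flV L)) ⟨(x.1.1, !x.1.2), x.2⟩ ⟨(y.1.1, !y.1.2), y.2⟩ := by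
  induction h with
  | refl => exact Relation.ReflTransGen.refl
  | tail _ h2 ih =>
    obtain ⟨⟨⟨d, c⟩, hd⟩, h3, h4⟩ := h2
    refine Relation.ReflTransGen.tail ih ⟨⟨(d, !c), hd⟩, ?_, ?_⟩
    · rw [← h3]; rfl
    · rw [← h4]
      exact Subtype.ext (Prod.ext rfl (side_fl_not (L.ty d) c))

theorem g_side : LConn (mLS L hA (flV L)) ∨
    ∃ s : V → Bool, ∀ d, L.tl d ∈ A → s (L.hd d) = (flV L).g (L.ty d) (s (L.tl d)) := by
  classical
  obtain ⟨v₀, hv₀⟩ := hA.ne
  by_cases hb : ∃ (v : V) (hv : v ∈ A),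
      Cd (mLS L hA (flV L)) ⟨(v₀, false), hv₀⟩ ⟨(v, false), hv⟩ ∧
        Cd (mLS L hA (flV L)) ⟨(v₀, false), hv₀⟩ ⟨(v, true), hv⟩
  · left
    obtain ⟨v, hv, h1, h2⟩ := hb
    have h3 : Cd (mLS L hA (flV L)) ⟨(v, false), hv⟩ ⟨(v, true), hv⟩ :=
      cd_trans (cd_symm h1) h2
    have h4 : ∀ x (hx : x ∈ A) b, Cd (mLS L hA (flV L)) ⟨(x, b), hx⟩ ⟨(x, !b), hx⟩ := by
      intro x hx b
      obtain ⟨_, c, hc'⟩ := side_lift hA (flV L) hx (hA.cn x hx v hv) b
      have h5 : Cd (mLS L hA (flV L)) ⟨(v, c), hv⟩ ⟨(v, !c), hv⟩ := by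
        cases c
        · exact h3
        · exact cd_symm h3
      have h6 := cd_symm (side_not hA hc')
      exact cd_trans (cd_trans hc' h5) h6
    rintro ⟨⟨x, b⟩, hx⟩ ⟨⟨y, b'⟩, hy⟩
    obtain ⟨_, c, hc'⟩ := side_lift hA (flV L) hx (hA.cn x hx y hy) b
    by_cases h5 : c = b'
    · rw [h5] at hc'
      exact hc'
    · have h6 : (!c) = b' := by
        cases c <;> cases b' <;> simp_all
      have h7 := h4 y hy c
      rw [h6] at h7
      exact cd_trans hc' h7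
  · right
    have hex : ∀ x (hx : x ∈ A), ∃ b, Cd (mLS L hA (flV L)) ⟨(v₀, false), hv₀⟩ ⟨(x, b), hx⟩ := by
      intro x hx
      obtain ⟨_, c, hc'⟩ := side_lift hA (flV L) hv₀ (hA.cn v₀ hv₀ x hx) false
      exact ⟨c, hc'⟩
    choose s hs using hex
    have huniq : ∀ x (hx : x ∈ A) b, Cd (mLS L hA (flV L)) ⟨(v₀, false), hv₀⟩ ⟨(x, b), hx⟩ →
        s x hx = b := by
      intro x hx b h
      by_contra hne
      apply hb
      refine ⟨x, hx, ?_⟩
      have h1 := hs x hx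
      cases b <;> cases hsx : s x hx
      · exact absurd hsx hne
      · rw [hsx] at h1; exact ⟨h, h1⟩
      · rw [hsx] at h1; exact ⟨h1, h⟩
      · exact absurd hsx hne
    refine ⟨fun x => if hx : x ∈ A then s x hx else false, fun d hd => ?_⟩
    have hd' : L.hd d ∈ A := hA.cl d hd
    show (if hx : L.hd d ∈ A then s (L.hd d) hx else false) =
      (flV L).g (L.ty d) (if hx : L.tl d ∈ A then s (L.tl d) hx else false)
    rw [dif_pos hd, dif_pos hd']
    refine huniq _ hd' _ (cd_trans (hs (L.tl d) hd) ?_)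
    exact Relation.ReflTransGen.single ⟨⟨(d, s (L.tl d) hd), hd⟩, rfl, rfl⟩

private theorem side_fl_ne {t : T} (h : L.sc t = L.sc (L.bar t)) (b : Bool) :
    (flV L).g t b ≠ b := by
  classical
  unfold flV
  simp [h]

theorem m_loopG (d : MD L A Bool) :
    (mLS L hA (flV L)).tl d ≠ (mLS L hA (flV L)).hd d := by
  intro h
  have h1 : L.tl d.1.1 = L.hd d.1.1 := congrArg (fun x => x.1.1) h
  have h2 : d.1.2 = (flV L).g (L.ty d.1.1) d.1.2 := congrArg (fun x => x.1.2) h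
  have h3 : L.sc (L.ty d.1.1) = L.sc (L.bar (L.ty d.1.1)) := by
    rw [← L.cl_tl, ← L.ty_rv, ← L.cl_tl]
    exact congrArg L.cl h1
  exact side_fl_ne h3 _ h2.symm

theorem m_neG (t : MT L A Bool) :
    (mLS L hA (flV L)).sc t ≠ (mLS L hA (flV L)).sc ((mLS L hA (flV L)).bar t) := by
  intro h
  have h1 : L.sc t.1.1 = L.sc (L.bar t.1.1) := congrArg Prod.fst h
  have h2 : t.1.2 = (flV L).g t.1.1 t.1.2 := congrArg Prod.snd h
  exact side_fl_ne h1 _ h2.symm

variable {P : Type} (g : Vt L P)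

theorem m_nolive (h : ∀ t, (∃ x ∈ A, L.cl x = L.sc t) → ¬ TLive L.sc L.bar t) :
    NoLive (mLS L hA g) := by
  rintro s ⟨w, h0, hw⟩
  refine h s.1.1 s.2 ⟨fun i => (w i).1.1, congrArg (fun t => t.1.1) h0, fun i => ?_⟩
  obtain ⟨h1, h2⟩ := hw i
  have h4 : (w (i + 1)).1.2 = g.g (w i).1.1 (w i).1.2 := congrArg Prod.snd h1
  exact ⟨congrArg Prod.fst h1, fun h3 => h2 (Subtype.ext (Prod.ext h3 h4))⟩

theorem m_deg (x : MV A P) :
    {d | (mLS L hA g).tl d = x}.ncard = {d | L.tl d = x.1.1}.ncard := by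
  obtain ⟨⟨x, p⟩, hx⟩ := x
  refine Set.ncard_congr (fun d _ => d.1.1) ?_ ?_ ?_
  · rintro d h
    exact congrArg (fun x => x.1.1) h
  · rintro ⟨⟨d, c⟩, hd⟩ ⟨⟨d', c'⟩, hd'⟩ h1 h2 (h4 : d = d')
    have h5 : c = p := congrArg (fun x => x.1.2) h1
    have h6 : c' = p := congrArg (fun x => x.1.2) h2
    subst h4 h5 h6
    rfl
  · rintro d h
    refine ⟨⟨(d, p), ?_⟩, Subtype.ext (Prod.ext h rfl), rfl⟩
    show L.tl d ∈ A
    have h' : L.tl d = x := h
    rw [h']
    exact hx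

theorem m_lfs {t : MT L A P} : Lfs (mLS L hA g).sc t ↔ Lfs L.sc t.1.1 := by
  constructor
  · intro h s hs
    obtain ⟨x, hx, hc⟩ := t.2
    have h1 : ∃ x ∈ A, L.cl x = L.sc ((s, t.1.2) : T × P).1 := ⟨x, hx, hc.trans hs.symm⟩
    have h2 := h ⟨(s, t.1.2), h1⟩ (Prod.ext hs rfl)
    exact congrArg (fun t => t.1.1) h2
  · intro h s hs
    have hs' : ((L.sc s.1.1, s.1.2) : K × P) = (L.sc t.1.1, t.1.2) := hs
    have h1 : L.sc s.1.1 = L.sc t.1.1 := (Prod.mk.inj hs').1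
    have h2 : s.1.2 = t.1.2 := (Prod.mk.inj hs').2
    exact Subtype.ext (Prod.ext (h s.1.1 h1) h2)

theorem m_mtd {t : MT L A P} (h : UnA L A t.1.1) : ¬ Mtd (mLS L hA g) t := by
  intro hm
  obtain ⟨d, d', h1, h2, h3, h4⟩ := h
  have h1' : L.tl d' ∈ A := by
    rw [← h2]
    exact h1
  apply h3
  rcases h4 with ⟨h5, h6⟩ | ⟨h5, h6⟩
  · exact congrArg (fun x => x.1.1) (hm.1 ⟨(d, t.1.2), h1⟩ ⟨(d', t.1.2), h1'⟩
      (Subtype.ext (Prod.ext h5 rfl)) (Subtype.ext (Prod.ext h6 rfl))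
      (Subtype.ext (Prod.ext h2 rfl)))
  · exact congrArg (fun x => x.1.1) (hm.2 ⟨(d, g.g t.1.1 t.1.2), h1⟩
      ⟨(d', g.g t.1.1 t.1.2), h1'⟩
      (Subtype.ext (Prod.ext h5 rfl)) (Subtype.ext (Prod.ext h6 rfl))
      (Subtype.ext (Prod.ext h2 rfl)))

end Pool.Agent.H24.GK
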