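import Pool.Agent.H24.GK.GrdM
import Pool.Agent.H24.GI.StB

/-!
# JOB GK-12: the main part of a switched kit; guarded stars of the lift

`MainK k k₁ ι Cs`: the kit `k₁` is a part of the kit `k`: every labelling of `k` cut at darts of `Cs` (moved by `ι`) gives one of `k₁` cut at
the same darts, with the same values.

`mainK_refl`: clear (`ι = id`). `mainK_trans`: composition (`(ι₂ ∘ ι₁)`-images). `mainK_mono`: clear.
`mainK_sw` (`k = swKt k₁ k₂ d q₁ q₂`, `ι = inl`). Let `f₁, e₁`, `f₂, e₂` be the two parts of a labelling `f, e` of `k` cut at `inl '' C`,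
`r = (d, q₁)`, `r' = (d, q₂)`. `C` does not contain `rv r`. (1) `f₂, e₂` is a labelling of `k₂` cut at `r'` (`swg_res_inr`), so `evt r' = evh r'`
and `Pg (evt r')`. The dart `(d, inr q₂)` leads from the tail of `r'` to the head of `r`, it is not cut (its reverse is
`((rv r).1, inl (rv r).2)`, `swg_rv_b`, not in `inl '' C`), so `e₂ r' = f₁ (hd r)`, `e₁ (rv r) = f₂ (tl r')`; so
`evt r' = (e₁ (rv r), f₁ (hd r)) = evh r` in `k₁`. (2) If `r ∉ C`: the dart `(d, inl q₁)` is not cut either, it leads from the tail of `r` to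
the head of `r'`: `e₁ r = f₂ (hd r')`, `e₂ (rv r') = f₁ (tl r)`, so `evh r' = (f₁ (tl r), e₁ r)`; so `e₁ r = f₁ (hd r)`, `e₁ (rv r) = f₁ (tl r)`. So
`f₁, e₁` is a labelling of `k₁` cut at `C` (see `sw_guard`). If `r ∈ C`: it is cut at `C ∪ {r} = C` (`sw_res`). (3) The values at the head:
for `δ ∈ C`, `δ ≠ r` (and `δ ≠ rv r`): `sw_rv`. For `δ = r ∈ C`: `evh` of `(d, inl q₁)` in `k` is `(e₂ (rv r'), f₂ (hd r')) = evh r'`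
(`swg_rv_a`), which is `evt r' = evh r` by (1). (`pv`: `Pg (evh r)` in `k₁`.)

`exists_stM` (see `exists_stb` in the file `Pool.Agent.H24.GI.StB`). Let `d₂ ≠ d₃` be darts of `M` of type `τ` at `x₀` (`3 ≤ num τ`),
`p = x₀.1.2`. `grd_fullM` gives the guards `G₂, q₂` for `d₂`, `G₃, q₃` for `d₃`; `exists_ukit` for `M`: `k₀, κ`; `k₁ = dnKt hA g k₀`, `q₁ = (p, κ x₀)`;
`k' = swKt k₁ G₃ d₃.1.1 q₁ q₃`, `k = swKt k' G₂ d₂.1.1 (inl q₁) q₂`, `ι = inl ∘ inl`. `mn`: `mainK_sw` twice, `mainK_trans`: no star dart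
`(d, q₁)` (`tl d = x₀.1.1`, `ty d = τ.1.1`; so `d = d'.1.1` for the dart `d' = ⟨(d, p), _⟩` of `M` at `x₀` of type `τ`) is `rv (d₃.1.1, q₁)`, as
`M` has no loops (`dn_rv`). `gd`: for a labelling of `k` cut at `(d, ι q₁)`: if `d ≠ d₂.1.1` then `mainK_sw` (`pv`, `C = {(d, inl q₁)}`, the dart
`r = (d₂.1.1, inl q₁)` is not cut, so `evh r = evt r`) gives `Pr` for `(f (x₀.1.1, ι q₁), p)`; if `d = d₂.1.1` restrict to `k'` (cut at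
`(d₂.1.1, inl q₁)`) and use the guard `G₃` in the same way (`d₃.1.1 ≠ d₂.1.1`). `cp`: `dn_ustar` (`x' = x₀.1.1`, `ukit_star`), the values at
`(d₂.1.1, q₁)`, `(d₃.1.1, q₁)` are `(x₀.1.1, y)` with `Dt L τ.1.1 x₀.1.1 y` (`val_dt`), so `y` is the projection of an end of `x₀` of type
`τ` (`m_dt`); the guards have labellings with these values, `sw_cov` twice. `ne`: the head of `(d, q₁)` in `k₁` is over
`M.hd d' ≠ x₀` (`dn_hd`): in `k₁` it is `dnV` of a vertex over `hd d'`; if it were `(x₀.1.1, q₁)` then `M.hd d' = x₀`, a loop; in `k` the head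
is the same, or (`d = d₂.1.1` or `d₃.1.1`) in the part `G₂` or `G₃`.
-/

namespace Pool.Agent.H24.GK

open Pool.Agent.H24.GG Pool.Agent.H24.GH Pool.Agent.H24.GI

variable {V D T K : Type} {L : LS V D T K}

/-- the kit `k₁` is a part of the kit `k` -/
structure MainK (k k₁ : Kt L) (ι : k₁.Q → k.Q) (Cs : Set (D × k₁.Q)) : Prop where
  inj : Function.Injective ι
  res : ∀ C ⊆ Cs, ∀ f e, EL k.net ((fun δ : D × k₁.Q => (δ.1, ι δ.2)) '' C) f e →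
    EL k₁.net C (fun w => f (w.1, ι w.2)) (fun δ => e (δ.1, ι δ.2)) ∧
    ∀ δ ∈ C, evh k.net f e (δ.1, ι δ.2) =
      evh k₁.net (fun w => f (w.1, ι w.2)) (fun δ => e (δ.1, ι δ.2)) δ

theorem stM_img {k : Kt L} (C : Set (D × k.Q)) :
    (fun δ : D × k.Q => ((δ.1, id δ.2) : D × k.Q)) '' C = C := by
  ext δ
  constructor
  · rintro ⟨δ', h1, rfl⟩
    exact h1
  · intro h1
    exact ⟨δ, h1, rfl⟩

theorem mainK_refl (k : Kt L) (Cs : Set (D × k.Q)) : MainK k k id Cs where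
  inj := Function.injective_id
  res := by
    intro C _ f e h
    rw [stM_img] at h
    exact ⟨h, fun δ _ => rfl⟩

theorem mainK_trans {k k' k₁ : Kt L} {ι : k'.Q → k.Q} {ι' : k₁.Q → k'.Q} {Cs : Set (D × k₁.Q)}
    (h : MainK k k' ι ((fun δ : D × k₁.Q => (δ.1, ι' δ.2)) '' Cs)) (h' : MainK k' k₁ ι' Cs) :
    MainK k k₁ (ι ∘ ι') Cs where
  inj := h.inj.comp h'.inj
  res := by
    intro C hC f e hE
    have h0 : (fun δ : D × k₁.Q => ((δ.1, (ι ∘ ι') δ.2) : D × k.Q)) '' C =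
        (fun δ : D × k'.Q => ((δ.1, ι δ.2) : D × k.Q)) ''
          ((fun δ : D × k₁.Q => ((δ.1, ι' δ.2) : D × k'.Q)) '' C) := by
      rw [Set.image_image]
      rfl
    rw [h0] at hE
    obtain ⟨h1, h2⟩ := h.res _ (Set.image_mono hC) f e hE
    obtain ⟨h3, h4⟩ := h'.res C hC _ _ h1
    refine ⟨h3, ?_⟩
    intro δ hδ
    exact (h2 (δ.1, ι' δ.2) ⟨δ, hδ, rfl⟩).trans (h4 δ hδ)

theorem mainK_mono {k k₁ : Kt L} {ι : k₁.Q → k.Q} {Cs Cs' : Set (D × k₁.Q)}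
    (h : MainK k k₁ ι Cs) (hs : Cs' ⊆ Cs) : MainK k k₁ ι Cs' :=
  ⟨h.inj, fun C hC => h.res C (hC.trans hs)⟩

section

variable {k₁ k₂ : Kt L} {d : D} {q₁ : k₁.Q} {q₂ : k₂.Q}

theorem stM_mem {Q₁ Q₂ : Type} {C : Set (D × Q₁)} (δ : D × Q₁) :
    ((δ.1, Sum.inl δ.2) : D × (Q₁ ⊕ Q₂)) ∈
      (fun δ : D × Q₁ => ((δ.1, Sum.inl δ.2) : D × (Q₁ ⊕ Q₂))) '' C ↔ δ ∈ C := by
  constructor
  · rintro ⟨δ', h1, h2⟩
    have h2' : ((δ'.1, Sum.inl δ'.2) : D × (Q₁ ⊕ Q₂)) = (δ.1, Sum.inl δ.2) := h2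
    have h3 : δ'.1 = δ.1 := congrArg (fun z : D × (Q₁ ⊕ Q₂) => z.1) h2'
    have h4 : δ'.2 = δ.2 :=
      Sum.inl_injective (congrArg (fun z : D × (Q₁ ⊕ Q₂) => z.2) h2')
    have h5 : δ' = δ := Prod.ext h3 h4
    rw [← h5]
    exact h1
  · intro h1
    exact ⟨δ, h1, rfl⟩

theorem stM_inr {Q₁ Q₂ : Type} {C : Set (D × Q₁)} (δ : D × Q₂) :
    ((δ.1, Sum.inr δ.2) : D × (Q₁ ⊕ Q₂)) ∉
      (fun δ : D × Q₁ => ((δ.1, Sum.inl δ.2) : D × (Q₁ ⊕ Q₂))) '' C := by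
  rintro ⟨δ', -, h2⟩
  exact Sum.inl_ne_inr (congrArg Prod.snd h2)

theorem stM_core {Pg : V × V → Prop}
    (hG : ∀ f₂ e₂, EL k₂.net {(d, q₂)} f₂ e₂ →
      evt k₂.net f₂ e₂ (d, q₂) = evh k₂.net f₂ e₂ (d, q₂) ∧ Pg (evt k₂.net f₂ e₂ (d, q₂)))
    {C : Set (D × k₁.Q)} (hC : k₁.net.rv (d, q₁) ∉ C) {f : V × (k₁.Q ⊕ k₂.Q) → V}
    {e : D × (k₁.Q ⊕ k₂.Q) → V} (h : EL (swKt k₁ k₂ d q₁ q₂).net
      ((fun δ : D × k₁.Q => ((δ.1, Sum.inl δ.2) : D × (k₁.Q ⊕ k₂.Q))) '' C) f e) :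
    evt k₂.net (fun w => f (w.1, Sum.inr w.2)) (fun δ => e (δ.1, Sum.inr δ.2)) (d, q₂) =
      evh k₂.net (fun w => f (w.1, Sum.inr w.2)) (fun δ => e (δ.1, Sum.inr δ.2)) (d, q₂) ∧
    evt k₂.net (fun w => f (w.1, Sum.inr w.2)) (fun δ => e (δ.1, Sum.inr δ.2)) (d, q₂) =
      evh k₁.net (fun w => f (w.1, Sum.inl w.2)) (fun δ => e (δ.1, Sum.inl δ.2)) (d, q₁) ∧
    Pg (evh k₁.net (fun w => f (w.1, Sum.inl w.2)) (fun δ => e (δ.1, Sum.inl δ.2)) (d, q₁)) ∧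
    ((d, q₁) ∉ C →
      e (d, Sum.inl q₁) = f ((k₁.net.hd (d, q₁)).1, Sum.inl (k₁.net.hd (d, q₁)).2) ∧
      e ((k₁.net.rv (d, q₁)).1, Sum.inl (k₁.net.rv (d, q₁)).2) =
        f ((k₁.net.tl (d, q₁)).1, Sum.inl (k₁.net.tl (d, q₁)).2)) := by
  have hCr : ∀ δ : D × k₂.Q, ((δ.1, Sum.inr δ.2) : D × (k₁.Q ⊕ k₂.Q)) ∉
      (fun δ : D × k₁.Q => ((δ.1, Sum.inl δ.2) : D × (k₁.Q ⊕ k₂.Q))) '' C := fun δ => stM_inr δ
  have hb : (((k₁.net.rv (d, q₁)).1, Sum.inl (k₁.net.rv (d, q₁)).2) : D × (k₁.Q ⊕ k₂.Q)) ∉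
      (fun δ : D × k₁.Q => ((δ.1, Sum.inl δ.2) : D × (k₁.Q ⊕ k₂.Q))) '' C := by
    intro h1
    exact hC ((stM_mem _).1 h1)
  have hrb : (swKt k₁ k₂ d q₁ q₂).net.rv (d, Sum.inr q₂) ∉
      (fun δ : D × k₁.Q => ((δ.1, Sum.inl δ.2) : D × (k₁.Q ⊕ k₂.Q))) '' C := by
    rw [swg_rv_b]
    exact hb
  have hrb' : (swKt k₁ k₂ d q₁ q₂).net.rv
      ((k₁.net.rv (d, q₁)).1, Sum.inl (k₁.net.rv (d, q₁)).2) ∉
      (fun δ : D × k₁.Q => ((δ.1, Sum.inl δ.2) : D × (k₁.Q ⊕ k₂.Q))) '' C := by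
    rw [swg_rv_b']
    exact hCr (d, q₂)
  have e2 : e (d, Sum.inr q₂) = f ((k₁.net.hd (d, q₁)).1, Sum.inl (k₁.net.hd (d, q₁)).2) :=
    (h.unc (d, Sum.inr q₂) (hCr (d, q₂)) hrb).trans
      (congrArg (fun z => f ((swKt k₁ k₂ d q₁ q₂).net.tl z)) swg_rv_b)
  have e4 : e ((k₁.net.rv (d, q₁)).1, Sum.inl (k₁.net.rv (d, q₁)).2) =
      f ((k₂.net.tl (d, q₂)).1, Sum.inr (k₂.net.tl (d, q₂)).2) :=
    (h.unc _ hb hrb').trans
      (congrArg (fun z => f ((swKt k₁ k₂ d q₁ q₂).net.tl z)) swg_rv_b')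
  obtain ⟨g1, g2⟩ := hG _ _ (swg_res_inr h hCr)
  have g3 : f ((k₂.net.tl (d, q₂)).1, Sum.inr (k₂.net.tl (d, q₂)).2) =
      e ((k₂.net.rv (d, q₂)).1, Sum.inr (k₂.net.rv (d, q₂)).2) := congrArg Prod.fst g1
  have g4 : e (d, Sum.inr q₂) = f ((k₂.net.hd (d, q₂)).1, Sum.inr (k₂.net.hd (d, q₂)).2) :=
    congrArg Prod.snd g1
  have h5 : evt k₂.net (fun w => f (w.1, Sum.inr w.2)) (fun δ => e (δ.1, Sum.inr δ.2)) (d, q₂) =
      evh k₁.net (fun w => f (w.1, Sum.inl w.2)) (fun δ => e (δ.1, Sum.inl δ.2)) (d, q₁) := by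
    refine Prod.ext ?_ ?_
    · exact e4.symm
    · exact e2
  refine ⟨g1, h5, ?_, ?_⟩
  · rw [← h5]
    exact g2
  · intro hr
    have ha : ((d, Sum.inl q₁) : D × (k₁.Q ⊕ k₂.Q)) ∉
        (fun δ : D × k₁.Q => ((δ.1, Sum.inl δ.2) : D × (k₁.Q ⊕ k₂.Q))) '' C := by
      intro h1
      exact hr ((stM_mem (d, q₁)).1 h1)
    have hra : (swKt k₁ k₂ d q₁ q₂).net.rv (d, Sum.inl q₁) ∉
        (fun δ : D × k₁.Q => ((δ.1, Sum.inl δ.2) : D × (k₁.Q ⊕ k₂.Q))) '' C := by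
      rw [swg_rv_a]
      exact hCr _
    have hra' : (swKt k₁ k₂ d q₁ q₂).net.rv
        ((k₂.net.rv (d, q₂)).1, Sum.inr (k₂.net.rv (d, q₂)).2) ∉
        (fun δ : D × k₁.Q => ((δ.1, Sum.inl δ.2) : D × (k₁.Q ⊕ k₂.Q))) '' C := by
      rw [swg_rv_a']
      exact ha
    have e1 : e (d, Sum.inl q₁) = f ((k₂.net.hd (d, q₂)).1, Sum.inr (k₂.net.hd (d, q₂)).2) :=
      (h.unc (d, Sum.inl q₁) ha hra).trans
        (congrArg (fun z => f ((swKt k₁ k₂ d q₁ q₂).net.tl z)) swg_rv_a)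
    have e3 : e ((k₂.net.rv (d, q₂)).1, Sum.inr (k₂.net.rv (d, q₂)).2) =
        f ((k₁.net.tl (d, q₁)).1, Sum.inl (k₁.net.tl (d, q₁)).2) :=
      (h.unc _ (hCr _) hra').trans
        (congrArg (fun z => f ((swKt k₁ k₂ d q₁ q₂).net.tl z)) swg_rv_a')
    constructor
    · rw [e1, ← g4, e2]
    · rw [e4, g3, e3]

end

theorem mainK_sw [Finite D] {k₁ k₂ : Kt L} {d : D} {q₁ : k₁.Q} {q₂ : k₂.Q} {Pg : V × V → Prop}
    (hG : ∀ f₂ e₂, EL k₂.net {(d, q₂)} f₂ e₂ →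
      evt k₂.net f₂ e₂ (d, q₂) = evh k₂.net f₂ e₂ (d, q₂) ∧ Pg (evt k₂.net f₂ e₂ (d, q₂))) :
    MainK (swKt k₁ k₂ d q₁ q₂) k₁ Sum.inl {δ | δ ≠ k₁.net.rv (d, q₁)} ∧
    ∀ C : Set (D × k₁.Q), k₁.net.rv (d, q₁) ∉ C →
      ∀ f e, EL (swKt k₁ k₂ d q₁ q₂).net
        ((fun δ : D × k₁.Q => ((δ.1, Sum.inl δ.2) : D × (k₁.Q ⊕ k₂.Q))) '' C) f e →
      Pg (evh k₁.net (fun w => f (w.1, Sum.inl w.2)) (fun δ => e (δ.1, Sum.inl δ.2)) (d, q₁)) := by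
  refine ⟨⟨Sum.inl_injective, ?_⟩, fun C hC f e h => (stM_core hG hC h).2.2.1⟩
  intro C hC f e h
  have hrC : k₁.net.rv (d, q₁) ∉ C := fun h1 => hC h1 rfl
  obtain ⟨g1, g2, -, g4⟩ := stM_core hG hrC h
  refine ⟨⟨(sw_res h).cls, (sw_res h).star, ?_⟩, ?_⟩
  · intro δ h1 h2
    by_cases h3 : δ = (d, q₁)
    · subst h3
      exact (g4 h1).1
    · by_cases h4 : δ = k₁.net.rv (d, q₁)
      · subst h4
        rw [k₁.net.rv_rv] at h2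
        refine (g4 h2).2.trans ?_
        show f ((k₁.net.tl (d, q₁)).1, Sum.inl (k₁.net.tl (d, q₁)).2) =
          f ((k₁.net.tl (k₁.net.rv (k₁.net.rv (d, q₁)))).1,
            Sum.inl (k₁.net.tl (k₁.net.rv (k₁.net.rv (d, q₁)))).2)
        rw [k₁.net.rv_rv]
      · refine (sw_res h).unc δ ?_ ?_
        · rintro (h5 | h5)
          · exact h1 ((stM_mem δ).1 h5)
          · exact h3 h5
        · rintro (h5 | h5)
          · exact h2 ((stM_mem _).1 h5)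
          · have h6 : k₁.net.rv δ = (d, q₁) := h5
            exact h4 (by rw [← h6, k₁.net.rv_rv])
  · intro δ hδ
    by_cases h3 : δ = (d, q₁)
    · subst h3
      refine Eq.trans ?_ (g1.symm.trans g2)
      have h4 : (swKt k₁ k₂ d q₁ q₂).net.rv (d, Sum.inl q₁) =
        ((k₂.net.rv (d, q₂)).1, Sum.inr (k₂.net.rv (d, q₂)).2) := swg_rv_a
      refine Prod.ext ?_ ?_
      · exact congrArg e h4
      · exact congrArg (fun z => f ((swKt k₁ k₂ d q₁ q₂).net.tl z)) h4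
    · have h4 : δ ≠ k₁.net.rv (d, q₁) := fun h5 => hrC (h5 ▸ hδ)
      have h5 := sw_rv (k₂ := k₂) (q₂ := q₂) h3 h4
      refine Prod.ext ?_ ?_
      · exact congrArg e h5
      · exact congrArg (fun z => f ((swKt k₁ k₂ d q₁ q₂).net.tl z)) h5

variable {A : Set V} (hA : Comp L A) {P : Type} [Finite P] (g : Vt L P)

/-- a guarded star of the lift -/
structure StM (k : Kt L) (k₀ : Kt (mLS L hA g)) (ι : P × k₀.Q → k.Q) (κ : k₀.Q)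
    (τ : MT L A P) (x₀ : MV A P) (Pr : MV A P → Prop) : Prop where
  mn : MainK k (dnKt hA g k₀) ι
    {δ | L.tl δ.1 = x₀.1.1 ∧ L.ty δ.1 = τ.1.1 ∧ δ.2 = (x₀.1.2, κ)}
  gd : ∀ d, L.tl d = x₀.1.1 → L.ty d = τ.1.1 → ∀ f e, EL k.net {(d, ι (x₀.1.2, κ))} f e →
    ∃ x : MV A P, Pr x ∧ x.1 = (f (x₀.1.1, ι (x₀.1.2, κ)), x₀.1.2)
  cp : ∀ y : D → V,
    (∀ t z, {d | L.tl d = x₀.1.1 ∧ L.ty d = t ∧ y d = z}.ncard = L.M t x₀.1.1 z) →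
    ∃ f e, EL k.net ∅ f e ∧ f (x₀.1.1, ι (x₀.1.2, κ)) = x₀.1.1 ∧
      ∀ d, L.tl d = x₀.1.1 → e (d, ι (x₀.1.2, κ)) = y d
  ne : ∀ d, L.tl d = x₀.1.1 → L.ty d = τ.1.1 →
    k.net.hd (d, ι (x₀.1.2, κ)) ≠ (x₀.1.1, ι (x₀.1.2, κ))

theorem stM_nrv {k₀ : Kt (mLS L hA g)} (hl : ∀ d, (mLS L hA g).tl d ≠ (mLS L hA g).hd d)
    {d' : MD L A P} {x₀ : MV A P} (hx : (mLS L hA g).tl d' = x₀) {d : D} (hd : L.tl d = x₀.1.1)
    (q : k₀.Q) :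
    ((d, (x₀.1.2, q)) : D × (P × k₀.Q)) ≠ (dnKt hA g k₀).net.rv (d'.1.1, (x₀.1.2, q)) := by
  subst hx
  intro h
  have h0 : (dnKt hA g k₀).net.rv (d'.1.1, (d'.1.2, q)) =
      dnD hA g (k₀.net.rv ((d', q) : MD L A P × k₀.Q)) := dn_rv hA g (d', q)
  have h' : ((d, (d'.1.2, q)) : D × (P × k₀.Q)) =
      dnD hA g (k₀.net.rv ((d', q) : MD L A P × k₀.Q)) := h.trans h0
  have h1 : d = L.rv d'.1.1 := congrArg (fun z : D × (P × k₀.Q) => z.1) h'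
  have h2 : d'.1.2 = g.g (L.ty d'.1.1) d'.1.2 :=
    congrArg (fun z : D × (P × k₀.Q) => z.2.1) h'
  apply hl d'
  rw [m_hd]
  refine Subtype.ext (Prod.ext ?_ h2)
  have h3 : L.tl d = L.tl d'.1.1 := hd
  rw [h1] at h3
  exact h3.symm

theorem stM_nlp {k₀ : Kt (mLS L hA g)} (hl : ∀ d, (mLS L hA g).tl d ≠ (mLS L hA g).hd d)
    {x₀ : MV A P} {d : D} (hd : L.tl d = x₀.1.1) (q : k₀.Q) :
    (dnKt hA g k₀).net.hd (d, (x₀.1.2, q)) ≠ (x₀.1.1, (x₀.1.2, q)) := by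
  intro h
  have hdA : L.tl d ∈ A := by
    rw [hd]
    exact x₀.2
  have h0 := dn_hd hA g (k := k₀) ((⟨(d, x₀.1.2), hdA⟩, q) : MD L A P × k₀.Q)
  have h1 : (dnKt hA g k₀).net.hd (d, (x₀.1.2, q)) =
      dnV hA g (k₀.net.hd ((⟨(d, x₀.1.2), hdA⟩, q) : MD L A P × k₀.Q)) := h0
  rw [h1] at h
  have h2 : L.hd d = x₀.1.1 := congrArg (fun z : V × (P × k₀.Q) => z.1) h
  have h3 : g.g (L.ty d) x₀.1.2 = x₀.1.2 := congrArg (fun z : V × (P × k₀.Q) => z.2.1) h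
  apply hl ⟨(d, x₀.1.2), hdA⟩
  rw [m_hd]
  refine Subtype.ext (Prod.ext ?_ h3.symm)
  show L.tl d = L.hd d
  rw [hd, h2]

variable [Finite V] [Finite D] [Finite T] (hc : LConn (mLS L hA g))
  (hl : ∀ d, (mLS L hA g).tl d ≠ (mLS L hA g).hd d)

include hc hl

theorem exists_stM {τ : MT L A P} (hm : 3 ≤ (mLS L hA g).num τ) {Pr : MV A P → Prop}
    (hP : GoodP (mLS L hA g) τ Pr) {x₀ : MV A P} (hx : Pr x₀)
    (hR : ∀ d, (mLS L hA g).ty d = τ → (mLS L hA g).tl d = x₀ → RingM hA g d) :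
    ∃ (k : Kt L) (k₀ : Kt (mLS L hA g)) (ι : P × k₀.Q → k.Q) (κ : k₀.Q),
      StM hA g k k₀ ι κ τ x₀ Pr := by
  have hcl : (mLS L hA g).cl x₀ = (mLS L hA g).sc τ := hP.cl _ hx
  have hcard : 1 < {d | (mLS L hA g).tl d = x₀ ∧ (mLS L hA g).ty d = τ}.ncard := by
    rw [(mLS L hA g).num_eq _ _ hcl]
    omega
  obtain ⟨d₂, ⟨h21, h22⟩, d₃, ⟨h31, h32⟩, h23⟩ := (Set.one_lt_ncard_iff_nontrivial).1 hcard
  have hG2 := grd_fullM hA g hc hl hm hP h22 (by rw [h21]; exact hx) (hR d₂ h22 h21)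
  have hG3 := grd_fullM hA g hc hl hm hP h32 (by rw [h31]; exact hx) (hR d₃ h32 h31)
  rw [h21] at hG2
  rw [h31] at hG3
  obtain ⟨G₂, q₂, g21, g22⟩ := hG2
  obtain ⟨G₃, q₃, g31, g32⟩ := hG3
  obtain ⟨k₀, sd, κ, -, -, hU⟩ := exists_ukit (mLS L hA g)
  have hus : UStar k₀ x₀ (κ x₀) := ukit_star (hU _)
  obtain ⟨q₁, hq₁⟩ : ∃ q₁, κ x₀ = q₁ := ⟨_, rfl⟩
  rw [hq₁] at hus
  have t2 : L.tl d₂.1.1 = x₀.1.1 := congrArg (fun x => x.1.1) h21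
  have t3 : L.tl d₃.1.1 = x₀.1.1 := congrArg (fun x => x.1.1) h31
  have p2 : d₂.1.2 = x₀.1.2 := congrArg (fun x => x.1.2) h21
  have p3 : d₃.1.2 = x₀.1.2 := congrArg (fun x => x.1.2) h31
  have y2 : L.ty d₂.1.1 = τ.1.1 := congrArg (fun x => x.1.1) h22
  have y3 : L.ty d₃.1.1 = τ.1.1 := congrArg (fun x => x.1.1) h32
  have pτ : x₀.1.2 = τ.1.2 := p2.symm.trans (congrArg (fun x => x.1.2) h22)
  have n23 : d₂.1.1 ≠ d₃.1.1 := by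
    intro h
    exact h23 (Subtype.ext (Prod.ext h (p2.trans p3.symm)))
  obtain ⟨z, hz⟩ : ∃ z : (dnKt hA g k₀).Q, z = (x₀.1.2, q₁) := ⟨_, rfl⟩
  have nr3 : ∀ d, L.tl d = x₀.1.1 →
      ((d, z) : D × (dnKt hA g k₀).Q) ≠ (dnKt hA g k₀).net.rv (d₃.1.1, z) := by
    intro d hd
    rw [hz]
    exact stM_nrv hA g hl h31 hd q₁
  have nr2 : ∀ d, L.tl d = x₀.1.1 →
      ((d, z) : D × (dnKt hA g k₀).Q) ≠ (dnKt hA g k₀).net.rv (d₂.1.1, z) := by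
    intro d hd
    rw [hz]
    exact stM_nrv hA g hl h21 hd q₁
  have n2' : ((d₂.1.1, z) : D × (dnKt hA g k₀).Q) ≠ (d₃.1.1, z) :=
    fun h => n23 (congrArg (fun z : D × (dnKt hA g k₀).Q => z.1) h)
  have nk2 : ∀ d, L.tl d = x₀.1.1 →
      ((d, Sum.inl z) : D × (swKt (dnKt hA g k₀) G₃ d₃.1.1 z q₃).Q) ≠
        (swKt (dnKt hA g k₀) G₃ d₃.1.1 z q₃).net.rv (d₂.1.1, Sum.inl z) := by
    intro d hd h
    have h1 := sw_rv (k₂ := G₃) (q₂ := q₃) n2' (nr3 _ t2)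
    have h2 : ((d, Sum.inl z) : D × ((dnKt hA g k₀).Q ⊕ G₃.Q)) =
        (((dnKt hA g k₀).net.rv (d₂.1.1, z)).1,
          Sum.inl ((dnKt hA g k₀).net.rv (d₂.1.1, z)).2) := h.trans h1
    have h3 : d = ((dnKt hA g k₀).net.rv (d₂.1.1, z)).1 := congrArg Prod.fst h2
    have h4 : z = ((dnKt hA g k₀).net.rv (d₂.1.1, z)).2 :=
      Sum.inl_injective (congrArg Prod.snd h2)
    exact nr2 d hd (Prod.ext h3 h4)
  have M2 := mainK_sw (k₁ := swKt (dnKt hA g k₀) G₃ d₃.1.1 z q₃) (k₂ := G₂) (d := d₂.1.1)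
    (q₁ := (Sum.inl z : (dnKt hA g k₀).Q ⊕ G₃.Q)) (q₂ := q₂)
    (Pg := fun α => ∃ x : MV A P, Pr x ∧ x.1 = (α.1, d₂.1.2)) g21
  have M3 := mainK_sw (k₁ := dnKt hA g k₀) (k₂ := G₃) (d := d₃.1.1)
    (q₁ := z) (q₂ := q₃)
    (Pg := fun α => ∃ x : MV A P, Pr x ∧ x.1 = (α.1, d₃.1.2)) g31
  refine ⟨swKt (swKt (dnKt hA g k₀) G₃ d₃.1.1 z q₃) G₂ d₂.1.1 (Sum.inl z) q₂, k₀,
    Sum.inl ∘ Sum.inl, q₁, ?_, ?_, ?_, ?_⟩
  · -- main part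
    refine mainK_trans (mainK_mono M2.1 ?_) (mainK_mono M3.1 ?_)
    · rintro _ ⟨δ, ⟨h1, -, h3⟩, rfl⟩ h4
      obtain ⟨d, w⟩ := δ
      have h3' : w = z := by
        rw [hz]
        exact h3
      subst h3'
      exact nk2 d h1 h4
    · rintro ⟨d, w⟩ ⟨h1, -, h3⟩ h4
      have h3' : w = z := by
        rw [hz]
        exact h3
      subst h3'
      exact nr3 d h1 h4
  · -- guard
    intro d hd1 _ f e h
    rw [← hz] at h ⊢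
    by_cases hdd : d = d₂.1.1
    · subst hdd
      have h1 := (M2.1.res {((d₂.1.1, Sum.inl z) :
        D × (swKt (dnKt hA g k₀) G₃ d₃.1.1 z q₃).Q)} (by
          rintro _ rfl
          exact nk2 _ t2) f e (by
          rw [Set.image_singleton]
          exact h)).1
      obtain ⟨x, h2, h3⟩ := (sw_guard (k₁ := dnKt hA g k₀) (k₂ := G₃)
        (P := fun α => ∃ x : MV A P, Pr x ∧ x.1 = (α.1, d₃.1.2)) h1
        (fun δ hδ => ⟨(d₂.1.1, z), hδ, n2', nr3 _ t2⟩) g31).2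
      refine ⟨x, h2, ?_⟩
      rw [h3]
      refine Prod.ext ?_ p3
      show f (L.tl d₃.1.1, Sum.inl (Sum.inl z)) = f (x₀.1.1, (Sum.inl ∘ Sum.inl) z)
      rw [t3]
      rfl
    · obtain ⟨x, h2, h3⟩ := (sw_guard (k₁ := swKt (dnKt hA g k₀) G₃ d₃.1.1 z q₃) (k₂ := G₂)
        (P := fun α => ∃ x : MV A P, Pr x ∧ x.1 = (α.1, d₂.1.2)) h
        (fun δ hδ => ⟨(d, Sum.inl z), hδ, fun hx' => hdd (congrArg Prod.fst hx'),
          nk2 d hd1⟩) g21).2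
      refine ⟨x, h2, ?_⟩
      rw [h3]
      refine Prod.ext ?_ p2
      show f (L.tl d₂.1.1, Sum.inl (Sum.inl z)) = f (x₀.1.1, (Sum.inl ∘ Sum.inl) z)
      rw [t2]
      rfl
  · -- the stars
    intro y hy
    obtain ⟨f₁, e₁, h1, h2, h3⟩ := dn_ustar hA g hus (x' := x₀.1.1) x₀.2 rfl hy
    have h2' : f₁ (x₀.1.1, z) = x₀.1.1 := by
      rw [hz]
      exact h2
    have h3' : ∀ d, L.tl d = x₀.1.1 → e₁ (d, z) = y d := by
      rw [hz]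
      exact h3
    have hdt : ∀ d, L.tl d = x₀.1.1 → L.ty d = τ.1.1 →
        ∃ u : MV A P, Dt (mLS L hA g) τ x₀ u ∧ u.1.1 = y d := by
      intro d a1 a2
      have h4 : Dt L (L.ty d) (f₁ (L.tl d, z)) (e₁ (d, z)) := (val_dt h1 (d, z)).1
      rw [a1, h2', h3' d a1, a2] at h4
      refine ⟨⟨(y d, g.g τ.1.1 τ.1.2), comp_dt hA h4 x₀.2⟩, ?_, rfl⟩
      rw [m_dt]
      exact ⟨h4, pτ, rfl⟩
    obtain ⟨u3, a1, a2⟩ := hdt d₃.1.1 t3 y3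
    obtain ⟨u2, a3, a4⟩ := hdt d₂.1.1 t2 y2
    obtain ⟨f₃, e₃, h6, h7⟩ := g32 u3 a1
    obtain ⟨f₂, e₂, h8, h9⟩ := g22 u2 a3
    have h10 : evt (dnKt hA g k₀).net f₁ e₁ (d₃.1.1, z) = evt G₃.net f₃ e₃ (d₃.1.1, q₃) := by
      rw [h7, a2]
      change (f₁ (L.tl d₃.1.1, z), e₁ (d₃.1.1, z)) = (x₀.1.1, y d₃.1.1)
      rw [t3, h2', h3' _ t3]
    have h11 := sw_cov h1 h6 h10
    have h12 : evt (swKt (dnKt hA g k₀) G₃ d₃.1.1 z q₃).net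
        (fun w => Sum.elim (fun κ => f₁ (w.1, κ)) (fun κ => f₃ (w.1, κ)) w.2)
        (fun δ => Sum.elim (fun κ => e₁ (δ.1, κ)) (fun κ => e₃ (δ.1, κ)) δ.2)
        (d₂.1.1, Sum.inl z) = evt G₂.net f₂ e₂ (d₂.1.1, q₂) := by
      rw [h9, a4]
      change (f₁ (L.tl d₂.1.1, z), e₁ (d₂.1.1, z)) = (x₀.1.1, y d₂.1.1)
      rw [t2, h2', h3' _ t2]
    refine ⟨_, _, sw_cov h11 h8 h12, ?_, ?_⟩
    · rw [← hz]
      exact h2'
    · intro d hd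
      rw [← hz]
      exact h3' d hd
  · -- no loop
    intro d hd1 _ h
    rw [← hz] at h
    by_cases c2 : d = d₂.1.1
    · subst c2
      have h1 : (swKt (swKt (dnKt hA g k₀) G₃ d₃.1.1 z q₃) G₂ d₂.1.1 (Sum.inl z) q₂).net.rv
          (d₂.1.1, Sum.inl (Sum.inl z)) = ((G₂.net.rv (d₂.1.1, q₂)).1,
            Sum.inr (G₂.net.rv (d₂.1.1, q₂)).2) := swg_rv_a
      have h2 : ((swKt (swKt (dnKt hA g k₀) G₃ d₃.1.1 z q₃) G₂ d₂.1.1 (Sum.inl z) q₂).net.rv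
          (d₂.1.1, Sum.inl (Sum.inl z))).2 =
          (Sum.inl (Sum.inl z) : ((dnKt hA g k₀).Q ⊕ G₃.Q) ⊕ G₂.Q) := congrArg Prod.snd h
      rw [h1] at h2
      exact Sum.inr_ne_inl h2
    · have h1 := sw_rv (k₁ := swKt (dnKt hA g k₀) G₃ d₃.1.1 z q₃) (k₂ := G₂) (d := d₂.1.1)
        (q₁ := (Sum.inl z : (dnKt hA g k₀).Q ⊕ G₃.Q)) (q₂ := q₂) (δ := (d, Sum.inl z))
        (fun hx' => c2 (congrArg Prod.fst hx')) (nk2 d hd1)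
      have h2 : (swKt (swKt (dnKt hA g k₀) G₃ d₃.1.1 z q₃) G₂ d₂.1.1 (Sum.inl z) q₂).net.tl
          ((swKt (swKt (dnKt hA g k₀) G₃ d₃.1.1 z q₃) G₂ d₂.1.1 (Sum.inl z) q₂).net.rv
            (d, Sum.inl (Sum.inl z))) =
          (x₀.1.1, (Sum.inl (Sum.inl z) : ((dnKt hA g k₀).Q ⊕ G₃.Q) ⊕ G₂.Q)) := h
      rw [h1] at h2
      have h2a := congrArg (fun z : V × (((dnKt hA g k₀).Q ⊕ G₃.Q) ⊕ G₂.Q) => z.1) h2
      have h2b := congrArg (fun z : V × (((dnKt hA g k₀).Q ⊕ G₃.Q) ⊕ G₂.Q) => z.2) h2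
      have h3 : (swKt (dnKt hA g k₀) G₃ d₃.1.1 z q₃).net.hd (d, Sum.inl z) =
          (x₀.1.1, (Sum.inl z : (dnKt hA g k₀).Q ⊕ G₃.Q)) :=
        Prod.ext h2a (Sum.inl_injective h2b)
      by_cases c3 : d = d₃.1.1
      · subst c3
        have h4 : (swKt (dnKt hA g k₀) G₃ d₃.1.1 z q₃).net.rv
            (d₃.1.1, Sum.inl z) = ((G₃.net.rv (d₃.1.1, q₃)).1,
              Sum.inr (G₃.net.rv (d₃.1.1, q₃)).2) := swg_rv_a
        have h5 : ((swKt (dnKt hA g k₀) G₃ d₃.1.1 z q₃).net.rv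
            (d₃.1.1, Sum.inl z)).2 = (Sum.inl z : (dnKt hA g k₀).Q ⊕ G₃.Q) :=
          congrArg Prod.snd h3
        rw [h4] at h5
        exact Sum.inr_ne_inl h5
      · have h4 := sw_rv (k₁ := dnKt hA g k₀) (k₂ := G₃) (d := d₃.1.1) (q₁ := z) (q₂ := q₃)
          (δ := (d, z)) (fun hx' => c3 (congrArg Prod.fst hx')) (nr3 d hd1)
        have h5 : (swKt (dnKt hA g k₀) G₃ d₃.1.1 z q₃).net.tl
            ((swKt (dnKt hA g k₀) G₃ d₃.1.1 z q₃).net.rv (d, Sum.inl z)) =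
            (x₀.1.1, (Sum.inl z : (dnKt hA g k₀).Q ⊕ G₃.Q)) := h3
        rw [h4] at h5
        have h5a := congrArg (fun z : V × ((dnKt hA g k₀).Q ⊕ G₃.Q) => z.1) h5
        have h5b := congrArg (fun z : V × ((dnKt hA g k₀).Q ⊕ G₃.Q) => z.2) h5
        have h6 : (dnKt hA g k₀).net.hd (d, z) = (x₀.1.1, z) :=
          Prod.ext h5a (Sum.inl_injective h5b)
        rw [hz] at h6
        exact stM_nlp hA g hl hd1 q₁ h6

end Pool.Agent.H24.GK
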