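import Pool.Agent.H24.GK.SdG
import Pool.Agent.H24.GK.GoodM

/-!
# JOB GK-22: good stars and lenses in a lift of a component

`star1`: by `g_side` there are two cases.
(1) `M = mLS L hA (flV L)` is connected. It has no loops (`m_loopG`). Let `t = ⟨(c, b), _⟩` (`UnA` gives a vertex of `A` of the class
`sc c`: a dart of type `c`, or the head of a dart of type `bar c`). `f3_choice` for `M` and `t` (`m_neG`, `m_mtd`); `num t = num c`,
`bar t = (bar c, _)`. The first case is what we want; in the second case use `m_dt` and `m_supp`: if `Dt M σ y₀ x` then the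
component `y₀.1.2` is `σ.1.2` and the component `x.1.2` is that of `bar σ`.
(2) There is a side `s`. Let `M = mLS L hA (trV L)`, connected by `m_conn1`; `s' x = s x.1.1` satisfies `SideH M s'` (the condition
`sc t = sc (bar t)` in `M` is the same as in `L`). `sh_mtd` gives `p` with `p.1.1 = ⟨(c, ()), _⟩` for `N = sdH M hs'`; `f3_choice` for `N`
(`sh_loop`, `sh_ne`, `sh_mtd`); `sh_good` with `ζ = τ`; `sh_pen`. `M` has no loops by `sh_loop`.

`star2`: (1) `M` connected as above: `f_choice` for `M` (`m_nolive`; `NoPal` by `m_neG`; `m_deg`; the hypothesis `hr` of `f_choice` is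
satisfied, as `3 ≤ num t`, `3 ≤ num (bar t)` is impossible); `FPen` is impossible: `supp (bar τ) x₁ ≤ 1` gives
`M (bar τ) x₁ y₀ = num (bar τ)` (`supp_one`), so `num τ ≥ M τ y₀ x₁ = M (bar τ) x₁ y₀ ≥ 3` (`M_bar`, `M_le`), contradiction to `h2`.
(2) `f_choice` for `N`; `sh_fgood`, `sh_flens`.
(`A` is nonempty, so `MV A P` is nonempty for `P = Bool`, `Unit`.)
-/

namespace Pool.Agent.H24.GK

open Pool.Agent.H24.GG Pool.Agent.H24.GH Pool.Agent.H24.GI

variable {V D T K : Type} {L : LS V D T K} [Finite V] [Finite D] {A : Set V} (hA : Comp L A)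

omit [Finite V] [Finite D] in
private theorem star_cl {c : T} (hU : UnA L A c) (hA : Comp L A) :
    ∃ x ∈ A, L.cl x = L.sc c := by
  obtain ⟨d, d', h1, -, -, h4⟩ := hU
  rcases h4 with ⟨h5, -⟩ | ⟨h5, -⟩
  · exact ⟨L.tl d, h1, by rw [L.cl_tl, h5]⟩
  · refine ⟨L.hd d, hA.cl d h1, ?_⟩
    have h6 : L.cl (L.hd d) = L.sc (L.ty (L.rv d)) := L.cl_tl (L.rv d)
    rw [h6, L.ty_rv, h5, L.bar_bar]

omit [Finite V] [Finite D] in
private theorem star_fl (t : MT L A Unit) (b : Bool) :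
    (flV (mLS L hA (trV L))).g t b = (flV L).g t.1.1 b := by
  classical
  unfold flV
  by_cases h : L.sc t.1.1 = L.sc (L.bar t.1.1)
  · have h' : (mLS L hA (trV L)).sc t = (mLS L hA (trV L)).sc ((mLS L hA (trV L)).bar t) :=
      Prod.ext h rfl
    simp only [if_pos h, if_pos h']
  · have h' : ¬ (mLS L hA (trV L)).sc t = (mLS L hA (trV L)).sc ((mLS L hA (trV L)).bar t) :=
      fun h2 => h (congrArg Prod.fst h2)
    simp only [if_neg h, if_neg h']

omit [Finite V] [Finite D] in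
private theorem star_side {s : V → Bool}
    (hs : ∀ d, L.tl d ∈ A → s (L.hd d) = (flV L).g (L.ty d) (s (L.tl d))) :
    SideH (mLS L hA (trV L)) (fun x => s x.1.1) := by
  intro d
  rw [star_fl hA]
  exact hs d.1.1 d.2

omit [Finite V] [Finite D] in
private theorem star_npen {V' D' T' K' : Type} {M : LS V' D' T' K'} [Finite D']
    (h2 : ∀ t, M.num t ≤ 2 ∨ M.num (M.bar t) ≤ 2) : ¬ FPen M := by
  rintro ⟨τ, y₀, x₁, x₂, g1, g2, g3, -, -⟩
  have h5 : Dt M (M.bar τ) x₁ y₀ := by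
    obtain ⟨d, e1, e2, e3⟩ := g2
    exact ⟨M.rv d, e2, by rw [hd_rv, e1], by rw [M.ty_rv, e3]⟩
  have h6 := supp_one g3 h5
  have h7 := M_bar M τ y₀ x₁
  have h8 := M_le (L := M) τ y₀ x₁
  rcases h2 τ with h9 | h9
  · omega
  · omega

theorem star1 {c : T} (h1 : 3 ≤ L.num c) (h2 : 3 ≤ L.num (L.bar c)) (hU : UnA L A c) :
    (∃ (P : Type) (_ : Finite P) (g : Vt L P), LConn (mLS L hA g) ∧
      (∀ d, (mLS L hA g).tl d ≠ (mLS L hA g).hd d) ∧
      ∃ (τ : MT L A P) (x : MV A P), GoodC (mLS L hA g) τ τ x ∧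
        (τ.1.1 = c ∨ τ.1.1 = L.bar c)) ∨
    ∃ σ y₀ x₁ x₂, (σ = c ∨ σ = L.bar c) ∧ y₀ ∈ A ∧ Dt L σ y₀ x₁ ∧ supp L (L.bar σ) x₁ ≤ 1 ∧
      Dt L σ y₀ x₂ ∧ 2 ≤ supp L (L.bar σ) x₂ := by
  have hcc := star_cl hU hA
  rcases g_side hA with hc | ⟨s, hs⟩
  · obtain ⟨t, ht⟩ : ∃ t : MT L A Bool, t = ⟨(c, false), hcc⟩ := ⟨_, rfl⟩
    have ht1 : t.1.1 = c := by rw [ht]
    have ht2 : ((mLS L hA (flV L)).bar t).1.1 = L.bar c := by rw [← ht1]; rfl
    have e1 : 3 ≤ (mLS L hA (flV L)).num t := by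
      show 3 ≤ L.num t.1.1
      rw [ht1]
      exact h1
    have e2 : 3 ≤ (mLS L hA (flV L)).num ((mLS L hA (flV L)).bar t) := by
      show 3 ≤ L.num ((mLS L hA (flV L)).bar t).1.1
      rw [ht2]
      exact h2
    have e3 : ¬ Mtd (mLS L hA (flV L)) t := m_mtd hA (flV L) (by rw [ht1]; exact hU)
    rcases f3_choice (m_loopG hA) (m_neG hA t) e1 e2 e3 with
      ⟨σ, x, hσ, hg⟩ | ⟨σ, y₀, x₁, x₂, hσ, g1, g2, g3, g4⟩
    · left
      refine ⟨Bool, inferInstance, flV L, hc, m_loopG hA, σ, x, hg, ?_⟩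
      rcases hσ with rfl | rfl
      · exact Or.inl ht1
      · exact Or.inr ht2
    · right
      refine ⟨σ.1.1, y₀.1.1, x₁.1.1, x₂.1.1, ?_, y₀.2, ((m_dt hA (flV L)).1 g1).1, ?_,
        ((m_dt hA (flV L)).1 g3).1, ?_⟩
      · rcases hσ with rfl | rfl
        · exact Or.inl ht1
        · exact Or.inr ht2
      · have h5 := m_supp hA (flV L) (τ := (mLS L hA (flV L)).bar σ) (x' := x₁)
          ((m_dt hA (flV L)).1 g1).2.2
        rw [h5] at g2
        exact g2
      · have h5 := m_supp hA (flV L) (τ := (mLS L hA (flV L)).bar σ) (x' := x₂)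
          ((m_dt hA (flV L)).1 g3).2.2
        rw [h5] at g4
        exact g4
  · have hs' := star_side hA hs
    obtain ⟨t, ht⟩ : ∃ t : MT L A Unit, t = ⟨(c, ()), hcc⟩ := ⟨_, rfl⟩
    have ht1 : t.1.1 = c := by rw [ht]
    have ht2 : ((mLS L hA (trV L)).bar t).1.1 = L.bar c := by rw [← ht1]; rfl
    obtain ⟨p, hp, hpm⟩ := sh_mtd hs' (m_mtd hA (trV L) (t := t) (by rw [ht1]; exact hU))
    have e1 : 3 ≤ (sdH (mLS L hA (trV L)) hs').num p := by
      show 3 ≤ L.num p.1.1.1.1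
      rw [hp, ht1]
      exact h1
    have e2 : 3 ≤ (sdH (mLS L hA (trV L)) hs').num ((sdH (mLS L hA (trV L)) hs').bar p) := by
      show 3 ≤ L.num ((mLS L hA (trV L)).bar p.1.1).1.1
      rw [hp, ht2]
      exact h2
    have hσc : ∀ σ, (σ = p ∨ σ = (sdH (mLS L hA (trV L)) hs').bar p) →
        (σ.1.1.1.1 = c ∨ σ.1.1.1.1 = L.bar c) := by
      rintro σ (rfl | rfl)
      · left
        rw [hp, ht1]
      · right
        show ((mLS L hA (trV L)).bar p.1.1).1.1 = L.bar c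
        rw [hp, ht2]
    have hl : ∀ d, (mLS L hA (trV L)).tl d ≠ (mLS L hA (trV L)).hd d := sh_loop hs'
    rcases f3_choice (L := sdH (mLS L hA (trV L)) hs') hl (sh_ne hs' p) e1 e2 hpm with
      ⟨σ, x, hσ, hg⟩ | ⟨σ, y₀, x₁, x₂, hσ, g1, g2, g3, g4⟩
    · left
      exact ⟨Unit, inferInstance, trV L, m_conn1 hA, sh_loop hs', σ.1.1, x,
        sh_good hs' rfl hg, hσc σ hσ⟩
    · right
      obtain ⟨k1, k2⟩ := sh_pen hs' g1
      obtain ⟨k3, k4⟩ := sh_pen hs' g3
      refine ⟨σ.1.1.1.1, y₀.1.1, x₁.1.1, x₂.1.1, hσc σ hσ, y₀.2,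
        ((m_dt hA (trV L)).1 k1).1, ?_, ((m_dt hA (trV L)).1 k3).1, ?_⟩
      · have h5 := m_supp hA (trV L) (τ := (mLS L hA (trV L)).bar σ.1.1) (x' := x₁)
          ((m_dt hA (trV L)).1 k1).2.2
        rw [k2, h5] at g2
        exact g2
      · have h5 := m_supp hA (trV L) (τ := (mLS L hA (trV L)).bar σ.1.1) (x' := x₂)
          ((m_dt hA (trV L)).1 k3).2.2
        rw [k4, h5] at g4
        exact g4

theorem star2 (h3 : ∀ x, 3 ≤ {d | L.tl d = x}.ncard)
    (hn : ∀ t, (∃ x ∈ A, L.cl x = L.sc t) → ¬ TLive L.sc L.bar t)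
    (h2 : ∀ t, L.num t ≤ 2 ∨ L.num (L.bar t) ≤ 2) :
    ∃ (P : Type) (_ : Finite P) (g : Vt L P), LConn (mLS L hA g) ∧
      (∀ d, (mLS L hA g).tl d ≠ (mLS L hA g).hd d) ∧ NoLive (mLS L hA g) ∧
      (FGood (mLS L hA g) ∨ FLens (mLS L hA g)) := by
  obtain ⟨v, hv⟩ := hA.ne
  rcases g_side hA with hc | ⟨s, hs⟩
  · have hne : Nonempty (MV A Bool) := ⟨⟨(v, false), hv⟩⟩
    have hnl := m_nolive hA (flV L) hn
    have h2' : ∀ t, (mLS L hA (flV L)).num t ≤ 2 ∨
        (mLS L hA (flV L)).num ((mLS L hA (flV L)).bar t) ≤ 2 := fun t => h2 t.1.1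
    have h3' : ∀ x, 3 ≤ {d | (mLS L hA (flV L)).tl d = x}.ncard := by
      intro x
      rw [m_deg]
      exact h3 x.1.1
    have hp : NoPal (mLS L hA (flV L)) := by
      intro t ht
      apply m_neG hA t
      rw [ht]
    refine ⟨Bool, inferInstance, flV L, hc, m_loopG hA, hnl, ?_⟩
    rcases f_choice hc hnl hp h3' (by
      rintro ⟨t, e1, e2⟩
      rcases h2' t with e3 | e3
      · omega
      · omega) with h4 | h4 | h4
    · exact Or.inl h4
    · exact absurd h4 (star_npen h2')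
    · exact Or.inr h4
  · have hs' := star_side hA hs
    have hne : Nonempty (MV A Unit) := ⟨⟨(v, ()), hv⟩⟩
    have hnl := m_nolive hA (trV L) hn
    have h2' : ∀ t, (sdH (mLS L hA (trV L)) hs').num t ≤ 2 ∨
        (sdH (mLS L hA (trV L)) hs').num ((sdH (mLS L hA (trV L)) hs').bar t) ≤ 2 :=
      fun t => h2 t.1.1.1.1
    have h3' : ∀ x, 3 ≤ {d | (sdH (mLS L hA (trV L)) hs').tl d = x}.ncard := by
      intro x
      have h5 := m_deg hA (trV L) x
      have h6 : {d | (sdH (mLS L hA (trV L)) hs').tl d = x}.ncard =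
          {d | (mLS L hA (trV L)).tl d = x}.ncard := rfl
      rw [h6, h5]
      exact h3 x.1.1
    have hp : NoPal (sdH (mLS L hA (trV L)) hs') := by
      intro t ht
      apply sh_ne hs' t
      rw [ht]
    have hcn : LConn (sdH (mLS L hA (trV L)) hs') := m_conn1 hA
    refine ⟨Unit, inferInstance, trV L, m_conn1 hA, sh_loop hs', hnl, ?_⟩
    rcases f_choice hcn (sh_nolive hs' hnl) hp h3' (by
      rintro ⟨t, e1, e2⟩
      rcases h2' t with e3 | e3
      · omega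
      · omega) with h4 | h4 | h4
    · exact Or.inl (sh_fgood hs' h4)
    · exact absurd h4 (star_npen h2')
    · exact Or.inr (sh_flens hs' h4)

end Pool.Agent.H24.GK
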