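import Pool.Agent.H24.GK.Comp

/-!
# JOB GK-1: labellings above and below; landing in a component

See the file `Pool.Agent.H24.GK.Comp`. `M = mLS L hA g`, `k : Kt M`, `dnKt hA g k : Kt L`.

`dn_rv`: `dnR_pos`. `dn_hd`: from `dn_rv`.
`m_up`. Let `f' w = ⟨(f (dnV w), w.1.1.2), _⟩` if `f (dnV w) ∈ A` and `f' w = w.1` otherwise; `e' δ = ⟨(e (dnD δ), g (ty δ) p), _⟩`
(`p = δ.1.1.2`) if `f (dnV (tl δ)) ∈ A` (then `e (dnD δ) ∈ A`, as there is a dart of `L` from `f (dnV (tl δ))` to `e (dnD δ)` by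
`EL.star`: the number is positive; `comp_dt`), and `e' δ = M.hd δ.1` otherwise. `cls`: clear. `star` at `w`: if `f (dnV w) ∈ A`:
the darts of type `(t, p')` at `w` are those of type `t` below if `p' = w.1.1.2` (`d ↦ dnD`), and there are none otherwise; `m_M`,
`m_M_zero`, and for `y ∈ A`, `y.1.2 ≠ g t p`: `0` on both sides. Otherwise it is the star of `M` at `w.1` (`e' δ = M.hd δ.1`; as in
`proj_el`). `unc` at `δ` (`dnD δ`, `dnD (rv δ)` are not in `C`, `dn_rv`): `e (dnD δ) = f (dnV (hd δ))`; it is in `A` iff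
`f (dnV (tl δ))` is (there is a dart between them, `comp_dt`, `dt_symm`).
`m_dn`. Below `A` (`x ∈ A`): `f (x, (p, q)) = (f' (⟨(x, p), _⟩, q)).1.1`, `e (d, (p, q)) = (e' (⟨(d, p), _⟩, q)).1.1`; outside of `A` the
projection. `star` at `(x, (p, q))`: the side of `f' w` is `p` (`cls`), the side of `e' δ` is `g t p` (otherwise `M = 0` by `m_M_zero`, but
the star contains `δ`), so the count for `y ∈ A` is that of `⟨(y, g t p), _⟩` above, `m_M`; for `y ∉ A` it is `0` (`comp_dt`).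
`dn_land`. Let `S` be the set of the `w` with `f (dnV w) ∈ A`. For `ε ≠ δ, rv δ`: `tl ε ∈ S` iff `hd ε ∈ S` (as in `unc` of `m_up`).
Suppose that one end of `δ` is in `S` and the other one is not; replace `δ` by `rv δ` if necessary (`Cut M 2` is symmetric, `cut_symm`),
so `tl δ ∈ S`, `hd δ ∉ S`. Let `n x` be the number of the `q` with `(x, q) ∈ S`. For a dart `d` of `M` the map `k.R d` is a bijection
of the fibres, so `n (tl d) = n (hd d)` if `d ≠ δ.1, rv δ.1`, and `n (tl δ.1) = n (hd δ.1) + 1` (so `δ.1` is not a loop). The set of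
the `x` with `n (tl δ.1) ≤ n x` is left by `δ.1` only, contradiction to `Cut M 2`.
`dn_con`: `S` as before. If no end of `δ` is in `S` then `S` is closed under all darts, so `tl δ ∈ S` by `hp`. So one end is in `S`;
`dn_land`.
`m_path`: lift a path of `M` (`LConn`).
`dn_ustar`: `h` for the vertex `⟨(x', x.1.2), _⟩` and the ends `d ↦ ⟨(y d.1.1, g (ty d) d.1.2), _⟩` (for the darts at `x`; these ends are in
`A` by `hy`, `comp_dt`); `m_M`, `m_M_zero`; `m_dn`.
`aut_up`: `g₀` is bijective on `A` (finite); `m_M`, `m_M_zero`.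
-/

namespace Pool.Agent.H24.GK

open Pool.Agent.H24.GG Pool.Agent.H24.GH Pool.Agent.H24.GI

variable {V D T K : Type} {L : LS V D T K} {A : Set V} (hA : Comp L A) {P : Type} [Finite P]
  (g : Vt L P)

theorem dn_tl {k : Kt (mLS L hA g)} (δ : MD L A P × k.Q) :
    (dnKt hA g k).net.tl (dnD hA g δ) = dnV hA g (k.net.tl δ) := rfl

theorem dn_rv {k : Kt (mLS L hA g)} (δ : MD L A P × k.Q) :
    (dnKt hA g k).net.rv (dnD hA g δ) = dnD hA g (k.net.rv δ) := by
  obtain ⟨⟨⟨d, p⟩, hd⟩, q⟩ := δ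
  show (L.rv d, dnR hA g k d (p, q)) = (L.rv d, (g.g (L.ty d) p, k.R ⟨(d, p), hd⟩ q))
  rw [dnR_pos hA g k hd]

theorem dn_hd {k : Kt (mLS L hA g)} (δ : MD L A P × k.Q) :
    (dnKt hA g k).net.hd (dnD hA g δ) = dnV hA g (k.net.hd δ) := by
  show (dnKt hA g k).net.tl ((dnKt hA g k).net.rv (dnD hA g δ)) = dnV hA g (k.net.tl (k.net.rv δ))
  rw [dn_rv, dn_tl]

omit [Finite P] in
theorem gku_inj {k : Kt (mLS L hA g)} {δ δ' : MD L A P × k.Q}
    (h : dnD hA g δ = dnD hA g δ') : δ = δ' := by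
  obtain ⟨⟨⟨d, p⟩, hd⟩, q⟩ := δ
  obtain ⟨⟨⟨d', p'⟩, hd'⟩, q'⟩ := δ'
  have h1 : (d, (p, q)) = (d', (p', q')) := h
  rw [Prod.mk.injEq, Prod.mk.injEq] at h1
  obtain ⟨h2, h3, h4⟩ := h1
  subst h2 h3 h4
  rfl

variable [Finite V] [Finite D]

omit [Finite V] in
/-- the label of the tail is in `A` iff that of the end is -/
theorem gku_iff {k : Kt (mLS L hA g)} {C : Set (D × (P × k.Q))} {f : V × (P × k.Q) → V}
    {e : D × (P × k.Q) → V} (h : EL (dnKt hA g k).net C f e) (ε : D × (P × k.Q)) :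
    f ((dnKt hA g k).net.tl ε) ∈ A ↔ e ε ∈ A := by
  have hQ : Finite (dnKt hA g k).Q := (dnKt hA g k).fin
  have h1 := (val_dt h ε).1
  exact ⟨fun h2 => comp_dt hA h1 h2, fun h2 => comp_dt hA (dt_symm h1) h2⟩

/-- a labelling below gives a labelling above -/
theorem m_up {k : Kt (mLS L hA g)} {C : Set (D × (P × k.Q))} {f : V × (P × k.Q) → V}
    {e : D × (P × k.Q) → V} (h : EL (dnKt hA g k).net C f e) :
    ∃ f' e', EL k.net {δ | dnD hA g δ ∈ C} f' e' ∧
      (∀ w, f (dnV hA g w) ∈ A → (f' w).1 = (f (dnV hA g w), w.1.1.2)) ∧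
      ∀ δ, f (dnV hA g (k.net.tl δ)) ∈ A →
        (e' δ).1 = (e (dnD hA g δ), g.g (L.ty δ.1.1.1) δ.1.1.2) := by
  classical
  have key := gku_iff hA g h
  let f' : MV A P × k.Q → MV A P := fun w =>
    if h1 : f (dnV hA g w) ∈ A then ⟨(f (dnV hA g w), w.1.1.2), h1⟩ else w.1
  let e' : MD L A P × k.Q → MV A P := fun δ =>
    if h1 : f (dnV hA g (k.net.tl δ)) ∈ A then
      ⟨(e (dnD hA g δ), g.g (L.ty δ.1.1.1) δ.1.1.2), (key (dnD hA g δ)).1 h1⟩
    else (mLS L hA g).hd δ.1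
  have hf1 : ∀ w, ∀ h1 : f (dnV hA g w) ∈ A, f' w = ⟨(f (dnV hA g w), w.1.1.2), h1⟩ :=
    fun w h1 => dif_pos h1
  have hf2 : ∀ w, f (dnV hA g w) ∉ A → f' w = w.1 := fun w h1 => dif_neg h1
  have he1 : ∀ δ, ∀ h1 : f (dnV hA g (k.net.tl δ)) ∈ A,
      e' δ = ⟨(e (dnD hA g δ), g.g (L.ty δ.1.1.1) δ.1.1.2), (key (dnD hA g δ)).1 h1⟩ :=
    fun δ h1 => dif_pos h1
  have he2 : ∀ δ, f (dnV hA g (k.net.tl δ)) ∉ A → e' δ = (mLS L hA g).hd δ.1 :=
    fun δ h1 => dif_neg h1
  refine ⟨f', e', ⟨?_, ?_, ?_⟩, fun w h1 => by rw [hf1 w h1], fun δ h1 => by rw [he1 δ h1]⟩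
  · intro w
    by_cases h1 : f (dnV hA g w) ∈ A
    · rw [hf1 w h1]
      exact Prod.ext (h.cls (dnV hA g w)) rfl
    · rw [hf2 w h1]
      rfl
  · intro w t y
    by_cases h1 : f (dnV hA g w) ∈ A
    · by_cases h2 : w.1.1.2 = t.1.2 ∧ y.1.2 = g.g t.1.1 t.1.2
      · rw [hf1 w h1, m_M hA g (x := ⟨(f (dnV hA g w), w.1.1.2), h1⟩) h2.1 h2.2]
        show _ = L.M t.1.1 (f (dnV hA g w)) y.1.1
        rw [← h.star (dnV hA g w) t.1.1 y.1.1]
        refine Set.ncard_congr (fun δ _ => dnD hA g δ) ?_ ?_ ?_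
        · rintro δ ⟨a1, a2, a3⟩
          refine ⟨?_, ?_, ?_⟩
          · rw [dn_tl, a1]
          · show L.ty δ.1.1.1 = t.1.1
            rw [← a2]
            rfl
          · have h3 : f (dnV hA g (k.net.tl δ)) ∈ A := by
              rw [a1]
              exact h1
            rw [← a3, he1 δ h3]
        · intro δ δ' _ _ h3
          exact gku_inj hA g h3
        · rintro ⟨d, p, q⟩ ⟨a1, a2, a3⟩
          have b1 : (L.tl d, (p, q)) = (w.1.1.1, (w.1.1.2, w.2)) := a1
          have b2 : L.ty d = t.1.1 := a2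
          rw [Prod.mk.injEq, Prod.mk.injEq] at b1
          obtain ⟨b3, b4, b5⟩ := b1
          have hd : L.tl d ∈ A := by
            rw [b3]
            exact w.1.2
          have b6 : k.net.tl ((⟨(d, p), hd⟩, q) : MD L A P × k.Q) = w := by
            refine Prod.ext (Subtype.ext (Prod.ext b3 b4)) b5
          have b7 : f (dnV hA g (k.net.tl ((⟨(d, p), hd⟩, q) : MD L A P × k.Q))) ∈ A := by
            rw [b6]
            exact h1
          refine ⟨(⟨(d, p), hd⟩, q), ⟨b6, ?_, ?_⟩, rfl⟩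
          · exact Subtype.ext (Prod.ext b2 (b4.trans h2.1))
          · rw [he1 _ b7]
            refine Subtype.ext (Prod.ext a3 ?_)
            show g.g (L.ty d) p = y.1.2
            rw [b2, b4, h2.1, h2.2]
      · rw [hf1 w h1, m_M_zero hA g (by exact h2)]
        rw [Set.ncard_eq_zero (Set.toFinite _)]
        ext δ
        simp only [Set.mem_ofPred_eq, Set.mem_empty_iff_false, iff_false]
        rintro ⟨a1, a2, a3⟩
        apply h2
        have h3 : f (dnV hA g (k.net.tl δ)) ∈ A := by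
          rw [a1]
          exact h1
        rw [he1 δ h3] at a3
        constructor
        · rw [← a1, ← a2]
          rfl
        · rw [← a3, ← a2]
          rfl
    · rw [hf2 w h1]
      refine Eq.trans ?_ ((proj_el k).star w t y)
      have h2 : {δ | k.net.tl δ = w ∧ k.net.ty δ = t ∧ e' δ = y} =
          {δ | k.net.tl δ = w ∧ k.net.ty δ = t ∧ (mLS L hA g).hd δ.1 = y} := by
        ext δ
        have h3 : k.net.tl δ = w → e' δ = (mLS L hA g).hd δ.1 := by
          intro h4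
          apply he2
          rw [h4]
          exact h1
        constructor
        · rintro ⟨a1, a2, a3⟩
          exact ⟨a1, a2, (h3 a1).symm.trans a3⟩
        · rintro ⟨a1, a2, a3⟩
          exact ⟨a1, a2, (h3 a1).trans a3⟩
      rw [h2]
  · intro δ a1 a2
    have a3 : (dnKt hA g k).net.rv (dnD hA g δ) ∉ C := by
      rw [dn_rv]
      exact a2
    have a4 := h.unc (dnD hA g δ) a1 a3
    rw [dn_hd] at a4
    by_cases h1 : f (dnV hA g (k.net.tl δ)) ∈ A
    · have h2 : f (dnV hA g (k.net.hd δ)) ∈ A := by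
        rw [← a4]
        exact (key (dnD hA g δ)).1 h1
      rw [he1 δ h1, hf1 _ h2]
      exact Subtype.ext (Prod.ext a4 rfl)
    · have h2 : f (dnV hA g (k.net.hd δ)) ∉ A := by
        rw [← a4]
        exact fun h3 => h1 ((key (dnD hA g δ)).2 h3)
      rw [he2 δ h1, hf2 _ h2]
      rfl

/-- a labelling above gives a labelling below -/
theorem m_dn {k : Kt (mLS L hA g)} {f' : MV A P × k.Q → MV A P} {e' : MD L A P × k.Q → MV A P}
    (h : EL k.net ∅ f' e') : ∃ f e, EL (dnKt hA g k).net ∅ f e ∧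
      (∀ w, f (dnV hA g w) = (f' w).1.1) ∧ (∀ δ, e (dnD hA g δ) = (e' δ).1.1) ∧
      (∀ w, w.1 ∉ A → f w = w.1) ∧ ∀ δ, L.tl δ.1 ∉ A → e δ = L.hd δ.1 := by
  classical
  have hQ : Finite k.Q := k.fin
  let f : V × (P × k.Q) → V := fun w =>
    if h1 : w.1 ∈ A then (f' (⟨(w.1, w.2.1), h1⟩, w.2.2)).1.1 else w.1
  let e : D × (P × k.Q) → V := fun ε =>
    if h1 : L.tl ε.1 ∈ A then (e' (⟨(ε.1, ε.2.1), h1⟩, ε.2.2)).1.1 else L.hd ε.1
  have hf1 : ∀ w, f (dnV hA g w) = (f' w).1.1 := fun w => dif_pos w.1.2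
  have hf2 : ∀ w : V × (P × k.Q), w.1 ∉ A → f w = w.1 := fun w h1 => dif_neg h1
  have he1 : ∀ δ, e (dnD hA g δ) = (e' δ).1.1 := fun δ => dif_pos δ.1.2
  have he2 : ∀ ε : D × (P × k.Q), L.tl ε.1 ∉ A → e ε = L.hd ε.1 := fun ε h1 => dif_neg h1
  have hside : ∀ w, (f' w).1.2 = w.1.1.2 := by
    intro w
    have h1 : (L.cl (f' w).1.1, (f' w).1.2) = (L.cl w.1.1.1, w.1.1.2) := h.cls w
    rw [Prod.mk.injEq] at h1
    exact h1.2
  refine ⟨f, e, ⟨?_, ?_, ?_⟩, hf1, he1, hf2, he2⟩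
  · intro w
    by_cases h1 : w.1 ∈ A
    · have h2 := hf1 (⟨(w.1, w.2.1), h1⟩, w.2.2)
      have h3 : f w = (f' (⟨(w.1, w.2.1), h1⟩, w.2.2)).1.1 := h2
      rw [h3]
      exact congrArg Prod.fst (h.cls (⟨(w.1, w.2.1), h1⟩, w.2.2))
    · rw [hf2 w h1]
      rfl
  · intro w t y
    by_cases h1 : w.1 ∈ A
    · have h3 : f w = (f' (⟨(w.1, w.2.1), h1⟩, w.2.2)).1.1 := hf1 (⟨(w.1, w.2.1), h1⟩, w.2.2)
      have hfA : f w ∈ A := by
        rw [h3]
        exact (f' (⟨(w.1, w.2.1), h1⟩, w.2.2)).2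
      have hcl : L.cl (f w) = L.cl w.1 := by
        rw [h3]
        exact congrArg Prod.fst (h.cls (⟨(w.1, w.2.1), h1⟩, w.2.2))
      by_cases ht : L.cl w.1 = L.sc t
      · by_cases hy : y ∈ A
        · have h4 := h.star (⟨(w.1, w.2.1), h1⟩, w.2.2) ⟨(t, w.2.1), w.1, h1, ht⟩
            ⟨(y, g.g t w.2.1), hy⟩
          rw [m_M hA g (hside _) rfl] at h4
          rw [h3]
          refine Eq.trans ?_ h4
          symm
          refine Set.ncard_congr (fun δ _ => dnD hA g δ) ?_ ?_ ?_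
          · rintro δ ⟨a1, a2, a3⟩
            refine ⟨?_, ?_, ?_⟩
            · rw [dn_tl, a1]
              rfl
            · exact congrArg (fun x => x.1.1) a2
            · rw [he1, a3]
          · intro δ δ' _ _ h5
            exact gku_inj hA g h5
          · rintro ⟨d, p, q⟩ ⟨a1, a2, a3⟩
            have b1 : (L.tl d, (p, q)) = w := a1
            have b2 : L.ty d = t := a2
            have hd : L.tl d ∈ A := by
              rw [← b1] at h1
              exact h1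
            have b3 : (e' ((⟨(d, p), hd⟩, q) : MD L A P × k.Q)).1.1 = y := by
              rw [← he1]
              exact a3
            have b4 := (val_dt h ((⟨(d, p), hd⟩, q) : MD L A P × k.Q)).1
            rw [m_dt] at b4
            have b5 : (e' ((⟨(d, p), hd⟩, q) : MD L A P × k.Q)).1.2 = g.g (L.ty d) p := b4.2.2
            refine ⟨(⟨(d, p), hd⟩, q), ⟨?_, ?_, ?_⟩, rfl⟩
            · subst b1
              rfl
            · subst b1
              exact Subtype.ext (Prod.ext b2 rfl)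
            · refine Subtype.ext (Prod.ext b3 ?_)
              rw [b5, b2, ← b1]
        · have h5 : L.M t (f w) y = 0 := by
            by_contra h6
            exact hy (comp_dt hA (dt_iff.2 h6) hfA)
          rw [h5, Set.ncard_eq_zero (Set.toFinite _)]
          ext ε
          simp only [Set.mem_ofPred_eq, Set.mem_empty_iff_false, iff_false]
          rintro ⟨a1, a2, a3⟩
          obtain ⟨d, p, q⟩ := ε
          have b1 : (L.tl d, (p, q)) = w := a1
          have hd : L.tl d ∈ A := by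
            rw [← b1] at h1
            exact h1
          apply hy
          have b3 : (e' ((⟨(d, p), hd⟩, q) : MD L A P × k.Q)).1.1 = y := by
            rw [← he1]
            exact a3
          rw [← b3]
          exact (e' ((⟨(d, p), hd⟩, q) : MD L A P × k.Q)).2
      · have h5 : L.M t (f w) y = 0 := by
          by_contra h6
          apply ht
          rw [← hcl]
          exact (dt_cl (dt_iff.2 h6)).1
        rw [h5, Set.ncard_eq_zero (Set.toFinite _)]
        ext ε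
        simp only [Set.mem_ofPred_eq, Set.mem_empty_iff_false, iff_false]
        rintro ⟨a1, a2, -⟩
        apply ht
        rw [← a1, ← a2]
        exact L.cl_tl ε.1
    · rw [hf2 w h1]
      refine Eq.trans ?_ ((proj_el (dnKt hA g k)).star w t y)
      have h2 : {δ | (dnKt hA g k).net.tl δ = w ∧ (dnKt hA g k).net.ty δ = t ∧ e δ = y} =
          {δ | (dnKt hA g k).net.tl δ = w ∧ (dnKt hA g k).net.ty δ = t ∧ L.hd δ.1 = y} := by
        ext ε
        have h3 : (dnKt hA g k).net.tl ε = w → e ε = L.hd ε.1 := by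
          intro h4
          apply he2
          intro h5
          apply h1
          rw [← h4]
          exact h5
        constructor
        · rintro ⟨a1, a2, a3⟩
          exact ⟨a1, a2, (h3 a1).symm.trans a3⟩
        · rintro ⟨a1, a2, a3⟩
          exact ⟨a1, a2, (h3 a1).trans a3⟩
      rw [h2]
  · rintro ⟨d, p, q⟩ - -
    by_cases h1 : L.tl d ∈ A
    · have h2 := h.unc ((⟨(d, p), h1⟩, q) : MD L A P × k.Q) (Set.notMem_empty _)
        (Set.notMem_empty _)
      show e (dnD hA g ((⟨(d, p), h1⟩, q) : MD L A P × k.Q)) =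
        f ((dnKt hA g k).net.hd (dnD hA g ((⟨(d, p), h1⟩, q) : MD L A P × k.Q)))
      rw [dn_hd, he1, hf1, h2]
    · rw [he2 _ h1, hf2]
      · rfl
      · intro h2
        exact h1 (comp_tl hA h2)

omit [Finite P] [Finite V] in
/-- one dart leaves a set of vertices of the net of a kit -/
theorem gku_cut {V' D' T' K' : Type} [Finite D'] {M : LS V' D' T' K'} (k : Kt M) {S : Set (V' × k.Q)}
    {δ : D' × k.Q} (h1 : k.net.tl δ ∈ S) (h2 : k.net.hd δ ∉ S)
    (h3 : ∀ ε, ε ≠ δ → ε ≠ k.net.rv δ → (k.net.tl ε ∈ S ↔ k.net.hd ε ∈ S)) :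
    ¬ Cut M 2 (M.tl δ.1) {M.hd δ.1} := by
  have hQ : Finite k.Q := k.fin
  intro hb
  let n : V' → ℕ := fun x => {q : k.Q | (x, q) ∈ S}.ncard
  have hhd : ∀ (d : D') (q : k.Q), k.net.hd (d, q) = (M.hd d, k.R d q) := fun _ _ => rfl
  have htl : ∀ (d : D') (q : k.Q), k.net.tl (d, q) = (M.tl d, q) := fun _ _ => rfl
  have key1 : ∀ d, d ≠ δ.1 → d ≠ M.rv δ.1 → n (M.tl d) = n (M.hd d) := by
    intro d a1 a2
    have a3 : ∀ q, ((M.tl d, q) ∈ S ↔ (M.hd d, k.R d q) ∈ S) := by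
      intro q
      have := h3 (d, q) (fun h => a1 (congrArg Prod.fst h)) (fun h => a2 (congrArg Prod.fst h))
      rwa [hhd, htl] at this
    refine Set.ncard_congr (fun q _ => k.R d q) ?_ ?_ ?_
    · intro q hq
      exact (a3 q).1 hq
    · intro q q' _ _ h
      exact (k.R d).injective h
    · intro q hq
      refine ⟨(k.R d).symm q, ?_, (k.R d).apply_symm_apply q⟩
      show (M.tl d, (k.R d).symm q) ∈ S
      rw [a3, Equiv.apply_symm_apply]
      exact hq
  have key2 : n (M.hd δ.1) < n (M.tl δ.1) := by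
    have a1 : n (M.hd δ.1) = ({q : k.Q | (M.tl δ.1, q) ∈ S} \ {δ.2}).ncard := by
      symm
      have a3 : ∀ q, q ≠ δ.2 → ((M.tl δ.1, q) ∈ S ↔ (M.hd δ.1, k.R δ.1 q) ∈ S) := by
        intro q hq
        have := h3 (δ.1, q) (fun h => hq (congrArg Prod.snd h))
          (fun h => M.rv_ne δ.1 (congrArg Prod.fst h).symm)
        rwa [hhd, htl] at this
      refine Set.ncard_congr (fun q _ => k.R δ.1 q) ?_ ?_ ?_
      · rintro q ⟨hq, hq'⟩
        exact (a3 q hq').1 hq
      · intro q q' _ _ h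
        exact (k.R δ.1).injective h
      · intro q hq
        have hne : (k.R δ.1).symm q ≠ δ.2 := by
          intro h
          apply h2
          have h4 : k.net.hd δ = (M.hd δ.1, q) := by
            show (M.hd δ.1, k.R δ.1 δ.2) = (M.hd δ.1, q)
            rw [← h, Equiv.apply_symm_apply]
          rw [h4]
          exact hq
        refine ⟨(k.R δ.1).symm q, ⟨?_, hne⟩, (k.R δ.1).apply_symm_apply q⟩
        show (M.tl δ.1, (k.R δ.1).symm q) ∈ S
        rw [a3 _ hne, Equiv.apply_symm_apply]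
        exact hq
    rw [a1]
    refine Set.ncard_sdiff_singleton_lt_of_mem ?_ (Set.toFinite _)
    exact h1
  have h6 := hb {x | n (M.tl δ.1) ≤ n x} (le_refl (n (M.tl δ.1))) (by
    rintro y hy hy'
    have hy1 : y = M.hd δ.1 := hy
    have hy2 : n (M.tl δ.1) ≤ n y := hy'
    rw [hy1] at hy2
    omega)
  have h7 : bd M {x | n (M.tl δ.1) ≤ n x} ⊆ {δ.1} := by
    rintro d ⟨b1, b2⟩
    have b1' : n (M.tl δ.1) ≤ n (M.tl d) := b1
    have b2' : n (M.hd d) < n (M.tl δ.1) := not_le.1 b2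
    by_contra hne
    have hne' : d ≠ δ.1 := hne
    by_cases b3 : d = M.rv δ.1
    · have b4 : n (M.tl d) = n (M.hd δ.1) := by
        rw [b3]
        rfl
      omega
    · have b4 := key1 d hne' b3
      omega
  have h8 := Set.ncard_le_ncard h7 (Set.toFinite _)
  rw [Set.ncard_singleton] at h8
  omega

omit [Finite V] in
/-- the darts which are not cut do not leave `A` -/
theorem gku_stay {k : Kt (mLS L hA g)} {δ : MD L A P × k.Q}
    {f : V × (P × k.Q) → V} {e : D × (P × k.Q) → V}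
    (h : EL (dnKt hA g k).net {dnD hA g δ} f e) {ε : MD L A P × k.Q} (h1 : ε ≠ δ)
    (h2 : ε ≠ k.net.rv δ) :
    f (dnV hA g (k.net.tl ε)) ∈ A ↔ f (dnV hA g (k.net.hd ε)) ∈ A := by
  have h3 := h.unc (dnD hA g ε) (fun h4 => h1 (gku_inj hA g h4)) (by
    rw [dn_rv]
    intro h4
    apply h2
    have h5 := gku_inj hA g (show dnD hA g (k.net.rv ε) = dnD hA g δ from h4)
    rw [← h5, k.net.rv_rv])
  rw [dn_hd] at h3
  rw [← h3, ← dn_tl]
  exact gku_iff hA g h _

/-- both ends of a cut dart are in `A` -/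
theorem dn_land {k : Kt (mLS L hA g)} {δ : MD L A P × k.Q}
    (hb : Cut (mLS L hA g) 2 ((mLS L hA g).tl δ.1) {(mLS L hA g).hd δ.1})
    {f : V × (P × k.Q) → V} {e : D × (P × k.Q) → V}
    (h : EL (dnKt hA g k).net {dnD hA g δ} f e) :
    f (dnV hA g (k.net.tl δ)) ∈ A ↔ f (dnV hA g (k.net.hd δ)) ∈ A := by
  let S : Set (MV A P × k.Q) := {w | f (dnV hA g w) ∈ A}
  show k.net.tl δ ∈ S ↔ k.net.hd δ ∈ S
  have hstay : ∀ ε, ε ≠ δ → ε ≠ k.net.rv δ → (k.net.tl ε ∈ S ↔ k.net.hd ε ∈ S) :=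
    fun ε a1 a2 => gku_stay hA g h a1 a2
  by_cases h1 : k.net.tl δ ∈ S
  · by_cases h2 : k.net.hd δ ∈ S
    · exact iff_of_true h1 h2
    · exact (gku_cut k h1 h2 hstay hb).elim
  · by_cases h2 : k.net.hd δ ∈ S
    · exfalso
      have h3 : k.net.hd (k.net.rv δ) ∉ S := by
        show k.net.tl (k.net.rv (k.net.rv δ)) ∉ S
        rw [k.net.rv_rv]
        exact h1
      refine gku_cut k (δ := k.net.rv δ) h2 h3 ?_ ?_
      · intro ε a1 a2
        rw [k.net.rv_rv] at a2
        exact hstay ε a2 a1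
      · have h4 := cut_symm hb
        have h5 : (mLS L hA g).hd ((mLS L hA g).rv δ.1) = (mLS L hA g).tl δ.1 := hd_rv _ _
        show Cut (mLS L hA g) 2 ((mLS L hA g).hd δ.1) {(mLS L hA g).hd ((mLS L hA g).rv δ.1)}
        rw [h5]
        exact h4
    · exact iff_of_false h1 h2

/-- both ends of a cut dart are in `A` if one label is -/
theorem dn_con {k : Kt (mLS L hA g)} {δ : MD L A P × k.Q}
    (hb : Cut (mLS L hA g) 2 ((mLS L hA g).tl δ.1) {(mLS L hA g).hd δ.1}) {w₀ : MV A P × k.Q}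
    (hp : Relation.ReflTransGen (fun a b => ∃ ε, k.net.tl ε = a ∧ k.net.hd ε = b) w₀ (k.net.tl δ))
    {f : V × (P × k.Q) → V} {e : D × (P × k.Q) → V}
    (h : EL (dnKt hA g k).net {dnD hA g δ} f e) (hw : f (dnV hA g w₀) ∈ A) :
    f (dnV hA g (k.net.tl δ)) ∈ A ∧ f (dnV hA g (k.net.hd δ)) ∈ A := by
  have hl := dn_land hA g hb h
  by_cases h1 : f (dnV hA g (k.net.tl δ)) ∈ A
  · exact ⟨h1, hl.1 h1⟩
  · exfalso
    have h2 : f (dnV hA g (k.net.hd δ)) ∉ A := fun h3 => h1 (hl.2 h3)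
    apply h1
    generalize k.net.tl δ = w at hp
    have key : ∀ w, Relation.ReflTransGen
        (fun a b => ∃ ε, k.net.tl ε = a ∧ k.net.hd ε = b) w₀ w → f (dnV hA g w) ∈ A := by
      intro w hw'
      induction hw' with
      | refl => exact hw
      | tail _ h3 ih =>
        obtain ⟨ε, h4, h5⟩ := h3
        rw [← h5]
        rw [← h4] at ih
        by_cases h6 : ε = δ
        · rw [h6] at ih
          exact (h1 ih).elim
        · by_cases h7 : ε = k.net.rv δ
          · rw [h7] at ih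
            exact (h2 ih).elim
          · exact (gku_stay hA g h h6 h7).1 ih
    exact key _ hp

omit [Finite P] [Finite V] [Finite D] in
theorem m_path (hc : LConn (mLS L hA g)) (k : Kt (mLS L hA g)) (w : MV A P × k.Q) (x : MV A P) :
    ∃ q, Relation.ReflTransGen (fun a b => ∃ ε, k.net.tl ε = a ∧ k.net.hd ε = b) (x, q) w := by
  have h1 := hc x w.1
  induction h1 using Relation.ReflTransGen.head_induction_on with
  | refl => exact ⟨w.2, Relation.ReflTransGen.refl⟩
  | head h2 _ ih =>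
    obtain ⟨q, hq⟩ := ih
    obtain ⟨d, h3, h4⟩ := h2
    refine ⟨(k.R d).symm q, Relation.ReflTransGen.head ⟨(d, (k.R d).symm q), ?_, ?_⟩ hq⟩
    · show ((mLS L hA g).tl d, (k.R d).symm q) = _
      rw [h3]
    · show ((mLS L hA g).hd d, k.R d ((k.R d).symm q)) = _
      rw [h4, Equiv.apply_symm_apply]

/-- the star of a vertex of `A` -/
theorem dn_ustar {k : Kt (mLS L hA g)} {x : MV A P} {κ : k.Q} (h : UStar k x κ) {x' : V}
    (hx' : x' ∈ A) (hc : L.cl x' = L.cl x.1.1) {y : D → V}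
    (hy : ∀ t z, {d | L.tl d = x.1.1 ∧ L.ty d = t ∧ y d = z}.ncard = L.M t x' z) :
    ∃ f e, EL (dnKt hA g k).net ∅ f e ∧ f (dnV hA g (x, κ)) = x' ∧
      ∀ d, L.tl d = x.1.1 → e (d, (x.1.2, κ)) = y d := by
  classical
  have hyA : ∀ d, L.tl d = x.1.1 → y d ∈ A := by
    intro d hd
    have h1 : L.M (L.ty d) x' (y d) ≠ 0 := by
      rw [← hy (L.ty d) (y d)]
      intro h2
      rw [Set.ncard_eq_zero (Set.toFinite _)] at h2
      have h3 : d ∈ {d' | L.tl d' = x.1.1 ∧ L.ty d' = L.ty d ∧ y d' = y d} := ⟨hd, rfl, rfl⟩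
      rw [h2] at h3
      exact h3
    exact comp_dt hA (dt_iff.2 h1) hx'
  let Y : MD L A P → MV A P := fun d =>
    if h1 : y d.1.1 ∈ A then ⟨(y d.1.1, g.g (L.ty d.1.1) d.1.2), h1⟩ else x
  have hY : ∀ d, ∀ h1 : y d.1.1 ∈ A, Y d = ⟨(y d.1.1, g.g (L.ty d.1.1) d.1.2), h1⟩ :=
    fun d h1 => dif_pos h1
  obtain ⟨f', e', hE, hf', he'⟩ := h ⟨(x', x.1.2), hx'⟩ Y (Prod.ext hc rfl) (by
    intro t z
    by_cases h2 : x.1.2 = t.1.2 ∧ z.1.2 = g.g t.1.1 t.1.2
    · rw [m_M hA g (x := ⟨(x', x.1.2), hx'⟩) h2.1 h2.2]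
      show _ = L.M t.1.1 x' z.1.1
      rw [← hy]
      refine Set.ncard_congr (fun d _ => d.1.1) ?_ ?_ ?_
      · rintro d ⟨a1, a2, a3⟩
        have b1 : L.tl d.1.1 = x.1.1 := by
          rw [← a1]
          rfl
        refine ⟨b1, ?_, ?_⟩
        · rw [← a2]
          rfl
        · rw [← a3, hY d (hyA _ b1)]
      · rintro ⟨⟨d, p⟩, hd⟩ ⟨⟨d', p'⟩, hd'⟩ ⟨a1, -⟩ ⟨b1, -⟩ (h3 : d = d')
        have h4 : p = x.1.2 := congrArg (fun x => x.1.2) a1
        have h5 : p' = x.1.2 := congrArg (fun x => x.1.2) b1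
        have h6 : p = p' := h4.trans h5.symm
        subst h3 h6
        rfl
      · rintro d ⟨a1, a2, a3⟩
        have hd : L.tl d ∈ A := by
          rw [a1]
          exact x.2
        refine ⟨⟨(d, x.1.2), hd⟩, ⟨?_, ?_, ?_⟩, rfl⟩
        · exact Subtype.ext (Prod.ext a1 rfl)
        · exact Subtype.ext (Prod.ext a2 h2.1)
        · rw [hY ⟨(d, x.1.2), hd⟩ (hyA _ a1)]
          refine Subtype.ext (Prod.ext a3 ?_)
          show g.g (L.ty d) x.1.2 = z.1.2
          rw [a2, h2.1, h2.2]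
    · rw [m_M_zero hA g (by exact h2), Set.ncard_eq_zero (Set.toFinite _)]
      ext d
      simp only [Set.mem_ofPred_eq, Set.mem_empty_iff_false, iff_false]
      rintro ⟨a1, a2, a3⟩
      apply h2
      have b1 : L.tl d.1.1 = x.1.1 := by
        rw [← a1]
        rfl
      rw [hY d (hyA _ b1)] at a3
      constructor
      · rw [← a1, ← a2]
        rfl
      · rw [← a3, ← a2]
        rfl)
  obtain ⟨f, e, hE', hf, he, -, -⟩ := m_dn hA g hE
  refine ⟨f, e, hE', ?_, ?_⟩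
  · rw [hf, hf']
  · intro d hd
    have hdA : L.tl d ∈ A := by
      rw [hd]
      exact x.2
    have h1 := he (⟨(d, x.1.2), hdA⟩, κ)
    have h2 := he' ⟨(d, x.1.2), hdA⟩ (Subtype.ext (Prod.ext hd rfl))
    rw [h2, hY ⟨(d, x.1.2), hdA⟩ (hyA _ hd)] at h1
    exact h1

theorem aut_up {g₀ : V → V} (ha : Aut L g₀) (hg : ∀ x ∈ A, g₀ x ∈ A) :
    Aut (mLS L hA g) (fun x => ⟨(g₀ x.1.1, x.1.2), hg _ x.2⟩) := by
  have hinj : Function.Injective (fun x : MV A P => (⟨(g₀ x.1.1, x.1.2), hg _ x.2⟩ : MV A P)) := by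
    rintro ⟨⟨x, p⟩, hx⟩ ⟨⟨y, q⟩, hy⟩ h1
    have h2 : (g₀ x, p) = (g₀ y, q) := congrArg Subtype.val h1
    rw [Prod.mk.injEq] at h2
    have h3 := ha.bij.1 h2.1
    have h4 := h2.2
    subst h3 h4
    rfl
  refine ⟨⟨hinj, Finite.injective_iff_surjective.1 hinj⟩, ?_, ?_⟩
  · intro x
    exact Prod.ext (ha.cl _) rfl
  · intro t x y
    by_cases h1 : x.1.2 = t.1.2 ∧ y.1.2 = g.g t.1.1 t.1.2
    · rw [m_M hA g h1.1 h1.2, m_M hA g (by exact h1.1) (by exact h1.2)]
      exact ha.M _ _ _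
    · rw [m_M_zero hA g h1, m_M_zero hA g (by exact h1)]

end Pool.Agent.H24.GK
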